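import Mathlib

/-!
# Definitions for MP_7295f2_lc: set mappings, free sets, Jensen's square principle
-/

open Cardinal Ordinal

namespace Pool.Agent.Lib.MP_7295f2_lc

/-- `X` is free for the set mapping `f` of type `r`. -/
def IsFree {K : Type} {r : ℕ} (f : {s : Finset K // s.card = r} → Set K) (X : Set K) : Prop :=
  ∀ Y : {s : Finset K // s.card = r}, (Y.1 : Set K) ⊆ X → ∀ x ∈ X, x ∉ Y.1 → x ∉ f Y

/-- The relation `(κ, r, lam) → μ`: every set mapping `f : [κ]^r → [κ]^{<lam}` has a free set of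
cardinality `μ`. -/
def SetMappingArrow (κ : Cardinal.{0}) (r : ℕ) (lam μ : Cardinal.{0}) : Prop :=
  ∀ f : {s : Finset κ.ord.ToType // s.card = r} → Set κ.ord.ToType,
    (∀ Y, #(f Y) < lam) → ∃ X : Set κ.ord.ToType, #X = μ ∧ IsFree f X

/-- `β` is a limit (accumulation) point of `C`. -/
def IsAcc (C : Set Ordinal.{0}) (β : Ordinal.{0}) : Prop :=
  β ≠ 0 ∧ ∀ x < β, ∃ y ∈ C, x < y ∧ y < β

/-- `C` is a closed unbounded subset of the limit ordinal `α`. -/
structure IsClub (C : Set Ordinal.{0}) (α : Ordinal.{0}) : Prop where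
  sub : ∀ x ∈ C, x < α
  unbdd : ∀ x < α, ∃ y ∈ C, x < y
  closed : ∀ β < α, IsAcc C β → β ∈ C

/-- Jensen's square principle `□_κ`: there is a sequence `⟨C_α : α < κ⁺ limit⟩` such that `C_α` is a
closed unbounded subset of `α` of order type at most `κ`, and `C_β = C_α ∩ β` whenever `β` is a
limit point of `C_α`. -/
def Square (κ : Cardinal.{0}) : Prop :=
  ∃ C : Ordinal.{0} → Set Ordinal.{0}, ∀ α < (Order.succ κ).ord, Order.IsSuccLimit α →
    IsClub (C α) α ∧
    Ordinal.type (fun x y : C α => x < y) ≤ Ordinal.lift.{1} κ.ord ∧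
    ∀ β < α, IsAcc (C α) β → C β = C α ∩ Set.Iio β

end Pool.Agent.Lib.MP_7295f2_lc
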