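import Pool.Agent.Lib.MP_7295f2_lc.Pre

section

/-!
# Countable hulls
-/

open Cardinal Ordinal

namespace Pool.Agent.Lib.MP_7295f2_lc

/-- The closure of `S` under countably many ternary functions. -/
inductive Hull (f : ℕ → Ordinal.{0} → Ordinal.{0} → Ordinal.{0} → Ordinal.{0})
    (S : Set Ordinal.{0}) : Ordinal.{0} → Prop
  | base {x} : x ∈ S → Hull f S x
  | step {x y z} (n : ℕ) : Hull f S x → Hull f S y → Hull f S z → Hull f S (f n x y z)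

theorem Hull.mono_of {f : ℕ → Ordinal.{0} → Ordinal.{0} → Ordinal.{0} → Ordinal.{0}}
    {S T : Set Ordinal.{0}} (h : ∀ x ∈ S, Hull f T x) {x : Ordinal.{0}} (hx : Hull f S x) :
    Hull f T x := by
  induction hx with
  | base hx => exact h _ hx
  | step n _ _ _ h1 h2 h3 => exact Hull.step n h1 h2 h3

theorem Hull.countable (f : ℕ → Ordinal.{0} → Ordinal.{0} → Ordinal.{0} → Ordinal.{0})
    {S : Set Ordinal.{0}} (hS : S.Countable) : {x | Hull f S x}.Countable := by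
  let T : ℕ → Set Ordinal.{0} := fun n => Nat.rec (motive := fun _ => Set Ordinal.{0}) S
    (fun _ T => T ∪ ⋃ k : ℕ, (fun p : Ordinal.{0} × Ordinal.{0} × Ordinal.{0} =>
      f k p.1 p.2.1 p.2.2) '' (T ×ˢ T ×ˢ T)) n
  have hT0 : T 0 = S := rfl
  have hTs : ∀ n, T (n + 1) = T n ∪ ⋃ k : ℕ, (fun p : Ordinal.{0} × Ordinal.{0} × Ordinal.{0} =>
      f k p.1 p.2.1 p.2.2) '' (T n ×ˢ T n ×ˢ T n) := fun n => rfl
  have hTc : ∀ n, (T n).Countable := by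
    intro n
    induction n with
    | zero => exact hS
    | succ n ih =>
      rw [hTs]
      exact ih.union (Set.countable_iUnion fun k => ((ih.prod (ih.prod ih)).image _))
  have hTm : Monotone T := monotone_nat_of_le_succ fun n => by
    rw [hTs]
    exact Set.subset_union_left
  refine (Set.countable_iUnion hTc).mono ?_
  intro x hx
  induction hx with
  | base hx => exact Set.mem_iUnion.mpr ⟨0, hx⟩
  | step n _ _ _ h1 h2 h3 =>
    obtain ⟨i, hi⟩ := Set.mem_iUnion.mp h1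
    obtain ⟨j, hj⟩ := Set.mem_iUnion.mp h2
    obtain ⟨k, hk⟩ := Set.mem_iUnion.mp h3
    refine Set.mem_iUnion.mpr ⟨max i (max j k) + 1, ?_⟩
    rw [hTs]
    refine Or.inr (Set.mem_iUnion.mpr ⟨n, ⟨(_, _, _), ⟨?_, ?_, ?_⟩, rfl⟩⟩)
    · exact hTm (le_max_left _ _) hi
    · exact hTm ((le_max_left _ _).trans (le_max_right _ _)) hj
    · exact hTm ((le_max_right _ _).trans (le_max_right _ _)) hk

/-- Enumerations used in the construction. -/
structure Enum (ρ₂ : Ordinal.{0} → Ordinal.{0} → Ordinal.{0}) (Ω₃ Ω₂ Ω₁ : Ordinal.{0}) where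
  g : Ordinal.{0} → Ordinal.{0} → Ordinal.{0} → Ordinal.{0}
  idx : Ordinal.{0} → Ordinal.{0} → Ordinal.{0} → Ordinal.{0}
  idx_lt : ∀ γ < Ω₂, ∀ d < Ω₃, ∀ b ∈ PP ρ₂ γ d, idx γ d b < Ω₁
  g_idx : ∀ γ < Ω₂, ∀ d < Ω₃, ∀ b ∈ PP ρ₂ γ d, g γ d (idx γ d b) = b
  en : ℕ → Ordinal.{0} → Ordinal.{0}
  en_surj : ∀ i < Ω₁, ∀ j < i, ∃ k, en k i = j
  sq : Ordinal.{0} → ℕ → Ordinal.{0}
  sq_surj : ∀ s : ℕ → Ordinal.{0}, (∀ n, s n < Ω₁) → ∃ i < Ω₁, sq i = s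

theorem exists_enum (hCH : (𝔠 : Cardinal.{0}) = ℵ₁)
    {ρ₂ : Ordinal.{0} → Ordinal.{0} → Ordinal.{0}} {Ω₃ : Ordinal.{0}}
    (h2 : IsRho2 ρ₂ Ω₃ (Order.succ ℵ₁)) :
    Nonempty (Enum ρ₂ Ω₃ (Order.succ (ℵ₁ : Cardinal.{0})).ord (ℵ₁ : Cardinal.{0}).ord) := by
  classical
  set Ω₁ := (ℵ₁ : Cardinal.{0}).ord with hΩ₁
  have hcardΩ₁ : #(Set.Iio Ω₁) = Cardinal.lift.{1} (ℵ₁ : Cardinal.{0}) := by
    rw [Cardinal.mk_Iio_ordinal, hΩ₁, Cardinal.card_ord]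
  -- indexings
  have hidx : ∀ γ d, ∃ e : Ordinal.{0} → Ordinal.{0}, γ < (Order.succ (ℵ₁ : Cardinal.{0})).ord →
      d < Ω₃ → Set.InjOn e (PP ρ₂ γ d) ∧ ∀ b ∈ PP ρ₂ γ d, e b < Ω₁ := by
    intro γ d
    by_cases h : γ < (Order.succ (ℵ₁ : Cardinal.{0})).ord ∧ d < Ω₃
    · have h3 : #(PP ρ₂ γ d) ≤ #(Set.Iio Ω₁) := by
        have h4 : SmallSet (Order.succ ℵ₁) (PP ρ₂ γ d) := h2.small d h.2 γ h.1
        unfold SmallSet at h4
        rw [Cardinal.lift_succ, Order.lt_succ_iff] at h4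
        rwa [hcardΩ₁]
      obtain ⟨e⟩ := Cardinal.le_def _ _ |>.mp h3
      refine ⟨fun b => if hb : b ∈ PP ρ₂ γ d then (e ⟨b, hb⟩).1 else 0, fun _ _ => ⟨?_, ?_⟩⟩
      · intro b hb c hc hbc
        simp only [dif_pos hb, dif_pos hc] at hbc
        have := e.injective (Subtype.ext hbc)
        exact congrArg Subtype.val this
      · intro b hb
        simp only [dif_pos hb]
        exact (e ⟨b, hb⟩).2
    · exact ⟨id, fun h1 h2 => absurd ⟨h1, h2⟩ h⟩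
  choose idx hidx using hidx
  have hen : ∀ i, ∃ e : ℕ → Ordinal.{0}, i < Ω₁ → ∀ j < i, ∃ k, e k = j := by
    intro i
    by_cases hi : i < Ω₁
    · have hc : (Set.Iio i).Countable := smallSet_aleph_one_iff.mp (smallSet_Iio hi)
      rcases (Set.Iio i).eq_empty_or_nonempty with h0 | hne
      · refine ⟨fun _ => 0, fun _ j hj => ?_⟩
        have : j ∈ Set.Iio i := hj
        rw [h0] at this
        exact absurd this (Set.notMem_empty j)
      · obtain ⟨e, he⟩ := hc.exists_eq_range hne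
        refine ⟨e, fun _ j hj => ?_⟩
        have : j ∈ Set.range e := he ▸ hj
        exact this
    · exact ⟨fun _ => 0, fun h => absurd h hi⟩
  choose en hen using hen
  have hsq : ∃ sq : Ordinal.{0} → ℕ → Ordinal.{0}, ∀ s : ℕ → Ordinal.{0}, (∀ n, s n < Ω₁) →
      ∃ i < Ω₁, sq i = s := by
    have h3 : #(ℕ → Set.Iio Ω₁) = #(Set.Iio Ω₁) := by
      rw [Cardinal.mk_arrow, Cardinal.mk_nat, hcardΩ₁, ← hCH, Cardinal.lift_continuum,
        Cardinal.lift_continuum, Cardinal.lift_aleph0, Cardinal.continuum_power_aleph0]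
    obtain ⟨e⟩ := Cardinal.eq.mp h3
    refine ⟨fun i n => if hi : i < Ω₁ then (e.symm ⟨i, hi⟩ n).1 else 0, fun s hs => ?_⟩
    refine ⟨(e fun n => ⟨s n, hs n⟩).1, (e fun n => ⟨s n, hs n⟩).2, ?_⟩
    funext n
    have : (e fun n => ⟨s n, hs n⟩).1 < Ω₁ := (e fun n => ⟨s n, hs n⟩).2
    simp only [dif_pos this]
    have h4 : (⟨(e fun n => ⟨s n, hs n⟩).1, this⟩ : Set.Iio Ω₁) = e fun n => ⟨s n, hs n⟩ :=
      Subtype.ext rfl
    rw [h4, Equiv.symm_apply_apply]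
  obtain ⟨sq, hsq⟩ := hsq
  exact ⟨{
    g := fun γ d => Function.invFunOn (idx γ d) (PP ρ₂ γ d)
    idx := idx
    idx_lt := fun γ hγ d hd => (hidx γ d hγ hd).2
    g_idx := fun γ hγ d hd b hb => (hidx γ d hγ hd).1.leftInvOn_invFunOn hb
    en := fun k i => en i k
    en_surj := hen
    sq := sq
    sq_surj := hsq }⟩

end Pool.Agent.Lib.MP_7295f2_lc

end

section

/-!
# Every uncountable set catches one of its infinite subsets in the hull of three of its points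
-/

open Cardinal Ordinal

namespace Pool.Agent.Lib.MP_7295f2_lc

section

variable {ρ₁ ρ₂ : Ordinal.{0} → Ordinal.{0} → Ordinal.{0}} {Ω₃ Ω₂ Ω₁ : Ordinal.{0}}

/-- The functions under which hulls are closed. -/
noncomputable def fam (ρ₁ ρ₂ : Ordinal.{0} → Ordinal.{0} → Ordinal.{0})
    (E : Enum ρ₂ Ω₃ Ω₂ Ω₁) :
    ℕ → Ordinal.{0} → Ordinal.{0} → Ordinal.{0} → Ordinal.{0}
  | 0 => fun x y _ => ρ₂ x y
  | 1 => fun x y _ => ρ₁ x y
  | 2 => fun x y z => E.g x y z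
  | 3 => fun x y z => E.idx x y z
  | 4 => fun x y _ => tt ρ₂ x y
  | (k + 5) => fun x _ _ => E.en k x

/-- The hull of `S`. -/
def HS (ρ₁ : Ordinal.{0} → Ordinal.{0} → Ordinal.{0}) (E : Enum ρ₂ Ω₃ Ω₂ Ω₁)
    (S : Set Ordinal.{0}) : Set Ordinal.{0} := {x | Hull (fam ρ₁ ρ₂ E) S x}

/-- The countable sets coded in `M`. -/
def AA (E : Enum ρ₂ Ω₃ Ω₂ Ω₁) (M : Set Ordinal.{0}) : Set (Set Ordinal.{0}) :=
  {A | ∃ γ ∈ M, ∃ d ∈ M, ∃ i ∈ M, A = Set.range fun n => E.g γ d (E.sq i n)}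

variable {E : Enum ρ₂ Ω₃ Ω₂ Ω₁}

theorem HS.base {S : Set Ordinal.{0}} {x : Ordinal.{0}} (hx : x ∈ S) : x ∈ HS ρ₁ E S := Hull.base hx

theorem HS.r2 {S : Set Ordinal.{0}} {x y : Ordinal.{0}} (hx : x ∈ HS ρ₁ E S) (hy : y ∈ HS ρ₁ E S) :
    ρ₂ x y ∈ HS ρ₁ E S := Hull.step (f := fam ρ₁ ρ₂ E) 0 hx hy hx

theorem HS.r1 {S : Set Ordinal.{0}} {x y : Ordinal.{0}} (hx : x ∈ HS ρ₁ E S) (hy : y ∈ HS ρ₁ E S) :
    ρ₁ x y ∈ HS ρ₁ E S := Hull.step (f := fam ρ₁ ρ₂ E) 1 hx hy hx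

theorem HS.g {S : Set Ordinal.{0}} {x y z : Ordinal.{0}} (hx : x ∈ HS ρ₁ E S)
    (hy : y ∈ HS ρ₁ E S) (hz : z ∈ HS ρ₁ E S) : E.g x y z ∈ HS ρ₁ E S :=
  Hull.step (f := fam ρ₁ ρ₂ E) 2 hx hy hz

theorem HS.idx {S : Set Ordinal.{0}} {x y z : Ordinal.{0}} (hx : x ∈ HS ρ₁ E S)
    (hy : y ∈ HS ρ₁ E S) (hz : z ∈ HS ρ₁ E S) : E.idx x y z ∈ HS ρ₁ E S :=
  Hull.step (f := fam ρ₁ ρ₂ E) 3 hx hy hz

theorem HS.tt {S : Set Ordinal.{0}} {x y : Ordinal.{0}} (hx : x ∈ HS ρ₁ E S)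
    (hy : y ∈ HS ρ₁ E S) : tt ρ₂ x y ∈ HS ρ₁ E S :=
  Hull.step (f := fam ρ₁ ρ₂ E) 4 hx hy hx

theorem HS.en {S : Set Ordinal.{0}} {x : Ordinal.{0}} (k : ℕ) (hx : x ∈ HS ρ₁ E S) :
    E.en k x ∈ HS ρ₁ E S :=
  Hull.step (f := fam ρ₁ ρ₂ E) (k + 5) hx hx hx

theorem HS.down {S : Set Ordinal.{0}} {i j : Ordinal.{0}} (hi : i ∈ HS ρ₁ E S) (hiΩ : i < Ω₁)
    (hj : j < i) : j ∈ HS ρ₁ E S := by
  obtain ⟨k, rfl⟩ := E.en_surj i hiΩ j hj
  exact HS.en k hi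

theorem HS.mono {S T : Set Ordinal.{0}} (h : ∀ x ∈ S, x ∈ HS ρ₁ E T) : HS ρ₁ E S ⊆ HS ρ₁ E T :=
  fun _ hx => Hull.mono_of h hx

theorem AA.mono {M N : Set Ordinal.{0}} (h : M ⊆ N) : AA E M ⊆ AA E N := by
  rintro A ⟨γ, hγ, d, hd, i, hi, rfl⟩
  exact ⟨γ, h hγ, d, h hd, i, h hi, rfl⟩

theorem HS.countable {S : Set Ordinal.{0}} (hS : S.Countable) : (HS ρ₁ E S).Countable :=
  Hull.countable _ hS

theorem AA.countable {M : Set Ordinal.{0}} (hM : M.Countable) : (AA E M).Countable := by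
  refine ((hM.prod (hM.prod hM)).image fun p : Ordinal.{0} × Ordinal.{0} × Ordinal.{0} =>
    Set.range fun n => E.g p.1 p.2.1 (E.sq p.2.2 n)).mono ?_
  rintro A ⟨γ, hγ, d, hd, i, hi, rfl⟩
  exact ⟨(γ, d, i), ⟨hγ, hd, hi⟩, rfl⟩

theorem capture {γ d : Ordinal.{0}} (hγ : γ < Ω₂) (hd : d < Ω₃) {A : Set Ordinal.{0}}
    (hA : A.Countable) (hne : A.Nonempty) (hAP : A ⊆ PP ρ₂ γ d) :
    ∃ i < Ω₁, A = Set.range fun n => E.g γ d (E.sq i n) := by
  obtain ⟨a, rfl⟩ := hA.exists_eq_range hne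
  obtain ⟨i, hi, hsq⟩ := E.sq_surj (fun n => E.idx γ d (a n))
    (fun n => E.idx_lt γ hγ d hd _ (hAP ⟨n, rfl⟩))
  refine ⟨i, hi, ?_⟩
  congr 1
  funext n
  rw [hsq]
  exact (E.g_idx γ hγ d hd _ (hAP ⟨n, rfl⟩)).symm

end

/-- The ordinal `ω₁`. -/
noncomputable abbrev W1 : Ordinal.{0} := (ℵ₁ : Cardinal.{0}).ord

/-- The ordinal `ω₂`. -/
noncomputable abbrev W2 : Ordinal.{0} := (Order.succ (ℵ₁ : Cardinal.{0})).ord

/-- The ordinal `ω₃`. -/
noncomputable abbrev W3 : Ordinal.{0} := (Order.succ (Order.succ (ℵ₁ : Cardinal.{0}))).ord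

theorem main_claim {ρ₁ ρ₂ : Ordinal.{0} → Ordinal.{0} → Ordinal.{0}}
    (h1 : IsRho1 ρ₁ W2 W1)
    (h2 : IsRho2 ρ₂ W3 (Order.succ ℵ₁))
    (E : Enum ρ₂ W3
      W2 W1)
    {X : Set Ordinal.{0}} (hX : LW X)
    (hXΩ : ∀ x ∈ X, x < W3) :
    ∃ b ∈ X, ∃ c ∈ X, ∃ d ∈ X, b < c ∧ c < d ∧
      ∃ A ∈ AA E (HS ρ₁ E {b, c, d}), A ⊆ X ∩ Set.Iio b ∧ A.Infinite := by
  classical
  have hκ : (Order.succ (ℵ₁ : Cardinal.{0})).IsRegular :=
    Cardinal.isRegular_succ Cardinal.aleph0_lt_aleph_one.le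
  by_contra hfail
  -- start
  obtain ⟨b₀, hb₀, c₀, hc₀, hbc₀, hAinf⟩ := start_pair h2 hX hXΩ
  set A : Set Ordinal.{0} := {a | a ∈ X ∧ a < b₀ ∧ ρ₂ a b₀ ≤ ρ₂ b₀ c₀} with hA
  have hAX : A ⊆ X := fun a ha => ha.1
  have hAb : ∀ a ∈ A, a < b₀ := fun a ha => ha.2.1
  have hAc : A.Countable := by
    refine (hX.init b₀ hb₀).mono ?_
    intro a ha
    exact ⟨ha.1, ha.2.1⟩
  have hγ₀ : ρ₂ b₀ c₀ < W2 := h2.lt c₀ (hXΩ c₀ hc₀) b₀ hbc₀.le
  obtain ⟨i₀, hi₀, hAi₀⟩ := capture (E := E) hγ₀ (hXΩ b₀ hb₀) hAc hAinf.nonempty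
    (fun a ha => ⟨ha.2.1, ha.2.2⟩)
  set ξ := Order.succ i₀ with hξdef
  have hξ : ξ < W1 :=
    (Cardinal.isSuccLimit_ord Cardinal.isRegular_aleph_one.aleph0_le).succ_lt hi₀
  set Sees : Set Ordinal.{0} → Prop := fun p => A ∈ AA E (HS ρ₁ E (p ∪ Set.Iio ξ)) with hSees
  have hsees₀ : Sees {b₀, c₀} := by
    have e1 : b₀ ∈ HS ρ₁ E ({b₀, c₀} ∪ Set.Iio ξ) := HS.base (by simp)
    have e2 : c₀ ∈ HS ρ₁ E ({b₀, c₀} ∪ Set.Iio ξ) := HS.base (by simp)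
    exact ⟨_, HS.r2 e1 e2, _, e1, i₀, HS.base (Or.inr (Order.lt_succ i₀)), hAi₀⟩
  -- the basic fact
  have F : ∀ b ∈ X, ∀ c ∈ X, ∀ d ∈ X, b < c → c < d → b₀ ≤ b → ∀ p ⊆ ({b, c, d} : Set Ordinal.{0}),
      Sees p → (∀ i ∈ HS ρ₁ E {b, c, d}, i < W1 → i < ξ) ∧
        (ρ₂ b c ≤ ρ₂ c d → Sees {c, d}) ∧ (ρ₂ c d < ρ₂ b c → Sees {b, d}) := by
    intro b hb c hc d hd hbc hcd hb₀b p hp hsee
    have hnot : A ∉ AA E (HS ρ₁ E {b, c, d}) := by
      intro h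
      exact hfail ⟨b, hb, c, hc, d, hd, hbc, hcd, A, h,
        fun a ha => ⟨hAX ha, (hAb a ha).trans_le hb₀b⟩, hAinf⟩
    have hi : ∀ i ∈ HS ρ₁ E {b, c, d}, i < W1 → i < ξ := by
      intro i hi hiΩ
      by_contra hcon
      push Not at hcon
      apply hnot
      refine AA.mono (HS.mono ?_) hsee
      rintro x (hx | hx)
      · exact HS.base (hp hx)
      · exact HS.down hi hiΩ (lt_of_lt_of_le (Set.mem_Iio.mp hx) hcon)
    have hcΩ := hXΩ c hc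
    have hdΩ := hXΩ d hd
    have eb : b ∈ HS ρ₁ E {b, c, d} := HS.base (by simp)
    have ec : c ∈ HS ρ₁ E {b, c, d} := HS.base (by simp)
    have ed : d ∈ HS ρ₁ E {b, c, d} := HS.base (by simp)
    refine ⟨hi, fun hgood => ?_, fun hbad => ?_⟩
    · have hγ : ρ₂ c d < W2 := h2.lt d hdΩ c hcd.le
      have hmem : b ∈ PP ρ₂ (ρ₂ c d) c := ⟨hbc, hgood⟩
      have hidx : E.idx (ρ₂ c d) c b < ξ :=
        hi _ (HS.idx (HS.r2 ec ed) ec eb) (E.idx_lt _ hγ c hcΩ b hmem)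
      have fc : c ∈ HS ρ₁ E ({c, d} ∪ Set.Iio ξ) := HS.base (by simp)
      have fd : d ∈ HS ρ₁ E ({c, d} ∪ Set.Iio ξ) := HS.base (by simp)
      have fb : b ∈ HS ρ₁ E ({c, d} ∪ Set.Iio ξ) := by
        rw [← E.g_idx _ hγ c hcΩ b hmem]
        exact HS.g (HS.r2 fc fd) fc (HS.base (Or.inr hidx))
      refine AA.mono (HS.mono ?_) hsee
      rintro x (hx | hx)
      · rcases hp hx with rfl | rfl | rfl
        · exact fb
        · exact fc
        · exact fd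
      · exact HS.base (Or.inr hx)
    · have heq : ρ₂ b d = ρ₂ b c := h2.eq_of_lt hdΩ hbc.le hcd.le hbad
      have hγ : ρ₂ b d < W2 := h2.lt d hdΩ b (hbc.trans hcd).le
      have hmem : c ∈ PP ρ₂ (ρ₂ b d) d := ⟨hcd, heq ▸ hbad.le⟩
      have hidx : E.idx (ρ₂ b d) d c < ξ :=
        hi _ (HS.idx (HS.r2 eb ed) ed ec) (E.idx_lt _ hγ d hdΩ c hmem)
      have fb : b ∈ HS ρ₁ E ({b, d} ∪ Set.Iio ξ) := HS.base (by simp)
      have fd : d ∈ HS ρ₁ E ({b, d} ∪ Set.Iio ξ) := HS.base (by simp)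
      have fc : c ∈ HS ρ₁ E ({b, d} ∪ Set.Iio ξ) := by
        rw [← E.g_idx _ hγ d hdΩ c hmem]
        exact HS.g (HS.r2 fb fd) fd (HS.base (Or.inr hidx))
      refine AA.mono (HS.mono ?_) hsee
      rintro x (hx | hx)
      · rcases hp hx with rfl | rfl | rfl
        · exact fb
        · exact fc
        · exact fd
      · exact HS.base (Or.inr hx)
  -- choose `x₀` and `X₁`
  obtain ⟨x₀, hx₀X, hb₀x₀, hX₁⟩ : ∃ x₀ ∈ X, b₀ ≤ x₀ ∧
      ¬ {d | d ∈ X ∧ x₀ < d ∧ Sees {x₀, d}}.Countable := by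
    by_contra hcon
    push Not at hcon
    have e1 := hcon b₀ hb₀ le_rfl
    have e2 := hcon c₀ hc₀ hbc₀.le
    apply (hX.above hc₀).unc
    refine (e1.union e2).mono ?_
    rintro d ⟨hd, hcd⟩
    have hF := (F b₀ hb₀ c₀ hc₀ d hd hbc₀ hcd le_rfl {b₀, c₀} (by
      intro x hx
      rcases hx with rfl | rfl <;> simp) hsees₀).2
    rcases le_or_gt (ρ₂ b₀ c₀) (ρ₂ c₀ d) with h | h
    · exact Or.inr ⟨hd, hcd, hF.1 h⟩
    · exact Or.inl ⟨hd, hbc₀.trans hcd, hF.2 h⟩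
  set X₁ : Set Ordinal.{0} := {d | d ∈ X ∧ x₀ < d ∧ Sees {x₀, d}} with hX₁def
  have hX₁X : X₁ ⊆ X := fun d hd => hd.1
  have hX₁LW : LW X₁ := hX.sub hX₁X hX₁
  have hsub1 : ∀ x y z : Ordinal.{0}, ({x, y} : Set Ordinal.{0}) ⊆ {x, y, z} := by
    intro x y z w hw
    rcases hw with rfl | rfl <;> simp
  have hsub2 : ∀ x y z : Ordinal.{0}, ({y, z} : Set Ordinal.{0}) ⊆ {x, y, z} := by
    intro x y z w hw
    rcases hw with rfl | rfl <;> simp
  have hsub3 : ∀ x y z : Ordinal.{0}, ({x, z} : Set Ordinal.{0}) ⊆ {x, y, z} := by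
    intro x y z w hw
    rcases hw with rfl | rfl <;> simp
  have G : ∀ d ∈ X₁, ∀ e ∈ X₁, d < e → (∀ i ∈ HS ρ₁ E {x₀, d, e}, i < W1 → i < ξ) ∧
      (ρ₂ x₀ d ≤ ρ₂ d e → Sees {d, e}) := by
    intro d hd e he hde
    have := F x₀ hx₀X d hd.1 e he.1 hd.2.1 hde hb₀x₀ {x₀, d} (hsub1 _ _ _) hd.2.2
    exact ⟨this.1, this.2.1⟩
  obtain ⟨X₂, hX₂X₁, hX₂, v₀, hgood, hv₀⟩ : ∃ X₂ ⊆ X₁, ¬ X₂.Countable ∧ ∃ v₀ : Ordinal.{0},
      (∀ d ∈ X₂, ∀ e ∈ X₂, d < e → v₀ ≤ ρ₂ d e → Sees {d, e}) ∧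
      (v₀ = 0 ∨ ∀ d ∈ X₂, ρ₂ x₀ d = v₀) := by
    by_cases hvc : ((fun d => ρ₂ x₀ d) '' X₁).Countable
    · obtain ⟨v, hv, hunc⟩ : ∃ v ∈ (fun d => ρ₂ x₀ d) '' X₁, ¬ {d ∈ X₁ | ρ₂ x₀ d = v}.Countable := by
        by_contra hcon
        push Not at hcon
        apply hX₁
        refine (hvc.biUnion hcon).mono ?_
        intro d hd
        exact Set.mem_biUnion (x := ρ₂ x₀ d) ⟨d, hd, rfl⟩ ⟨hd, rfl⟩
      refine ⟨{d ∈ X₁ | ρ₂ x₀ d = v}, fun d hd => hd.1, hunc, v, ?_, Or.inr fun d hd => hd.2⟩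
      intro d hd e he hde hle
      refine (G d hd.1 e he.1 hde).2 ?_
      rw [hd.2]
      exact hle
    · refine ⟨{d ∈ X₁ | ∀ c ∈ X₁, c < d → ρ₂ x₀ c ≠ ρ₂ x₀ d}, fun d hd => hd.1, ?_, 0, ?_,
        Or.inl rfl⟩
      · intro hc
        apply hvc
        refine (hc.image fun d => ρ₂ x₀ d).mono ?_
        rintro _ ⟨d, hd, rfl⟩
        have hne : {c ∈ X₁ | ρ₂ x₀ c = ρ₂ x₀ d}.Nonempty := ⟨d, hd, rfl⟩
        obtain ⟨hm1, hm2⟩ := csInf_mem hne
        refine ⟨sInf {c ∈ X₁ | ρ₂ x₀ c = ρ₂ x₀ d}, ⟨hm1, fun c hc hcm heq => ?_⟩, hm2⟩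
        have hcmem : c ∈ {c ∈ X₁ | ρ₂ x₀ c = ρ₂ x₀ d} := ⟨hc, heq.trans hm2⟩
        exact absurd (csInf_le' hcmem) (not_le.mpr hcm)
      · intro d hd e he hde _
        refine (G d hd.1 e he.1 hde).2 ?_
        by_contra hcon
        push Not at hcon
        exact he.2 d hd.1 hde
          (h2.eq_of_lt (hXΩ e (hX₁X he.1)) hd.1.2.1.le hde.le hcon).symm
  have hX₂X : X₂ ⊆ X := hX₂X₁.trans hX₁X
  have hX₂LW : LW X₂ := hX₁LW.sub hX₂X₁ hX₂
  -- apply the three-dimensional lemma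
  obtain ⟨Y, hYX₂, hY, hYρ⟩ := u3 h1 h2 hX₂LW (fun x hx => hXΩ x (hX₂X hx)) hξ (v₀ := v₀) (by
    intro b hb c hc d hd hbc hcd hor
    have hbX := hX₂X hb
    have hcX := hX₂X hc
    have hdX := hX₂X hd
    have hb₀b : b₀ ≤ b := hb₀x₀.trans (hX₂X₁ hb).2.1.le
    have hH : ∀ i ∈ HS ρ₁ E {b, c, d}, i < W1 → i < ξ := by
      rcases hor with h | h | h
      · exact (F b hbX c hcX d hdX hbc hcd hb₀b _ (hsub1 _ _ _) (hgood b hb c hc hbc h)).1
      · exact (F b hbX c hcX d hdX hbc hcd hb₀b _ (hsub2 _ _ _) (hgood c hc d hd hcd h)).1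
      · exact (F b hbX c hcX d hdX hbc hcd hb₀b _ (hsub3 _ _ _)
          (hgood b hb d hd (hbc.trans hcd) h)).1
    have eb : b ∈ HS ρ₁ E {b, c, d} := HS.base (by simp)
    have ec : c ∈ HS ρ₁ E {b, c, d} := HS.base (by simp)
    have ed : d ∈ HS ρ₁ E {b, c, d} := HS.base (by simp)
    have hrel : ∀ x ∈ HS ρ₁ E {b, c, d}, ∀ y ∈ HS ρ₁ E {b, c, d}, x ≤ y → y < W2 →
        ρ₁ x y ≤ ξ := fun x hx y hy hxy hyΩ => (hH _ (HS.r1 hx hy) (h1.lt y hyΩ x hxy)).le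
    have hcmp : ∀ x ∈ HS ρ₁ E {b, c, d}, ∀ y ∈ HS ρ₁ E {b, c, d}, x < W2 → y < W2 →
        Cmp ρ₁ ξ x y := by
      intro x hx y hy hxΩ hyΩ
      rcases lt_trichotomy x y with h | h | h
      · exact Or.inl (Or.inr ⟨h, hrel x hx y hy h.le hyΩ⟩)
      · exact Or.inl (Or.inl h)
      · exact Or.inr (Or.inr ⟨h, hrel y hy x hx h.le hxΩ⟩)
    have l1 : ρ₂ b c < W2 := h2.lt c (hXΩ c hcX) b hbc.le
    have l2 : ρ₂ c d < W2 := h2.lt d (hXΩ d hdX) c hcd.le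
    have l3 : ρ₂ b d < W2 := h2.lt d (hXΩ d hdX) b (hbc.trans hcd).le
    refine ⟨hcmp _ (HS.r2 eb ec) _ (HS.r2 ec ed) l1 l2,
      hcmp _ (HS.r2 eb ed) _ (HS.r2 ec ed) l3 l2, fun hle => ?_⟩
    exact hrel _ (HS.tt (HS.r2 ec ed) eb) _ (HS.tt (HS.r2 ec ed) ec)
      (h2.tt_lt_tt (hXΩ c hcX) hbc hle).le (h2.tt_lt hκ l2 (hXΩ c hcX)))
  have hYX : Y ⊆ X := hYX₂.trans hX₂X
  have hYLW : LW Y := hX₂LW.sub hYX₂ hY
  rcases hv₀ with h0 | hv
  · obtain ⟨c, hc⟩ := hYLW.nonempty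
    obtain ⟨d, hd, hcd⟩ := hYLW.exists_gt hc
    have := hYρ c hc d hd hcd
    rw [h0] at this
    exact not_lt_zero this
  · have hmono : ∀ b ∈ Y, ∀ c ∈ Y, b < c → tt ρ₂ v₀ b < tt ρ₂ v₀ c := fun b hb c hc hbc =>
      h2.tt_lt_tt (hXΩ c (hYX hc)) hbc (hYρ b hb c hc hbc).le
    have hinj : Set.InjOn (tt ρ₂ v₀) Y := by
      intro b hb c hc hbc
      rcases lt_trichotomy b c with h | h | h
      · exact absurd hbc (hmono b hb c hc h).ne
      · exact h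
      · exact absurd hbc.symm (hmono c hc b hb h).ne
    have hv₀Ω : v₀ < W2 := by
      obtain ⟨c, hc⟩ := hYLW.nonempty
      rw [← hv c (hYX₂ hc)]
      exact h2.lt c (hXΩ c (hYX hc)) x₀ (hX₂X₁ (hYX₂ hc)).2.1.le
    obtain ⟨x, hx, y, hy, hxy, hρ⟩ := h1.unbdd (tt ρ₂ v₀ '' Y)
      (fun hc => hY (Set.countable_of_injective_of_countable_image hinj hc))
      (by
        rintro _ ⟨c, hc, rfl⟩
        exact h2.tt_lt hκ hv₀Ω (hXΩ c (hYX hc))) ξ hξ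
    obtain ⟨b, hb, rfl⟩ := hx
    obtain ⟨c, hc, rfl⟩ := hy
    have hbc : b < c := by
      rcases lt_trichotomy b c with h | h | h
      · exact h
      · rw [h] at hxy
        exact absurd hxy (lt_irrefl _)
      · exact absurd (hmono c hc b hb h) (not_lt.mpr hxy.le)
    have hbX₁ := hX₂X₁ (hYX₂ hb)
    have hcX₁ := hX₂X₁ (hYX₂ hc)
    have ex : x₀ ∈ HS ρ₁ E {x₀, b, c} := HS.base (by simp)
    have eb : b ∈ HS ρ₁ E {x₀, b, c} := HS.base (by simp)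
    have ec : c ∈ HS ρ₁ E {x₀, b, c} := HS.base (by simp)
    have ev : v₀ ∈ HS ρ₁ E {x₀, b, c} := by
      rw [← hv b (hYX₂ hb)]
      exact HS.r2 ex eb
    have := (G b hbX₁ c hcX₁ hbc).1 _ (HS.r1 (HS.tt ev eb) (HS.tt ev ec))
      (h1.lt _ (h2.tt_lt hκ hv₀Ω (hXΩ c (hYX hc))) _ hxy.le)
    exact absurd hρ (not_lt.mpr this.le)

end Pool.Agent.Lib.MP_7295f2_lc

end

section

/-!
# The set mapping
-/

open Cardinal Ordinal

namespace Pool.Agent.Lib.MP_7295f2_lc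

/-- A single function can move, inside each member of a countable family of infinite sets, some
point of that member to another one. -/
theorem exists_mover {K : Type} [Nonempty K] {𝒞 : Set (Set K)} (h𝒞 : 𝒞.Countable)
    (hinf : ∀ B ∈ 𝒞, B.Infinite) : ∃ f : K → K, ∀ B ∈ 𝒞, ∃ a ∈ B, f a ∈ B ∧ f a ≠ a := by
  classical
  rcases 𝒞.eq_empty_or_nonempty with h0 | hne
  · refine ⟨id, fun B hB => ?_⟩
    rw [h0] at hB
    exact absurd hB (Set.notMem_empty B)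
  obtain ⟨e, he⟩ := h𝒞.exists_eq_range hne
  have hei : ∀ n, (e n).Infinite := fun n => hinf _ (he ▸ ⟨n, rfl⟩)
  have hstep : ∀ (n : ℕ) (s : Finset K), ∃ a ∈ e n, a ∉ s := fun n s => by
    obtain ⟨a, ha, has⟩ := ((hei n).sdiff s.finite_toSet).nonempty
    exact ⟨a, ha, fun h => has (Finset.mem_coe.mpr h)⟩
  choose g hg hgs using hstep
  let S : ℕ → Finset K := fun n => Nat.rec (motive := fun _ => Finset K) ∅
    (fun k s => insert (g k s) s) n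
  have hS : ∀ n, S (n + 1) = insert (g n (S n)) (S n) := fun n => rfl
  set a : ℕ → K := fun n => g n (S n) with ha
  have hmem : ∀ m n, m < n → a m ∈ S n := by
    intro m n hmn
    induction n, hmn using Nat.le_induction with
    | base => rw [hS]; exact Finset.mem_insert_self _ _
    | succ n _ ih => rw [hS]; exact Finset.mem_insert_of_mem ih
  have hinj : Function.Injective a := by
    intro m n hmn
    rcases lt_trichotomy m n with h | h | h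
    · have := hmem m n h
      rw [hmn] at this
      exact absurd this (hgs n (S n))
    · exact h
    · have := hmem n m h
      rw [← hmn] at this
      exact absurd this (hgs m (S m))
  have hb : ∀ n, ∃ b ∈ e n, b ≠ a n := by
    intro n
    obtain ⟨b, hb, hba⟩ := ((hei n).sdiff (Set.finite_singleton (a n))).nonempty
    exact ⟨b, hb, fun h => hba h⟩
  choose b hbe hba using hb
  refine ⟨fun x => if h : ∃ n, a n = x then b h.choose else x, ?_⟩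
  intro B hB
  obtain ⟨n, rfl⟩ : B ∈ Set.range e := he ▸ hB
  have hex : ∃ m, a m = a n := ⟨n, rfl⟩
  have hch : hex.choose = n := hinj hex.choose_spec
  refine ⟨a n, hg n (S n), ?_⟩
  simp only [dif_pos hex, hch]
  exact ⟨hbe n, hba n⟩

theorem not_arrow (hCH : (𝔠 : Cardinal.{0}) = ℵ₁) (hs1 : Square ℵ₁) (hs2 : Square (Order.succ ℵ₁))
    (κ : Cardinal.{0}) (hκ : κ = Order.succ (Order.succ ℵ₁)) :
    ¬ SetMappingArrow κ 4 2 ℵ₁ := by
  classical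
  obtain ⟨ρ₁, h1⟩ := isRho1_of_square hs1
  obtain ⟨ρ₂, h2⟩ := isRho2_of_square (Order.le_succ ℵ₁)
    (Cardinal.isRegular_succ Cardinal.aleph0_lt_aleph_one.le) hs2
  obtain ⟨E⟩ := exists_enum hCH h2
  intro harrow
  set K := κ.ord.ToType with hK
  set φ : K → Ordinal.{0} := fun x => ((Ordinal.ToType.mk (o := κ.ord)).symm x).1 with hφ
  have hφmono : StrictMono φ := fun x y hxy =>
    (Ordinal.ToType.mk (o := κ.ord)).symm.strictMono hxy
  have hφinj : Function.Injective φ := hφmono.injective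
  have hφlt : ∀ x, φ x < W3 := by
    intro x
    have := ((Ordinal.ToType.mk (o := κ.ord)).symm x).2
    unfold W3
    rw [← hκ]
    exact this
  have hKne : Nonempty K := by
    have h0 : (0 : Ordinal.{0}) < κ.ord := by
      rw [hκ]
      exact (Cardinal.isRegular_succ ((Cardinal.aleph0_lt_aleph_one.le).trans
        (Order.le_succ _))).ord_pos
    exact ⟨Ordinal.ToType.mk ⟨0, h0⟩⟩
  have hmove : ∀ t : Finset K, ∃ f : K → K, ∀ B : Set K, B.Infinite →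
      φ '' B ∈ AA E (HS ρ₁ E (φ '' t)) → ∃ a ∈ B, f a ∈ B ∧ f a ≠ a := by
    intro t
    have hc : {B : Set K | B.Infinite ∧ φ '' B ∈ AA E (HS ρ₁ E (φ '' t))}.Countable := by
      have h3 : (AA E (HS ρ₁ E (φ '' t))).Countable :=
        AA.countable (HS.countable (t.finite_toSet.image φ).countable)
      refine Set.Countable.mono ?_ (h3.preimage_of_injOn (f := fun B : Set K => φ '' B)
        (hφinj.image_injective.injOn))
      intro B hB
      exact hB.2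
    obtain ⟨f, hf⟩ := exists_mover hc fun B hB => hB.1
    exact ⟨f, fun B hB1 hB2 => hf B ⟨hB1, hB2⟩⟩
  choose f hf using hmove
  have hne : ∀ s : {s : Finset K // s.card = 4}, s.1.Nonempty := fun s => by
    rw [← Finset.card_pos, s.2]
    norm_num
  obtain ⟨X, hXcard, hXfree⟩ := harrow
    (fun s => {f (s.1.erase (s.1.min' (hne s))) (s.1.min' (hne s))}) (by
      intro s
      rw [Cardinal.mk_singleton]
      exact Cardinal.one_lt_two)
  have hXunc : ¬ (φ '' X).Countable := by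
    intro hc
    have h3 : X.Countable := Set.countable_of_injective_of_countable_image hφinj.injOn hc
    rw [← Cardinal.le_aleph0_iff_set_countable, hXcard] at h3
    exact absurd Cardinal.aleph0_lt_aleph_one (not_lt.mpr h3)
  obtain ⟨Y, hYX, hY⟩ := exists_LW hXunc
  have hYΩ : ∀ y ∈ Y, y < W3 := by
    intro y hy
    obtain ⟨x, _, rfl⟩ := hYX hy
    exact hφlt x
  obtain ⟨b, hb, c, hc, d, hd, hbc, hcd, A, hA, hAY, hAinf⟩ := main_claim h1 h2 E hY hYΩ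
  obtain ⟨b', hb', rfl⟩ := hYX hb
  obtain ⟨c', hc', rfl⟩ := hYX hc
  obtain ⟨d', hd', rfl⟩ := hYX hd
  have hb'c' : b' < c' := hφmono.lt_iff_lt.mp hbc
  have hc'd' : c' < d' := hφmono.lt_iff_lt.mp hcd
  set t : Finset K := {b', c', d'} with ht
  have hφt : φ '' (t : Set K) = {φ b', φ c', φ d'} := by
    rw [ht]
    simp [Set.image_insert_eq]
  set B : Set K := φ ⁻¹' A with hB
  have hφB : φ '' B = A := by
    rw [hB, Set.image_preimage_eq_iff]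
    intro x hx
    obtain ⟨y, _, rfl⟩ := hYX (hAY hx).1
    exact ⟨y, rfl⟩
  have hBinf : B.Infinite := by
    intro hfin
    apply hAinf
    rw [← hφB]
    exact hfin.image φ
  have hBX : ∀ x ∈ B, x ∈ X := by
    intro x hx
    obtain ⟨y, hy, hyx⟩ := hYX (hAY hx).1
    rwa [← hφinj hyx]
  have hBb : ∀ x ∈ B, x < b' := fun x hx => hφmono.lt_iff_lt.mp (hAY hx).2
  obtain ⟨a, ha, hfa, hne'⟩ := hf t B hBinf (by rw [hφt, hφB]; exact hA)
  have hat : a ∉ t := by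
    rw [ht]
    simp only [Finset.mem_insert, Finset.mem_singleton, not_or]
    exact ⟨(hBb a ha).ne, ((hBb a ha).trans hb'c').ne, ((hBb a ha).trans (hb'c'.trans hc'd')).ne⟩
  have hfat : f t a ∉ t := by
    rw [ht]
    simp only [Finset.mem_insert, Finset.mem_singleton, not_or]
    rw [← ht]
    exact ⟨(hBb _ hfa).ne, ((hBb _ hfa).trans hb'c').ne,
      ((hBb _ hfa).trans (hb'c'.trans hc'd')).ne⟩
  have htcard : t.card = 3 := by
    rw [ht, Finset.card_insert_of_notMem, Finset.card_insert_of_notMem, Finset.card_singleton]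
    · simp only [Finset.mem_singleton]
      exact hc'd'.ne
    · simp only [Finset.mem_insert, Finset.mem_singleton, not_or]
      exact ⟨hb'c'.ne, (hb'c'.trans hc'd').ne⟩
  have hscard : (insert a t).card = 4 := by
    rw [Finset.card_insert_of_notMem hat, htcard]
  have hmin : (insert a t).min' (Finset.insert_nonempty a t) = a := by
    apply le_antisymm
    · exact Finset.min'_le _ _ (Finset.mem_insert_self _ _)
    · apply Finset.le_min'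
      intro y hy
      rcases Finset.mem_insert.mp hy with rfl | hy
      · exact le_rfl
      · rw [ht] at hy
        simp only [Finset.mem_insert, Finset.mem_singleton] at hy
        rcases hy with rfl | rfl | rfl
        · exact (hBb a ha).le
        · exact ((hBb a ha).trans hb'c').le
        · exact ((hBb a ha).trans (hb'c'.trans hc'd')).le
  have hsub : ((insert a t : Finset K) : Set K) ⊆ X := by
    intro y hy
    rcases Finset.mem_insert.mp (Finset.mem_coe.mp hy) with rfl | hy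
    · exact hBX _ ha
    · rw [ht] at hy
      simp only [Finset.mem_insert, Finset.mem_singleton] at hy
      rcases hy with rfl | rfl | rfl
      · exact hb'
      · exact hc'
      · exact hd'
  have := hXfree ⟨insert a t, hscard⟩ hsub (f t a) (hBX _ hfa) (by
    intro h
    rcases Finset.mem_insert.mp h with h | h
    · exact hne' h
    · exact hfat h)
  apply this
  simp only [hmin, Finset.erase_insert hat, Set.mem_singleton_iff]

end Pool.Agent.Lib.MP_7295f2_lc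

end
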