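import Pool.Agent.Lib.MP_7295f2_lc.Pre

section

/-!
# Coding of tuples `(γ, n, xs)` (level, formula number, parameters below the level) by ordinals
-/

open Ordinal Set

namespace Pool.Agent.Lib.MP_7295f2_lc.LA

/-- Ordinals. -/
abbrev Ord : Type 1 := Ordinal.{0}

/-- Tuples. -/
abbrev Tup : Type 1 := Ord × ℕ × List Ord

/-- The lexicographic order of tuples. -/
def tlt : Tup → Tup → Prop :=
  Prod.Lex (· < ·) (Prod.Lex (· < ·) (List.Shortlex (· < ·)))

theorem tlt_wf : WellFounded tlt :=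
  WellFounded.prod_lex wellFounded_lt (WellFounded.prod_lex wellFounded_lt
    (List.Shortlex.wf wellFounded_lt))

theorem tlt_def {t u : Tup} : tlt t u ↔ t.1 < u.1 ∨ t.1 = u.1 ∧ (t.2.1 < u.2.1 ∨ t.2.1 = u.2.1 ∧
    List.Shortlex (· < ·) t.2.2 u.2.2) := by
  unfold tlt
  rw [Prod.lex_def, Prod.lex_def]

instance : Std.Trichotomous tlt := by
  unfold tlt
  infer_instance

/-- The parameters are below the level. -/
def Valid (t : Tup) : Prop := ∀ a ∈ t.2.2, a < t.1

theorem small_below (t : Tup) : Small.{0} {u : Tup // Valid u ∧ tlt u t} := by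
  have hle : ∀ u : {u : Tup // Valid u ∧ tlt u t}, u.1.1 ≤ t.1 := by
    rintro ⟨u, hu, hut⟩
    rcases tlt_def.mp hut with h | h
    · exact h.le
    · exact h.1.le
  let f : {u : Tup // Valid u ∧ tlt u t} → Set.Iic t.1 × ℕ × List (Set.Iic t.1) :=
    fun u => (⟨u.1.1, hle u⟩, u.1.2.1, u.1.2.2.attach.map fun a =>
      ⟨a.1, (u.2.1 a.1 a.2).le.trans (hle u)⟩)
  have hf : Function.Injective f := by
    rintro ⟨⟨a, n, l⟩, hu⟩ ⟨⟨b, m, k⟩, hv⟩ h
    simp only [f, Prod.mk.injEq] at h
    obtain ⟨h1, h2, h3⟩ := h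
    have h1 : a = b := congrArg Subtype.val h1
    have h4 := congrArg (List.map Subtype.val) h3
    rw [List.map_map, List.map_map] at h4
    have e1 : l = k := by simpa using h4
    subst h1 h2 e1
    rfl
  exact small_of_injective hf

/-- The code of a tuple: its position among the valid tuples. -/
noncomputable def code : Tup → Ord :=
  tlt_wf.fix fun t ih => ⨆ u : {u : Tup // Valid u ∧ tlt u t}, Order.succ (ih u.1 u.2.2)

theorem code_eq (t : Tup) :
    code t = ⨆ u : {u : Tup // Valid u ∧ tlt u t}, Order.succ (code u.1) := by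
  unfold code
  rw [tlt_wf.fix_eq]

theorem code_le_iff {t : Tup} {x : Ord} : code t ≤ x ↔ ∀ u, Valid u → tlt u t → code u < x := by
  rw [code_eq]
  have := small_below t
  constructor
  · intro h u hu hut
    exact Order.succ_le_iff.mp ((Ordinal.le_iSup
      (fun u : {u : Tup // Valid u ∧ tlt u t} => Order.succ (code u.1)) ⟨u, hu, hut⟩).trans h)
  · intro h
    apply Ordinal.iSup_le
    rintro ⟨u, hu, hut⟩
    exact Order.succ_le_of_lt (h u hu hut)

theorem code_lt_code {u t : Tup} (hu : Valid u) (h : tlt u t) : code u < code t :=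
  code_le_iff.mp le_rfl u hu h

theorem exists_of_lt_code {t : Tup} {x : Ord} (hx : x < code t) : ∃ u, Valid u ∧ code u = x := by
  induction t using tlt_wf.induction with
  | _ t ih =>
    have h : ¬ code t ≤ x := not_le.mpr hx
    rw [code_le_iff] at h
    push Not at h
    obtain ⟨u, hu, hut, hxu⟩ := h
    rcases hxu.eq_or_lt with h | h
    · exact ⟨u, hu, h.symm⟩
    · exact ih u hut h

theorem valid_nil (γ : Ord) (n : ℕ) : Valid (γ, n, []) := by
  intro a ha
  simp at ha

theorem le_code_nil (γ : Ord) : γ ≤ code (γ, 0, []) := by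
  induction γ using WellFoundedLT.induction with
  | ind γ ih =>
    by_contra hcon
    push Not at hcon
    have h1 := ih _ hcon
    have h2 : code (code (γ, 0, []), 0, []) < code (γ, 0, []) :=
      code_lt_code (valid_nil _ _) (tlt_def.mpr (Or.inl hcon))
    exact absurd h1 (not_le.mpr h2)

theorem exists_code (x : Ord) : ∃ t, Valid t ∧ code t = x := by
  apply exists_of_lt_code (t := (Order.succ x, 0, []))
  exact (Order.lt_succ x).trans_le (le_code_nil _)

theorem code_injective {t u : Tup} (ht : Valid t) (hu : Valid u) (h : code t = code u) : t = u := by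
  rcases Std.Trichotomous.rel_or_eq_or_rel_swap (r := tlt) (a := t) (b := u) with h1 | h1 | h1
  · exact absurd h (code_lt_code ht h1).ne
  · exact h1
  · exact absurd h.symm (code_lt_code hu h1).ne

theorem code_lt_code_iff {t u : Tup} (ht : Valid t) (hu : Valid u) : code t < code u ↔ tlt t u := by
  refine ⟨fun h => ?_, code_lt_code ht⟩
  rcases Std.Trichotomous.rel_or_eq_or_rel_swap (r := tlt) (a := t) (b := u) with h1 | h1 | h1
  · exact h1
  · rw [h1] at h
    exact absurd h (lt_irrefl _)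
  · exact absurd h (code_lt_code hu h1).not_gt

/-- The tuple coded by `x`. -/
noncomputable def tup (x : Ord) : Tup := (exists_code x).choose

theorem valid_tup (x : Ord) : Valid (tup x) := (exists_code x).choose_spec.1

theorem code_tup (x : Ord) : code (tup x) = x := (exists_code x).choose_spec.2

theorem tup_code {t : Tup} (ht : Valid t) : tup (code t) = t :=
  code_injective (valid_tup _) ht (code_tup _)

/-- Level, number and parameters. -/
noncomputable def lev (x : Ord) : Ord := (tup x).1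
noncomputable def num (x : Ord) : ℕ := (tup x).2.1
noncomputable def par (x : Ord) : List Ord := (tup x).2.2

/-- The ordinal coding the tuple `(γ, n, l)`. -/
noncomputable def mk (γ : Ord) (n : ℕ) (l : List Ord) : Ord := code (γ, n, l)

theorem par_lt {x a : Ord} (ha : a ∈ par x) : a < lev x := valid_tup x a ha

theorem mk_eta (x : Ord) : mk (lev x) (num x) (par x) = x := code_tup x

theorem lev_mk {γ : Ord} {n : ℕ} {l : List Ord} (h : ∀ a ∈ l, a < γ) : lev (mk γ n l) = γ := by
  unfold lev mk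
  rw [tup_code (t := (γ, n, l)) h]

theorem num_mk {γ : Ord} {n : ℕ} {l : List Ord} (h : ∀ a ∈ l, a < γ) : num (mk γ n l) = n := by
  unfold num mk
  rw [tup_code (t := (γ, n, l)) h]

theorem par_mk {γ : Ord} {n : ℕ} {l : List Ord} (h : ∀ a ∈ l, a < γ) : par (mk γ n l) = l := by
  unfold par mk
  rw [tup_code (t := (γ, n, l)) h]

theorem mk_lt_mk {γ : Ord} {n : ℕ} {l : List Ord} {γ' : Ord} {n' : ℕ} {l' : List Ord}
    (h : ∀ a ∈ l, a < γ) (h' : ∀ a ∈ l', a < γ') : mk γ n l < mk γ' n' l' ↔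
    γ < γ' ∨ γ = γ' ∧ (n < n' ∨ n = n' ∧ List.Shortlex (· < ·) l l') := by
  unfold mk
  rw [code_lt_code_iff (t := (γ, n, l)) (u := (γ', n', l')) h h', tlt_def]

theorem mk_lt_of_lev {γ γ' : Ord} {n n' : ℕ} {l l' : List Ord} (h : ∀ a ∈ l, a < γ)
    (hγ : γ < γ') : mk γ n l < mk γ' n' l' :=
  code_lt_code h (tlt_def.mpr (Or.inl hγ))

theorem mk_lt_of_num {γ : Ord} {n n' : ℕ} {l l' : List Ord} (h : ∀ a ∈ l, a < γ)
    (hn : n < n') : mk γ n l < mk γ n' l' :=
  code_lt_code h (tlt_def.mpr (Or.inr ⟨rfl, Or.inl hn⟩))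

theorem mk_nil_le {γ : Ord} {n : ℕ} {l : List Ord} : mk γ 0 [] ≤ mk γ n l := by
  unfold mk
  rw [code_le_iff]
  intro u hu hut
  apply code_lt_code hu
  rw [tlt_def] at hut ⊢
  rcases hut with h | ⟨h1, h2⟩
  · exact Or.inl h
  · simp at h2

theorem le_mk (γ : Ord) (n : ℕ) (l : List Ord) : γ ≤ mk γ n l := (le_code_nil γ).trans mk_nil_le

theorem lev_le (x : Ord) : lev x ≤ x := by
  conv_rhs => rw [← mk_eta x]
  exact le_mk _ _ _

theorem par_lt_self {x a : Ord} (ha : a ∈ par x) : a < x := (par_lt ha).trans_le (lev_le x)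

theorem lev_mono {x y : Ord} (h : x ≤ y) : lev x ≤ lev y := by
  by_contra hcon
  push Not at hcon
  have := mk_lt_of_lev (n := num y) (n' := num x) (l := par y) (l' := par x)
    (fun a ha => par_lt ha) hcon
  rw [mk_eta, mk_eta] at this
  exact absurd h (not_le.mpr this)

theorem ext_tup {x y : Ord} (h1 : lev x = lev y) (h2 : num x = num y) (h3 : par x = par y) :
    x = y := by
  rw [← mk_eta x, ← mk_eta y, h1, h2, h3]

theorem mk_zero (n : ℕ) : mk 0 n [] = n := by
  induction n with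
  | zero =>
    unfold mk
    apply le_antisymm _ zero_le
    rw [code_le_iff]
    intro u hu hut
    rw [tlt_def] at hut
    simp only [not_lt_zero, List.not_shortlex_nil_right, and_false, or_self] at hut
  | succ n ih =>
    apply le_antisymm
    · unfold mk
      rw [code_le_iff]
      rintro ⟨γ, m, l⟩ hu hut
      rw [tlt_def] at hut
      simp only [not_lt_zero, List.not_shortlex_nil_right, and_false, or_false, false_or] at hut
      obtain ⟨h1, h2⟩ := hut
      subst h1
      have hl : l = [] := by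
        rw [List.eq_nil_iff_forall_not_mem]
        intro a ha
        exact not_lt_zero (hu a ha)
      subst hl
      have h3 : mk 0 m [] ≤ mk 0 n [] := by
        rcases (Nat.lt_succ_iff.mp h2).eq_or_lt with h | h
        · rw [h]
        · exact (mk_lt_of_num (by simp) h).le
      rw [ih] at h3
      have h4 : code (0, m, []) < ((n : Ord) + 1) := lt_of_le_of_lt h3 (lt_add_one _)
      push_cast
      exact h4
    · have h1 : mk 0 n [] < mk 0 (n + 1) [] := mk_lt_of_num (by simp) (Nat.lt_succ_self n)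
      rw [ih] at h1
      push_cast
      exact Order.add_one_le_of_lt h1

theorem mk_one : mk 1 0 [] = ω := by
  apply le_antisymm
  · unfold mk
    rw [code_le_iff]
    rintro ⟨γ, m, l⟩ hu hut
    rw [tlt_def] at hut
    simp only [not_lt_zero, List.not_shortlex_nil_right, and_false, or_false] at hut
    have h0 : γ = 0 := Order.lt_one_iff.mp hut
    subst h0
    have hl : l = [] := by
      rw [List.eq_nil_iff_forall_not_mem]
      intro a ha
      exact not_lt_zero (hu a ha)
    subst hl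
    have := mk_zero m
    unfold mk at this
    rw [this]
    exact Ordinal.natCast_lt_omega0 m
  · rw [Ordinal.omega0_le]
    intro n
    rw [← mk_zero n]
    exact (mk_lt_of_lev (by simp) zero_lt_one).le

end Pool.Agent.Lib.MP_7295f2_lc.LA

end

section

/-!
# The language of the ordinal machine, and the machine
-/

open Ordinal Set

namespace Pool.Agent.Lib.MP_7295f2_lc.LA

/-- Formulas (de Bruijn indices). -/
inductive Fm : Type
  | lt (i j : ℕ)
  | aa (i j k : ℕ)
  | lev (i j : ℕ)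
  | num (i j : ℕ)
  | len (i j : ℕ)
  | par (i j k : ℕ)
  | dd (i j : ℕ)
  | neg (φ : Fm)
  | and (φ ψ : Fm)
  | ex (φ : Fm)

/-- Environments. -/
abbrev Env : Type 1 := ℕ → Ord

/-- Extend an environment. -/
def cons (y : Ord) (e : Env) : Env
  | 0 => y
  | n + 1 => e n

@[simp] theorem cons_zero (y : Ord) (e : Env) : cons y e 0 = y := rfl
@[simp] theorem cons_succ (y : Ord) (e : Env) (n : ℕ) : cons y e (n + 1) = e n := rfl

/-- Satisfaction in the structure with universe `U`. -/
def Sat (A : Ord → Ord → Ord → Prop) (D : Ord → Set Ord) (U : Set Ord) : Fm → Env → Prop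
  | .lt i j, e => e i < e j
  | .aa i j k, e => A (e i) (e j) (e k)
  | .lev i j, e => e i = lev (e j)
  | .num i j, e => e i = num (e j)
  | .len i j, e => e i = (par (e j)).length
  | .par i j k, e => ∃ m : ℕ, e j = m ∧ (par (e k))[m]? = some (e i)
  | .dd i j, e => e i ∈ D (e j)
  | .neg φ, e => ¬ Sat A D U φ e
  | .and φ ψ, e => Sat A D U φ e ∧ Sat A D U ψ e
  | .ex φ, e => ∃ y ∈ U, Sat A D U φ (cons y e)

/-- A bound on the free variables. -/
def bd : Fm → ℕ
  | .lt i j => max i j + 1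
  | .aa i j k => max i (max j k) + 1
  | .lev i j => max i j + 1
  | .num i j => max i j + 1
  | .len i j => max i j + 1
  | .par i j k => max i (max j k) + 1
  | .dd i j => max i j + 1
  | .neg φ => bd φ
  | .and φ ψ => max (bd φ) (bd ψ)
  | .ex φ => bd φ - 1

theorem sat_congr {A : Ord → Ord → Ord → Prop} {D : Ord → Set Ord} {U : Set Ord} (φ : Fm) :
    ∀ {e e' : Env}, (∀ i < bd φ, e i = e' i) → (Sat A D U φ e ↔ Sat A D U φ e') := by
  induction φ with
  | lt i j =>
    intro e e' h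
    simp only [Sat]
    rw [h i (by simp [bd]), h j (by simp [bd])]
  | aa i j k =>
    intro e e' h
    simp only [Sat]
    rw [h i (by simp [bd]), h j (by simp [bd]), h k (by simp [bd])]
  | lev i j =>
    intro e e' h
    simp only [Sat]
    rw [h i (by simp [bd]), h j (by simp [bd])]
  | num i j =>
    intro e e' h
    simp only [Sat]
    rw [h i (by simp [bd]), h j (by simp [bd])]
  | len i j =>
    intro e e' h
    simp only [Sat]
    rw [h i (by simp [bd]), h j (by simp [bd])]
  | par i j k =>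
    intro e e' h
    simp only [Sat]
    rw [h i (by simp [bd]), h j (by simp [bd]), h k (by simp [bd])]
  | dd i j =>
    intro e e' h
    simp only [Sat]
    rw [h i (by simp [bd]), h j (by simp [bd])]
  | neg φ ih =>
    intro e e' h
    simp only [Sat]
    rw [ih h]
  | and φ ψ ih1 ih2 =>
    intro e e' h
    simp only [Sat]
    rw [ih1 fun i hi => h i (lt_of_lt_of_le hi (le_max_left _ _)),
      ih2 fun i hi => h i (lt_of_lt_of_le hi (le_max_right _ _))]
  | ex φ ih =>
    intro e e' h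
    simp only [Sat]
    refine exists_congr fun y => and_congr_right fun _ => ih fun i hi => ?_
    cases i with
    | zero => rfl
    | succ i => exact h i (by simp only [bd]; omega)

/-- If two interpretations of `D` agree on `U`, then satisfaction is the same. -/
theorem sat_congr_D {A : Ord → Ord → Ord → Prop} {D D' : Ord → Set Ord} {U : Set Ord}
    (h : ∀ x ∈ U, D x = D' x) (φ : Fm) :
    ∀ {e : Env}, (∀ i, e i ∈ U) → (Sat A D U φ e ↔ Sat A D' U φ e) := by
  induction φ with
  | dd i j =>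
    intro e he
    simp only [Sat]
    rw [h _ (he j)]
  | neg φ ih =>
    intro e he
    simp only [Sat]
    rw [ih he]
  | and φ ψ ih1 ih2 =>
    intro e he
    simp only [Sat]
    rw [ih1 he, ih2 he]
  | ex φ ih =>
    intro e he
    simp only [Sat]
    refine exists_congr fun y => and_congr_right fun hy => ih fun i => ?_
    cases i with
    | zero => exact hy
    | succ i => exact he i
  | _ => exact fun _ => Iff.rfl

/-- Gödel numbers. -/
def enc : Fm → ℕ
  | .lt i j => 10 * Nat.pair i j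
  | .aa i j k => 10 * Nat.pair i (Nat.pair j k) + 1
  | .lev i j => 10 * Nat.pair i j + 2
  | .num i j => 10 * Nat.pair i j + 3
  | .len i j => 10 * Nat.pair i j + 4
  | .par i j k => 10 * Nat.pair i (Nat.pair j k) + 5
  | .dd i j => 10 * Nat.pair i j + 6
  | .neg φ => 10 * enc φ + 7
  | .and φ ψ => 10 * Nat.pair (enc φ) (enc ψ) + 8
  | .ex φ => 10 * enc φ + 9

theorem pair_inj {a b c d k : ℕ} (h : 10 * Nat.pair a b + k = 10 * Nat.pair c d + k) :
    a = c ∧ b = d :=
  Nat.pair_eq_pair.mp (by omega)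

theorem enc_injective : Function.Injective enc := by
  intro φ
  induction φ with
  | lt i j => intro ψ h; cases ψ <;> simp only [enc] at h <;> first | omega | skip
              have := pair_inj (k := 0) h
              rw [this.1, this.2]
  | aa i j k => intro ψ h; cases ψ <;> simp only [enc] at h <;> first | omega | skip
                have := pair_inj h
                have h2 := Nat.pair_eq_pair.mp this.2
                rw [this.1, h2.1, h2.2]
  | lev i j => intro ψ h; cases ψ <;> simp only [enc] at h <;> first | omega | skip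
               have := pair_inj h
               rw [this.1, this.2]
  | num i j => intro ψ h; cases ψ <;> simp only [enc] at h <;> first | omega | skip
               have := pair_inj h
               rw [this.1, this.2]
  | len i j => intro ψ h; cases ψ <;> simp only [enc] at h <;> first | omega | skip
               have := pair_inj h
               rw [this.1, this.2]
  | par i j k => intro ψ h; cases ψ <;> simp only [enc] at h <;> first | omega | skip
                 have := pair_inj h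
                 have h2 := Nat.pair_eq_pair.mp this.2
                 rw [this.1, h2.1, h2.2]
  | dd i j => intro ψ h; cases ψ <;> simp only [enc] at h <;> first | omega | skip
              have := pair_inj h
              rw [this.1, this.2]
  | neg φ ih => intro ψ h; cases ψ <;> simp only [enc] at h <;> first | omega | skip
                rename_i φ'
                have h1 : enc φ = enc φ' := by omega
                rw [ih h1]
  | and φ φ' ih1 ih2 => intro ψ h; cases ψ <;> simp only [enc] at h <;> first | omega | skip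
                        have := pair_inj h
                        rw [ih1 this.1, ih2 this.2]
  | ex φ ih => intro ψ h; cases ψ <;> simp only [enc] at h <;> first | omega | skip
               rename_i φ'
               have h1 : enc φ = enc φ' := by omega
               rw [ih h1]

/-- The environment of a list of parameters. -/
def lenv (l : List Ord) : Env := fun i => l.getD i 0

/-- The set computed at stage `x` of the machine with predicate `A`. -/
noncomputable def D (A : Ord → Ord → Ord → Prop) (x : Ord) : Set Ord :=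
  {w | w < lev x ∧ ∃ φ, enc φ = num x ∧
    Sat A (fun y => {v | ∃ _ : y < x, v ∈ D A y}) (Iio (lev x)) φ (cons w (lenv (par x)))}
termination_by x

theorem lenv_lt {γ : Ord} {l : List Ord} (hγ : 0 < γ) (hl : ∀ a ∈ l, a < γ) (i : ℕ) :
    lenv l i < γ := by
  unfold lenv
  rw [List.getD_eq_getElem?_getD]
  cases h : l[i]? with
  | none => simpa using hγ
  | some a => simpa using hl a (List.mem_of_getElem? h)

theorem mem_D {A : Ord → Ord → Ord → Prop} {x w : Ord} : w ∈ D A x ↔ w < lev x ∧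
    ∃ φ, enc φ = num x ∧ Sat A (D A) (Iio (lev x)) φ (cons w (lenv (par x))) := by
  rw [D]
  simp only [Set.mem_ofPred_eq]
  refine and_congr_right fun hw => exists_congr fun φ => and_congr_right fun _ => ?_
  apply sat_congr_D
  · intro y hy
    ext v
    simp only [Set.mem_ofPred_eq]
    constructor
    · rintro ⟨_, h⟩
      exact h
    · intro h
      exact ⟨lt_of_lt_of_le hy (lev_le x), h⟩
  · intro i
    cases i with
    | zero => exact hw
    | succ i => exact lenv_lt (lt_of_le_of_lt zero_le hw) (fun a ha => par_lt ha) i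

theorem mem_D_mk {A : Ord → Ord → Ord → Prop} {γ : Ord} {φ : Fm} {l : List Ord}
    (hl : ∀ a ∈ l, a < γ) {w : Ord} : w ∈ D A (mk γ (enc φ) l) ↔ w < γ ∧
    Sat A (D A) (Iio γ) φ (cons w (lenv l)) := by
  rw [mem_D, lev_mk hl, num_mk hl, par_mk hl]
  refine and_congr_right fun _ => ⟨?_, fun h => ⟨φ, rfl, h⟩⟩
  rintro ⟨ψ, hψ, h⟩
  rwa [enc_injective hψ] at h

theorem D_lt {A : Ord → Ord → Ord → Prop} {x w : Ord} (h : w ∈ D A x) : w < lev x := (mem_D.mp h).1

theorem D_lt_self {A : Ord → Ord → Ord → Prop} {x w : Ord} (h : w ∈ D A x) : w < x :=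
  (D_lt h).trans_le (lev_le x)

/-- The least element of `D x` (or zero). -/
noncomputable def hf (A : Ord → Ord → Ord → Prop) (x : Ord) : Ord := sInf (D A x)

theorem hf_mem {A : Ord → Ord → Ord → Prop} {x : Ord} (h : (D A x).Nonempty) : hf A x ∈ D A x :=
  csInf_mem h

theorem hf_le {A : Ord → Ord → Ord → Prop} {x w : Ord} (h : w ∈ D A x) : hf A x ≤ w := csInf_le' h

theorem hf_eq_zero {A : Ord → Ord → Ord → Prop} {x : Ord} (h : ¬ (D A x).Nonempty) :
    hf A x = 0 := by
  unfold hf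
  rw [Set.not_nonempty_iff_eq_empty.mp h]
  exact Ordinal.sInf_empty

theorem hf_le_self {A : Ord → Ord → Ord → Prop} (x : Ord) : hf A x ≤ x := by
  by_cases h : (D A x).Nonempty
  · exact (D_lt_self (hf_mem h)).le
  · rw [hf_eq_zero h]
    exact zero_le

end Pool.Agent.Lib.MP_7295f2_lc.LA

end

section

/-!
# Closure operators and condensation for the ordinal machine
-/

open Ordinal Set

namespace Pool.Agent.Lib.MP_7295f2_lc.LA

/-- The closure of `Y` under the functions of the machine, restricted to ordinals below `ζ`. -/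
inductive Cl (A : Ord → Ord → Ord → Prop) (ζ : Ord) (Y : Set Ord) : Ord → Prop
  | base {y : Ord} : y ∈ Y → y < ζ → Cl A ζ Y y
  | zero : 0 < ζ → Cl A ζ Y 0
  | code {γ : Ord} {n : ℕ} {l : List Ord} : Cl A ζ Y γ → (∀ a ∈ l, Cl A ζ Y a) →
      (∀ a ∈ l, a < γ) → mk γ n l < ζ → Cl A ζ Y (mk γ n l)
  | lev {x : Ord} : Cl A ζ Y x → Cl A ζ Y (lev x)
  | par {x a : Ord} : Cl A ζ Y x → a ∈ par x → Cl A ζ Y a
  | hf {x : Ord} : Cl A ζ Y x → Cl A ζ Y (hf A x)

/-- The closure as a set. -/
def cl (A : Ord → Ord → Ord → Prop) (ζ : Ord) (Y : Set Ord) : Set Ord := {x | Cl A ζ Y x}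

/-- Sets closed under the functions of the machine at height `ζ`. -/
structure Clsd (A : Ord → Ord → Ord → Prop) (ζ : Ord) (X : Set Ord) : Prop where
  intro ::
  sub : ∀ x ∈ X, x < ζ
  zero' : 0 < ζ → 0 ∈ X
  code' : ∀ γ n l, γ ∈ X → (∀ a ∈ l, a ∈ X) → (∀ a ∈ l, a < γ) → mk γ n l < ζ → mk γ n l ∈ X
  lev' : ∀ x ∈ X, lev x ∈ X
  par' : ∀ x ∈ X, ∀ a ∈ par x, a ∈ X
  hf' : ∀ x ∈ X, hf A x ∈ X

variable {A A' : Ord → Ord → Ord → Prop} {ζ η z : Ord} {X Y Z : Set Ord}

theorem cl_lt {x : Ord} (hx : x ∈ cl A ζ Y) : x < ζ := by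
  induction hx with
  | base _ h => exact h
  | zero h => exact h
  | code _ _ _ h => exact h
  | lev _ ih => exact (lev_le _).trans_lt ih
  | par _ ha ih => exact (par_lt_self ha).trans ih
  | hf _ ih => exact (hf_le_self _).trans_lt ih

theorem clsd_cl : Clsd A ζ (cl A ζ Y) where
  sub _ hx := cl_lt hx
  zero' h := Cl.zero h
  code' _ _ _ hγ hl hv h := Cl.code hγ hl hv h
  lev' _ hx := Cl.lev hx
  par' _ hx _ ha := Cl.par hx ha
  hf' _ hx := Cl.hf hx

theorem subset_cl (hY : ∀ y ∈ Y, y < ζ) : Y ⊆ cl A ζ Y := fun y hy => Cl.base hy (hY y hy)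

theorem cl_subset (hX : Clsd A η X) (hζ : ζ ≤ η) (hY : ∀ y ∈ Y, y < ζ → y ∈ X) :
    cl A ζ Y ⊆ X := by
  intro x hx
  induction hx with
  | base h h' => exact hY _ h h'
  | zero h => exact hX.zero' (h.trans_le hζ)
  | code _ _ hv h ih1 ih2 => exact hX.code' _ _ _ ih1 ih2 hv (h.trans_le hζ)
  | lev _ ih => exact hX.lev' _ ih
  | par _ ha ih => exact hX.par' _ ih _ ha
  | hf _ ih => exact hX.hf' _ ih

theorem cl_mono (hζ : ζ ≤ η) (hY : Y ⊆ Z) : cl A ζ Y ⊆ cl A η Z :=
  cl_subset clsd_cl hζ fun y hy hyζ => Cl.base (hY hy) (hyζ.trans_le hζ)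

theorem cl_idem_subset (hζ : ζ ≤ η) (hY : ∀ y ∈ Y, y < ζ → y ∈ cl A η Z) :
    cl A ζ Y ⊆ cl A η Z := cl_subset clsd_cl hζ hY

theorem cl_eq_of_subset (hζ : ζ ≤ η) (h : cl A η Y ⊆ Iio ζ) : cl A η Y = cl A ζ Y := by
  apply Subset.antisymm _ (cl_mono hζ Subset.rfl)
  intro x hx
  have key : ∀ x, Cl A η Y x → Cl A ζ Y x := by
    intro x hx
    induction hx with
    | base h1 h2 => exact Cl.base h1 (h (Cl.base h1 h2))
    | zero h1 => exact Cl.zero (h (Cl.zero h1))
    | code h1 h2 hv h3 ih1 ih2 => exact Cl.code ih1 ih2 hv (h (Cl.code h1 h2 hv h3))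
    | lev _ ih => exact Cl.lev ih
    | par _ ha ih => exact Cl.par ih ha
    | hf _ ih => exact Cl.hf ih
  exact key x hx

theorem exists_common (hζ : Order.IsSuccLimit ζ) {l : List Ord} {P : Ord → Ord → Prop}
    (hmono : ∀ a b b', b ≤ b' → P a b → P a b') (h : ∀ a ∈ l, ∃ b < ζ, P a b) :
    ∃ b < ζ, ∀ a ∈ l, P a b := by
  induction l with
  | nil => exact ⟨0, hζ.bot_lt, by simp⟩
  | cons a l ih =>
    obtain ⟨b, hb, hPb⟩ := ih fun c hc => h c (List.mem_cons_of_mem _ hc)
    obtain ⟨b', hb', hPb'⟩ := h a (List.mem_cons_self)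
    refine ⟨max b b', max_lt hb hb', fun c hc => ?_⟩
    rcases List.mem_cons.mp hc with rfl | hc
    · exact hmono _ _ _ (le_max_right _ _) hPb'
    · exact hmono _ _ _ (le_max_left _ _) (hPb c hc)

/-- Continuity in the height. -/
theorem cl_cont (hζ : Order.IsSuccLimit ζ) {x : Ord} (hx : x ∈ cl A ζ Y) :
    ∃ ζ' < ζ, x ∈ cl A ζ' Y := by
  induction hx with
  | @base y h1 h2 =>
    exact ⟨Order.succ y, hζ.succ_lt h2, Cl.base h1 (Order.lt_succ y)⟩
  | zero h =>
    exact ⟨Order.succ 0, hζ.succ_lt h, Cl.zero (Order.lt_succ 0)⟩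
  | @code γ n l h1 h2 hv h3 ih1 ih2 =>
    obtain ⟨ζ₁, h4, h5⟩ := ih1
    obtain ⟨ζ₂, h6, h7⟩ := exists_common hζ
      (P := fun a b => a ∈ cl A b Y) (fun a b b' hb ha => cl_mono hb Subset.rfl ha) ih2
    refine ⟨max (Order.succ (mk γ n l)) (max ζ₁ ζ₂), max_lt (hζ.succ_lt h3) (max_lt h4 h6), ?_⟩
    refine Cl.code ?_ ?_ hv ((Order.lt_succ _).trans_le (le_max_left _ _))
    · exact cl_mono ((le_max_left _ _).trans (le_max_right _ _)) Subset.rfl h5
    · exact fun a ha => cl_mono ((le_max_right _ _).trans (le_max_right _ _)) Subset.rfl (h7 a ha)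
  | lev _ ih =>
    obtain ⟨ζ', h1, h2⟩ := ih
    exact ⟨ζ', h1, Cl.lev h2⟩
  | par _ ha ih =>
    obtain ⟨ζ', h1, h2⟩ := ih
    exact ⟨ζ', h1, Cl.par h2 ha⟩
  | hf _ ih =>
    obtain ⟨ζ', h1, h2⟩ := ih
    exact ⟨ζ', h1, Cl.hf h2⟩

/-- The closure is finitary. -/
theorem cl_finite {x : Ord} (hx : x ∈ cl A ζ Y) : ∃ F ⊆ Y, F.Finite ∧ x ∈ cl A ζ F := by
  induction hx with
  | @base y h1 h2 =>
    exact ⟨{y}, Set.singleton_subset_iff.mpr h1, Set.finite_singleton y, Cl.base rfl h2⟩
  | zero h =>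
    exact ⟨∅, Set.empty_subset _, Set.finite_empty, Cl.zero h⟩
  | @code γ n l h1 h2 hv h3 ih1 ih2 =>
    obtain ⟨F₁, h4, h5, h6⟩ := ih1
    have : ∃ F ⊆ Y, F.Finite ∧ ∀ a ∈ l, a ∈ cl A ζ F := by
      clear h2 hv h3 h1 h4 h5 h6
      induction l with
      | nil => exact ⟨∅, Set.empty_subset _, Set.finite_empty, by simp⟩
      | cons a l ih =>
        obtain ⟨F, g1, g2, g3⟩ := ih fun c hc => ih2 c (List.mem_cons_of_mem _ hc)
        obtain ⟨G, g4, g5, g6⟩ := ih2 a List.mem_cons_self
        refine ⟨F ∪ G, Set.union_subset g1 g4, g2.union g5, fun c hc => ?_⟩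
        rcases List.mem_cons.mp hc with rfl | hc
        · exact cl_mono le_rfl Set.subset_union_right g6
        · exact cl_mono le_rfl Set.subset_union_left (g3 c hc)
    obtain ⟨F₂, h7, h8, h9⟩ := this
    refine ⟨F₁ ∪ F₂, Set.union_subset h4 h7, h5.union h8, Cl.code ?_ ?_ hv h3⟩
    · exact cl_mono le_rfl Set.subset_union_left h6
    · exact fun a ha => cl_mono le_rfl Set.subset_union_right (h9 a ha)
  | lev _ ih =>
    obtain ⟨F, h1, h2, h3⟩ := ih
    exact ⟨F, h1, h2, Cl.lev h3⟩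
  | par _ ha ih =>
    obtain ⟨F, h1, h2, h3⟩ := ih
    exact ⟨F, h1, h2, Cl.par h3 ha⟩
  | hf _ ih =>
    obtain ⟨F, h1, h2, h3⟩ := ih
    exact ⟨F, h1, h2, Cl.hf h3⟩

/-- The finite set of new generators at stage `ζ`. -/
def HH (A : Ord → Ord → Ord → Prop) (ζ : Ord) : Set Ord := {a | a = lev ζ ∨ a = hf A ζ ∨ a ∈ par ζ}

theorem HH_finite (ζ : Ord) : (HH A ζ).Finite := by
  have : HH A ζ ⊆ {lev ζ} ∪ ({hf A ζ} ∪ {a | a ∈ par ζ}) := by
    rintro a (h | h | h)
    · exact Or.inl h
    · exact Or.inr (Or.inl h)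
    · exact Or.inr (Or.inr h)
  exact ((Set.finite_singleton _).union ((Set.finite_singleton _).union
    (List.finite_toSet _))).subset this

theorem cl_succ : cl A (Order.succ ζ) Y ⊆ cl A ζ (Y ∪ HH A ζ) ∪ {ζ} := by
  intro x hx
  induction hx with
  | @base y h1 h2 =>
    rcases (Order.lt_succ_iff.mp h2).eq_or_lt with h | h
    · exact Or.inr h
    · exact Or.inl (Cl.base (Or.inl h1) h)
  | zero h =>
    rcases (Order.lt_succ_iff.mp h).eq_or_lt with h | h
    · exact Or.inr h
    · exact Or.inl (Cl.zero h)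
  | @code γ n l h1 h2 hv h3 ih1 ih2 =>
    rcases (Order.lt_succ_iff.mp h3).eq_or_lt with h | h
    · exact Or.inr h
    · refine Or.inl (Cl.code ?_ ?_ hv h)
      · rcases ih1 with h4 | h4
        · exact h4
        · exact absurd ((le_mk γ n l).trans_lt h) (by rw [Set.mem_singleton_iff.mp h4]; exact lt_irrefl _)
      · intro a ha
        rcases ih2 a ha with h4 | h4
        · exact h4
        · exact absurd (((hv a ha).trans_le (le_mk γ n l)).trans h)
            (by rw [Set.mem_singleton_iff.mp h4]; exact lt_irrefl _)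
  | @lev x _ ih =>
    rcases ih with h | h
    · exact Or.inl (Cl.lev h)
    · rw [Set.mem_singleton_iff.mp h]
      rcases (lev_le ζ).eq_or_lt with h' | h'
      · exact Or.inr h'
      · exact Or.inl (Cl.base (Or.inr (Or.inl rfl)) h')
  | @par x a _ ha ih =>
    rcases ih with h | h
    · exact Or.inl (Cl.par h ha)
    · rw [Set.mem_singleton_iff.mp h] at ha
      exact Or.inl (Cl.base (Or.inr (Or.inr (Or.inr ha))) (par_lt_self ha))
  | @hf x _ ih =>
    rcases ih with h | h
    · exact Or.inl (Cl.hf h)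
    · rw [Set.mem_singleton_iff.mp h]
      rcases (hf_le_self (A := A) ζ).eq_or_lt with h' | h'
      · exact Or.inr h'
      · exact Or.inl (Cl.base (Or.inr (Or.inr (Or.inl rfl))) h')

namespace Clsd

theorem nat_mem (hX : Clsd A η X) (hη : ω ≤ η) (n : ℕ) : (n : Ord) ∈ X := by
  have h0 : (0 : Ord) ∈ X := hX.zero' (Ordinal.omega0_pos.trans_le hη)
  have := hX.code' 0 n [] h0 (by simp) (by simp)
  rw [mk_zero] at this
  exact this ((Ordinal.natCast_lt_omega0 n).trans_le hη)

theorem omega_mem (hX : Clsd A η X) (hη : ω < η) : ω ∈ X := by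
  have h1 : ((1 : ℕ) : Ord) ∈ X := hX.nat_mem hη.le 1
  rw [Nat.cast_one] at h1
  have := hX.code' 1 0 [] h1 (by simp) (by simp)
  rw [mk_one] at this
  exact this hη

end Clsd

theorem exists_otp_eq {β y : Ord} (h : β < otp X y) : ∃ z ∈ X, z < y ∧ otp X z = β := by
  induction y using WellFoundedLT.induction with
  | ind y ih =>
    have h1 : ¬ otp X y ≤ β := not_le.mpr h
    rw [otp_le_iff] at h1
    push Not at h1
    obtain ⟨z, hz, hzy, hβ⟩ := h1
    rcases hβ.eq_or_lt with h2 | h2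
    · exact ⟨z, hz, hzy, h2.symm⟩
    · obtain ⟨z', h3, h4, h5⟩ := ih z hzy h2
      exact ⟨z', h3, h4.trans hzy, h5⟩

theorem otp_lt_iff {x y : Ord} (hx : x ∈ X) : otp X x < otp X y ↔ x < y := by
  refine ⟨fun h => ?_, fun h => otp_lt_otp hx h⟩
  by_contra hcon
  exact absurd (otp_mono (S := X) (not_lt.mp hcon)) (not_le.mpr h)

theorem otp_eq_iff {x y : Ord} (hx : x ∈ X) (hy : y ∈ X) : otp X x = otp X y ↔ x = y :=
  ⟨fun h => otp_injOn X hx hy h, fun h => by rw [h]⟩

theorem otp_le_self (x : Ord) : otp X x ≤ x := by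
  induction x using WellFoundedLT.induction with
  | ind x ih =>
    rw [otp_le_iff]
    intro y _ hyx
    exact (ih y hyx).trans_lt hyx

theorem otp_eq_self {x : Ord} (h : Iio x ⊆ X) : otp X x = x := by
  induction x using WellFoundedLT.induction with
  | ind x ih =>
    apply le_antisymm (otp_le_self x)
    by_contra hcon
    push Not at hcon
    have h1 := ih _ hcon (fun y hy => h (lt_trans hy hcon))
    have h2 := otp_lt_otp (S := X) (h hcon) hcon
    rw [h1] at h2
    exact lt_irrefl _ h2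

theorem otp_zero : otp X 0 = 0 := le_antisymm (otp_le_self 0) zero_le

theorem tlt_map {t u : Tup} (ht : t.1 ∈ X ∧ ∀ a ∈ t.2.2, a ∈ X) (hu : u.1 ∈ X ∧ ∀ a ∈ u.2.2, a ∈ X) :
    tlt (otp X t.1, t.2.1, t.2.2.map (otp X)) (otp X u.1, u.2.1, u.2.2.map (otp X)) ↔ tlt t u := by
  rw [tlt_def, tlt_def]
  simp only [otp_lt_iff ht.1, otp_eq_iff ht.1 hu.1, List.shortlex_def, List.length_map]
  have key : ∀ l k : List Ord, (∀ a ∈ l, a ∈ X) → (∀ a ∈ k, a ∈ X) →
      (List.Lex (· < ·) (l.map (otp X)) (k.map (otp X)) ↔ List.Lex (· < ·) l k) := by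
    intro l
    induction l with
    | nil =>
      intro k _ _
      cases k with
      | nil => simp
      | cons b k => simp
    | cons a l ih =>
      intro k hl hk
      cases k with
      | nil => simp
      | cons b k =>
        rw [List.map_cons, List.map_cons, List.cons_lex_cons_iff, List.cons_lex_cons_iff,
          otp_lt_iff (hl a List.mem_cons_self),
          otp_eq_iff (hl a List.mem_cons_self) (hk b List.mem_cons_self),
          ih k (fun c hc => hl c (List.mem_cons_of_mem _ hc))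
            (fun c hc => hk c (List.mem_cons_of_mem _ hc))]
  rw [key _ _ ht.2 hu.2]

end Pool.Agent.Lib.MP_7295f2_lc.LA

end

section

/-!
# Condensation for the ordinal machine
-/

open Ordinal Set

namespace Pool.Agent.Lib.MP_7295f2_lc.LA

variable {A A' : Ord → Ord → Ord → Prop} {ζ η z : Ord} {X Y Z : Set Ord}

theorem exists_list_map {β : Ord} {y : Ord} (hβ : β ≤ otp X y) (k : List Ord)
    (hk : ∀ b ∈ k, b < β) : ∃ l : List Ord, (∀ a ∈ l, a ∈ X) ∧ l.map (otp X) = k := by
  induction k with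
  | nil => exact ⟨[], by simp, rfl⟩
  | cons b k ih =>
    obtain ⟨l, h1, h2⟩ := ih fun c hc => hk c (List.mem_cons_of_mem _ hc)
    obtain ⟨a, ha, _, hab⟩ := exists_otp_eq ((hk b List.mem_cons_self).trans_le hβ)
    refine ⟨a :: l, ?_, ?_⟩
    · intro c hc
      rcases List.mem_cons.mp hc with rfl | hc
      · exact ha
      · exact h1 c hc
    · rw [List.map_cons, hab, h2]

theorem valid_map {γ : Ord} {l : List Ord} (hl : ∀ a ∈ l, a ∈ X) :
    (∀ a ∈ l.map (otp X), a < otp X γ) ↔ ∀ a ∈ l, a < γ := by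
  constructor
  · intro h a ha
    exact (otp_lt_iff (hl a ha)).mp (h _ (List.mem_map_of_mem ha))
  · intro h b hb
    obtain ⟨a, ha, rfl⟩ := List.mem_map.mp hb
    exact otp_lt_otp (hl a ha) (h a ha)

namespace Clsd

theorem lev_par (hX : Clsd A η X) {x : Ord} (hx : x ∈ X) : lev x ∈ X ∧ ∀ a ∈ par x, a ∈ X :=
  ⟨hX.lev' x hx, hX.par' x hx⟩

theorem col_eq (hX : Clsd A η X) {x : Ord} (hx : x ∈ X) :
    otp X x = mk (otp X (lev x)) (num x) ((par x).map (otp X)) := by
  induction x using WellFoundedLT.induction with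
  | ind x ih =>
    have hxX := hX.lev_par hx
    apply le_antisymm
    · rw [otp_le_iff]
      intro y hy hyx
      rw [ih y hyx hy]
      apply code_lt_code
      · exact (valid_map (hX.par' y hy)).mpr fun a ha => par_lt ha
      · have h1 : tlt (tup y) (tup x) := by
          rw [← code_lt_code_iff (valid_tup y) (valid_tup x), code_tup, code_tup]
          exact hyx
        exact (tlt_map (t := tup y) (u := tup x) (hX.lev_par hy) hxX).mpr h1
    · unfold mk
      rw [code_le_iff]
      rintro ⟨β, m, k⟩ hu hut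
      have hβ : β ≤ otp X (lev x) := by
        rcases tlt_def.mp hut with h | h
        · exact h.le
        · exact h.1.le
      obtain ⟨γ, hγ, hγβ⟩ : ∃ γ ∈ X, otp X γ = β := by
        rcases hβ.eq_or_lt with h | h
        · exact ⟨_, hxX.1, h.symm⟩
        · obtain ⟨γ, h1, _, h2⟩ := exists_otp_eq h
          exact ⟨γ, h1, h2⟩
      obtain ⟨l, hl, hlk⟩ := exists_list_map hβ k hu
      subst hγβ hlk
      have hv : ∀ a ∈ l, a < γ := (valid_map hl).mp hu
      have h1 : tlt (γ, m, l) (tup x) := (tlt_map (t := (γ, m, l)) (u := tup x) ⟨hγ, hl⟩ hxX).mp hut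
      have h2 : mk γ m l < x := by
        have := code_lt_code (u := (γ, m, l)) hv h1
        rwa [code_tup] at this
      have h3 : mk γ m l ∈ X := hX.code' γ m l hγ hl hv (h2.trans (hX.sub x hx))
      have h4 := ih _ h2 h3
      rw [lev_mk hv, num_mk hv, par_mk hv] at h4
      have h5 := otp_lt_otp h3 h2
      rw [h4] at h5
      exact h5

theorem lev_col (hX : Clsd A η X) {x : Ord} (hx : x ∈ X) :
    lev (otp X x) = otp X (lev x) := by
  rw [hX.col_eq hx]
  exact lev_mk ((valid_map (hX.par' x hx)).mpr fun a ha => par_lt ha)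

theorem num_col (hX : Clsd A η X) {x : Ord} (hx : x ∈ X) : num (otp X x) = num x := by
  rw [hX.col_eq hx]
  exact num_mk ((valid_map (hX.par' x hx)).mpr fun a ha => par_lt ha)

theorem par_col (hX : Clsd A η X) {x : Ord} (hx : x ∈ X) :
    par (otp X x) = (par x).map (otp X) := by
  rw [hX.col_eq hx]
  exact par_mk ((valid_map (hX.par' x hx)).mpr fun a ha => par_lt ha)

theorem col_mk (hX : Clsd A η X) {γ : Ord} {n : ℕ} {l : List Ord}
    (hv : ∀ a ∈ l, a < γ) (h : mk γ n l ∈ X) :
    otp X (mk γ n l) = mk (otp X γ) n (l.map (otp X)) := by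
  rw [hX.col_eq h, lev_mk hv, num_mk hv, par_mk hv]

theorem col_nat (hX : Clsd A η X) (hη : ω ≤ η) (n : ℕ) : otp X (n : Ord) = n := by
  apply otp_eq_self
  intro y hy
  obtain ⟨m, rfl⟩ := Ordinal.lt_omega0.mp (lt_trans hy (Ordinal.natCast_lt_omega0 n))
  exact hX.nat_mem hη m

theorem col_eq_nat (hX : Clsd A η X) (hη : ω ≤ η) {x : Ord} (hx : x ∈ X) {n : ℕ} :
    otp X x = n ↔ x = n := by
  rw [← hX.col_nat hη n, otp_eq_iff hx (hX.nat_mem hη n), hX.col_nat hη n]

/-- Condensation for satisfaction and for the sets computed by the machine. -/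
theorem col_D (hX : Clsd A η X) (hη : ω ≤ η)
    (hA : ∀ i ∈ X, ∀ j ∈ X, ∀ k ∈ X, (A i j k ↔ A' (otp X i) (otp X j) (otp X k))) {x : Ord}
    (hx : x ∈ X) : ∀ w ∈ X, (w ∈ D A x ↔ otp X w ∈ D A' (otp X x)) := by
  induction x using WellFoundedLT.induction with
  | ind x ih =>
    set γ := lev x with hγ
    have hγX : γ ∈ X := hX.lev' x hx
    have key : ∀ φ : Fm, enc φ ≤ num x → ∀ e : Env, (∀ i, e i ∈ X ∧ e i < γ) →
        (Sat A (D A) (Iio γ) φ e ↔ Sat A' (D A') (Iio (otp X γ)) φ fun i => otp X (e i)) := by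
      intro φ
      induction φ with
      | lt i j =>
        intro _ e he
        simp only [Sat]
        rw [otp_lt_iff (he i).1]
      | aa i j k =>
        intro _ e he
        simp only [Sat]
        exact hA _ (he i).1 _ (he j).1 _ (he k).1
      | lev i j =>
        intro _ e he
        simp only [Sat]
        rw [hX.lev_col (he j).1, otp_eq_iff (he i).1 (hX.lev' _ (he j).1)]
      | num i j =>
        intro _ e he
        simp only [Sat]
        rw [hX.num_col (he j).1, hX.col_eq_nat hη (he i).1]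
      | len i j =>
        intro _ e he
        simp only [Sat]
        rw [hX.par_col (he j).1, List.length_map, hX.col_eq_nat hη (he i).1]
      | par i j k =>
        intro _ e he
        simp only [Sat]
        refine exists_congr fun m => ?_
        rw [hX.col_eq_nat hη (he j).1, hX.par_col (he k).1, List.getElem?_map]
        refine and_congr_right fun _ => ?_
        cases h : (par (e k))[m]? with
        | none => simp
        | some a =>
          simp only [Option.map_some, Option.some.injEq]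
          rw [otp_eq_iff (hX.par' _ (he k).1 a (List.mem_of_getElem? h)) (he i).1]
      | dd i j =>
        intro _ e he
        simp only [Sat]
        exact ih (e j) ((he j).2.trans_le (lev_le x)) (he j).1 (e i) (he i).1
      | neg φ ihφ =>
        intro hn e he
        simp only [Sat]
        rw [ihφ (by simp only [enc] at hn; omega) e he]
      | and φ ψ ihφ ihψ =>
        intro hn e he
        simp only [Sat]
        simp only [enc] at hn
        have h1 := Nat.left_le_pair (enc φ) (enc ψ)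
        have h2 := Nat.right_le_pair (enc φ) (enc ψ)
        rw [ihφ (by omega) e he, ihψ (by omega) e he]
      | ex φ ihφ =>
        intro hn e he
        simp only [Sat]
        simp only [enc] at hn
        have hcons : ∀ (y : Ord), (fun i => otp X (cons y e i)) = cons (otp X y) fun i => otp X (e i) := by
          intro y
          funext i
          cases i <;> rfl
        have h0γ : 0 < γ := lt_of_le_of_lt zero_le (he 0).2
        constructor
        · rintro ⟨y, hy, hsat⟩
          set l : List Ord := (List.range (bd φ)).map e with hl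
          have hlX : ∀ a ∈ l, a ∈ X ∧ a < γ := by
            intro a ha
            obtain ⟨i, _, rfl⟩ := List.mem_map.mp ha
            exact he i
          have hv : ∀ a ∈ l, a < γ := fun a ha => (hlX a ha).2
          have hc : mk γ (enc φ) l < x := by
            have := mk_lt_of_num (n := enc φ) (n' := num x) (l := l) (l' := par x) hv (by omega)
            rwa [hγ, mk_eta] at this
          have hcX : mk γ (enc φ) l ∈ X :=
            hX.code' γ (enc φ) l hγX (fun a ha => (hlX a ha).1) hv (hc.trans (hX.sub x hx))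
          have hsame : ∀ w, Sat A (D A) (Iio γ) φ (cons w (lenv l)) ↔
              Sat A (D A) (Iio γ) φ (cons w e) := by
            intro w
            apply sat_congr
            intro i hi
            cases i with
            | zero => rfl
            | succ i =>
              simp only [cons_succ, lenv, hl]
              rw [List.getD_eq_getElem?_getD, List.getElem?_map, List.getElem?_range (by omega)]
              rfl
          have hne : (D A (mk γ (enc φ) l)).Nonempty := ⟨y, (mem_D_mk hv).mpr ⟨hy, (hsame y).mpr hsat⟩⟩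
          obtain ⟨h1, h2⟩ := (mem_D_mk hv).mp (hf_mem hne)
          have h3 : hf A (mk γ (enc φ) l) ∈ X := hX.hf' _ hcX
          refine ⟨otp X (hf A (mk γ (enc φ) l)), otp_lt_otp h3 h1, ?_⟩
          have h4 := (ihφ (by omega) (cons (hf A (mk γ (enc φ) l)) e) (by
            intro i
            cases i with
            | zero => exact ⟨h3, h1⟩
            | succ i => exact he i)).mp ((hsame _).mp h2)
          rwa [hcons] at h4
        · rintro ⟨y', hy', hsat⟩
          obtain ⟨y, hy, hyγ, rfl⟩ := exists_otp_eq (Set.mem_Iio.mp hy')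
          refine ⟨y, hyγ, ?_⟩
          refine (ihφ (by omega) (cons y e) (by
            intro i
            cases i with
            | zero => exact ⟨hy, hyγ⟩
            | succ i => exact he i)).mpr ?_
          rwa [hcons]
    intro w hw
    rw [mem_D, mem_D, hX.lev_col hx, hX.num_col hx, hX.par_col hx, otp_lt_iff hw]
    refine and_congr_right fun hwγ => exists_congr fun φ => and_congr_right fun hφ => ?_
    have h0γ : 0 < γ := lt_of_le_of_lt zero_le hwγ
    have h0X : (0 : Ord) ∈ X := hX.zero' (h0γ.trans (hX.sub γ hγX))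
    rw [key φ hφ.le (cons w (lenv (par x))) (by
      intro i
      cases i with
      | zero => exact ⟨hw, hwγ⟩
      | succ i =>
        refine ⟨?_, lenv_lt h0γ (fun a ha => par_lt ha) i⟩
        simp only [cons_succ, lenv]
        rw [List.getD_eq_getElem?_getD]
        cases h : (par x)[i]? with
        | none => simpa using h0X
        | some a => simpa using hX.par' x hx a (List.mem_of_getElem? h))]
    have : (fun i => otp X (cons w (lenv (par x)) i)) =
        cons (otp X w) (lenv ((par x).map (otp X))) := by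
      funext i
      cases i with
      | zero => rfl
      | succ i =>
        simp only [cons_succ, lenv]
        rw [List.getD_eq_getElem?_getD, List.getD_eq_getElem?_getD, List.getElem?_map]
        cases h : (par x)[i]? with
        | none => simp [otp_zero]
        | some a => simp
    rw [this]

theorem D_col (hX : Clsd A η X) (hη : ω ≤ η)
    (hA : ∀ i ∈ X, ∀ j ∈ X, ∀ k ∈ X, (A i j k ↔ A' (otp X i) (otp X j) (otp X k))) {x : Ord}
    (hx : x ∈ X) : D A' (otp X x) = otp X '' (D A x ∩ X) := by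
  ext w'
  constructor
  · intro h
    have h1 := D_lt_self h
    obtain ⟨w, hw, _, rfl⟩ := exists_otp_eq h1
    exact ⟨w, ⟨(hX.col_D hη hA hx w hw).mpr h, hw⟩, rfl⟩
  · rintro ⟨w, ⟨h1, h2⟩, rfl⟩
    exact (hX.col_D hη hA hx w h2).mp h1

theorem hf_col (hX : Clsd A η X) (hη : ω ≤ η)
    (hA : ∀ i ∈ X, ∀ j ∈ X, ∀ k ∈ X, (A i j k ↔ A' (otp X i) (otp X j) (otp X k))) {x : Ord}
    (hx : x ∈ X) : hf A' (otp X x) = otp X (hf A x) := by
  by_cases hne : (D A x).Nonempty
  · have h1 := hf_mem hne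
    have h2 := hX.hf' x hx
    have h3 := (hX.col_D hη hA hx _ h2).mp h1
    apply le_antisymm (hf_le h3)
    have h4 := hf_mem ⟨_, h3⟩
    rw [hX.D_col hη hA hx] at h4
    obtain ⟨w, ⟨h5, h6⟩, h7⟩ := h4
    rw [← h7]
    exact otp_mono (hf_le h5)
  · have hne' : ¬ (D A' (otp X x)).Nonempty := by
      rw [hX.D_col hη hA hx]
      rintro ⟨_, w, ⟨h1, _⟩, _⟩
      exact hne ⟨w, h1⟩
    rw [hf_eq_zero hne, hf_eq_zero hne', otp_zero]

/-- Condensation for closures. -/
theorem col_cl (hX : Clsd A η X) (hη : ω ≤ η)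
    (hA : ∀ i ∈ X, ∀ j ∈ X, ∀ k ∈ X, (A i j k ↔ A' (otp X i) (otp X j) (otp X k)))
    (hzη : z ≤ η) (hY : Y ⊆ X) : otp X '' cl A z Y = cl A' (otp X z) (otp X '' Y) := by
  apply Subset.antisymm
  · rintro _ ⟨x, hx, rfl⟩
    have key : ∀ x, Cl A z Y x → x ∈ X ∧ Cl A' (otp X z) (otp X '' Y) (otp X x) := by
      intro x hx
      induction hx with
      | @base y h1 h2 => exact ⟨hY h1, Cl.base ⟨y, h1, rfl⟩ (otp_lt_otp (hY h1) h2)⟩
      | zero h =>
        have h0 := hX.zero' (h.trans_le hzη)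
        refine ⟨h0, ?_⟩
        have h2 := otp_lt_otp h0 h
        rw [otp_zero] at h2 ⊢
        exact Cl.zero h2
      | @code γ n l h1 h2 hv h3 ih1 ih2 =>
        have h4 := hX.code' γ n l ih1.1 (fun a ha => (ih2 a ha).1) hv (h3.trans_le hzη)
        refine ⟨h4, ?_⟩
        have h5 := otp_lt_otp h4 h3
        rw [hX.col_mk hv h4] at h5 ⊢
        refine Cl.code ih1.2 ?_ ((valid_map fun a ha => (ih2 a ha).1).mpr hv) h5
        intro b hb
        obtain ⟨a, ha, rfl⟩ := List.mem_map.mp hb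
        exact (ih2 a ha).2
      | lev _ ih =>
        refine ⟨hX.lev' _ ih.1, ?_⟩
        rw [← hX.lev_col ih.1]
        exact Cl.lev ih.2
      | @par x a _ ha ih =>
        refine ⟨hX.par' _ ih.1 _ ha, ?_⟩
        apply Cl.par ih.2
        rw [hX.par_col ih.1]
        exact List.mem_map_of_mem ha
      | hf _ ih =>
        refine ⟨hX.hf' _ ih.1, ?_⟩
        rw [← hX.hf_col hη hA ih.1]
        exact Cl.hf ih.2
    exact (key x hx).2
  · intro x' hx'
    have key : ∀ x', Cl A' (otp X z) (otp X '' Y) x' → ∃ x ∈ X, Cl A z Y x ∧ otp X x = x' := by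
      intro x' hx'
      induction hx' with
      | @base y h1 h2 =>
        obtain ⟨y, hy, rfl⟩ := h1
        exact ⟨y, hY hy, Cl.base hy ((otp_lt_iff (hY hy)).mp h2), rfl⟩
      | zero h =>
        obtain ⟨w, hw, hwz, _⟩ := exists_otp_eq h
        have h0 : (0 : Ord) < z := lt_of_le_of_lt zero_le hwz
        exact ⟨0, hX.zero' (h0.trans_le hzη), Cl.zero h0, otp_zero⟩
      | @code γ' n l' h1 h2 hv h3 ih1 ih2 =>
        obtain ⟨γ, hγ, hγ1, hγ2⟩ := ih1
        have hl : ∃ l : List Ord, (∀ a ∈ l, a ∈ X ∧ Cl A z Y a) ∧ l.map (otp X) = l' := by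
          clear h2 h3 hv
          induction l' with
          | nil => exact ⟨[], by simp, rfl⟩
          | cons b l' ih =>
            obtain ⟨l, g1, g2⟩ := ih fun c hc => ih2 c (List.mem_cons_of_mem _ hc)
            obtain ⟨a, g3, g4, g5⟩ := ih2 b List.mem_cons_self
            refine ⟨a :: l, ?_, ?_⟩
            · intro c hc
              rcases List.mem_cons.mp hc with rfl | hc
              · exact ⟨g3, g4⟩
              · exact g1 c hc
            · rw [List.map_cons, g5, g2]
        obtain ⟨l, g1, g2⟩ := hl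
        obtain ⟨c, hc, hcz, hcs⟩ := exists_otp_eq h3
        subst hγ2 g2
        have hvl : ∀ a ∈ l, a < γ := (valid_map fun a ha => (g1 a ha).1).mp hv
        have e1 : otp X (lev c) = otp X γ := by
          rw [← hX.lev_col hc, hcs, lev_mk hv]
        have e2 : num c = n := by
          rw [← hX.num_col hc, hcs, num_mk hv]
        have e3 : (par c).map (otp X) = l.map (otp X) := by
          rw [← hX.par_col hc, hcs, par_mk hv]
        have e1' := otp_injOn X (hX.lev' c hc) hγ e1
        have e3' : par c = l := by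
          have : ∀ l k : List Ord, (∀ a ∈ l, a ∈ X) → (∀ a ∈ k, a ∈ X) →
              l.map (otp X) = k.map (otp X) → l = k := by
            intro l
            induction l with
            | nil =>
              intro k _ _ h
              cases k with
              | nil => rfl
              | cons b k => simp at h
            | cons a l ih =>
              intro k hl hk h
              cases k with
              | nil => simp at h
              | cons b k =>
                simp only [List.map_cons, List.cons.injEq] at h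
                rw [otp_injOn X (hl a List.mem_cons_self) (hk b List.mem_cons_self) h.1,
                  ih k (fun c hc => hl c (List.mem_cons_of_mem _ hc))
                    (fun c hc => hk c (List.mem_cons_of_mem _ hc)) h.2]
          exact this _ _ (hX.par' c hc) (fun a ha => (g1 a ha).1) e3
        have hceq : mk γ n l = c := by
          rw [← e1', ← e2, ← e3']
          exact mk_eta c
        refine ⟨c, hc, ?_, hcs⟩
        rw [← hceq]
        exact Cl.code hγ1 (fun a ha => (g1 a ha).2) hvl (hceq ▸ hcz)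
      | lev _ ih =>
        obtain ⟨x, h1, h2, h3⟩ := ih
        exact ⟨_, hX.lev' x h1, Cl.lev h2, by rw [← hX.lev_col h1, h3]⟩
      | @par x' a' _ ha ih =>
        obtain ⟨x, h1, h2, h3⟩ := ih
        rw [← h3, hX.par_col h1] at ha
        obtain ⟨a, ha1, ha2⟩ := List.mem_map.mp ha
        exact ⟨a, hX.par' x h1 a ha1, Cl.par h2 ha1, ha2⟩
      | hf _ ih =>
        obtain ⟨x, h1, h2, h3⟩ := ih
        exact ⟨_, hX.hf' x h1, Cl.hf h2, by rw [← hX.hf_col hη hA h1, h3]⟩
    obtain ⟨x, _, h1, h2⟩ := key x' hx'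
    exact ⟨x, h1, h2⟩

end Clsd

end Pool.Agent.Lib.MP_7295f2_lc.LA

end

section

/-!
# Definability combinators
-/

open Ordinal Set

set_option linter.unusedVariables false

namespace Pool.Agent.Lib.MP_7295f2_lc.LA

variable {A : Ord → Ord → Ord → Prop}

/-- Renaming of variables. -/
def ren : (ℕ → ℕ) → Fm → Fm
  | r, .lt i j => .lt (r i) (r j)
  | r, .aa i j k => .aa (r i) (r j) (r k)
  | r, .lev i j => .lev (r i) (r j)
  | r, .num i j => .num (r i) (r j)
  | r, .len i j => .len (r i) (r j)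
  | r, .par i j k => .par (r i) (r j) (r k)
  | r, .dd i j => .dd (r i) (r j)
  | r, .neg φ => .neg (ren r φ)
  | r, .and φ ψ => .and (ren r φ) (ren r ψ)
  | r, .ex φ => .ex (ren (fun | 0 => 0 | i + 1 => r i + 1) φ)

theorem sat_ren {DD : Ord → Set Ord} {U : Set Ord} (φ : Fm) : ∀ (r : ℕ → ℕ) (e : Env),
    Sat A DD U (ren r φ) e ↔ Sat A DD U φ fun i => e (r i) := by
  induction φ with
  | neg φ ih => intro r e; simp only [ren, Sat]; rw [ih]
  | and φ ψ ih1 ih2 => intro r e; simp only [ren, Sat]; rw [ih1, ih2]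
  | ex φ ih =>
    intro r e
    simp only [ren, Sat]
    refine exists_congr fun y => and_congr_right fun _ => ?_
    rw [ih]
    have : (fun i => cons y e (match i with | 0 => 0 | i + 1 => r i + 1)) =
        cons y fun i => e (r i) := by
      funext i
      cases i <;> rfl
    rw [this]
  | _ => exact fun _ _ => Iff.rfl

/-- Possible universes: initial segments containing the natural numbers. -/
structure Lvl (U : Set Ord) : Prop where
  low : ∀ x ∈ U, ∀ y ≤ x, y ∈ U
  nat : ∀ n : ℕ, (n : Ord) ∈ U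

/-- Classes of universes. -/
structure LC where
  S : Set (Set Ord)
  h : ∀ U ∈ S, Lvl U

/-- Definability of a predicate, uniformly in the universes of the class. -/
def Dfn (A : Ord → Ord → Ord → Prop) (𝒰 : LC) (P : Set Ord → Env → Prop) : Prop :=
  ∃ φ, ∀ U ∈ 𝒰.S, ∀ e : Env, (∀ i, e i ∈ U) → (Sat A (D A) U φ e ↔ P U e)

/-- Definability of a function, uniformly in the universes of the class. -/
structure DfnF (A : Ord → Ord → Ord → Prop) (𝒰 : LC) (f : Set Ord → Env → Ord) : Prop where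
  maps : ∀ U ∈ 𝒰.S, ∀ e : Env, (∀ i, e i ∈ U) → f U e ∈ U
  graph : Dfn A 𝒰 fun U e => e 0 = f U fun i => e (i + 1)

variable {𝒰 : LC} {P Q : Set Ord → Env → Prop} {f g h : Set Ord → Env → Ord}

theorem cons_self (e : Env) : cons (e 0) (fun i => e (i + 1)) = e := by
  funext i
  cases i <;> rfl

theorem cons_mem {U : Set Ord} {y : Ord} {e : Env} (hy : y ∈ U) (he : ∀ i, e i ∈ U) :
    ∀ i, cons y e i ∈ U := by
  intro i
  cases i with
  | zero => exact hy
  | succ i => exact he i

theorem Dfn.congr (hP : Dfn A 𝒰 P) (h : ∀ U ∈ 𝒰.S, ∀ e : Env, (∀ i, e i ∈ U) → (P U e ↔ Q U e)) :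
    Dfn A 𝒰 Q := by
  obtain ⟨φ, hφ⟩ := hP
  exact ⟨φ, fun U hU e he => (hφ U hU e he).trans (h U hU e he)⟩

theorem DfnF.congr (hf : DfnF A 𝒰 f) (h : ∀ U ∈ 𝒰.S, ∀ e : Env, (∀ i, e i ∈ U) → f U e = g U e) :
    DfnF A 𝒰 g where
  maps U hU e he := by
    rw [← h U hU e he]
    exact hf.maps U hU e he
  graph := hf.graph.congr fun U hU e he => by rw [h U hU _ fun i => he (i + 1)]

theorem Dfn.ren (hP : Dfn A 𝒰 P) (r : ℕ → ℕ) : Dfn A 𝒰 fun U e => P U fun i => e (r i) := by
  obtain ⟨φ, hφ⟩ := hP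
  refine ⟨LA.ren r φ, fun U hU e he => ?_⟩
  rw [sat_ren]
  exact hφ U hU _ fun i => he (r i)

theorem DfnF.shift (hf : DfnF A 𝒰 f) : DfnF A 𝒰 fun U e => f U fun i => e (i + 1) where
  maps U hU e he := hf.maps U hU _ fun i => he (i + 1)
  graph := hf.graph.ren fun | 0 => 0 | i + 1 => i + 2

@[is_poly] theorem DfnF.var (i : ℕ) : DfnF A 𝒰 fun _ e => e i where
  maps U hU e he := he i
  graph := by
    refine ⟨.and (.neg (.lt 0 (i + 1))) (.neg (.lt (i + 1) 0)), fun U hU e he => ?_⟩
    simp only [Sat, not_lt]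
    rw [and_comm, ← le_antisymm_iff]

@[is_poly] theorem Dfn.not (hP : Dfn A 𝒰 P) : Dfn A 𝒰 fun U e => ¬ P U e := by
  obtain ⟨φ, hφ⟩ := hP
  exact ⟨.neg φ, fun U hU e he => not_congr (hφ U hU e he)⟩

@[is_poly] theorem Dfn.and (hP : Dfn A 𝒰 P) (hQ : Dfn A 𝒰 Q) : Dfn A 𝒰 fun U e => P U e ∧ Q U e := by
  obtain ⟨φ, hφ⟩ := hP
  obtain ⟨ψ, hψ⟩ := hQ
  exact ⟨.and φ ψ, fun U hU e he => and_congr (hφ U hU e he) (hψ U hU e he)⟩

@[is_poly] theorem Dfn.or (hP : Dfn A 𝒰 P) (hQ : Dfn A 𝒰 Q) : Dfn A 𝒰 fun U e => P U e ∨ Q U e :=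
  (hP.not.and hQ.not).not.congr fun U hU e he => by tauto

@[is_poly] theorem Dfn.imp (hP : Dfn A 𝒰 P) (hQ : Dfn A 𝒰 Q) : Dfn A 𝒰 fun U e => P U e → Q U e :=
  (hP.and hQ.not).not.congr fun U hU e he => by tauto

@[is_poly] theorem Dfn.iff (hP : Dfn A 𝒰 P) (hQ : Dfn A 𝒰 Q) : Dfn A 𝒰 fun U e => (P U e ↔ Q U e) :=
  ((hP.imp hQ).and (hQ.imp hP)).congr fun U hU e he => by tauto

@[is_poly] theorem Dfn.ex {P : Set Ord → Env → Ord → Prop}
    (hP : Dfn A 𝒰 fun U e => P U (fun i => e (i + 1)) (e 0)) :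
    Dfn A 𝒰 fun U e => ∃ y ∈ U, P U e y := by
  obtain ⟨φ, hφ⟩ := hP
  refine ⟨.ex φ, fun U hU e he => ?_⟩
  simp only [Sat]
  refine exists_congr fun y => and_congr_right fun hy => ?_
  exact hφ U hU (cons y e) (cons_mem hy he)

@[is_poly] theorem Dfn.all {P : Set Ord → Env → Ord → Prop}
    (hP : Dfn A 𝒰 fun U e => P U (fun i => e (i + 1)) (e 0)) :
    Dfn A 𝒰 fun U e => ∀ y ∈ U, P U e y :=
  (Dfn.ex (P := fun U e y => ¬ P U e y) hP.not).not.congr fun U hU e he => by
    push Not
    rfl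

theorem subst_aux (k : ℕ) : ∀ (t : ℕ → Set Ord → Env → Ord), (∀ i, DfnF A 𝒰 (t i)) → ∀ ψ : Fm,
    ∃ ψ' : Fm, ∀ U ∈ 𝒰.S, ∀ e : Env, (∀ i, e i ∈ U) → (Sat A (D A) U ψ' e ↔
      Sat A (D A) U ψ fun i => if i < k then t i U e else e (i - k)) := by
  induction k with
  | zero =>
    intro t ht ψ
    refine ⟨ψ, fun U hU e he => ?_⟩
    simp
  | succ k ih =>
    intro t ht ψ
    obtain ⟨ψ'', h⟩ := ih (fun i U e => t i U fun j => e (j + 1)) (fun i => (ht i).shift) ψ
    obtain ⟨χ, hχ⟩ := (ht k).graph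
    refine ⟨.ex (.and χ ψ''), fun U hU e he => ?_⟩
    simp only [Sat]
    have hcons : ∀ y, (fun i => if i < k then t i U (fun j => cons y e (j + 1)) else
        cons y e (i - k)) = fun i => if i < k then t i U e else cons y e (i - k) := fun y => rfl
    have hk : (fun i => if i < k then t i U e else cons (t k U e) e (i - k)) =
        fun i => if i < k + 1 then t i U e else e (i - (k + 1)) := by
      funext i
      rcases lt_trichotomy i k with h1 | h1 | h1
      · rw [if_pos h1, if_pos (by omega)]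
      · subst h1
        rw [if_neg (lt_irrefl _), if_pos (by omega), Nat.sub_self]
        rfl
      · rw [if_neg (by omega), if_neg (by omega)]
        obtain ⟨m, rfl⟩ : ∃ m, i = k + 1 + m := ⟨i - (k + 1), by omega⟩
        have e1 : k + 1 + m - k = m + 1 := by omega
        have e2 : k + 1 + m - (k + 1) = m := by omega
        rw [e1, e2]
        rfl
    constructor
    · rintro ⟨y, hy, h1, h2⟩
      rw [hχ U hU _ (cons_mem hy he)] at h1
      rw [h U hU _ (cons_mem hy he), hcons] at h2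
      have h3 : y = t k U e := h1
      rw [h3, hk] at h2
      exact h2
    · intro h2
      have hmem := (ht k).maps U hU e he
      refine ⟨t k U e, hmem, ?_, ?_⟩
      · rw [hχ U hU _ (cons_mem hmem he)]
        rfl
      · rw [h U hU _ (cons_mem hmem he), hcons, hk]
        exact h2

theorem Dfn.subst (hP : Dfn A 𝒰 P) {t : ℕ → Set Ord → Env → Ord} (ht : ∀ i, DfnF A 𝒰 (t i)) :
    Dfn A 𝒰 fun U e => P U fun i => t i U e := by
  obtain ⟨φ, hφ⟩ := hP
  obtain ⟨ψ, hψ⟩ := subst_aux (bd φ) t ht φ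
  refine ⟨ψ, fun U hU e he => ?_⟩
  refine (hψ U hU e he).trans (Iff.trans ?_ (hφ U hU _ fun i => (ht i).maps U hU e he))
  apply sat_congr
  intro i hi
  simp only [if_pos hi]

theorem DfnF.subst (hf : DfnF A 𝒰 f) {t : ℕ → Set Ord → Env → Ord} (ht : ∀ i, DfnF A 𝒰 (t i)) :
    DfnF A 𝒰 fun U e => f U fun i => t i U e where
  maps U hU e he := hf.maps U hU _ fun i => (ht i).maps U hU e he
  graph := by
    have := hf.graph.subst (t := fun i U e => match i with
      | 0 => e 0
      | i + 1 => t i U fun j => e (j + 1)) (by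
        intro i
        cases i with
        | zero => exact DfnF.var 0
        | succ i => exact (ht i).shift)
    exact this

/-- Build an environment from terms. -/
def tcons (f : Set Ord → Env → Ord) (t : ℕ → Set Ord → Env → Ord) : ℕ → Set Ord → Env → Ord
  | 0 => f
  | n + 1 => t n

theorem tcons_dfn {t : ℕ → Set Ord → Env → Ord} (hf : DfnF A 𝒰 f) (ht : ∀ i, DfnF A 𝒰 (t i)) :
    ∀ i, DfnF A 𝒰 (tcons f t i) := by
  intro i
  cases i with
  | zero => exact hf
  | succ i => exact ht i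

section comp

variable {f₁ f₂ f₃ f₄ f₅ f₆ : Set Ord → Env → Ord}

theorem Dfn.comp1 {R : Set Ord → Ord → Prop} (hR : Dfn A 𝒰 fun U e => R U (e 0))
    (h₁ : DfnF A 𝒰 f₁) : Dfn A 𝒰 fun U e => R U (f₁ U e) :=
  hR.subst (tcons_dfn h₁ DfnF.var)

theorem Dfn.comp2 {R : Set Ord → Ord → Ord → Prop} (hR : Dfn A 𝒰 fun U e => R U (e 0) (e 1))
    (h₁ : DfnF A 𝒰 f₁) (h₂ : DfnF A 𝒰 f₂) : Dfn A 𝒰 fun U e => R U (f₁ U e) (f₂ U e) :=
  hR.subst (tcons_dfn h₁ (tcons_dfn h₂ DfnF.var))

theorem Dfn.comp3 {R : Set Ord → Ord → Ord → Ord → Prop}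
    (hR : Dfn A 𝒰 fun U e => R U (e 0) (e 1) (e 2))
    (h₁ : DfnF A 𝒰 f₁) (h₂ : DfnF A 𝒰 f₂) (h₃ : DfnF A 𝒰 f₃) :
    Dfn A 𝒰 fun U e => R U (f₁ U e) (f₂ U e) (f₃ U e) :=
  hR.subst (tcons_dfn h₁ (tcons_dfn h₂ (tcons_dfn h₃ DfnF.var)))

theorem Dfn.comp4 {R : Set Ord → Ord → Ord → Ord → Ord → Prop}
    (hR : Dfn A 𝒰 fun U e => R U (e 0) (e 1) (e 2) (e 3))
    (h₁ : DfnF A 𝒰 f₁) (h₂ : DfnF A 𝒰 f₂) (h₃ : DfnF A 𝒰 f₃) (h₄ : DfnF A 𝒰 f₄) :
    Dfn A 𝒰 fun U e => R U (f₁ U e) (f₂ U e) (f₃ U e) (f₄ U e) :=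
  hR.subst (tcons_dfn h₁ (tcons_dfn h₂ (tcons_dfn h₃ (tcons_dfn h₄ DfnF.var))))

theorem Dfn.comp5 {R : Set Ord → Ord → Ord → Ord → Ord → Ord → Prop}
    (hR : Dfn A 𝒰 fun U e => R U (e 0) (e 1) (e 2) (e 3) (e 4))
    (h₁ : DfnF A 𝒰 f₁) (h₂ : DfnF A 𝒰 f₂) (h₃ : DfnF A 𝒰 f₃) (h₄ : DfnF A 𝒰 f₄)
    (h₅ : DfnF A 𝒰 f₅) :
    Dfn A 𝒰 fun U e => R U (f₁ U e) (f₂ U e) (f₃ U e) (f₄ U e) (f₅ U e) :=
  hR.subst (tcons_dfn h₁ (tcons_dfn h₂ (tcons_dfn h₃ (tcons_dfn h₄ (tcons_dfn h₅ DfnF.var)))))

theorem Dfn.comp6 {R : Set Ord → Ord → Ord → Ord → Ord → Ord → Ord → Prop}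
    (hR : Dfn A 𝒰 fun U e => R U (e 0) (e 1) (e 2) (e 3) (e 4) (e 5))
    (h₁ : DfnF A 𝒰 f₁) (h₂ : DfnF A 𝒰 f₂) (h₃ : DfnF A 𝒰 f₃) (h₄ : DfnF A 𝒰 f₄)
    (h₅ : DfnF A 𝒰 f₅) (h₆ : DfnF A 𝒰 f₆) :
    Dfn A 𝒰 fun U e => R U (f₁ U e) (f₂ U e) (f₃ U e) (f₄ U e) (f₅ U e) (f₆ U e) :=
  hR.subst (tcons_dfn h₁ (tcons_dfn h₂ (tcons_dfn h₃ (tcons_dfn h₄ (tcons_dfn h₅
    (tcons_dfn h₆ DfnF.var))))))

theorem DfnF.comp1 {R : Set Ord → Ord → Ord} (hR : DfnF A 𝒰 fun U e => R U (e 0))
    (h₁ : DfnF A 𝒰 f₁) : DfnF A 𝒰 fun U e => R U (f₁ U e) :=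
  hR.subst (tcons_dfn h₁ DfnF.var)

theorem DfnF.comp2 {R : Set Ord → Ord → Ord → Ord} (hR : DfnF A 𝒰 fun U e => R U (e 0) (e 1))
    (h₁ : DfnF A 𝒰 f₁) (h₂ : DfnF A 𝒰 f₂) : DfnF A 𝒰 fun U e => R U (f₁ U e) (f₂ U e) :=
  hR.subst (tcons_dfn h₁ (tcons_dfn h₂ DfnF.var))

theorem DfnF.comp3 {R : Set Ord → Ord → Ord → Ord → Ord}
    (hR : DfnF A 𝒰 fun U e => R U (e 0) (e 1) (e 2))
    (h₁ : DfnF A 𝒰 f₁) (h₂ : DfnF A 𝒰 f₂) (h₃ : DfnF A 𝒰 f₃) :
    DfnF A 𝒰 fun U e => R U (f₁ U e) (f₂ U e) (f₃ U e) :=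
  hR.subst (tcons_dfn h₁ (tcons_dfn h₂ (tcons_dfn h₃ DfnF.var)))

theorem DfnF.comp4 {R : Set Ord → Ord → Ord → Ord → Ord → Ord}
    (hR : DfnF A 𝒰 fun U e => R U (e 0) (e 1) (e 2) (e 3))
    (h₁ : DfnF A 𝒰 f₁) (h₂ : DfnF A 𝒰 f₂) (h₃ : DfnF A 𝒰 f₃) (h₄ : DfnF A 𝒰 f₄) :
    DfnF A 𝒰 fun U e => R U (f₁ U e) (f₂ U e) (f₃ U e) (f₄ U e) :=
  hR.subst (tcons_dfn h₁ (tcons_dfn h₂ (tcons_dfn h₃ (tcons_dfn h₄ DfnF.var))))

end comp

@[is_poly] theorem Dfn.lt (hf : DfnF A 𝒰 f) (hg : DfnF A 𝒰 g) : Dfn A 𝒰 fun U e => f U e < g U e :=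
  Dfn.comp2 (R := fun _ x y => x < y) ⟨.lt 0 1, fun U hU e he => Iff.rfl⟩ hf hg

@[is_poly] theorem Dfn.le (hf : DfnF A 𝒰 f) (hg : DfnF A 𝒰 g) : Dfn A 𝒰 fun U e => f U e ≤ g U e :=
  (Dfn.lt hg hf).not.congr fun U hU e he => not_lt

@[is_poly] theorem Dfn.eq (hf : DfnF A 𝒰 f) (hg : DfnF A 𝒰 g) : Dfn A 𝒰 fun U e => f U e = g U e :=
  ((Dfn.le hf hg).and (Dfn.le hg hf)).congr fun U hU e he => (le_antisymm_iff).symm

@[is_poly] theorem Dfn.mem (hf : DfnF A 𝒰 f) (hg : DfnF A 𝒰 g) :
    Dfn A 𝒰 fun U e => f U e ∈ D A (g U e) :=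
  Dfn.comp2 (R := fun _ x y => x ∈ D A y) ⟨.dd 0 1, fun U hU e he => Iff.rfl⟩ hf hg

@[is_poly] theorem Dfn.aa (hf : DfnF A 𝒰 f) (hg : DfnF A 𝒰 g) (hh : DfnF A 𝒰 h) :
    Dfn A 𝒰 fun U e => A (f U e) (g U e) (h U e) :=
  Dfn.comp3 (R := fun _ x y z => A x y z) ⟨.aa 0 1 2, fun U hU e he => Iff.rfl⟩ hf hg hh

@[is_poly] theorem DfnF.lev (hf : DfnF A 𝒰 f) : DfnF A 𝒰 fun U e => lev (f U e) :=
  DfnF.comp1 (R := fun _ x => LA.lev x) ⟨fun U hU e he => (𝒰.h U hU).low _ (he 0) _ (lev_le _),
    ⟨.lev 0 1, fun U hU e he => Iff.rfl⟩⟩ hf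

@[is_poly] theorem DfnF.num (hf : DfnF A 𝒰 f) : DfnF A 𝒰 fun U e => (num (f U e) : Ord) :=
  DfnF.comp1 (R := fun _ x => (LA.num x : Ord)) ⟨fun U hU e he => (𝒰.h U hU).nat _,
    ⟨.num 0 1, fun U hU e he => Iff.rfl⟩⟩ hf

@[is_poly] theorem DfnF.len (hf : DfnF A 𝒰 f) : DfnF A 𝒰 fun U e => ((par (f U e)).length : Ord) :=
  DfnF.comp1 (R := fun _ x => ((LA.par x).length : Ord)) ⟨fun U hU e he => (𝒰.h U hU).nat _,
    ⟨.len 0 1, fun U hU e he => Iff.rfl⟩⟩ hf

theorem Dfn.exlt {P : Set Ord → Env → Ord → Prop} (hf : DfnF A 𝒰 f)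
    (hP : Dfn A 𝒰 fun U e => P U (fun i => e (i + 1)) (e 0)) :
    Dfn A 𝒰 fun U e => ∃ y < f U e, P U e y := by
  refine (Dfn.ex (P := fun U e y => y < f U e ∧ P U e y) ((Dfn.lt (DfnF.var 0) hf.shift).and hP)).congr ?_
  intro U hU e he
  constructor
  · rintro ⟨y, _, h1, h2⟩
    exact ⟨y, h1, h2⟩
  · rintro ⟨y, h1, h2⟩
    exact ⟨y, (𝒰.h U hU).low _ (hf.maps U hU e he) _ h1.le, h1, h2⟩

theorem Dfn.alllt {P : Set Ord → Env → Ord → Prop} (hf : DfnF A 𝒰 f)
    (hP : Dfn A 𝒰 fun U e => P U (fun i => e (i + 1)) (e 0)) :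
    Dfn A 𝒰 fun U e => ∀ y < f U e, P U e y :=
  (Dfn.exlt (P := fun U e y => ¬ P U e y) hf hP.not).not.congr fun U hU e he => by
    push Not
    rfl

@[is_poly] theorem DfnF.nat (n : ℕ) : DfnF A 𝒰 fun _ _ => (n : Ord) := by
  refine ⟨fun U hU e he => (𝒰.h U hU).nat n, ?_⟩
  induction n with
  | zero =>
    refine (Dfn.not (Dfn.exlt (f := fun _ e => e 0) (P := fun _ _ _ => True) (DfnF.var 0)
      ⟨.neg (.lt 0 0), fun U hU e he => by simp [Sat]⟩)).congr fun U hU e he => ?_
    simp only [and_true, not_exists, not_lt, Nat.cast_zero]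
    constructor
    · intro h
      exact le_antisymm (h 0) zero_le
    · intro h x
      rw [h]
      exact zero_le
  | succ n ih =>
    have hF : DfnF A 𝒰 fun _ _ => (n : Ord) := ⟨fun U hU e he => (𝒰.h U hU).nat n, ih⟩
    refine ((Dfn.lt hF (DfnF.var 0)).and (Dfn.alllt (f := fun _ e => e 0)
      (P := fun _ _ y => y ≤ (n : Ord)) (DfnF.var 0) (Dfn.le (DfnF.var 0) hF))).congr fun U hU e he => ?_
    push_cast
    rw [← Order.add_one_le_iff]
    constructor
    · rintro ⟨h1, h2⟩
      apply le_antisymm _ h1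
      by_contra hcon
      exact absurd (h2 _ (not_le.mp hcon)) (not_le.mpr (Order.lt_add_one_iff.mpr le_rfl))
    · intro h
      refine ⟨h.ge, fun y hy => ?_⟩
      rw [h] at hy
      exact Order.lt_add_one_iff.mp hy

@[is_poly] theorem DfnF.zero : DfnF A 𝒰 fun _ _ => (0 : Ord) := by
  have := DfnF.nat (A := A) (𝒰 := 𝒰) 0
  rwa [Nat.cast_zero] at this

@[is_poly] theorem DfnF.one : DfnF A 𝒰 fun _ _ => (1 : Ord) := by
  have := DfnF.nat (A := A) (𝒰 := 𝒰) 1
  rwa [Nat.cast_one] at this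

@[is_poly] theorem DfnF.ofNat (n : ℕ) [n.AtLeastTwo] : DfnF A 𝒰 fun _ _ => (OfNat.ofNat n : Ord) := by
  have := DfnF.nat (A := A) (𝒰 := 𝒰) n
  rwa [← Nat.cast_ofNat]

attribute [is_poly] Dfn.exlt Dfn.alllt

end Pool.Agent.Lib.MP_7295f2_lc.LA

end
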