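import Pool.Agent.Lib.MP_7295f2_lc.LComb

section

/-!
# Ordinals, pairs and functions of the model
-/

open Ordinal Set

set_option linter.unusedVariables false
set_option linter.unusedSectionVars false

namespace Pool.Agent.Lib.MP_7295f2_lc.LA

variable {A : Ord → Ord → Ord → Prop} {P Q : Set Ord → Env → Prop}
  {f g h : Set Ord → Env → Ord}

theorem ext_MM {x y : MM A} (h : ∀ z, EE A z x ↔ EE A z y) : x = y :=
  (modelsZFC A).extensionality x y h

theorem EE_irrefl (x : MM A) : ¬ EE A x x := ZFSet.mem_irrefl x.1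

/-- Images of initial segments under definable functions are internal. -/
theorem int_image (hf : DfnF A GG f) (p : Env) (α : Ord) :
    Int A {u | ∃ i < α, u = ev f (cons i p)} := by
  have h1 : Dfn A GG fun U e => ∃ i < e 1, e 0 = f U (cons i fun j => e (j + 2)) := by
    refine Dfn.exlt (DfnF.var 1) (Dfn.eq (DfnF.var 1) ?_)
    exact DfnF.at hf 3 (DfnF.var 0)
  obtain ⟨x, hx⟩ := int_of_dfn' h1 (cons α p)
    (β := ⨆ i : Iio α, Order.succ (ev f (cons i.1 p))) (by
      rintro w ⟨i, hi, hw⟩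
      have hi' : i < α := hi
      have hw' : w = ev f (cons i p) := hw
      rw [hw']
      exact (Order.lt_succ _).trans_le (Ordinal.le_iSup
        (fun i : Iio α => Order.succ (ev f (cons i.1 p))) ⟨i, hi'⟩))
  exact ⟨x, hx⟩

/-- The canonical name of the ordinal `α`. -/
noncomputable def on (A : Ord → Ord → Ord → Prop) (α : Ord) : Ord :=
  recF A (fun α x => nm A {u | ∃ β < α, u = val A x β}) α

theorem on_G : DfnF A GG fun U e => (fun (_ : Env) (α x : Ord) =>
    nm A {u | ∃ β < α, u = val A x β}) (fun i => e (i + 2)) (e 0) (e 1) := by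
  apply DfnF.nm
  (apply_rules (transparency := .reducible) (maxDepth := 1000) using is_poly)

@[is_poly] theorem dfnF_on (h1 : DfnF A GG f) : DfnF A GG fun U e => on A (f U e) :=
  recF_dfn' (G := fun (_ : Env) (α x : Ord) => nm A {u | ∃ β < α, u = val A x β}) on_G 0 h1

theorem D_on (α : Ord) : D A (on A α) = {u | ∃ β < α, u = on A β} := by
  have hint : Int A {u | ∃ β < α, u = on A β} := by
    have h1 : DfnF A GG fun U e => on A (e 0) := by (apply_rules (transparency := .reducible) (maxDepth := 1000) using is_poly)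
    exact int_image h1 (fun _ => 0) α
  have h2 : on A α = nm A {u | ∃ β < α, u = on A β} := by
    unfold on
    rw [recF_eq]
    congr 1
    ext u
    have hv : ∀ β < α, val A (nm A (graphF A (fun α x => nm A {u | ∃ β < α, u = val A x β}) α)) β =
        recF A (fun α x => nm A {u | ∃ β < α, u = val A x β}) β := fun β hβ =>
      val_nm_graph (G := fun (_ : Env) (α x : Ord) => nm A {u | ∃ β < α, u = val A x β}) on_G
        (fun _ => 0) hβ
    constructor
    · rintro ⟨β, hβ, rfl⟩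
      exact ⟨β, hβ, hv β hβ⟩
    · rintro ⟨β, hβ, rfl⟩
      exact ⟨β, hβ, (hv β hβ).symm⟩
  rw [h2]
  exact D_nm hint

/-- The ordinal `α` in the model. -/
noncomputable def oz (A : Ord → Ord → Ord → Prop) (α : Ord) : MM A := km A (on A α)

theorem mem_oz {α : Ord} {z : MM A} : EE A z (oz A α) ↔ ∃ β < α, z = oz A β := by
  unfold oz
  rw [EE_iff, D_on]
  constructor
  · rintro ⟨_, ⟨β, hβ, rfl⟩, rfl⟩
    exact ⟨β, hβ, rfl⟩
  · rintro ⟨β, hβ, rfl⟩
    exact ⟨_, ⟨β, hβ, rfl⟩, rfl⟩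

theorem oz_inj {α β : Ord} (h : oz A α = oz A β) : α = β := by
  rcases lt_trichotomy α β with h1 | h1 | h1
  · have : EE A (oz A α) (oz A β) := mem_oz.mpr ⟨α, h1, rfl⟩
    rw [h] at this
    exact absurd this (EE_irrefl _)
  · exact h1
  · have : EE A (oz A β) (oz A α) := mem_oz.mpr ⟨β, h1, rfl⟩
    rw [h] at this
    exact absurd this (EE_irrefl _)

theorem oz_mem_iff {α β : Ord} : EE A (oz A α) (oz A β) ↔ α < β := by
  rw [mem_oz]
  constructor
  · rintro ⟨γ, hγ, h⟩
    rw [oz_inj h]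
    exact hγ
  · intro h
    exact ⟨α, h, rfl⟩

theorem isOrd_oz (α : Ord) : IsOrd (EE A) (oz A α) := by
  have key : ∀ α, IsTrans' (EE A) (oz A α) := by
    intro α y hy z hz
    obtain ⟨β, hβ, rfl⟩ := mem_oz.mp hy
    obtain ⟨γ, hγ, rfl⟩ := mem_oz.mp hz
    exact oz_mem_iff.mpr (hγ.trans hβ)
  refine ⟨key α, fun y hy => ?_⟩
  obtain ⟨β, hβ, rfl⟩ := mem_oz.mp hy
  exact key β

theorem exists_oz {x : MM A} (hx : IsOrd (EE A) x) : ∃ α, x = oz A α := by
  have key : ∀ z : ZFSet.{0}, ∀ x : MM A, x.1 = z → IsOrd (EE A) x → ∃ α, x = oz A α := by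
    intro z
    induction z using ZFSet.inductionOn with
    | _ z ih =>
      rintro x rfl hx
      have hmem : ∀ y, EE A y x → ∃ β, y = oz A β := by
        intro y hy
        refine ih y.1 hy y rfl ⟨hx.2 y hy, fun w hw => ?_⟩
        exact hx.2 w (hx.1 y hy w hw)
      classical
      obtain ⟨a, rfl⟩ := km_surj x
      set S : Set Ord := {β | EE A (oz A β) (km A a)} with hS
      have hne : (Sᶜ).Nonempty := by
        let F : Iio a → Ord := fun w => if h : ∃ β, km A w.1 = oz A β then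
          Order.succ h.choose else 0
        refine ⟨⨆ w, F w, fun hmemS => ?_⟩
        obtain ⟨w, hw, hwa⟩ := EE_iff.mp hmemS
        have h1 : ∃ β, km A w = oz A β := ⟨_, hwa⟩
        have h2 : Order.succ h1.choose ≤ ⨆ w, F w := by
          have := Ordinal.le_iSup F ⟨w, D_lt_self hw⟩
          simp only [F, dif_pos h1] at this
          exact this
        have h3 : h1.choose = ⨆ w, F w := oz_inj (h1.choose_spec.symm.trans hwa)
        rw [h3] at h2
        exact absurd h2 (not_le.mpr (Order.lt_succ _))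
      have hm := csInf_mem hne
      have hlt : ∀ β < sInf Sᶜ, β ∈ S := by
        intro β hβ
        by_contra hcon
        exact absurd (csInf_le' (s := Sᶜ) hcon) (not_le.mpr hβ)
      set α := sInf Sᶜ with hα
      refine ⟨α, ext_MM fun y => ?_⟩
      rw [mem_oz]
      constructor
      · intro hy
        obtain ⟨β, rfl⟩ := hmem y hy
        refine ⟨β, ?_, rfl⟩
        rcases lt_trichotomy β α with h1 | h1 | h1
        · exact h1
        · rw [h1] at hy
          exact absurd hy hm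
        · exact absurd (hx.1 _ hy _ (oz_mem_iff.mpr h1)) hm
      · rintro ⟨β, hβ, rfl⟩
        exact hlt β hβ
  exact key x.1 x rfl hx

/-- The name of an unordered pair. -/
noncomputable def up (A : Ord → Ord → Ord → Prop) (a b : Ord) : Ord := nm A {w | w = a ∨ w = b}

@[is_poly] theorem dfnF_up (h1 : DfnF A GG f) (h2 : DfnF A GG g) :
    DfnF A GG fun U e => up A (f U e) (g U e) := by
  refine DfnF.comp2 (R := fun _ x y => up A x y) ?_ h1 h2
  unfold up
  apply DfnF.nm
  (apply_rules (transparency := .reducible) (maxDepth := 1000) using is_poly)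

theorem D_up (a b : Ord) : D A (up A a b) = {w | w = a ∨ w = b} := by
  apply D_nm
  have h1 : Dfn A GG fun U e => e 0 = e 1 ∨ e 0 = e 2 := by (apply_rules (transparency := .reducible) (maxDepth := 1000) using is_poly)
  refine int_of_dfn' h1 (cons a (cons b fun _ => 0)) (β := max a b + 1) ?_
  rintro w (h | h)
  · have h' : w = a := h
    rw [h']
    exact Order.lt_add_one_iff.mpr (le_max_left _ _)
  · have h' : w = b := h
    rw [h']
    exact Order.lt_add_one_iff.mpr (le_max_right _ _)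

theorem mem_up {a b : Ord} {z : MM A} : EE A z (km A (up A a b)) ↔ z = km A a ∨ z = km A b := by
  rw [EE_iff, D_up]
  constructor
  · rintro ⟨w, rfl | rfl, rfl⟩
    · exact Or.inl rfl
    · exact Or.inr rfl
  · rintro (rfl | rfl)
    · exact ⟨a, Or.inl rfl, rfl⟩
    · exact ⟨b, Or.inr rfl, rfl⟩

/-- The name of an ordered pair. -/
noncomputable def op (A : Ord → Ord → Ord → Prop) (a b : Ord) : Ord := up A (up A a a) (up A a b)

@[is_poly] theorem dfnF_op (h1 : DfnF A GG f) (h2 : DfnF A GG g) :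
    DfnF A GG fun U e => op A (f U e) (g U e) := dfnF_up (dfnF_up h1 h1) (dfnF_up h1 h2)

theorem isPair_op (a b : Ord) : IsPair (EE A) (km A (op A a b)) (km A a) (km A b) := by
  intro z
  unfold op
  rw [mem_up]
  constructor
  · rintro (rfl | rfl)
    · left
      intro w
      rw [mem_up]
      simp
    · right
      intro w
      rw [mem_up]
  · rintro (h | h)
    · left
      apply ext_MM
      intro w
      rw [h w, mem_up]
      simp
    · right
      apply ext_MM
      intro w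
      rw [h w, mem_up]

theorem isPair_inj {p a b a' b' : MM A} (h : IsPair (EE A) p a b) (h' : IsPair (EE A) p a' b') :
    a = a' ∧ b = b' := by
  -- the singletons and the pairs
  obtain ⟨xa, rfl⟩ := km_surj a
  obtain ⟨xb, rfl⟩ := km_surj b
  obtain ⟨xa', rfl⟩ := km_surj a'
  obtain ⟨xb', rfl⟩ := km_surj b'
  have e1 : p = km A (op A xa xb) := ext_MM fun z => by rw [h z, isPair_op xa xb z]
  have e2 : p = km A (op A xa' xb') := ext_MM fun z => by rw [h' z, isPair_op xa' xb' z]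
  have e3 := e1.symm.trans e2
  have hs : ∀ x y : Ord, km A (up A x x) = km A (up A y y) → km A x = km A y := by
    intro x y hxy
    have : EE A (km A x) (km A (up A x x)) := mem_up.mpr (Or.inl rfl)
    rw [hxy, mem_up] at this
    exact this.elim id id
  have hsp : ∀ x y z : Ord, km A (up A x x) = km A (up A y z) → km A y = km A x ∧ km A z = km A x := by
    intro x y z hxy
    constructor
    · have : EE A (km A y) (km A (up A y z)) := mem_up.mpr (Or.inl rfl)
      rw [← hxy, mem_up] at this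
      exact this.elim id id
    · have : EE A (km A z) (km A (up A y z)) := mem_up.mpr (Or.inr rfl)
      rw [← hxy, mem_up] at this
      exact this.elim id id
  have m1 : EE A (km A (up A xa xa)) (km A (op A xa' xb')) := by
    rw [← e3]
    exact mem_up.mpr (Or.inl rfl)
  have m2 : EE A (km A (up A xa xb)) (km A (op A xa' xb')) := by
    rw [← e3]
    exact mem_up.mpr (Or.inr rfl)
  have m3 : EE A (km A (up A xa' xb')) (km A (op A xa xb)) := by
    rw [e3]
    exact mem_up.mpr (Or.inr rfl)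
  unfold op at m1 m2 m3
  rw [mem_up] at m1 m2 m3
  have haa : km A xa = km A xa' := by
    rcases m1 with m1 | m1
    · exact hs _ _ m1
    · exact (hsp _ _ _ m1).1.symm
  refine ⟨haa, ?_⟩
  rcases m2 with m2 | m2
  · -- `{a, b} = {a'}`
    obtain ⟨h1, h2⟩ := hsp _ _ _ m2.symm
    rcases m3 with m3 | m3
    · obtain ⟨h3, h4⟩ := hsp _ _ _ m3.symm
      rw [h2, h4, h1]
    · have : EE A (km A xb') (km A (up A xa' xb')) := mem_up.mpr (Or.inr rfl)
      rw [m3, mem_up] at this
      rcases this with h3 | h3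
      · rw [h2, h3, h1]
      · rw [h3]
  · have h1 : EE A (km A xb) (km A (up A xa xb)) := mem_up.mpr (Or.inr rfl)
    have h2 : EE A (km A xb') (km A (up A xa' xb')) := mem_up.mpr (Or.inr rfl)
    rw [m2, mem_up] at h1
    rw [← m2, mem_up] at h2
    rcases h1 with h1 | h1
    · rcases h2 with h2 | h2
      · rw [h1, h2, haa]
      · exact h2.symm
    · exact h1

theorem rel_iff {F a b : MM A} {S : Ord → Ord → Prop}
    (hF : ∀ q, EE A q F ↔ ∃ w v, S w v ∧ q = km A (op A w v)) :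
    HasPair (EE A) F a b ↔ ∃ w v, S w v ∧ km A w = a ∧ km A v = b := by
  constructor
  · rintro ⟨p, hp, hpair⟩
    obtain ⟨w, v, hS, rfl⟩ := (hF p).mp hp
    obtain ⟨h1, h2⟩ := isPair_inj (isPair_op w v) hpair
    exact ⟨w, v, hS, h1, h2⟩
  · rintro ⟨w, v, hS, rfl, rfl⟩
    exact ⟨_, (hF _).mpr ⟨w, v, hS, rfl⟩, isPair_op w v⟩

/-- Bounded definable relations yield sets of pairs of the model. -/
theorem exists_rel (hP : Dfn A GG P) (p : Env) (β : Ord) :
    ∃ F : MM A, ∀ q, EE A q F ↔ ∃ w v, (w < β ∧ v < β ∧ P Set.univ (cons w (cons v p))) ∧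
      q = km A (op A w v) := by
  have h1 : Dfn A GG fun U e => ∃ w < e 1, ∃ v < e 1,
      P U (cons w (cons v fun j => e (j + 2))) ∧ e 0 = op A w v := by
    refine Dfn.exlt (DfnF.var 1) (Dfn.exlt (DfnF.var 2) (Dfn.and ?_ (by (apply_rules (transparency := .reducible) (maxDepth := 1000) using is_poly))))
    refine (hP.subst (t := tcons (fun U e => e 1) (tcons (fun U e => e 0) fun i U e => e (i + 4)))
      (tcons_dfn (by (apply_rules (transparency := .reducible) (maxDepth := 1000) using is_poly)) (tcons_dfn (by (apply_rules (transparency := .reducible) (maxDepth := 1000) using is_poly)) fun i => DfnF.var (i + 4)))).congr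
      fun U hU e he => ?_
    have : (fun i => tcons (fun U e => e 1) (tcons (fun U e => e 0) fun i U e => e (i + 4)) i U e) =
        cons (e 1) (cons (e 0) fun j => e (j + 4)) := by
      funext i
      match i with
      | 0 => rfl
      | 1 => rfl
      | i + 2 => rfl
    rw [this]
  obtain ⟨F, hF⟩ := exists_set h1 (cons β p)
    (⨆ q : Iio β × Iio β, Order.succ (op A q.1.1 q.2.1))
  refine ⟨F, fun q => ?_⟩
  rw [hF]
  constructor
  · rintro ⟨u, _, ⟨w, hw, v, hv, h2, h3⟩, rfl⟩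
    have h3' : u = op A w v := h3
    exact ⟨w, v, ⟨hw, hv, h2⟩, by rw [h3']⟩
  · rintro ⟨w, v, ⟨hw, hv, h2⟩, rfl⟩
    refine ⟨op A w v, ?_, ⟨w, hw, v, hv, h2, rfl⟩, rfl⟩
    refine (Order.lt_succ _).trans_le ?_
    exact Ordinal.le_iSup (fun q : Iio β × Iio β => Order.succ (op A q.1.1 q.2.1))
      (⟨w, hw⟩, ⟨v, hv⟩)

end Pool.Agent.Lib.MP_7295f2_lc.LA

end

section

/-!
# Cardinals of the model, and GCH
-/

open Ordinal Set

set_option linter.unusedVariables false
set_option linter.unusedSectionVars false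

namespace Pool.Agent.Lib.MP_7295f2_lc.LA

variable {A : Ord → Ord → Ord → Prop} {P Q C : Set Ord → Env → Prop}
  {f g h s t : Set Ord → Env → Ord}

@[is_poly] theorem dfn_hasPair (h1 : DfnF A GG f) (h2 : DfnF A GG g) (h3 : DfnF A GG h) :
    Dfn A GG fun U e => HasPair (EE A) (km A (f U e)) (km A (g U e)) (km A (h U e)) := by
  refine Dfn.comp3 (R := fun _ x y z => HasPair (EE A) (km A x) (km A y) (km A z)) ?_ h1 h2 h3
  unfold HasPair IsPair
  (apply_rules (transparency := .reducible) (maxDepth := 1000) using is_poly)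

/-- Definable functions on a bounded definable class of names yield sets of the model. -/
theorem exists_fun (hC : Dfn A GG C) (hs : DfnF A GG s) (ht : DfnF A GG t) (p : Env) (α : Ord) :
    ∃ F : MM A, ∀ q, EE A q F ↔ ∃ i < α, C Set.univ (cons i p) ∧
      q = km A (op A (ev s (cons i p)) (ev t (cons i p))) := by
  have h1 : Dfn A GG fun U e => ∃ i < e 1, C U (cons i fun j => e (j + 2)) ∧
      e 0 = op A (s U (cons i fun j => e (j + 2))) (t U (cons i fun j => e (j + 2))) := by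
    refine Dfn.exlt (DfnF.var 1) (Dfn.and ?_ (Dfn.eq (DfnF.var 1) (dfnF_op ?_ ?_)))
    · exact Dfn.at hC 3 (DfnF.var 0)
    · exact DfnF.at hs 3 (DfnF.var 0)
    · exact DfnF.at ht 3 (DfnF.var 0)
  obtain ⟨F, hF⟩ := exists_set h1 (cons α p)
    (⨆ i : Iio α, Order.succ (op A (ev s (cons i.1 p)) (ev t (cons i.1 p))))
  refine ⟨F, fun q => ?_⟩
  rw [hF]
  constructor
  · rintro ⟨u, _, ⟨i, hi, h2, h3⟩, rfl⟩
    have h3' : u = op A (ev s (cons i p)) (ev t (cons i p)) := h3
    exact ⟨i, hi, h2, by rw [h3']⟩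
  · rintro ⟨i, hi, h2, rfl⟩
    refine ⟨op A (ev s (cons i p)) (ev t (cons i p)), ?_, ⟨i, hi, h2, rfl⟩, rfl⟩
    refine (Order.lt_succ _).trans_le ?_
    exact Ordinal.le_iSup (fun i : Iio α => Order.succ (op A (ev s (cons i.1 p)) (ev t (cons i.1 p))))
      ⟨i, hi⟩

theorem hasPair_fun {F a b : MM A} {C' : Ord → Prop} {s' t' : Ord → Ord} {α : Ord}
    (hF : ∀ q, EE A q F ↔ ∃ i < α, C' i ∧ q = km A (op A (s' i) (t' i))) :
    HasPair (EE A) F a b ↔ ∃ i < α, C' i ∧ km A (s' i) = a ∧ km A (t' i) = b := by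
  constructor
  · rintro ⟨p, hp, hpair⟩
    obtain ⟨i, hi, h1, rfl⟩ := (hF p).mp hp
    obtain ⟨h2, h3⟩ := isPair_inj (isPair_op _ _) hpair
    exact ⟨i, hi, h1, h2, h3⟩
  · rintro ⟨i, hi, h1, rfl, rfl⟩
    exact ⟨_, (hF _).mpr ⟨i, hi, h1, rfl⟩, isPair_op _ _⟩

/-- Internal injections yield internal surjections. -/
theorem sj_of_inj {F x : MM A} {β α : Ord} {S : Set Ord}
    (htot : ∀ w ∈ S, ∃ i < β, HasPair (EE A) F (oz A w) (oz A i))
    (hinj : ∀ a a' b, HasPair (EE A) F a b → HasPair (EE A) F a' b → a = a') : Sj A β S := by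
  obtain ⟨xf, rfl⟩ := km_surj F
  have h1 : DfnF A GG fun U e => sInf {w | HasPair (EE A) (km A (e 1)) (km A (on A w))
      (km A (on A (e 0)))} := by (apply_rules (transparency := .reducible) (maxDepth := 1000) using is_poly)
  refine Sj.of_fun h1 (fun _ => xf) fun w hw => ?_
  obtain ⟨i, hi, h2⟩ := htot w hw
  refine ⟨i, hi, ?_⟩
  show sInf {w | HasPair (EE A) (km A xf) (oz A w) (oz A i)} = w
  have : {w | HasPair (EE A) (km A xf) (oz A w) (oz A i)} = {w} := by
    ext v
    simp only [Set.mem_ofPred_eq, Set.mem_singleton_iff]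
    constructor
    · intro h3
      exact oz_inj (hinj _ _ _ h3 h2)
    · rintro rfl
      exact h2
  rw [this, csInf_singleton]

theorem cardLe_oz {α β : Ord} : CardLe (EE A) (oz A α) (oz A β) ↔ Sj A β (Iio α) := by
  constructor
  · rintro ⟨F, hF⟩
    refine sj_of_inj (F := F) (x := F) (α := α) (fun w hw => ?_) hF.inj
    obtain ⟨b, hb⟩ := hF.total _ (oz_mem_iff.mpr hw)
    obtain ⟨p, hp, hpair⟩ := hb
    obtain ⟨a', b', _, h2, h3⟩ := hF.pairs p hp
    obtain ⟨_, h4⟩ := isPair_inj hpair h3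
    rw [← h4] at h2
    obtain ⟨i, hi, rfl⟩ := mem_oz.mp h2
    exact ⟨i, hi, p, hp, hpair⟩
  · rintro ⟨x, hx⟩
    have hs : DfnF A GG fun U e => on A (e 0) := by (apply_rules (transparency := .reducible) (maxDepth := 1000) using is_poly)
    have ht : DfnF A GG fun U e => on A (sInf {j | val A (e 1) j = e 0}) := by (apply_rules (transparency := .reducible) (maxDepth := 1000) using is_poly)
    have hC : Dfn A GG fun U e => e 0 = e 0 := by (apply_rules (transparency := .reducible) (maxDepth := 1000) using is_poly)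
    obtain ⟨F, hF⟩ := exists_fun hC hs ht (fun _ => x) α
    have hidx : ∀ i < α, sInf {j | val A x j = i} < β ∧ val A x (sInf {j | val A x j = i}) = i := by
      intro i hi
      obtain ⟨j, hj, hji⟩ := hx i hi
      exact ⟨(csInf_le' (s := {j | val A x j = i}) hji).trans_lt hj,
        csInf_mem (s := {j | val A x j = i}) ⟨j, hji⟩⟩
    have hF' := fun (a b : MM A) => hasPair_fun (A := A) (F := F) (a := a) (b := b)
      (C' := fun i => i = i) (s' := fun i => on A i) (t' := fun i => on A (sInf {j | val A x j = i}))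
      (α := α) hF
    refine ⟨F, ⟨?_, ?_, ?_, ?_⟩⟩
    · intro q hq
      obtain ⟨i, hi, _, rfl⟩ := (hF q).mp hq
      exact ⟨_, _, oz_mem_iff.mpr hi, oz_mem_iff.mpr (hidx i hi).1, isPair_op _ _⟩
    · intro a ha
      obtain ⟨i, hi, rfl⟩ := mem_oz.mp ha
      exact ⟨_, (hF' _ _).mpr ⟨i, hi, rfl, rfl, rfl⟩⟩
    · intro a b b' hb hb'
      obtain ⟨i, hi, _, h1, h2⟩ := (hF' _ _).mp hb
      obtain ⟨i', hi', _, h3, h4⟩ := (hF' _ _).mp hb'
      have : i = i' := oz_inj (h1.trans h3.symm)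
      subst this
      exact h2.symm.trans h4
    · intro a a' b ha ha'
      obtain ⟨i, hi, _, h1, h2⟩ := (hF' _ _).mp ha
      obtain ⟨i', hi', _, h3, h4⟩ := (hF' _ _).mp ha'
      have h5 := oz_inj (h2.trans h4.symm)
      have h6 : i = i' := by
        rw [← (hidx i hi).2, h5, (hidx i' hi').2]
      rw [← h1, ← h3, h6]

theorem isCard_oz {μ : Ord} : IsCard (EE A) (oz A μ) ↔ MC A μ := by
  constructor
  · intro h α hα h1
    exact h.2 _ (oz_mem_iff.mpr hα) (cardLe_oz.mpr h1)
  · intro h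
    refine ⟨isOrd_oz μ, fun y hy h1 => ?_⟩
    obtain ⟨α, hα, rfl⟩ := mem_oz.mp hy
    exact h α hα (cardLe_oz.mp h1)

theorem omega_le_of_infCard {μ : Ord} (h : IsInfCard (EE A) (oz A μ)) : ω ≤ μ := by
  obtain ⟨_, ⟨y, hy⟩, h2⟩ := h
  obtain ⟨β, hβ, _⟩ := mem_oz.mp hy
  apply Ordinal.omega0_le_of_isSuccLimit
  rw [Ordinal.isSuccLimit_iff]
  refine ⟨(lt_of_le_of_lt zero_le hβ).ne', fun a ha => ?_⟩
  obtain ⟨z, h3, h4⟩ := h2 _ (oz_mem_iff.mpr ha.lt)
  obtain ⟨γ, hγ, rfl⟩ := mem_oz.mp h3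
  exact ha.2 (oz_mem_iff.mp h4) hγ

theorem mc_omega : MC A ω := by
  have h1 := mc_of_card (A := A) (c := Cardinal.aleph0)
  rwa [Cardinal.ord_aleph0] at h1

theorem isInfCard_omega : IsInfCard (EE A) (oz A ω) := by
  refine ⟨isCard_oz.mpr mc_omega, ⟨oz A 0, oz_mem_iff.mpr Ordinal.omega0_pos⟩, fun y hy => ?_⟩
  obtain ⟨α, hα, rfl⟩ := mem_oz.mp hy
  exact ⟨_, oz_mem_iff.mpr (Ordinal.isSuccLimit_omega0.succ_lt hα),
    oz_mem_iff.mpr (Order.lt_succ α)⟩

theorem isAleph_zero : IsAleph (EE A) 0 (oz A ω) := by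
  refine ⟨isInfCard_omega, fun y hy h => ?_⟩
  obtain ⟨α, hα, rfl⟩ := mem_oz.mp hy
  exact absurd hα (not_lt.mpr (omega_le_of_infCard h))

theorem isSuccCard_sc (κ : Ord) : IsSuccCard (EE A) (oz A κ) (oz A (sc A κ)) := by
  refine ⟨isCard_oz.mpr (mc_sc κ), oz_mem_iff.mpr (lt_sc κ), fun z hz h => ?_⟩
  obtain ⟨ν, rfl⟩ := exists_oz hz.1
  have h1 := sc_le (oz_mem_iff.mp h) (isCard_oz.mp hz)
  rcases h1.eq_or_lt with h2 | h2
  · rw [h2]
    exact Or.inl rfl
  · exact Or.inr (oz_mem_iff.mpr h2)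

theorem eq_sc_of_isSuccCard {κ μ : Ord} (h : IsSuccCard (EE A) (oz A κ) (oz A μ)) :
    μ = sc A κ := by
  obtain ⟨h1, h2, h3⟩ := h
  have h4 := sc_le (oz_mem_iff.mp h2) (isCard_oz.mp h1)
  rcases h3 _ (isCard_oz.mpr (mc_sc κ)) (oz_mem_iff.mpr (lt_sc κ)) with h5 | h5
  · exact oz_inj h5
  · exact absurd (oz_mem_iff.mp h5) (not_lt.mpr h4)

theorem isAleph_one (hA : Good A) : IsAleph (EE A) 1 (oz A O1) := by
  refine ⟨oz A ω, isAleph_zero, ?_⟩
  rw [← sc_omega hA]
  exact isSuccCard_sc ω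

theorem isAleph_three (hA : Good A) : IsAleph (EE A) 3 (oz A (V3 A)) :=
  ⟨oz A (V2 A), ⟨oz A O1, isAleph_one hA, isSuccCard_sc _⟩, isSuccCard_sc _⟩

theorem gch_MM (hA : Good A) : GCH (EE A) := by
  intro κ lam Pw hκ hlam hP
  obtain ⟨μ, rfl⟩ := exists_oz hκ.1.1
  obtain ⟨ν, rfl⟩ := exists_oz hlam.1.1
  have hν := eq_sc_of_isSuccCard hlam
  have hμω := omega_le_of_infCard hκ
  have hμ := isCard_oz.mp hκ.1
  obtain ⟨xP, rfl⟩ := km_surj Pw
  -- the coding relation
  set R : Ord → Ord → Prop := fun i w => (μ = ω ∧ ∀ k, (A i ω k ↔ k < μ ∧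
    EE A (km A (on A k)) (km A w))) ∨ (¬ μ = ω ∧ ∀ k, (k ∈ D A i ↔ k < μ ∧
    EE A (km A (on A k)) (km A w))) with hR
  have hcase : μ = ω ∨ O1 ≤ μ := by
    rcases hμω.eq_or_lt with h | h
    · exact Or.inl h.symm
    · right
      by_contra hcon
      exact hμ ω h (hA.sj (not_le.mp hcon))
  have hSint : ∀ w, Int A {k | k < μ ∧ EE A (km A (on A k)) (km A w)} := by
    intro w
    have h1 : Dfn A GG fun U e => e 0 < e 1 ∧ EE A (km A (on A (e 0))) (km A (e 2)) := by (apply_rules (transparency := .reducible) (maxDepth := 1000) using is_poly)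
    exact int_of_dfn' h1 (cons μ fun _ => w) (β := μ) fun k hk => hk.1
  have hex : ∀ w, ∃ i < ν, R i w := by
    intro w
    obtain ⟨x, hx⟩ := hSint w
    have hsub : D A x ⊆ Iio μ := by
      rw [hx]
      exact fun k hk => hk.1
    rcases hcase with h | h
    · obtain ⟨i, hi, hik⟩ := hA.ch (x := x) omega_lt_O1 (h ▸ hsub)
      refine ⟨i, ?_, Or.inl ⟨h, fun k => ?_⟩⟩
      · rw [hν, h, sc_omega hA]
        exact hi
      · rw [hik, hx]
        rfl
    · obtain ⟨x', hx', hD⟩ := gch_name hA.ctb hμ h hsub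
      refine ⟨x', by rw [hν]; exact hx', Or.inr ⟨(omega_lt_O1.trans_le h).ne', fun k => ?_⟩⟩
      rw [hD, hx]
      rfl
  have huniq : ∀ i w w', R i w → R i w' → ∀ k, (k < μ ∧ EE A (km A (on A k)) (km A w)) ↔
      (k < μ ∧ EE A (km A (on A k)) (km A w')) := by
    rintro i w w' (⟨h1, h2⟩ | ⟨h1, h2⟩) (⟨h3, h4⟩ | ⟨h3, h4⟩) k
    · rw [← h2, ← h4]
    · exact absurd h1 h3
    · exact absurd h3 h1
    · rw [← h2, ← h4]
  have hs : DfnF A GG fun U e => e 0 := by (apply_rules (transparency := .reducible) (maxDepth := 1000) using is_poly)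
  have ht : DfnF A GG fun U e => on A (sInf {i | (e 1 = ω ∧ ∀ k, (A i ω k ↔ k < e 1 ∧
      EE A (km A (on A k)) (km A (e 0)))) ∨ (¬ e 1 = ω ∧ ∀ k, (k ∈ D A i ↔ k < e 1 ∧
      EE A (km A (on A k)) (km A (e 0))))}) := by (apply_rules (transparency := .reducible) (maxDepth := 1000) using is_poly)
  have hC : Dfn A GG fun U e => e 0 ∈ D A (e 2) := by (apply_rules (transparency := .reducible) (maxDepth := 1000) using is_poly)
  obtain ⟨F, hF⟩ := exists_fun hC hs ht (cons μ fun _ => xP) xP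
  have hF₁ : ∀ q, EE A q F ↔ ∃ i < xP, i ∈ D A xP ∧ q = km A (op A i (on A (sInf {j | R j i}))) :=
    hF
  have hF' := fun (a b : MM A) => hasPair_fun (A := A) (F := F) (a := a) (b := b)
    (C' := fun i => i ∈ D A xP) (s' := fun i => i) (t' := fun i => on A (sInf {j | R j i}))
    (α := xP) hF₁
  have hidx : ∀ i, sInf {j | R j i} < ν ∧ R (sInf {j | R j i}) i := by
    intro i
    obtain ⟨j, hj, hji⟩ := hex i
    exact ⟨(csInf_le' (s := {j | R j i}) hji).trans_lt hj, csInf_mem (s := {j | R j i}) ⟨j, hji⟩⟩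
  refine ⟨F, ⟨?_, ?_, ?_, ?_⟩⟩
  · intro q hq
    obtain ⟨i, hi, h1, rfl⟩ := (hF₁ q).mp hq
    exact ⟨_, _, EE_iff.mpr ⟨i, h1, rfl⟩, oz_mem_iff.mpr (hidx i).1, isPair_op _ _⟩
  · intro a ha
    obtain ⟨i, hi, rfl⟩ := EE_iff.mp ha
    exact ⟨_, (hF' _ _).mpr ⟨i, D_lt_self hi, hi, rfl, rfl⟩⟩
  · intro a b b' hb hb'
    obtain ⟨i, hi, _, h1, h2⟩ := (hF' _ _).mp hb
    obtain ⟨i', hi', _, h3, h4⟩ := (hF' _ _).mp hb'
    have h5 : km A i = km A i' := h1.trans h3.symm
    have h6 : ∀ j, R j i ↔ R j i' := by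
      intro j
      simp only [hR, h5]
    rw [← h2, ← h4]
    simp only [h6]
  · intro a a' b ha ha'
    obtain ⟨i, hi, hiP, h1, h2⟩ := (hF' _ _).mp ha
    obtain ⟨i', hi', hiP', h3, h4⟩ := (hF' _ _).mp ha'
    have h5 : sInf {j | R j i} = sInf {j | R j i'} := oz_inj (h2.trans h4.symm)
    have h6 := (hidx i).2
    rw [h5] at h6
    have h7 := huniq _ _ _ h6 (hidx i').2
    rw [← h1, ← h3]
    have hsub : ∀ i, i ∈ D A xP → ∀ z, EE A z (km A i) → EE A z (oz A μ) := fun i hi =>
      (hP (km A i)).mp (EE_iff.mpr ⟨i, hi, rfl⟩)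
    apply ext_MM
    intro z
    constructor
    · intro hz
      obtain ⟨k, hk, rfl⟩ := mem_oz.mp (hsub i hiP z hz)
      exact ((h7 k).mp ⟨hk, hz⟩).2
    · intro hz
      obtain ⟨k, hk, rfl⟩ := mem_oz.mp (hsub i' hiP' z hz)
      exact ((h7 k).mpr ⟨hk, hz⟩).2

end Pool.Agent.Lib.MP_7295f2_lc.LA

end

section

/-!
# The set mapping in the model
-/

open Ordinal Set

set_option linter.unusedVariables false
set_option linter.unusedSectionVars false

namespace Pool.Agent.Lib.MP_7295f2_lc.LA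

variable {A : Ord → Ord → Ord → Prop} {P Q C : Set Ord → Env → Prop}
  {f g h s t : Set Ord → Env → Ord}

/-- The name of the set `{a, b, c, d}`. -/
noncomputable def fn4 (A : Ord → Ord → Ord → Prop) (a b c d : Ord) : Ord :=
  nm A {w | w = on A a ∨ w = on A b ∨ w = on A c ∨ w = on A d}

theorem dfnF_fn4 {f₁ f₂ f₃ f₄ : Set Ord → Env → Ord} (h1 : DfnF A GG f₁)
    (h2 : DfnF A GG f₂) (h3 : DfnF A GG f₃) (h4 : DfnF A GG f₄) :
    DfnF A GG fun U e => fn4 A (f₁ U e) (f₂ U e) (f₃ U e) (f₄ U e) := by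
  refine DfnF.comp4 (R := fun _ a b c d => fn4 A a b c d) ?_ h1 h2 h3 h4
  unfold fn4
  apply DfnF.nm
  (apply_rules (transparency := .reducible) (maxDepth := 1000) using is_poly)

theorem mem_fn4 {a b c d : Ord} {z : MM A} : EE A z (km A (fn4 A a b c d)) ↔
    z = oz A a ∨ z = oz A b ∨ z = oz A c ∨ z = oz A d := by
  have hint : Int A {w | w = on A a ∨ w = on A b ∨ w = on A c ∨ w = on A d} := by
    have h1 : Dfn A GG fun U e => e 0 = e 1 ∨ e 0 = e 2 ∨ e 0 = e 3 ∨ e 0 = e 4 := by (apply_rules (transparency := .reducible) (maxDepth := 1000) using is_poly)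
    refine int_of_dfn' h1 (cons (on A a) (cons (on A b) (cons (on A c) (cons (on A d) fun _ => 0))))
      (β := max (max (on A a) (on A b)) (max (on A c) (on A d)) + 1) ?_
    rintro w (h | h | h | h)
    · have h' : w = on A a := h
      rw [h']
      exact Order.lt_add_one_iff.mpr ((le_max_left _ _).trans (le_max_left _ _))
    · have h' : w = on A b := h
      rw [h']
      exact Order.lt_add_one_iff.mpr ((le_max_right _ _).trans (le_max_left _ _))
    · have h' : w = on A c := h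
      rw [h']
      exact Order.lt_add_one_iff.mpr ((le_max_left _ _).trans (le_max_right _ _))
    · have h' : w = on A d := h
      rw [h']
      exact Order.lt_add_one_iff.mpr ((le_max_right _ _).trans (le_max_right _ _))
  unfold fn4
  rw [EE_iff, D_nm hint]
  constructor
  · rintro ⟨w, rfl | rfl | rfl | rfl, rfl⟩
    · exact Or.inl rfl
    · exact Or.inr (Or.inl rfl)
    · exact Or.inr (Or.inr (Or.inl rfl))
    · exact Or.inr (Or.inr (Or.inr rfl))
  · rintro (rfl | rfl | rfl | rfl)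
    · exact ⟨_, Or.inl rfl, rfl⟩
    · exact ⟨_, Or.inr (Or.inl rfl), rfl⟩
    · exact ⟨_, Or.inr (Or.inr (Or.inl rfl)), rfl⟩
    · exact ⟨_, Or.inr (Or.inr (Or.inr rfl)), rfl⟩

/-- The name of `{m}` if `m < ω₃`, and of `∅` otherwise. -/
noncomputable def tn (A : Ord → Ord → Ord → Prop) (m : Ord) : Ord :=
  nm A {w | m < V3 A ∧ w = on A m}

theorem dfnF_tn (hA : Good A) (h1 : DfnF A GG f) : DfnF A GG fun U e => tn A (f U e) := by
  refine DfnF.comp1 (R := fun _ a => tn A a) ?_ h1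
  unfold tn
  apply DfnF.nm
  exact Dfn.and (Dfn.lt (DfnF.var 1) (dfnF_V3 hA)) (by (apply_rules (transparency := .reducible) (maxDepth := 1000) using is_poly))

theorem mem_tn (hA : Good A) {m : Ord} {z : MM A} : EE A z (km A (tn A m)) ↔
    m < V3 A ∧ z = oz A m := by
  have hint : Int A {w | m < V3 A ∧ w = on A m} := by
    have h1 : Dfn A GG fun U e => e 1 < V3 A ∧ e 0 = on A (e 1) :=
      Dfn.and (Dfn.lt (DfnF.var 1) (dfnF_V3 hA)) (by (apply_rules (transparency := .reducible) (maxDepth := 1000) using is_poly))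
    refine int_of_dfn' h1 (fun _ => m) (β := on A m + 1) ?_
    rintro w ⟨_, h⟩
    have h' : w = on A m := h
    rw [h']
    exact lt_add_one _
  unfold tn
  rw [EE_iff, D_nm hint]
  constructor
  · rintro ⟨w, ⟨h1, rfl⟩, rfl⟩
    exact ⟨h1, rfl⟩
  · rintro ⟨h1, rfl⟩
    exact ⟨_, ⟨h1, rfl⟩, rfl⟩

/-- The code of a triple. -/
noncomputable def x3 (A : Ord → Ord → Ord → Prop) (b c d : Ord) : Ord :=
  sInf {y | lev y = V3 A ∧ (num y : Ord) = 0 ∧ ((par y).length : Ord) = 3 ∧ ent y 0 = b ∧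
    ent y 1 = c ∧ ent y 2 = d}

theorem dfnF_x3 (hA : Good A) (h1 : DfnF A GG f) (h2 : DfnF A GG g) (h3 : DfnF A GG h) :
    DfnF A GG fun U e => x3 A (f U e) (g U e) (h U e) := by
  refine DfnF.comp3 (R := fun _ a b c => x3 A a b c) ?_ h1 h2 h3
  unfold x3
  apply DfnF.sInf
  exact Dfn.and (Dfn.eq (by (apply_rules (transparency := .reducible) (maxDepth := 1000) using is_poly)) (dfnF_V3 hA)) (by (apply_rules (transparency := .reducible) (maxDepth := 1000) using is_poly))

theorem x3_eq {b c d : Ord} (hb : b < V3 A) (hc : c < V3 A) (hd : d < V3 A) :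
    x3 A b c d = xc A [b, c, d] := by
  have hv : ∀ a ∈ [b, c, d], a < V3 A := by
    intro a ha
    simp only [List.mem_cons, List.not_mem_nil, or_false] at ha
    rcases ha with rfl | rfl | rfl <;> assumption
  unfold x3 xc
  have : {y | lev y = V3 A ∧ (num y : Ord) = 0 ∧ ((par y).length : Ord) = 3 ∧ ent y 0 = b ∧
      ent y 1 = c ∧ ent y 2 = d} = {mk (V3 A) 0 [b, c, d]} := by
    ext y
    simp only [Set.mem_ofPred_eq, Set.mem_singleton_iff]
    constructor
    · rintro ⟨g1, g2, g3, g4, g5, g6⟩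
      refine ext_tup ?_ ?_ ?_
      · rw [lev_mk hv, g1]
      · rw [num_mk hv]
        exact_mod_cast g2
      · rw [par_mk hv]
        apply par_eq_of_ent
        · rw [g3]
          simp
        · intro m hm
          match m, hm with
          | 0, _ =>
            rw [Nat.cast_zero, g4]
            rfl
          | 1, _ =>
            rw [Nat.cast_one, g5]
            rfl
          | 2, _ =>
            rw [show (((2 : ℕ) : Ord)) = 2 by norm_num, g6]
            rfl
          | m + 3, hm => simp at hm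
    · rintro rfl
      have e := fun m : ℕ => ent_nat (mk (V3 A) 0 [b, c, d]) m
      rw [par_mk hv] at e
      refine ⟨lev_mk hv, by rw [num_mk hv]; simp, by rw [par_mk hv]; simp, ?_, ?_, ?_⟩
      · simpa using e 0
      · simpa using e 1
      · simpa using e 2
  rw [this, csInf_singleton]

theorem four_unique {a b c d a' b' c' d' : Ord} (h1 : a < b) (h2 : b < c) (h3 : c < d)
    (h1' : a' < b') (h2' : b' < c') (h3' : c' < d')
    (h : ∀ x, (x = a ∨ x = b ∨ x = c ∨ x = d) ↔ (x = a' ∨ x = b' ∨ x = c' ∨ x = d')) :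
    a = a' ∧ b = b' ∧ c = c' ∧ d = d' := by
  have key : ∀ {a b c d a' b' c' d' : Ord}, a < b → b < c → c < d → a' < b' → b' < c' → c' < d' →
      (∀ x, (x = a ∨ x = b ∨ x = c ∨ x = d) → (x = a' ∨ x = b' ∨ x = c' ∨ x = d')) →
      a' ≤ a ∧ b' ≤ b ∧ c' ≤ c ∧ d' ≤ d := by
    intro a b c d a' b' c' d' h1 h2 h3 h1' h2' h3' h
    have ha : a' ≤ a := by
      rcases h a (Or.inl rfl) with g | g | g | g <;> rw [g]
      · exact h1'.le
      · exact (h1'.trans h2').le
      · exact (h1'.trans (h2'.trans h3')).le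
    have hb : b' ≤ b := by
      rcases h b (Or.inr (Or.inl rfl)) with g | g | g | g
      · rw [g] at h1
        exact absurd ha (not_le.mpr h1)
      · rw [g]
      · rw [g]
        exact h2'.le
      · rw [g]
        exact (h2'.trans h3').le
    have hc : c' ≤ c := by
      rcases h c (Or.inr (Or.inr (Or.inl rfl))) with g | g | g | g
      · rw [g] at h2
        exact absurd (ha.trans h1.le) (not_le.mpr h2)
      · rw [g] at h2
        exact absurd hb (not_le.mpr h2)
      · rw [g]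
      · rw [g]
        exact h3'.le
    have hd : d' ≤ d := by
      rcases h d (Or.inr (Or.inr (Or.inr rfl))) with g | g | g | g
      · rw [g] at h3
        exact absurd (ha.trans (h1.le.trans h2.le)) (not_le.mpr h3)
      · rw [g] at h3
        exact absurd (hb.trans h2.le) (not_le.mpr h3)
      · rw [g] at h3
        exact absurd hc (not_le.mpr h3)
      · rw [g]
    exact ⟨ha, hb, hc, hd⟩
  obtain ⟨g1, g2, g3, g4⟩ := key h1 h2 h3 h1' h2' h3' fun x => (h x).mp
  obtain ⟨g5, g6, g7, g8⟩ := key h1' h2' h3' h1 h2 h3 fun x => (h x).mpr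
  exact ⟨le_antisymm g5 g1, le_antisymm g6 g2, le_antisymm g7 g3, le_antisymm g8 g4⟩

theorem exists_sorted (α : Fin 4 → Ord) (hα : Function.Injective α) :
    ∃ a b c d : Ord, a < b ∧ b < c ∧ c < d ∧
      ∀ x, (∃ i, α i = x) ↔ (x = a ∨ x = b ∨ x = c ∨ x = d) := by
  classical
  set S : Finset Ord := Finset.univ.image α with hS
  have hcard : S.card = 4 := by
    rw [hS, Finset.card_image_of_injective _ hα]
    simp
  set e := S.orderEmbOfFin hcard with he
  refine ⟨e 0, e 1, e 2, e 3, ?_, ?_, ?_, fun x => ?_⟩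
  · exact (OrderEmbedding.lt_iff_lt _).mpr (by decide)
  · exact (OrderEmbedding.lt_iff_lt _).mpr (by decide)
  · exact (OrderEmbedding.lt_iff_lt _).mpr (by decide)
  · have h1 : Set.range e = (S : Set Ord) := Finset.range_orderEmbOfFin S hcard
    have h2 : (∃ i, α i = x) ↔ x ∈ (S : Set Ord) := by
      rw [hS]
      simp
    rw [h2, ← h1]
    constructor
    · rintro ⟨i, rfl⟩
      fin_cases i
      · exact Or.inl rfl
      · exact Or.inr (Or.inl rfl)
      · exact Or.inr (Or.inr (Or.inl rfl))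
      · exact Or.inr (Or.inr (Or.inr rfl))
    · rintro (rfl | rfl | rfl | rfl)
      · exact ⟨0, rfl⟩
      · exact ⟨1, rfl⟩
      · exact ⟨2, rfl⟩
      · exact ⟨3, rfl⟩

theorem subsetOfSize_fn4 {X : MM A} {a b c d : Ord} (h1 : a < b) (h2 : b < c) (h3 : c < d)
    (ha : EE A (oz A a) X) (hb : EE A (oz A b) X) (hc : EE A (oz A c) X) (hd : EE A (oz A d) X) :
    IsSubsetOfSize (EE A) 4 X (km A (fn4 A a b c d)) := by
  refine ⟨![oz A a, oz A b, oz A c, oz A d], ?_, ?_, fun z => ?_⟩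
  · have hmono : StrictMono ![a, b, c, d] := by
      rw [Fin.strictMono_iff_lt_succ]
      intro i
      fin_cases i
      · exact h1
      · exact h2
      · exact h3
    have : ![oz A a, oz A b, oz A c, oz A d] = fun i => oz A (![a, b, c, d] i) := by
      funext i
      fin_cases i <;> rfl
    rw [this]
    intro i j hij
    exact hmono.injective (oz_inj hij)
  · intro i
    fin_cases i
    · exact ha
    · exact hb
    · exact hc
    · exact hd
  · rw [mem_fn4]
    constructor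
    · rintro (rfl | rfl | rfl | rfl)
      · exact ⟨0, rfl⟩
      · exact ⟨1, rfl⟩
      · exact ⟨2, rfl⟩
      · exact ⟨3, rfl⟩
    · rintro ⟨i, rfl⟩
      fin_cases i
      · exact Or.inl rfl
      · exact Or.inr (Or.inl rfl)
      · exact Or.inr (Or.inr (Or.inl rfl))
      · exact Or.inr (Or.inr (Or.inr rfl))

theorem not_arrow_MM (hA : Good A) : ¬ Arrow (EE A) (oz A (V3 A)) 4 (oz A O1) := by
  intro harrow
  obtain ⟨σ, hL⟩ := exists_lev hA
  obtain ⟨z, hz⟩ := exists_trOK hA
  have cV3 : Clos (V3 A) := clos_sc (A := A) (O1_lt_V2 (A := A)).le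
  -- the coordinates of an index
  set ca : Ord → Ord := fun i => ent (ent i 0) 0 with hca
  set cb : Ord → Ord := fun i => ent (ent i 0) 1 with hcb
  set cc : Ord → Ord := fun i => ent (ent i 1) 0 with hcc
  set cd : Ord → Ord := fun i => ent (ent i 1) 1 with hcd
  have hC : Dfn A GG fun U e => ent (ent (e 0) 0) 0 < ent (ent (e 0) 0) 1 ∧
      ent (ent (e 0) 0) 1 < ent (ent (e 0) 1) 0 ∧ ent (ent (e 0) 1) 0 < ent (ent (e 0) 1) 1 := by
    (apply_rules (transparency := .reducible) (maxDepth := 1000) using is_poly)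
  have hs : DfnF A GG fun U e => fn4 A (ent (ent (e 0) 0) 0) (ent (ent (e 0) 0) 1)
      (ent (ent (e 0) 1) 0) (ent (ent (e 0) 1) 1) :=
    dfnF_fn4 (by (apply_rules (transparency := .reducible) (maxDepth := 1000) using is_poly)) (by (apply_rules (transparency := .reducible) (maxDepth := 1000) using is_poly)) (by (apply_rules (transparency := .reducible) (maxDepth := 1000) using is_poly)) (by (apply_rules (transparency := .reducible) (maxDepth := 1000) using is_poly))
  have ht : DfnF A GG fun U e => tn A (mv A (e 1) (e 2) (x3 A (ent (ent (e 0) 0) 1)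
      (ent (ent (e 0) 1) 0) (ent (ent (e 0) 1) 1)) (ent (ent (e 0) 0) 0)) := by
    refine dfnF_tn hA (dfnF_mv hA (DfnF.var 1) (DfnF.var 2) (dfnF_x3 hA ?_ ?_ ?_) ?_)
    · (apply_rules (transparency := .reducible) (maxDepth := 1000) using is_poly)
    · (apply_rules (transparency := .reducible) (maxDepth := 1000) using is_poly)
    · (apply_rules (transparency := .reducible) (maxDepth := 1000) using is_poly)
    · (apply_rules (transparency := .reducible) (maxDepth := 1000) using is_poly)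
  obtain ⟨F, hF⟩ := exists_fun hC hs ht (cons σ fun _ => z) (V3 A)
  have hF₁ : ∀ q, EE A q F ↔ ∃ i < V3 A, (ca i < cb i ∧ cb i < cc i ∧ cc i < cd i) ∧
      q = km A (op A (fn4 A (ca i) (cb i) (cc i) (cd i))
        (tn A (mv A σ z (x3 A (cb i) (cc i) (cd i)) (ca i)))) := hF
  have hF' := fun (a b : MM A) => hasPair_fun (A := A) (F := F) (a := a) (b := b)
    (C' := fun i => ca i < cb i ∧ cb i < cc i ∧ cc i < cd i)
    (s' := fun i => fn4 A (ca i) (cb i) (cc i) (cd i))
    (t' := fun i => tn A (mv A σ z (x3 A (cb i) (cc i) (cd i)) (ca i))) (α := V3 A) hF₁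
  have hlt : ∀ i < V3 A, ca i < V3 A ∧ cb i < V3 A ∧ cc i < V3 A ∧ cd i < V3 A := fun i hi =>
    ⟨(ent_le _ _).trans_lt ((ent_le _ _).trans_lt hi), (ent_le _ _).trans_lt
      ((ent_le _ _).trans_lt hi), (ent_le _ _).trans_lt ((ent_le _ _).trans_lt hi),
      (ent_le _ _).trans_lt ((ent_le _ _).trans_lt hi)⟩
  have hexi : ∀ a b c d : Ord, a < b → b < c → c < d → d < V3 A → ∃ i < V3 A,
      ca i = a ∧ cb i = b ∧ cc i = c ∧ cd i = d := by
    intro a b c d h1 h2 h3 h4
    refine ⟨pr (pr a b) (pr c d), ?_, ?_, ?_, ?_, ?_⟩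
    · exact cV3.pr_lt (cV3.pr_lt ((h1.trans (h2.trans h3)).trans h4) ((h2.trans h3).trans h4))
        (cV3.pr_lt (h3.trans h4) h4)
    · simp only [hca, ent_pr_zero]
    · simp only [hcb, ent_pr_zero, ent_pr_one]
    · simp only [hcc, ent_pr_zero, ent_pr_one]
    · simp only [hcd, ent_pr_one]
  have hmap : IsSetMapping (EE A) 4 (oz A (V3 A)) F := by
    refine ⟨?_, ?_, ?_⟩
    · intro q hq
      obtain ⟨i, hi, ⟨h1, h2, h3⟩, rfl⟩ := (hF₁ q).mp hq
      obtain ⟨g1, g2, g3, g4⟩ := hlt i hi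
      refine ⟨_, _, subsetOfSize_fn4 h1 h2 h3 (oz_mem_iff.mpr g1) (oz_mem_iff.mpr g2)
        (oz_mem_iff.mpr g3) (oz_mem_iff.mpr g4), ⟨?_, ?_⟩, isPair_op _ _⟩
      · intro w hw
        obtain ⟨h4, rfl⟩ := (mem_tn hA).mp hw
        exact oz_mem_iff.mpr h4
      · intro w w' hw hw'
        obtain ⟨_, rfl⟩ := (mem_tn hA).mp hw
        obtain ⟨_, rfl⟩ := (mem_tn hA).mp hw'
        rfl
    · rintro s ⟨l, hl1, hl2, hl3⟩
      have : ∀ i, ∃ α < V3 A, l i = oz A α := fun i => mem_oz.mp (hl2 i)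
      choose α hα1 hα2 using this
      have hinj : Function.Injective α := by
        intro i j hij
        apply hl1
        rw [hα2, hα2, hij]
      obtain ⟨a, b, c, d, h1, h2, h3, h4⟩ := exists_sorted α hinj
      have hd : d < V3 A := by
        obtain ⟨i, hi⟩ := (h4 d).mpr (Or.inr (Or.inr (Or.inr rfl)))
        rw [← hi]
        exact hα1 i
      obtain ⟨i, hi, e1, e2, e3, e4⟩ := hexi a b c d h1 h2 h3 hd
      refine ⟨_, (hF' s _).mpr ⟨i, hi, ?_, ?_, rfl⟩⟩
      · rw [e1, e2, e3, e4]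
        exact ⟨h1, h2, h3⟩
      · apply ext_MM
        intro w
        rw [e1, e2, e3, e4, mem_fn4, hl3]
        constructor
        · rintro (rfl | rfl | rfl | rfl)
          · obtain ⟨j, hj⟩ := (h4 a).mpr (Or.inl rfl)
            exact ⟨j, by rw [hα2, hj]⟩
          · obtain ⟨j, hj⟩ := (h4 b).mpr (Or.inr (Or.inl rfl))
            exact ⟨j, by rw [hα2, hj]⟩
          · obtain ⟨j, hj⟩ := (h4 c).mpr (Or.inr (Or.inr (Or.inl rfl)))
            exact ⟨j, by rw [hα2, hj]⟩
          · obtain ⟨j, hj⟩ := (h4 d).mpr (Or.inr (Or.inr (Or.inr rfl)))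
            exact ⟨j, by rw [hα2, hj]⟩
        · rintro ⟨j, rfl⟩
          rw [hα2]
          rcases (h4 (α j)).mp ⟨j, rfl⟩ with h | h | h | h
          · rw [h]
            exact Or.inl rfl
          · rw [h]
            exact Or.inr (Or.inl rfl)
          · rw [h]
            exact Or.inr (Or.inr (Or.inl rfl))
          · rw [h]
            exact Or.inr (Or.inr (Or.inr rfl))
    · intro s t t' h1 h2
      obtain ⟨i, hi, ⟨g1, g2, g3⟩, g4, g5⟩ := (hF' _ _).mp h1
      obtain ⟨i', hi', ⟨g1', g2', g3'⟩, g4', g5'⟩ := (hF' _ _).mp h2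
      have h3 : ∀ x, (x = ca i ∨ x = cb i ∨ x = cc i ∨ x = cd i) ↔
          (x = ca i' ∨ x = cb i' ∨ x = cc i' ∨ x = cd i') := by
        intro x
        have h4 := g4.trans g4'.symm
        have h5 : EE A (oz A x) (km A (fn4 A (ca i) (cb i) (cc i) (cd i))) ↔
            EE A (oz A x) (km A (fn4 A (ca i') (cb i') (cc i') (cd i'))) := by rw [h4]
        rw [mem_fn4, mem_fn4] at h5
        have h6 : ∀ y, oz A x = oz A y ↔ x = y := fun y => ⟨oz_inj, fun h => by rw [h]⟩
        simpa only [h6] using h5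
      obtain ⟨e1, e2, e3, e4⟩ := four_unique g1 g2 g3 g1' g2' g3' h3
      rw [← g5, ← g5']
      simp only [e1, e2, e3, e4]
  obtain ⟨X, hXκ, ⟨⟨g, hg⟩, ⟨k, hk⟩⟩, hfree⟩ := harrow F hmap
  obtain ⟨xX, rfl⟩ := km_surj X
  have hXint : Int A {w | w < V3 A ∧ EE A (oz A w) (km A xX)} := by
    have h1 : Dfn A GG fun U e => e 0 < e 1 ∧ EE A (km A (on A (e 0))) (km A (e 2)) := by (apply_rules (transparency := .reducible) (maxDepth := 1000) using is_poly)
    exact int_of_dfn' h1 (cons (V3 A) fun _ => xX) (β := V3 A) fun w hw => hw.1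
  have hXmem : ∀ w, EE A w (km A xX) → ∃ α < V3 A, w = oz A α := fun w hw => mem_oz.mp (hXκ w hw)
  have hSj : Sj A O1 {w | w < V3 A ∧ EE A (oz A w) (km A xX)} := by
    refine sj_of_inj (F := g) (x := g) (α := O1) (fun w hw => ?_) hg.inj
    obtain ⟨b, p, hp, hpair⟩ := hg.total _ hw.2
    obtain ⟨a', b', _, h2, h3⟩ := hg.pairs p hp
    obtain ⟨_, h4⟩ := isPair_inj hpair h3
    rw [← h4] at h2
    obtain ⟨i, hi, rfl⟩ := mem_oz.mp h2
    exact ⟨i, hi, p, hp, hpair⟩
  have hunc : ¬ {w | w < V3 A ∧ EE A (oz A w) (km A xX)}.Countable := by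
    intro hc
    have h1 : ∀ i : Iio O1, ∃ w : {w | w < V3 A ∧ EE A (oz A w) (km A xX)},
        HasPair (EE A) k (oz A i.1) (oz A w.1) := by
      rintro ⟨i, hi⟩
      obtain ⟨b, p, hp, hpair⟩ := hk.total _ (oz_mem_iff.mpr hi)
      obtain ⟨a', b', _, h2, h3⟩ := hk.pairs p hp
      obtain ⟨_, h4⟩ := isPair_inj hpair h3
      rw [← h4] at h2
      obtain ⟨w, hw, rfl⟩ := hXmem _ h2
      exact ⟨⟨w, hw, h2⟩, p, hp, hpair⟩
    choose φ hφ using h1
    have hinj : Function.Injective φ := by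
      intro i j hij
      have h2 := hφ i
      rw [hij] at h2
      exact Subtype.ext (oz_inj (hk.inj _ _ _ h2 (hφ j)))
    have : Countable {w | w < V3 A ∧ EE A (oz A w) (km A xX)} := hc
    have h3 : Countable (Iio O1) := hinj.countable
    exact absurd (lt_O1_iff.mpr h3) (lt_irrefl _)
  obtain ⟨a, ha, b, hb, c, hc, d, hd, hab, hbc, hcd', h1, h2, h3⟩ :=
    not_free_int hA hL hz hXint (fun x hx => hx.1) hSj hunc
  obtain ⟨i, hi, e1, e2, e3, e4⟩ := hexi a b c d hab hbc hcd' hd.1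
  set m := mv A σ z (xc A [b, c, d]) a with hm
  have hpairF : HasPair (EE A) F (km A (fn4 A a b c d)) (km A (tn A m)) := by
    rw [hF']
    refine ⟨i, hi, ?_, ?_, ?_⟩
    · rw [e1, e2, e3, e4]
      exact ⟨hab, hbc, hcd'⟩
    · rw [e1, e2, e3, e4]
    · rw [e1, e2, e3, e4, x3_eq hb.1 hc.1 hd.1]
  refine hfree _ _ (oz A m) (subsetOfSize_fn4 hab hbc hcd' ha.2 hb.2 hc.2 hd.2) hpairF h1.2 ?_
    ((mem_tn hA).mpr ⟨h1.1, rfl⟩)
  rw [mem_fn4]
  rintro (h | h | h | h)
  · exact h3 (oz_inj h)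
  · exact h2.ne (oz_inj h)
  · exact (h2.trans hbc).ne (oz_inj h)
  · exact (h2.trans (hbc.trans hcd')).ne (oz_inj h)

/-- The main theorem: there is a model of ZFC + GCH in which `(ℵ₃, 4, 2) → ℵ₁` fails. -/
theorem main_model : ModelsZFC (EE Af) ∧ GCH (EE Af) ∧
    ∃ κ μ, IsAleph (EE Af) 3 κ ∧ IsAleph (EE Af) 1 μ ∧ ¬ Arrow (EE Af) κ 4 μ :=
  ⟨modelsZFC Af, gch_MM good_Af, _, _, isAleph_three good_Af, isAleph_one good_Af,
    not_arrow_MM good_Af⟩

end Pool.Agent.Lib.MP_7295f2_lc.LA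

end
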