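import Pool.Agent.Lib.MP_7295f2_lc.LSquare

section

/-!
# The functions `ρ` in the model
-/

open Ordinal Set

set_option linter.unusedVariables false
set_option linter.unusedSectionVars false

namespace Pool.Agent.Lib.MP_7295f2_lc.LA

variable {A : Ord → Ord → Ord → Prop} {P Q : Set Ord → Env → Prop}
  {f g h : Set Ord → Env → Ord} {κ δ ζ η y μ : Ord}

@[is_poly] theorem dfnF_nx (h1 : DfnF A GG f) (h2 : DfnF A GG g) (h3 : DfnF A GG h) :
    DfnF A GG fun U e => nx (CSq A (f U e)) (g U e) (h U e) := by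
  refine DfnF.comp3 (R := fun _ k b a => nx (CSq A k) b a) ?_ h1 h2 h3
  have h4 : DfnF A GG fun U e => sInf {x | x ∈ CSq A (e 0) (e 1) ∧ e 2 ≤ x} := by (apply_rules (transparency := .reducible) (maxDepth := 1000) using is_poly)
  exact h4

@[is_poly] theorem dfnF_otpCSq (h1 : DfnF A GG f) (h2 : DfnF A GG g) (h3 : DfnF A GG h) :
    DfnF A GG fun U e => otp (CSq A (f U e) (g U e)) (h U e) := by
  refine DfnF.comp3 (R := fun _ k b a => otp (CSq A k b) a) ?_ h1 h2 h3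
  have h4 : DfnF A GG fun U e =>
    otp {x | x ∈ CSq A (e 0) (e 1)} (e 2) := by (apply_rules (transparency := .reducible) (maxDepth := 1000) using is_poly)
  exact h4

open Classical in
@[is_poly] theorem dfnF_rho (h1 : DfnF A GG f) (h2 : DfnF A GG g) (h3 : DfnF A GG h) :
    DfnF A GG fun U e => rho (CSq A (f U e)) (g U e) (h U e) := by
  refine DfnF.comp3 (R := fun _ k a b => rho (CSq A k) a b) ?_ h1 h2 h3
  set G : Env → Ord → Ord → Ord := fun p γ x =>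
    @ite _ (ent γ 0 < ent γ 1) (Classical.propDecidable _)
      (max (otp (CSq A (p 0) (ent γ 1)) (ent γ 0))
        (max (@ite _ (nx (CSq A (p 0)) (ent γ 1) (ent γ 0) < ent γ 1)
          (Classical.propDecidable _)
          (val A x (pr (ent γ 0) (nx (CSq A (p 0)) (ent γ 1)
            (ent γ 0)))) 0)
          (sSup {v | ∃ ξ < ent γ 0, ξ ∈ CSq A (p 0) (ent γ 1) ∧
            v = val A x (pr ξ (ent γ 0))}))) 0 with hG
  have hGd : DfnF A GG fun U e => G (fun i => e (i + 2)) (e 0) (e 1) := by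
    refine DfnF.ite (P := fun U e => ent (e 0) 0 < ent (e 0) 1) (by (apply_rules (transparency := .reducible) (maxDepth := 1000) using is_poly)) ?_ (by (apply_rules (transparency := .reducible) (maxDepth := 1000) using is_poly))
    refine DfnF.max (by (apply_rules (transparency := .reducible) (maxDepth := 1000) using is_poly)) (DfnF.max ?_ ?_)
    · exact DfnF.ite (P := fun U e =>
        nx (CSq A (e 2)) (ent (e 0) 1) (ent (e 0) 0) < ent (e 0) 1)
        (by (apply_rules (transparency := .reducible) (maxDepth := 1000) using is_poly)) (by (apply_rules (transparency := .reducible) (maxDepth := 1000) using is_poly)) (by (apply_rules (transparency := .reducible) (maxDepth := 1000) using is_poly))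
    · apply DfnF.sSup
      (apply_rules (transparency := .reducible) (maxDepth := 1000) using is_poly)
  have hv : ∀ k α' β', β' < α' → val A (nm A (graphF A (G fun i => k) α')) β' =
      recF A (G fun i => k) β' := fun k α' β' h => val_nm_graph (G := G) hGd (fun i => k) h
  have key : ∀ k β α, recF A (G fun i => k) (pr α β) =
      rho (CSq A k) α β := by
    intro k β
    induction β using WellFoundedLT.induction with
    | ind β ih =>
      intro α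
      rw [recF_eq]
      show @ite _ _ (Classical.propDecidable _) _ _ = _
      rw [ent_pr_zero, ent_pr_one]
      unfold rho
      rw [rhoAux]
      by_cases hαβ : α < β
      · rw [if_pos hαβ, dif_pos hαβ]
        have e1 : (@ite _ (nx (CSq A k) β α < β)
            (Classical.propDecidable _) (val A (nm A (graphF A (G fun i => k) (pr α β)))
              (pr α (nx (CSq A k) β α))) (0 : Ord)) =
            (if h' : nx (CSq A k) β α < β then
              rhoAux (CSq A k) (nx (CSq A k) β α) α else 0) := by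
          by_cases hn : nx (CSq A k) β α < β
          · rw [if_pos hn, dif_pos hn, hv, ih _ hn]
            · rfl
            · apply pr_lt_pr
              rw [max_lt_iff]
              exact ⟨hαβ.trans_le (le_max_right _ _), hn.trans_le (le_max_right _ _)⟩
          · rw [if_neg hn, dif_neg hn]
        have e2 : sSup {v | ∃ ξ < α, ξ ∈ CSq A k β ∧
            v = val A (nm A (graphF A (G fun i => k) (pr α β))) (pr ξ α)} =
            ⨆ ξ : {y : Set.Iio α // y.1 ∈ CSq A k β}, rhoAux (CSq A k) α ξ.1.1 := by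
          unfold iSup
          congr 1
          ext v
          have hval : ∀ ξ < α, val A (nm A (graphF A (G fun i => k) (pr α β))) (pr ξ α) =
              rhoAux (CSq A k) α ξ := by
            intro ξ hξ
            rw [hv, ih _ hαβ]
            · rfl
            · apply pr_lt_pr
              rw [max_lt_iff]
              exact ⟨(hξ.trans hαβ).trans_le (le_max_right _ _), hαβ.trans_le (le_max_right _ _)⟩
          constructor
          · rintro ⟨ξ, hξ, h1, rfl⟩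
            exact ⟨⟨⟨ξ, hξ⟩, h1⟩, (hval ξ hξ).symm⟩
          · rintro ⟨⟨⟨ξ, hξ⟩, h1⟩, rfl⟩
            exact ⟨ξ, hξ, h1, (hval ξ hξ).symm⟩
        rw [e1, e2]
      · rw [if_neg hαβ, dif_neg hαβ]
  have h4 : DfnF A GG fun U e => recF A (G fun i => e (i + 0)) (pr (e 1) (e 2)) :=
    recF_dfn' hGd 0 (by (apply_rules (transparency := .reducible) (maxDepth := 1000) using is_poly))
  exact h4.congr fun U hU e he => key (e 0) (e 2) (e 1)

/-- The `i`-th element of `CSq A κ β`. -/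
noncomputable def enC (A : Ord → Ord → Ord → Prop) (κ β i : Ord) : Ord :=
  sInf {x | x ∈ CSq A κ β ∧ otp (CSq A κ β) x = i}

@[is_poly] theorem dfnF_enC (h1 : DfnF A GG f) (h2 : DfnF A GG g) (h3 : DfnF A GG h) :
    DfnF A GG fun U e => enC A (f U e) (g U e) (h U e) := by
  refine DfnF.comp3 (R := fun _ k b i => enC A k b i) ?_ h1 h2 h3
  unfold enC
  (apply_rules (transparency := .reducible) (maxDepth := 1000) using is_poly)

theorem enC_otp {β x : Ord} (hx : x ∈ CSq A κ β) : enC A κ β (otp (CSq A κ β) x) = x := by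
  unfold enC
  have : {y | y ∈ CSq A κ β ∧ otp (CSq A κ β) y = otp (CSq A κ β) x} = {x} := by
    ext y
    simp only [Set.mem_ofPred_eq, Set.mem_singleton_iff]
    constructor
    · rintro ⟨h1, h2⟩
      exact otp_injOn _ h1 hx h2
    · rintro rfl
      exact ⟨hx, rfl⟩
  rw [this, csInf_singleton]

theorem clos_sc (hμ : O1 ≤ μ) : Clos (sc A μ) := clos_of_mc (mc_sc μ) (hμ.trans (lt_sc μ).le)

theorem isCSeq_sc (hA : Good A) (hμ : O1 ≤ μ) :
    IsCSeq (CSq A (sc A μ)) (sc A (sc A μ)) (sc A μ) :=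
  isCSeq_CSq hA (hμ.trans (lt_sc μ).le) (clos_sc hμ)

theorem otp_CSq_lt (hA : Good A) (hμ : O1 ≤ μ) {α β : Ord} (hβ : β < sc A (sc A μ))
    (hαβ : α < β) : otp (CSq A (sc A μ) β) α < sc A μ := by
  have hC := isCSeq_sc hA hμ
  obtain ⟨x, hx, hαx⟩ := hC.cof β hβ α hαβ
  exact (otp_mono hαx).trans_lt (hC.otp_lt β hβ x hx)

theorem rho_lt_sc (hA : Good A) (hμ : O1 ≤ μ) (hμc : Clos μ) (β : Ord) :
    β < sc A (sc A μ) → ∀ α ≤ β, rho (CSq A (sc A μ)) α β < sc A μ := by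
  induction β using WellFoundedLT.induction with
  | ind β ih =>
    intro hβ α hαβ
    have hC := isCSeq_sc hA hμ
    rcases hαβ.eq_or_lt with rfl | hαβ
    · rw [rho_self]
      exact Ordinal.omega0_pos.trans (clos_sc hμ).1
    have hτ := otp_CSq_lt hA hμ hβ hαβ
    have hf : DfnF A GG fun U e => rho (CSq A (e 1)) (enC A (e 1) (e 2) (e 0)) (e 3) := by (apply_rules (transparency := .reducible) (maxDepth := 1000) using is_poly)
    obtain ⟨z, hz, hz'⟩ := sc_reg hμc hf (cons (sc A μ) (cons β (cons α fun _ => 0))) hτ (by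
      intro i hi
      show rho (CSq A (sc A μ)) (enC A (sc A μ) β i) α < sc A μ
      obtain ⟨x, hx, hxα, hxi⟩ := exists_otp_eq hi
      rw [← hxi, enC_otp hx]
      exact ih α hαβ (hαβ.trans hβ) x hxα.le)
    have h2 := ih _ (hC.nx_lt hβ hαβ) ((hC.nx_lt hβ hαβ).trans hβ) α (hC.nx_mem hβ hαβ).2
    refine lt_of_le_of_lt ((hC.rho_le_iff hβ hαβ).mpr ⟨le_max_left _ _,
      (le_max_left _ _).trans (le_max_right _ _), fun ξ hξ hξα => ?_⟩) (max_lt hτ (max_lt h2 hz))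
    have h3 : rho (CSq A (sc A μ)) (enC A (sc A μ) β (otp (CSq A (sc A μ) β) ξ)) α ≤ z :=
      hz' _ (otp_lt_otp hξ hξα)
    rw [enC_otp hξ] at h3
    exact h3.trans ((le_max_right _ _).trans (le_max_right _ _))

theorem Sj.biUnion {lam : Ord} (hl : Clos lam) {S : Set Ord} (hS : Sj A lam S)
    {T : Env → Ord → Set Ord} (hT : Dfn A GG fun U e => e 0 ∈ T (fun i => e (i + 2)) (e 1))
    (p : Env) (h : ∀ x ∈ S, Sj A lam (T p x)) : Sj A lam (⋃ x ∈ S, T p x) := by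
  obtain ⟨x₀, hx₀⟩ := hS
  have h1 : DfnF A GG fun U e => LA.val A (InfSet.sInf {y | ∀ w, w ∈ T (fun i => e (i + 3))
      (LA.val A (e 1) (LA.ent (e 0) 0)) → ∃ i < e 2, LA.val A y i = w}) (LA.ent (e 0) 1) := by
    refine DfnF.val (DfnF.sInf (Dfn.allG (Dfn.imp ?_ (by (apply_rules (transparency := .reducible) (maxDepth := 1000) using is_poly))))) (by (apply_rules (transparency := .reducible) (maxDepth := 1000) using is_poly))
    exact hT.subst (t := tcons (fun U e => e 0) (tcons (fun U e =>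
      LA.val A (e 3) (LA.ent (e 2) 0)) fun i U e => e (i + 5)))
      (tcons_dfn (by (apply_rules (transparency := .reducible) (maxDepth := 1000) using is_poly)) (tcons_dfn (by (apply_rules (transparency := .reducible) (maxDepth := 1000) using is_poly)) fun i => DfnF.var (i + 5)))
  refine Sj.of_fun h1 (cons x₀ (cons lam p)) fun w hw => ?_
  simp only [Set.mem_iUnion] at hw
  obtain ⟨x, hx, hwx⟩ := hw
  obtain ⟨i, hi, hix⟩ := hx₀ x hx
  have h2 := csInf_mem (s := {y | ∀ w, w ∈ T p x → ∃ i < lam, LA.val A y i = w}) (h x hx)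
  obtain ⟨j, hj, hjw⟩ := h2 w hwx
  refine ⟨LA.pr i j, hl.pr_lt hi hj, ?_⟩
  show LA.val A (InfSet.sInf {y | ∀ w, w ∈ T p (LA.val A x₀ (LA.ent (LA.pr i j) 0)) →
    ∃ i < lam, LA.val A y i = w}) (LA.ent (LA.pr i j) 1) = w
  rw [ent_pr_zero, ent_pr_one, hix]
  exact hjw

theorem sj_PP (hA : Good A) (hμ : O1 ≤ μ) (hμc : Clos μ) {ν : Ord} (hν : ν < sc A μ) (β : Ord) :
    β < sc A (sc A μ) → Sj A μ (PP (rho (CSq A (sc A μ))) ν β) := by
  induction β using WellFoundedLT.induction with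
  | ind β ih =>
    intro hβ
    have hC := isCSeq_sc hA hμ
    have h0 : 0 < μ := Ordinal.omega0_pos.trans hμc.1
    have hS : Sj A μ {x | x ∈ CSq A (sc A μ) β ∧ otp (CSq A (sc A μ) β) x ≤ ν} := by
      have h1 : DfnF A GG fun U e => enC A (e 1) (e 2) (e 0) := by (apply_rules (transparency := .reducible) (maxDepth := 1000) using is_poly)
      have h2 : Sj A (ν + 1) {x | x ∈ CSq A (sc A μ) β ∧ otp (CSq A (sc A μ) β) x ≤ ν} := by
        refine Sj.of_fun h1 (cons (sc A μ) (cons β fun _ => 0)) fun w hw => ?_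
        exact ⟨_, Order.lt_add_one_iff.mpr hw.2, enC_otp hw.1⟩
      exact (sj_of_lt_sc ((clos_sc hμ).succ_lt hν)).trans h2
    let T : Env → Ord → Set Ord := fun p x => {w | w = x ∨ w ∈ PP (rho (CSq A (p 0))) (p 1) x}
    have hT : Dfn A GG fun U e => e 0 ∈ T (fun i => e (i + 2)) (e 1) := by
      have : Dfn A GG fun U e => e 0 = e 1 ∨ (e 0 < e 1 ∧ rho (CSq A (e 2)) (e 0) (e 1) ≤ e 3) := by
        (apply_rules (transparency := .reducible) (maxDepth := 1000) using is_poly)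
      exact this
    refine (Sj.biUnion (T := T) hμc hS hT (cons (sc A μ) fun _ => ν) ?_).mono le_rfl ?_
    · intro x hx
      have h3 := (Sj.singleton (A := A) h0 x).union hμc (ih x (hC.sub β hβ x hx.1)
        ((hC.sub β hβ x hx.1).trans hβ))
      exact h3
    · rintro α ⟨hαβ, hα⟩
      obtain ⟨h1, h2⟩ := hC.nx_mem hβ hαβ
      simp only [Set.mem_iUnion]
      refine ⟨nx (CSq A (sc A μ)) β α, ⟨h1, ?_⟩, ?_⟩
      · rw [otp_eq_of_gap h2 fun z hz hαz => IsCSeq.nx_le hz hαz]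
        exact (hC.otp_le_rho hβ hαβ).trans hα
      · rcases h2.eq_or_lt with h3 | h3
        · exact Or.inl h3
        · exact Or.inr ⟨h3, (hC.rho_nx_le hβ hαβ).trans hα⟩

@[is_poly] theorem dfnF_tt {f₁ f₂ f₃ : Set Ord → Env → Ord} (h1 : DfnF A GG f₁) (h2 : DfnF A GG f₂)
    (h3 : DfnF A GG f₃) :
    DfnF A GG fun U e => tt (rho (CSq A (f₁ U e))) (f₂ U e) (f₃ U e) := by
  refine DfnF.comp3 (R := fun _ k v d => tt (rho (CSq A k)) v d) ?_ h1 h2 h3
  have h4 : DfnF A GG fun U e => otp {α | α < e 2 ∧ rho (CSq A (e 0)) α (e 2) ≤ e 1} (e 2) := by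
    (apply_rules (transparency := .reducible) (maxDepth := 1000) using is_poly)
  exact h4

theorem int_PP {ν β : Ord} : Int A (PP (rho (CSq A κ)) ν β) := by
  have h1 : Dfn A GG fun U e => e 0 < e 1 ∧ rho (CSq A (e 2)) (e 0) (e 1) ≤ e 3 := by (apply_rules (transparency := .reducible) (maxDepth := 1000) using is_poly)
  exact int_of_dfn' h1 (cons β (cons κ fun _ => ν)) (β := β) fun w hw => hw.1

theorem tt_lt_sc (hA : Good A) (hμ : O1 ≤ μ) (hμc : Clos μ) {ν β : Ord} (hν : ν < sc A μ)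
    (hβ : β < sc A (sc A μ)) : tt (rho (CSq A (sc A μ))) ν β < sc A μ :=
  lt_sc_of_sj (lt_sc μ) ((sj_PP hA hμ hμc hν β hβ).otp int_PP)

end Pool.Agent.Lib.MP_7295f2_lc.LA

end

section

/-!
# The combinatorics of `ρ`, for ordinals which need not be cardinals
-/

open Ordinal Set

set_option linter.unusedVariables false
set_option linter.unusedSectionVars false

namespace Pool.Agent.Lib.MP_7295f2_lc.LA

/-- The properties of `ρ₁` which are used. -/
structure R1 (ρ : Ord → Ord → Ord) (Ω₂ : Ord) : Prop where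
  self : ∀ α, ρ α α = 0
  lt : ∀ β < Ω₂, ∀ α ≤ β, ρ α β < O1
  sub1 : ∀ α β γ, γ < Ω₂ → α ≤ β → β ≤ γ → ρ α γ ≤ max (ρ α β) (ρ β γ)
  sub2 : ∀ α β γ, γ < Ω₂ → α ≤ β → β ≤ γ → ρ α β ≤ max (ρ α γ) (ρ β γ)
  closed : ∀ η ξ γ, γ < Ω₂ → η < γ → η ≠ 0 → (∀ y < η, ∃ x, y < x ∧ x < η ∧ ρ x γ ≤ ξ) →
    ρ η γ ≤ ξ
  unbdd : ∀ Y : Set Ord, ¬ Y.Countable → ∀ z < Ω₂, (∀ y ∈ Y, y < z) → ∀ ξ < O1,
    ∃ c ∈ Y, ∃ d ∈ Y, c < d ∧ ξ < ρ c d

/-- The properties of `ρ₂` which are used. -/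
structure R2 (ρ : Ord → Ord → Ord) (Ω₃ Ω₂ : Ord) : Prop where
  self : ∀ α, ρ α α = 0
  lt : ∀ β < Ω₃, ∀ α ≤ β, ρ α β < Ω₂
  sub1 : ∀ α β γ, γ < Ω₃ → α ≤ β → β ≤ γ → ρ α γ ≤ max (ρ α β) (ρ β γ)
  sub2 : ∀ α β γ, γ < Ω₃ → α ≤ β → β ≤ γ → ρ α β ≤ max (ρ α γ) (ρ β γ)
  np0 : ∀ Z : Set Ord, LW Z → ∀ z < Ω₃, (∀ x ∈ Z, x < z) → ∀ (γ : Ord)
    (S : Set Ord), S.Countable → (∀ x < γ, ∃ s ∈ S, x ≤ s) →
    (∀ c ∈ Z, ∀ d ∈ Z, c < d → ρ c d < γ) →
    ∃ s ∈ S, ∃ Z' ⊆ Z, ¬ Z'.Countable ∧ ∀ c ∈ Z', ∀ d ∈ Z', c < d → ρ c d ≤ s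

variable {A : Ord → Ord → Ord → Prop}

theorem r1_rho (hA : Good A) : R1 (rho (CSq A O1)) (sc A O1) := by
  have hC : IsCSeq (CSq A O1) (sc A O1) O1 := isCSeq_CSq hA le_rfl clos_O1
  refine ⟨rho_self, ?_, ?_, ?_, ?_, ?_⟩
  · exact hC.rho_lt Cardinal.isRegular_aleph_one
  · exact fun α β γ hγ h1 h2 => hC.subadd1 hγ h1 h2
  · exact fun α β γ hγ h1 h2 => hC.subadd2 hγ h1 h2
  · intro η ξ γ hγ hηγ hη h
    refine hC.rho_closed hη γ hγ hηγ (fun y hy => ?_) (fun y hy => ?_)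
    · obtain ⟨x, h1, h2, h3⟩ := h y hy
      exact ⟨x, h1.le, h2, h3⟩
    · obtain ⟨x, h1, h2, _⟩ := h y hy
      exact ⟨x, h1, h2⟩
  · intro Y hY z hz hYz ξ hξ
    by_contra hcon
    push Not at hcon
    obtain ⟨Y', hY'Y, hLW⟩ := exists_LW hY
    have hb : BddAbove Y' := ⟨z, fun y hy => (hYz y (hY'Y hy)).le⟩
    have hδ : sSup Y' < sc A O1 :=
      (csSup_le hLW.nonempty fun y hy => (hYz y (hY'Y hy)).le).trans_lt hz
    have h1 := hC.rho_sup_lt (Z := Y') (ν := Order.succ ξ) hδ (hLW.lt_sSup hb)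
      (fun y hy => exists_lt_of_lt_csSup hLW.nonempty hy)
      (fun s hs => hLW.cof_sSup s hs hb)
      (fun a ha b hb hab => Order.lt_succ_iff.mpr (hcon a (hY'Y ha) b (hY'Y hb) hab))
    apply hLW.unc
    have h2 := hC.smallSet_rho_le Cardinal.isRegular_aleph_one hξ _ hδ
    rw [smallSet_aleph_one_iff] at h2
    refine h2.mono ?_
    intro y hy
    exact ⟨hLW.lt_sSup hb y hy, Order.lt_succ_iff.mp (h1 y hy)⟩

theorem r2_rho (hA : Good A) {μ : Ord} (hμ : O1 ≤ μ) (hμc : Clos μ) :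
    R2 (rho (CSq A (sc A μ))) (sc A (sc A μ)) (sc A μ) := by
  have hC := isCSeq_sc hA hμ
  refine ⟨rho_self, ?_, ?_, ?_, ?_⟩
  · exact fun β hβ α hα => rho_lt_sc hA hμ hμc β hβ α hα
  · exact fun α β γ hγ h1 h2 => hC.subadd1 hγ h1 h2
  · exact fun α β γ hγ h1 h2 => hC.subadd2 hγ h1 h2
  · intro Z hLW z hz hZz γ S hS hSγ hρ
    have hb : BddAbove Z := ⟨z, fun y hy => (hZz y hy).le⟩
    have hδ : sSup Z < sc A (sc A μ) :=
      (csSup_le hLW.nonempty fun y hy => (hZz y hy).le).trans_lt hz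
    have h1 := hC.rho_sup_lt (Z := Z) (ν := γ) hδ (hLW.lt_sSup hb)
      (fun y hy => exists_lt_of_lt_csSup hLW.nonempty hy)
      (fun s hs => hLW.cof_sSup s hs hb) hρ
    by_contra hcon
    push Not at hcon
    apply hLW.unc
    refine (hS.biUnion (t := fun s _ => {c ∈ Z | rho (CSq A (sc A μ)) c (sSup Z) ≤ s})
      fun s hs => ?_).mono ?_
    · by_contra hunc
      obtain ⟨c, hc, d, hd, hcd, h2⟩ := hcon s hs
        {c ∈ Z | rho (CSq A (sc A μ)) c (sSup Z) ≤ s} (fun c hc => hc.1) hunc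
      refine absurd ?_ (not_le.mpr h2)
      exact (hC.subadd2 hδ hcd.le (hLW.lt_sSup hb d hd.1).le).trans (max_le hc.2 hd.2)
    · intro c hc
      obtain ⟨s, hs, h2⟩ := hSγ _ (h1 c hc)
      exact Set.mem_biUnion hs ⟨hc, h2⟩

theorem otp_mono_set {S T : Set Ord} (h : S ⊆ T) (x : Ord) : otp S x ≤ otp T x := by
  induction x using WellFoundedLT.induction with
  | ind x ih =>
    rw [otp_le_iff]
    intro y hy hyx
    exact (ih y hyx).trans_lt (otp_lt_otp (h hy) hyx)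

theorem tt_mono {ρ : Ord → Ord → Ord} {γ γ' d : Ord} (h : γ ≤ γ') : tt ρ γ d ≤ tt ρ γ' d :=
  otp_mono_set (S := PP ρ γ d) (T := PP ρ γ' d) (fun α hα => ⟨hα.1, hα.2.trans h⟩) d

section

variable {ρ₁ ρ₂ : Ord → Ord → Ord} {Ω₃ Ω₂ : Ord}

theorem R2.tt_lt_tt (h2 : R2 ρ₂ Ω₃ Ω₂) {γ b c : Ord} (hc : c < Ω₃) (hbc : b < c)
    (h : ρ₂ b c ≤ γ) : tt ρ₂ γ b < tt ρ₂ γ c := by
  have h1 : otp (PP ρ₂ γ b) b = otp (PP ρ₂ γ c) b := by
    apply otp_congr
    intro z hz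
    simp only [PP, Set.mem_ofPred_eq]
    constructor
    · rintro ⟨_, hz2⟩
      exact ⟨hz.trans hbc, (h2.sub1 z b c hc hz.le hbc.le).trans (max_le hz2 h)⟩
    · rintro ⟨_, hz2⟩
      exact ⟨hz, (h2.sub2 z b c hc hz.le hbc.le).trans (max_le hz2 h)⟩
  unfold tt
  rw [h1]
  exact otp_lt_otp ⟨hbc, h⟩ hbc

theorem R2.eq_of_lt (h2 : R2 ρ₂ Ω₃ Ω₂) {b c d : Ord} (hd : d < Ω₃) (hbc : b ≤ c)
    (hcd : c ≤ d) (h : ρ₂ c d < ρ₂ b c) : ρ₂ b d = ρ₂ b c := by
  apply le_antisymm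
  · have := h2.sub1 b c d hd hbc hcd
    rwa [max_eq_left h.le] at this
  · have := h2.sub2 b c d hd hbc hcd
    rcases le_max_iff.mp this with h1 | h1
    · exact h1
    · exact absurd h (not_lt.mpr h1)

theorem R1.rel_trans (h1 : R1 ρ₁ Ω₂) {ξ x y z : Ord} (hz : z < Ω₂) (hxy : Rel ρ₁ ξ x y)
    (hyz : Rel ρ₁ ξ y z) : Rel ρ₁ ξ x z := by
  rcases hxy with rfl | ⟨h2, h3⟩
  · exact hyz
  · rcases hyz with rfl | ⟨h4, h5⟩
    · exact Or.inr ⟨h2, h3⟩
    · exact Or.inr ⟨h2.trans h4, (h1.sub1 x y z hz h2.le h4.le).trans (max_le h3 h5)⟩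

theorem R1.rel_down (h1 : R1 ρ₁ Ω₂) {ξ x y z : Ord} (hz : z < Ω₂) (hxy : x ≤ y)
    (hxz : Rel ρ₁ ξ x z) (hyz : Rel ρ₁ ξ y z) : Rel ρ₁ ξ x y := by
  rcases hxy.eq_or_lt with rfl | hxy'
  · exact Or.inl rfl
  · rcases hyz with rfl | ⟨h4, h5⟩
    · exact hxz
    · rcases hxz with rfl | ⟨h2, h3⟩
      · exact absurd (hxy'.trans h4) (lt_irrefl _)
      · exact Or.inr ⟨hxy', (h1.sub2 x y z hz hxy h4.le).trans (max_le h3 h5)⟩

/-- The bounds available on an internal set of size `ω₁`. -/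
structure Bnd (ρ₂ : Ord → Ord → Ord) (Ω₃ Ω₂ : Ord) (X : Set Ord) (z₃ γm τm : Ord) : Prop where
  hz : z₃ < Ω₃
  X_lt : ∀ x ∈ X, x < z₃
  hγ : γm < Ω₂
  le_γ : ∀ c ∈ X, ∀ d ∈ X, c < d → ρ₂ c d ≤ γm
  hτ : τm < Ω₂
  tt_lt : ∀ d ∈ X, tt ρ₂ γm d < τm

theorem Bnd.sub {X Y : Set Ord} {z₃ γm τm : Ord} (h : Bnd ρ₂ Ω₃ Ω₂ X z₃ γm τm) (hY : Y ⊆ X) :
    Bnd ρ₂ Ω₃ Ω₂ Y z₃ γm τm :=
  ⟨h.hz, fun x hx => h.X_lt x (hY hx), h.hγ, fun c hc d hd hcd => h.le_γ c (hY hc) d (hY hd) hcd,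
    h.hτ, fun d hd => h.tt_lt d (hY hd)⟩

theorem Bnd.lt {X : Set Ord} {z₃ γm τm : Ord} (h : Bnd ρ₂ Ω₃ Ω₂ X z₃ γm τm) : ∀ x ∈ X, x < Ω₃ :=
  fun x hx => (h.X_lt x hx).trans h.hz

theorem u3' (h1 : R1 ρ₁ Ω₂) (h2 : R2 ρ₂ Ω₃ Ω₂) {X : Set Ord} (hX : LW X) {z₃ γm τm : Ord}
    (hB : Bnd ρ₂ Ω₃ Ω₂ X z₃ γm τm)
    {v₀ ξ : Ord} (hξ : ξ < O1)
    (hyp : ∀ b ∈ X, ∀ c ∈ X, ∀ d ∈ X, b < c → c < d →
      (v₀ ≤ ρ₂ b c ∨ v₀ ≤ ρ₂ c d ∨ v₀ ≤ ρ₂ b d) →
      Cmp ρ₁ ξ (ρ₂ b c) (ρ₂ c d) ∧ Cmp ρ₁ ξ (ρ₂ b d) (ρ₂ c d) ∧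
      (ρ₂ b c ≤ ρ₂ c d → ρ₁ (tt ρ₂ (ρ₂ c d) b) (tt ρ₂ (ρ₂ c d) c) ≤ ξ)) :
    ∃ Y ⊆ X, ¬ Y.Countable ∧ ∀ c ∈ Y, ∀ d ∈ Y, c < d → ρ₂ c d < v₀ := by
  classical
  by_contra hno
  push Not at hno
  have hXΩ := hB.lt
  -- the set of bounds
  set G : Set Ord := {γ | γ ≤ γm ∧ ∃ Y ⊆ X, ¬ Y.Countable ∧
    ∀ c ∈ Y, ∀ d ∈ Y, c < d → ρ₂ c d ≤ γ} with hG
  have hGne : G.Nonempty := ⟨γm, le_rfl, X, subset_rfl, hX.unc, hB.le_γ⟩
  obtain ⟨hγm, Y, hYX, hYunc, hYρ⟩ : sInf G ∈ G := csInf_mem hGne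
  have hγΩ : sInf G < Ω₂ := hγm.trans_lt hB.hγ
  set γs := sInf G with hγs
  have hmin : ∀ γ < γs, ∀ W ⊆ X, ¬ W.Countable → ∃ c ∈ W, ∃ d ∈ W, c < d ∧ γ < ρ₂ c d := by
    intro γ hγ W hWX hW
    by_contra hcon
    push Not at hcon
    have : γ ∈ G := ⟨(hγ.le.trans hγm), W, hWX, hW, hcon⟩
    exact absurd (csInf_le' this) (not_le.mpr hγ)
  have hYLW : LW Y := hX.sub hYX hYunc
  have hYΩ : ∀ y ∈ Y, y < Ω₃ := fun y hy => hXΩ y (hYX hy)
  have hv₀ : v₀ ≤ γs := by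
    obtain ⟨c, hc, d, hd, hcd, h⟩ := hno Y hYX hYunc
    exact h.trans (hYρ c hc d hd hcd)
  set Z : Set Ord := {c ∈ Y | ∀ d ∈ Y, c < d → ρ₂ c d < γs} with hZ
  by_cases hZc : Z.Countable
  · -- Case (i)
    have hY' : ¬ (Y \ Z).Countable := by
      intro hc
      apply hYunc
      refine (hc.union hZc).mono ?_
      intro y hy
      by_cases hyZ : y ∈ Z
      · exact Or.inr hyZ
      · exact Or.inl ⟨hy, hyZ⟩
    have hmono : ∀ b ∈ Y \ Z, ∀ c ∈ Y \ Z, b < c → tt ρ₂ γs b < tt ρ₂ γs c := fun b hb c hc hbc =>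
      h2.tt_lt_tt (hYΩ c hc.1) hbc (hYρ b hb.1 c hc.1 hbc)
    have hinj : Set.InjOn (tt ρ₂ γs) (Y \ Z) := by
      intro b hb c hc hbc
      rcases lt_trichotomy b c with h | h | h
      · exact absurd hbc (hmono b hb c hc h).ne
      · exact h
      · exact absurd hbc.symm (hmono c hc b hb h).ne
    obtain ⟨x, hx, y, hy, hxy, hρ⟩ := h1.unbdd (tt ρ₂ γs '' (Y \ Z))
      (fun hc => hY' (Set.countable_of_injective_of_countable_image hinj hc)) τm hB.hτ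
      (by
        rintro _ ⟨c, hc, rfl⟩
        exact (tt_mono hγm).trans_lt (hB.tt_lt c (hYX hc.1))) ξ hξ
    obtain ⟨b, hb, rfl⟩ := hx
    obtain ⟨c, hc, rfl⟩ := hy
    have hbc : b < c := by
      rcases lt_trichotomy b c with h | h | h
      · exact h
      · rw [h] at hxy
        exact absurd hxy (lt_irrefl _)
      · exact absurd (hmono c hc b hb h) (not_lt.mpr hxy.le)
    obtain ⟨d, hd, hcd, hcdγ⟩ : ∃ d ∈ Y, c < d ∧ γs ≤ ρ₂ c d := by
      by_contra hcon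
      push Not at hcon
      exact hc.2 ⟨hc.1, hcon⟩
    have heq : ρ₂ c d = γs := le_antisymm (hYρ c hc.1 d hd hcd) hcdγ
    have := (hyp b (hYX hb.1) c (hYX hc.1) d (hYX hd) hbc hcd
      (Or.inr (Or.inl (hv₀.trans hcdγ)))).2.2 ((hYρ b hb.1 c hc.1 hbc).trans hcdγ)
    rw [heq] at this
    exact absurd hρ (not_lt.mpr this)
  · -- Case (ii)
    have hZY : Z ⊆ Y := fun c hc => hc.1
    have hZX : Z ⊆ X := hZY.trans hYX
    have hZLW : LW Z := hYLW.sub hZY hZc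
    have hZρ : ∀ c ∈ Z, ∀ d ∈ Z, c < d → ρ₂ c d < γs := fun c hc d hd hcd => hc.2 d hd.1 hcd
    have hZΩ : ∀ z ∈ Z, z < Ω₃ := fun z hz => hYΩ z hz.1
    have hucof : ∀ S : Set Ord, S.Countable → (∀ s ∈ S, s < γs) →
        ∃ γ < γs, ∀ s ∈ S, s ≤ γ := by
      intro S hS hSγ
      by_contra hcon
      push Not at hcon
      obtain ⟨s, hs, W, hWZ, hW, hWρ⟩ := h2.np0 Z hZLW z₃ hB.hz (fun z hz => hB.X_lt z (hYX hz.1)) γs S hS
        (fun x hx => by
          obtain ⟨s, hs, h⟩ := hcon x hx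
          exact ⟨s, hs, h.le⟩) hZρ
      obtain ⟨c, hc, d, hd, hcd, h⟩ := hmin s (hSγ s hs) W (hWZ.trans hZX) hW
      exact absurd (hWρ c hc d hd hcd) (not_le.mpr h)
    have hv₀' : v₀ < γs := by
      rcases hv₀.eq_or_lt with h | h
      · obtain ⟨c, hc, d, hd, hcd, h'⟩ := hno Z hZX hZc
        rw [h] at h'
        exact absurd (hZρ c hc d hd hcd) (not_lt.mpr h')
      · exact h
    set a : Ord → Set Ord := fun d => {x | ∃ c ∈ Z, c < d ∧ x = ρ₂ c d ∧ v₀ ≤ x}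
      with ha
    have hac : ∀ d ∈ Z, (a d).Countable := by
      intro d hd
      refine ((hZLW.init d hd).image fun c => ρ₂ c d).mono ?_
      rintro x ⟨c, hc, hcd, rfl, _⟩
      exact ⟨c, ⟨hc, hcd⟩, rfl⟩
    have haγ : ∀ d ∈ Z, ∀ x ∈ a d, x < γs := by
      rintro d hd x ⟨c, hc, hcd, rfl, _⟩
      exact hZρ c hc d hd hcd
    set gam : Ord → Ord := fun d => sSup (a d) with hgam
    have hbdd : ∀ d ∈ Z, BddAbove (a d) := fun d hd => ⟨γs, fun x hx => (haγ d hd x hx).le⟩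
    have hle : ∀ d ∈ Z, ∀ x ∈ a d, x ≤ gam d := fun d hd x hx => le_csSup (hbdd d hd) hx
    have hgamlt : ∀ d ∈ Z, gam d < γs := by
      intro d hd
      obtain ⟨γ, hγ, h⟩ := hucof (a d) (hac d hd) (haγ d hd)
      exact (csSup_le' h).trans_lt hγ
    have hcnt : ∀ g < γs, {d ∈ Z | gam d ≤ g}.Countable := by
      intro g hg
      by_contra hW
      obtain ⟨c, hc, d, hd, hcd, h⟩ := hmin (max g v₀) (max_lt hg hv₀') _
        (fun d hd => hZX hd.1) hW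
      rw [max_lt_iff] at h
      have := hle d hd.1 (ρ₂ c d) ⟨c, hc.1, hcd, rfl, h.2.le⟩
      exact absurd (this.trans hd.2) (not_le.mpr h.1)
    set Z' : Set Ord := {d ∈ Z | (∃ c ∈ Z, c < d) ∧ ∀ c ∈ Z, c < d → gam c < gam d} with hZ'
    have hZ'Z : Z' ⊆ Z := fun d hd => hd.1
    have hZ'unc : ¬ Z'.Countable := by
      intro hc
      obtain ⟨x, hx, hx'⟩ := hZLW.bound hZ'Z hc
      obtain ⟨g, hg, hg'⟩ := hucof (gam '' (Z ∩ Set.Iic x)) ((hZLW.init_le hx).image gam) (by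
        rintro _ ⟨c, hc, rfl⟩
        exact hgamlt c hc.1)
      have hne : {d ∈ Z | x < d ∧ g < gam d}.Nonempty := by
        by_contra hcon
        rw [Set.not_nonempty_iff_eq_empty] at hcon
        apply (hZLW.above hx).unc
        refine (hcnt g hg).mono ?_
        rintro d ⟨hd, hxd⟩
        refine ⟨hd, ?_⟩
        by_contra h
        have : d ∈ {d ∈ Z | x < d ∧ g < gam d} := ⟨hd, hxd, not_le.mp h⟩
        rw [hcon] at this
        exact this
      obtain ⟨hd1, hd2, hd3⟩ := csInf_mem hne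
      set d := sInf {d ∈ Z | x < d ∧ g < gam d} with hd
      have hdZ' : d ∈ Z' := by
        refine ⟨hd1, ⟨x, hx, hd2⟩, fun c hc hcd => ?_⟩
        rcases le_or_gt c x with hcx | hcx
        · exact (hg' _ ⟨c, ⟨hc, hcx⟩, rfl⟩).trans_lt hd3
        · by_contra h
          have : c ∈ {d ∈ Z | x < d ∧ g < gam d} := ⟨hc, hcx, hd3.trans_le (not_lt.mp h)⟩
          exact absurd (csInf_le' this) (not_le.mpr hcd)
      exact absurd hd2 (not_lt.mpr (hx' d hdZ').le)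
    have hZ'LW : LW Z' := hZLW.sub hZ'Z hZ'unc
    have hane : ∀ d ∈ Z', (a d).Nonempty := by
      intro d hd
      by_contra hcon
      rw [Set.not_nonempty_iff_eq_empty] at hcon
      obtain ⟨c, hc, hcd⟩ := hd.2.1
      have := hd.2.2 c hc hcd
      simp only [hgam] at this
      rw [hcon, csSup_empty] at this
      exact not_lt_zero this
    have hchain : ∀ d ∈ Z, ∀ x ∈ a d, ∀ y ∈ a d, x ≤ y → Rel ρ₁ ξ x y := by
      rintro d hd x ⟨b, hb, hbd, rfl, hx⟩ y ⟨c, hc, hcd, rfl, hy⟩ hxy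
      rcases lt_trichotomy b c with h | h | h
      · exact ((hyp b (hZX hb) c (hZX hc) d (hZX hd) h hcd (Or.inr (Or.inr hx))).2.1).rel hxy
      · rw [h]
        exact Or.inl rfl
      · have := (hyp c (hZX hc) b (hZX hb) d (hZX hd) h hbd (Or.inr (Or.inr hy))).2.1
        exact Cmp.rel (Or.comm.mp this) hxy
    have hγsΩ := hγΩ
    have hclaim : ∀ c ∈ Z, ∀ d ∈ Z, c < d → (a c).Nonempty → gam c < gam d →
        ∃ z ∈ a d, gam c ≤ z ∧ ∃ x₀ ∈ a c, ∀ x ∈ a c, x₀ ≤ x → Rel ρ₁ ξ x z := by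
      intro c hc d hd hcd hne hlt
      rcases le_or_gt (gam c) (ρ₂ c d) with hy | hy
      · obtain ⟨x₀, hx₀⟩ := hne
        have hv : v₀ ≤ ρ₂ c d := by
          have hxle := hle c hc x₀ hx₀
          obtain ⟨_, _, _, _, h⟩ := hx₀
          exact h.trans (hxle.trans hy)
        refine ⟨ρ₂ c d, ⟨c, hc, hcd, rfl, hv⟩, hy, x₀, hx₀, ?_⟩
        rintro x hx _
        have hxle := hle c hc x hx
        obtain ⟨b, hb, hbc, rfl, hx'⟩ := hx
        exact ((hyp b (hZX hb) c (hZX hc) d (hZX hd) hbc hcd (Or.inl hx')).1).rel (hxle.trans hy)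
      · obtain ⟨x₀, hx₀, hyx₀⟩ := exists_lt_of_lt_csSup hne hy
        have hned : (a d).Nonempty := by
          by_contra hcon
          rw [Set.not_nonempty_iff_eq_empty] at hcon
          simp only [hgam] at hlt
          rw [hcon, csSup_empty] at hlt
          exact not_lt_zero hlt
        obtain ⟨z, hz, hgz⟩ := exists_lt_of_lt_csSup hned hlt
        refine ⟨z, hz, hgz.le, x₀, hx₀, ?_⟩
        intro x hx hx₀x
        have hxle := hle c hc x hx
        obtain ⟨b, hb, hbc, rfl, hx'⟩ := hx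
        have heq := h2.eq_of_lt (hZΩ d hd) hbc.le hcd.le (hyx₀.trans_le hx₀x)
        refine hchain d hd _ ⟨b, hb, hbc.trans hcd, heq.symm, hx'⟩ z hz (hxle.trans hgz.le)
    have hclaim2 : ∀ c ∈ Z, ∀ d ∈ Z, c < d → (a c).Nonempty → gam c < gam d →
        ∃ z ∈ a d, Rel ρ₁ ξ (gam c) z ∧ ∃ x₀ ∈ a c, ∀ x ∈ a c, x₀ ≤ x → Rel ρ₁ ξ x z := by
      intro c hc d hd hcd hne hlt
      obtain ⟨z, hz, hgz, x₀, hx₀, hx⟩ := hclaim c hc d hd hcd hne hlt
      refine ⟨z, hz, ?_, x₀, hx₀, hx⟩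
      by_cases hmem : gam c ∈ a c
      · exact hx _ hmem (hle c hc x₀ hx₀)
      · rcases hgz.eq_or_lt with h | h
        · exact Or.inl h
        · refine Or.inr ⟨h, ?_⟩
          have hx₀lt : x₀ < gam c := lt_of_le_of_ne (hle c hc x₀ hx₀) fun h => hmem (h ▸ hx₀)
          refine h1.closed (gam c) ξ z ((haγ d hd z hz).trans hγΩ) h ?_ ?_
          · intro h0
            rw [h0] at hx₀lt
            exact not_lt_zero hx₀lt
          · intro y hy
            obtain ⟨x, hxa, hxm⟩ := exists_lt_of_lt_csSup hne (max_lt hy hx₀lt)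
            rw [max_lt_iff] at hxm
            have hxlt : x < gam c := lt_of_le_of_ne (hle c hc x hxa) fun h => hmem (h ▸ hxa)
            refine ⟨x, hxm.1, hxlt, ?_⟩
            rcases hx x hxa hxm.2.le with h' | h'
            · rw [h'] at hxlt
              exact absurd (hxlt.trans h) (lt_irrefl _)
            · exact h'.2
    have hclaim3 : ∀ d ∈ Z', ∀ z ∈ a d, Rel ρ₁ ξ z (gam d) := by
      intro d hd z hz
      obtain ⟨e, he, hde⟩ := hZ'LW.exists_gt hd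
      have hlt : gam d < gam e := he.2.2 d hd.1 hde
      obtain ⟨z', hz', hr, x₀, hx₀, hx⟩ := hclaim2 d hd.1 e he.1 hde (hane d hd) hlt
      have hz'Ω : z' < Ω₂ := (haγ e he.1 z' hz').trans hγΩ
      have hmax : max z x₀ ∈ a d := by
        rcases max_choice z x₀ with h | h <;> rw [h] <;> assumption
      have e1 : Rel ρ₁ ξ z (max z x₀) := hchain d hd.1 z hz _ hmax (le_max_left _ _)
      have e2 : Rel ρ₁ ξ (max z x₀) z' := hx _ hmax (le_max_right _ _)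
      exact h1.rel_down hz'Ω (hle d hd.1 z hz) (h1.rel_trans hz'Ω e1 e2) hr
    have hfinal : ∀ c ∈ Z', ∀ d ∈ Z', c < d → Rel ρ₁ ξ (gam c) (gam d) := by
      intro c hc d hd hcd
      have hlt : gam c < gam d := hd.2.2 c hc.1 hcd
      obtain ⟨z, hz, hr, _⟩ := hclaim2 c hc.1 d hd.1 hcd (hane c hc) hlt
      exact h1.rel_trans ((hgamlt d hd.1).trans hγΩ) hr (hclaim3 d hd z hz)
    have hinj : Set.InjOn gam Z' := by
      intro b hb c hc hbc
      rcases lt_trichotomy b c with h | h | h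
      · exact absurd hbc (hc.2.2 b hb.1 h).ne
      · exact h
      · exact absurd hbc.symm (hb.2.2 c hc.1 h).ne
    obtain ⟨x, hx, y, hy, hxy, hρ⟩ := h1.unbdd (gam '' Z')
      (fun hc => hZ'unc (Set.countable_of_injective_of_countable_image hinj hc)) γs hγΩ
      (by
        rintro _ ⟨c, hc, rfl⟩
        exact hgamlt c hc.1) ξ hξ
    obtain ⟨b, hb, rfl⟩ := hx
    obtain ⟨c, hc, rfl⟩ := hy
    have hbc : b < c := by
      rcases lt_trichotomy b c with h | h | h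
      · exact h
      · rw [h] at hxy
        exact absurd hxy (lt_irrefl _)
      · exact absurd (hb.2.2 c hc.1 h) (not_lt.mpr hxy.le)
    rcases hfinal b hb c hc hbc with h | h
    · rw [h] at hxy
      exact lt_irrefl _ hxy
    · exact absurd hρ (not_lt.mpr h.2)

theorem start_pair' (h2 : R2 ρ₂ Ω₃ Ω₂) {X : Set Ord} (hX : LW X) {z₃ : Ord} (hz₃ : z₃ < Ω₃)
    (hXz : ∀ x ∈ X, x < z₃) :
    ∃ b ∈ X, ∃ c ∈ X, b < c ∧ {a | a ∈ X ∧ a < b ∧ ρ₂ a b ≤ ρ₂ b c}.Infinite := by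
  have hXΩ : ∀ x ∈ X, x < Ω₃ := fun x hx => (hXz x hx).trans hz₃
  by_contra hno
  push Not at hno
  have hno' : ∀ b ∈ X, ∀ c ∈ X, b < c → {a | a ∈ X ∧ a < b ∧ ρ₂ a b ≤ ρ₂ b c}.Finite :=
    hno
  obtain ⟨A₀, hA₀X, hA₀, x₁, hx₁, hA₀x₁⟩ := hX.exists_infinite
  set X₁ := X ∩ Set.Ioi x₁ with hX₁
  have hX₁LW : LW X₁ := hX.above hx₁
  set M : Ord → Set Ord := fun c =>
    {μ | {a | a ∈ X ∧ a < c ∧ ρ₂ a c ≤ μ}.Infinite} with hM
  have hMne : ∀ c ∈ X₁, (M c).Nonempty := by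
    intro c hc
    refine ⟨Ω₂, ?_⟩
    refine hA₀.mono ?_
    intro a ha
    have hac : a < c := (hA₀x₁ a ha).trans hc.2
    exact ⟨hA₀X ha, hac, (h2.lt c (hXΩ c hc.1) a hac.le).le⟩
  set μ : Ord → Ord := fun c => sInf (M c) with hμ
  have hμM : ∀ c ∈ X₁, μ c ∈ M c := fun c hc => csInf_mem (hMne c hc)
  have h_i : ∀ c ∈ X₁, ∀ d ∈ X₁, c < d → ρ₂ c d < μ c := by
    intro c hc d hd hcd
    by_contra hcon
    push Not at hcon
    exact (hμM c hc) ((hno' c hc.1 d hd.1 hcd).subset fun a ha =>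
      ⟨ha.1, ha.2.1, ha.2.2.trans hcon⟩)
  have h_ii : ∀ c ∈ X₁, ∀ d ∈ X₁, c < d → μ d ≤ μ c := by
    intro c hc d hd hcd
    apply csInf_le'
    have h3 : ({a | a ∈ X ∧ a < c ∧ ρ₂ a c ≤ μ c} \ {a | a ∈ X ∧ a < c ∧ ρ₂ a c ≤ ρ₂ c d}).Infinite :=
      (hμM c hc).sdiff (hno' c hc.1 d hd.1 hcd)
    refine h3.mono ?_
    rintro a ⟨⟨ha1, ha2, ha3⟩, ha4⟩
    have ha5 : ρ₂ c d < ρ₂ a c := by
      by_contra hcon
      exact ha4 ⟨ha1, ha2, not_lt.mp hcon⟩
    refine ⟨ha1, ha2.trans hcd, ?_⟩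
    rw [h2.eq_of_lt (hXΩ d hd.1) ha2.le hcd.le ha5]
    exact ha3
  obtain ⟨d₀, hd₀, hd₀'⟩ : sInf (μ '' X₁) ∈ μ '' X₁ := csInf_mem (hX₁LW.nonempty.image μ)
  set μs := sInf (μ '' X₁) with hμs
  set X₂ := X₁ ∩ Set.Ioi d₀ with hX₂
  have hX₂LW : LW X₂ := hX₁LW.above hd₀
  have hconst : ∀ d ∈ X₂, μ d = μs := by
    intro d hd
    apply le_antisymm
    · rw [← hd₀']
      exact h_ii d₀ hd₀ d hd.1 hd.2
    · exact csInf_le' ⟨d, hd.1, rfl⟩
  have hpair : ∀ c ∈ X₂, ∀ d ∈ X₂, c < d → ρ₂ c d < μs := by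
    intro c hc d hd hcd
    rw [← hconst c hc]
    exact h_i c hc.1 d hd.1 hcd
  obtain ⟨A₁, hA₁X, hA₁, d₁, hd₁, hA₁d₁⟩ := hX₂LW.exists_infinite
  obtain ⟨s, ⟨a, ⟨ha, had⟩, rfl⟩, Z, hZX, hZ, hZρ⟩ := h2.np0 X₂ hX₂LW z₃ hz₃
    (fun z hz => hXz z hz.1.1) μs ((fun a => ρ₂ a d₁) '' (X₂ ∩ Set.Iio d₁))
    ((hX₂LW.init d₁ hd₁).image _) (by
      intro x hx
      have hfin : {a | a ∈ X ∧ a < d₁ ∧ ρ₂ a d₁ ≤ x}.Finite := by
        by_contra hinf
        have : x ∈ M d₁ := hinf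
        have h3 : μ d₁ ≤ x := csInf_le' this
        rw [hconst d₁ hd₁] at h3
        exact absurd hx (not_lt.mpr h3)
      obtain ⟨a, ha, ha'⟩ := (hA₁.sdiff hfin).nonempty
      refine ⟨ρ₂ a d₁, ⟨a, ⟨hA₁X ha, hA₁d₁ a ha⟩, rfl⟩, ?_⟩
      by_contra hcon
      exact ha' ⟨(hA₁X ha).1.1, hA₁d₁ a ha, (not_le.mp hcon).le⟩) hpair
  have hs : ρ₂ a d₁ < μs := hpair a ha d₁ hd₁ had
  have hZLW : LW Z := hX₂LW.sub hZX hZ
  obtain ⟨A₂, hA₂Z, hA₂, d₂, hd₂, hA₂d₂⟩ := hZLW.exists_infinite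
  have h3 : ρ₂ a d₁ ∈ M d₂ := by
    refine hA₂.mono ?_
    intro b hb
    exact ⟨(hZX (hA₂Z hb)).1.1, hA₂d₂ b hb, hZρ b (hA₂Z hb) d₂ hd₂ (hA₂d₂ b hb)⟩
  have h4 : μ d₂ ≤ ρ₂ a d₁ := csInf_le' h3
  rw [hconst d₂ (hZX hd₂)] at h4
  exact absurd hs (not_lt.mpr h4)


end

end Pool.Agent.Lib.MP_7295f2_lc.LA

end

section

/-!
# Hulls closed under definable functions
-/

open Ordinal Set

set_option linter.unusedVariables false
set_option linter.unusedSectionVars false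

namespace Pool.Agent.Lib.MP_7295f2_lc.LA

variable {A : Ord → Ord → Ord → Prop} {P Q : Set Ord → Env → Prop}
  {f g h : Set Ord → Env → Ord}

/-- Hulls at level `σ` are closed under `f`. -/
def HC (A : Ord → Ord → Ord → Prop) (σ : Ord) (f : Set Ord → Env → Ord) : Prop :=
  ∀ x < σ, ∀ lam ≤ σ, 0 < lam → ∀ y : Env, (∀ i, y i ∈ Hl A σ x lam) → ev f y ∈ Hl A σ x lam

theorem hc_of_reflects {φ : Fm} (hφ : ∀ e : Env, Sat A (D A) Set.univ φ e ↔
    e 0 = f Set.univ fun i => e (i + 1)) {σ : Ord} (hσ : ω ≤ σ) (h1 : Reflects A σ φ)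
    (h2 : Reflects A σ (.ex φ)) : HC A σ f := by
  intro x hx lam hlam h0 y hy
  have hX := Hl_clsd (A := A) hσ hx hlam h0
  have hyσ : ∀ i, y i < σ := fun i => hX.sub _ (hy i)
  have hw : ev f y < σ := by
    have h3 : Sat A (D A) Set.univ (.ex φ) y := ⟨ev f y, Set.mem_univ _, (hφ _).mpr rfl⟩
    rw [← h2 y hyσ] at h3
    obtain ⟨w, hw, h4⟩ := h3
    rw [h1 _ (fun i => by
      cases i with
      | zero => exact hw
      | succ i => exact hyσ i), hφ] at h4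
    have h5 : w = ev f y := h4
    rw [← h5]
    exact hw
  have hf' : DfnF A (LS σ hσ) fun U e => sInf {v | v ∈ U ∧ Sat A (D A) U φ (cons v e)} := by
    apply DfnF.sInfU
    refine ⟨φ, fun U hU e he => ?_⟩
    show Sat A (D A) U φ e ↔ Sat A (D A) U φ (cons (e 0) fun i => e (i + 1))
    rw [cons_self]
  have h3 := Hl_fun hσ hx hlam h0 hf' hy
  have h4 : {v | v ∈ Iio σ ∧ Sat A (D A) (Iio σ) φ (cons v y)} = {ev f y} := by
    ext v
    simp only [Set.mem_ofPred_eq, Set.mem_singleton_iff]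
    constructor
    · rintro ⟨g1, g2⟩
      rw [h1 _ (fun i => by
        cases i with
        | zero => exact g1
        | succ i => exact hyσ i), hφ] at g2
      exact g2
    · rintro rfl
      refine ⟨hw, ?_⟩
      rw [h1 _ (fun i => by
        cases i with
        | zero => exact hw
        | succ i => exact hyσ i), hφ]
      rfl
  have h5 : sInf {v | v ∈ Iio σ ∧ Sat A (D A) (Iio σ) φ (cons v y)} ∈ Hl A σ x lam := h3
  rwa [h4, csInf_singleton] at h5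

theorem exists_hc (fs : List (Set Ord → Env → Ord)) (hfs : ∀ f ∈ fs, DfnF A GG f) (β : Ord) :
    ∃ σ > β, ω ≤ σ ∧ ∀ f ∈ fs, HC A σ f := by
  have : ∃ l : List Fm, ∀ σ, ω ≤ σ → (∀ φ ∈ l, Reflects A σ φ) → ∀ f ∈ fs, HC A σ f := by
    induction fs with
    | nil => exact ⟨[], fun σ _ _ f hf => absurd hf (by simp)⟩
    | cons f fs ih =>
      obtain ⟨l, hl⟩ := ih fun g hg => hfs g (List.mem_cons_of_mem _ hg)
      obtain ⟨φ, hφ⟩ := (hfs f List.mem_cons_self).graph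
      refine ⟨φ :: .ex φ :: l, fun σ hσ hr g hg => ?_⟩
      rcases List.mem_cons.mp hg with rfl | hg
      · refine hc_of_reflects (φ := φ) (fun e => ?_) hσ (hr _ (by simp)) (hr _ (by simp))
        exact hφ Set.univ (mem_GG.mpr rfl) e fun i => Set.mem_univ _
      · exact hl σ hσ (fun ψ hψ => hr ψ (by simp [hψ])) g hg
  obtain ⟨l, hl⟩ := this
  obtain ⟨σ, h1, h2, h3⟩ := exists_reflects A l β
  exact ⟨σ, h1, h2, hl σ h2 h3⟩

theorem Hl_sub {σ x x' lam lam' : Ord} (hσ : ω ≤ σ) (hx : x < σ) (hx' : x' < σ) (hlam : lam ≤ σ)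
    (hlam' : lam' ≤ σ) (h0' : 0 < lam') (h1 : x ∈ Hl A σ x' lam')
    (h2 : ∀ i < lam, i ∈ Hl A σ x' lam') : Hl A σ x lam ⊆ Hl A σ x' lam' := by
  rintro y ⟨n, l, hl, rfl⟩
  have hv := valid_cons hx hlam hl
  have h0 := Hl_zero (A := A) hσ hx' hlam' h0'
  by_cases hn : ∃ φ, enc φ = n
  · obtain ⟨φ, rfl⟩ := hn
    have hf' : DfnF A (LS σ hσ) fun U e => sInf {v | v ∈ U ∧ Sat A (D A) U φ (cons v e)} := by
      apply DfnF.sInfU
      refine ⟨φ, fun U hU e he => ?_⟩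
      show Sat A (D A) U φ e ↔ Sat A (D A) U φ (cons (e 0) fun i => e (i + 1))
      rw [cons_self]
    have h3 := Hl_fun hσ hx' hlam' h0' hf' (y := cons x (lenv l)) (by
      intro i
      cases i with
      | zero => exact h1
      | succ i =>
        show lenv l i ∈ _
        unfold lenv
        rw [List.getD_eq_getElem?_getD]
        cases h : l[i]? with
        | none => simpa using h0
        | some a => simpa using h2 a (hl a (List.mem_of_getElem? h)))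
    have h4 : D A (mk σ (enc φ) (x :: l)) = {w | w ∈ Iio σ ∧ Sat A (D A) (Iio σ) φ
        (cons w (cons x (lenv l)))} := by
      ext w
      rw [mem_D_mk hv, lenv_cons]
      rfl
    unfold hf
    rw [h4]
    exact h3
  · have hne : ¬ (D A (mk σ n (x :: l))).Nonempty := by
      rintro ⟨w, hw⟩
      obtain ⟨_, φ, h1, _⟩ := mem_D.mp hw
      rw [num_mk hv] at h1
      exact hn ⟨φ, h1⟩
    rw [hf_eq_zero hne]
    exact h0

/-- `ω₂` of the model. -/
noncomputable def V2 (A : Ord → Ord → Ord → Prop) : Ord := sc A O1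

/-- `ω₃` of the model. -/
noncomputable def V3 (A : Ord → Ord → Ord → Prop) : Ord := sc A (V2 A)

theorem sc_omega (hA : Good A) : sc A ω = O1 := by
  apply le_antisymm (sc_le omega_lt_O1 mc_of_card)
  by_contra hcon
  push Not at hcon
  exact mc_sc ω ω (lt_sc ω) (hA.sj hcon)

theorem dfnF_O1 (hA : Good A) : DfnF A GG fun _ _ => O1 := by
  rw [← sc_omega hA]
  (apply_rules (transparency := .reducible) (maxDepth := 1000) using is_poly)

theorem dfnF_V2 (hA : Good A) : DfnF A GG fun _ _ => V2 A := DfnF.sc (dfnF_O1 hA)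

theorem dfnF_V3 (hA : Good A) : DfnF A GG fun _ _ => V3 A := DfnF.sc (dfnF_V2 hA)

/-- `ρ : [ω₂]² → ω₁`. -/
noncomputable def q1 (A : Ord → Ord → Ord → Prop) : Ord → Ord → Ord := rho (CSq A O1)

/-- `ρ : [ω₃]² → ω₂`. -/
noncomputable def q2 (A : Ord → Ord → Ord → Prop) : Ord → Ord → Ord := rho (CSq A (V2 A))

theorem dfnF_q1 (hA : Good A) (h1 : DfnF A GG f) (h2 : DfnF A GG g) :
    DfnF A GG fun U e => q1 A (f U e) (g U e) := dfnF_rho (dfnF_O1 hA) h1 h2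

theorem dfnF_q2 (hA : Good A) (h1 : DfnF A GG f) (h2 : DfnF A GG g) :
    DfnF A GG fun U e => q2 A (f U e) (g U e) := dfnF_rho (dfnF_V2 hA) h1 h2

theorem r1_q1 (hA : Good A) : R1 (q1 A) (V2 A) := r1_rho hA

theorem r2_q2 (hA : Good A) : R2 (q2 A) (V3 A) (V2 A) := r2_rho hA le_rfl clos_O1

/-- The name of an enumeration of `P_γ(d)` in type `ω₁`. -/
noncomputable def gn (A : Ord → Ord → Ord → Prop) (γ d : Ord) : Ord :=
  sInf {y | ∀ w, w ∈ PP (q2 A) γ d → ∃ i < O1, val A y i = w}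

/-- The enumeration of `P_γ(d)`. -/
noncomputable def gg (A : Ord → Ord → Ord → Prop) (γ d j : Ord) : Ord := val A (gn A γ d) j

/-- The index of an element of `P_γ(d)`. -/
noncomputable def ix (A : Ord → Ord → Ord → Prop) (γ d b : Ord) : Ord :=
  sInf {j | gg A γ d j = b}

theorem dfnF_gn (hA : Good A) (h1 : DfnF A GG f) (h2 : DfnF A GG g) :
    DfnF A GG fun U e => gn A (f U e) (g U e) := by
  refine DfnF.comp2 (R := fun _ x y => gn A x y) ?_ h1 h2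
  have h3 : DfnF A GG fun U e => sInf {y | ∀ w, (w < e 1 ∧ q2 A w (e 1) ≤ e 0) →
      ∃ i < O1, val A y i = w} := by
    apply DfnF.sInf
    refine Dfn.allG (Dfn.imp (Dfn.and (by (apply_rules (transparency := .reducible) (maxDepth := 1000) using is_poly)) (Dfn.le ?_ (by (apply_rules (transparency := .reducible) (maxDepth := 1000) using is_poly)))) (Dfn.exlt (dfnF_O1 hA)
      (by (apply_rules (transparency := .reducible) (maxDepth := 1000) using is_poly))))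
    exact dfnF_q2 hA (DfnF.var 0) (DfnF.var 3)
  exact h3

theorem dfnF_gg (hA : Good A) (h1 : DfnF A GG f) (h2 : DfnF A GG g) (h3 : DfnF A GG h) :
    DfnF A GG fun U e => gg A (f U e) (g U e) (h U e) := DfnF.val (dfnF_gn hA h1 h2) h3

theorem dfnF_ix (hA : Good A) (h1 : DfnF A GG f) (h2 : DfnF A GG g) (h3 : DfnF A GG h) :
    DfnF A GG fun U e => ix A (f U e) (g U e) (h U e) := by
  refine DfnF.comp3 (R := fun _ x y z => ix A x y z) ?_ h1 h2 h3
  have h4 : DfnF A GG fun U e => sInf {j | gg A (e 0) (e 1) j = e 2} := by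
    apply DfnF.sInf
    exact Dfn.eq (dfnF_gg hA (DfnF.var 1) (DfnF.var 2) (DfnF.var 0)) (DfnF.var 3)
  exact h4

theorem ix_spec (hA : Good A) {γ d b : Ord} (hγ : γ < V2 A) (hd : d < V3 A)
    (hb : b ∈ PP (q2 A) γ d) : ix A γ d b < O1 ∧ gg A γ d (ix A γ d b) = b := by
  have h1 : ∀ w, w ∈ PP (q2 A) γ d → ∃ i < O1, val A (gn A γ d) i = w :=
    csInf_mem (s := {y | ∀ w, w ∈ PP (q2 A) γ d → ∃ i < O1, val A y i = w})
      (sj_PP hA le_rfl clos_O1 hγ d hd)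
  obtain ⟨i, hi, hib⟩ := h1 b hb
  refine ⟨?_, csInf_mem (s := {j | gg A γ d j = b}) ⟨i, hib⟩⟩
  exact (csInf_le' (s := {j | gg A γ d j = b}) hib).trans_lt hi

/-- The countable sets coded by `γ, d, i`. -/
def TT (A : Ord → Ord → Ord → Prop) (γ d i : Ord) : Set Ord :=
  {w | ∃ j, A i ω j ∧ w = gg A γ d j}

/-- The sets coded in `M`. -/
def A3 (A : Ord → Ord → Ord → Prop) (M : Set Ord) : Set (Set Ord) :=
  {S | ∃ γ ∈ M, ∃ d ∈ M, ∃ i ∈ M, S = TT A γ d i}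

theorem A3_mono {M N : Set Ord} (h : M ⊆ N) : A3 A M ⊆ A3 A N := by
  rintro S ⟨γ, hγ, d, hd, i, hi, rfl⟩
  exact ⟨γ, h hγ, d, h hd, i, h hi, rfl⟩

theorem capture' (hA : Good A) {γ d : Ord} (hγ : γ < V2 A) (hd : d < V3 A) {S : Set Ord}
    (hS : S.Countable) (hint : Int A S) (hSP : S ⊆ PP (q2 A) γ d) :
    ∃ i < O1, S = TT A γ d i := by
  obtain ⟨s, hs⟩ := hint
  have hJ : Dfn A GG fun U e => ∃ w ∈ D A (e 1), e 0 = ix A (e 2) (e 3) w := by
    refine Dfn.ex_D (DfnF.var 1) (Dfn.eq (DfnF.var 1) ?_)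
    exact dfnF_ix hA (DfnF.var 3) (DfnF.var 4) (DfnF.var 0)
  obtain ⟨β, hβ, hβ'⟩ := countable_bound (S := ix A γ d '' S) (hS.image _) (by
    rintro _ ⟨w, hw, rfl⟩
    exact (ix_spec hA hγ hd (hSP hw)).1)
  have hJ' : ∀ j, Set.univ = (Set.univ : Set Ord) → ((∃ w ∈ D A s, j = ix A γ d w) ↔
      j ∈ ix A γ d '' S) := by
    intro j _
    rw [hs]
    constructor
    · rintro ⟨w, hw, rfl⟩
      exact ⟨w, hw, rfl⟩
    · rintro ⟨w, hw, rfl⟩
      exact ⟨w, hw, rfl⟩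
  obtain ⟨x, hx⟩ := int_of_dfn' hJ (cons s (cons γ (cons d fun _ => 0))) (β := β) (by
    intro j hj
    exact hβ' j ((hJ' j rfl).mp hj))
  have hx' : D A x = ix A γ d '' S := by
    rw [hx]
    ext j
    exact hJ' j rfl
  obtain ⟨i, hi, hik⟩ := hA.ch hβ (x := x) (by
    rw [hx']
    exact fun j hj => hβ' j hj)
  refine ⟨i, hi, ?_⟩
  ext w
  constructor
  · intro hw
    refine ⟨ix A γ d w, (hik _).mpr ?_, ?_⟩
    · rw [hx']
      exact ⟨w, hw, rfl⟩
    · exact (ix_spec hA hγ hd (hSP hw)).2.symm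
  · rintro ⟨j, hj, rfl⟩
    rw [hik, hx'] at hj
    obtain ⟨w, hw, rfl⟩ := hj
    rw [(ix_spec hA hγ hd (hSP hw)).2]
    exact hw

/-- A level whose hulls have all the closure properties which are used. -/
structure Lev (A : Ord → Ord → Ord → Prop) (σ : Ord) : Prop where
  ω_le : ω ≤ σ
  V3_lt : mk (V3 A + 1) 0 [] < σ
  c2 : HC A σ fun _ e => q2 A (e 0) (e 1)
  c1 : HC A σ fun _ e => q1 A (e 0) (e 1)
  cg : HC A σ fun _ e => gg A (e 0) (e 1) (e 2)
  ci : HC A σ fun _ e => ix A (e 0) (e 1) (e 2)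
  ct : HC A σ fun _ e => tt (q2 A) (e 0) (e 1)
  ce : HC A σ fun _ e => sInf {k | A (e 0) (e 1) k}

theorem exists_lev (hA : Good A) : ∃ σ, Lev A σ := by
  obtain ⟨σ, h1, h2, h3⟩ := exists_hc (A := A) [fun _ e => q2 A (e 0) (e 1),
    fun _ e => q1 A (e 0) (e 1), fun _ e => gg A (e 0) (e 1) (e 2),
    fun _ e => ix A (e 0) (e 1) (e 2), fun _ e => tt (q2 A) (e 0) (e 1),
    fun _ e => sInf {k | A (e 0) (e 1) k}] (by
      intro f hf
      simp only [List.mem_cons, List.not_mem_nil, or_false] at hf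
      rcases hf with rfl | rfl | rfl | rfl | rfl | rfl
      · exact dfnF_q2 hA (DfnF.var 0) (DfnF.var 1)
      · exact dfnF_q1 hA (DfnF.var 0) (DfnF.var 1)
      · exact dfnF_gg hA (DfnF.var 0) (DfnF.var 1) (DfnF.var 2)
      · exact dfnF_ix hA (DfnF.var 0) (DfnF.var 1) (DfnF.var 2)
      · exact dfnF_tt (dfnF_V2 hA) (DfnF.var 0) (DfnF.var 1)
      · (apply_rules (transparency := .reducible) (maxDepth := 1000) using is_poly)) (mk (V3 A + 1) 0 [])
  exact ⟨σ, h2, h1, h3 _ (by simp), h3 _ (by simp), h3 _ (by simp), h3 _ (by simp),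
    h3 _ (by simp), h3 _ (by simp)⟩

/-- The code of a list of ordinals below `ω₃`. -/
noncomputable def xc (A : Ord → Ord → Ord → Prop) (p : List Ord) : Ord := mk (V3 A) 0 p

/-- The hull of a list and `Iio lam`. -/
def HS (A : Ord → Ord → Ord → Prop) (σ : Ord) (p : List Ord) (lam : Ord) : Set Ord :=
  Hl A σ (xc A p) lam

section

variable {σ : Ord} (hA : Good A) (hL : Lev A σ) {p : List Ord} (hp : ∀ a ∈ p, a < V3 A)
  {lam : Ord} (hlam : lam ≤ O1) (h0 : 0 < lam)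

include hA hL

theorem O1_lt_sig : O1 < σ := by
  have h1 : O1 < V2 A := lt_sc O1
  have h2 : V2 A < V3 A := lt_sc _
  exact (h1.trans h2).trans ((lt_add_one _).trans_le (le_mk _ _ _) |>.trans hL.V3_lt)

theorem lam_le (hlam : lam ≤ O1) : lam ≤ σ := hlam.trans (O1_lt_sig hA hL).le

omit hA in
include hp in
theorem xc_lt : xc A p < σ := (mk_lt_of_lev hp (lt_add_one _)).trans hL.V3_lt

include hp hlam h0

theorem HS_clsd : Clsd A σ (HS A σ p lam) :=
  Hl_clsd hL.ω_le (xc_lt hL hp) (lam_le hA hL hlam) h0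

theorem HS_base {a : Ord} (ha : a ∈ p) : a ∈ HS A σ p lam := by
  refine (HS_clsd hA hL hp hlam h0).par' (xc A p) ?_ a ?_
  · exact Hl_param hL.ω_le (xc_lt hL hp) (lam_le hA hL hlam) h0
  · unfold xc
    rw [par_mk hp]
    exact ha

theorem HS_lt {i : Ord} (hi : i < lam) : i ∈ HS A σ p lam :=
  Hl_lt hL.ω_le (xc_lt hL hp) (lam_le hA hL hlam) h0 hi

theorem HS_env {x y z : Ord} (hx : x ∈ HS A σ p lam) (hy : y ∈ HS A σ p lam)
    (hz : z ∈ HS A σ p lam) (i : ℕ) : (cons x (cons y fun _ => z)) i ∈ HS A σ p lam := by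
  match i with
  | 0 => exact hx
  | 1 => exact hy
  | i + 2 => exact hz

theorem HS_r2 {x y : Ord} (hx : x ∈ HS A σ p lam) (hy : y ∈ HS A σ p lam) :
    q2 A x y ∈ HS A σ p lam :=
  hL.c2 _ (xc_lt hL hp) _ (lam_le hA hL hlam) h0 (cons x (cons y fun _ => x))
    (HS_env hA hL hp hlam h0 hx hy hx)

theorem HS_r1 {x y : Ord} (hx : x ∈ HS A σ p lam) (hy : y ∈ HS A σ p lam) :
    q1 A x y ∈ HS A σ p lam :=
  hL.c1 _ (xc_lt hL hp) _ (lam_le hA hL hlam) h0 (cons x (cons y fun _ => x))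
    (HS_env hA hL hp hlam h0 hx hy hx)

theorem HS_g {x y z : Ord} (hx : x ∈ HS A σ p lam) (hy : y ∈ HS A σ p lam)
    (hz : z ∈ HS A σ p lam) : gg A x y z ∈ HS A σ p lam :=
  hL.cg _ (xc_lt hL hp) _ (lam_le hA hL hlam) h0 (cons x (cons y fun _ => z))
    (HS_env hA hL hp hlam h0 hx hy hz)

theorem HS_idx {x y z : Ord} (hx : x ∈ HS A σ p lam) (hy : y ∈ HS A σ p lam)
    (hz : z ∈ HS A σ p lam) : ix A x y z ∈ HS A σ p lam :=
  hL.ci _ (xc_lt hL hp) _ (lam_le hA hL hlam) h0 (cons x (cons y fun _ => z))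
    (HS_env hA hL hp hlam h0 hx hy hz)

theorem HS_tt {x y : Ord} (hx : x ∈ HS A σ p lam) (hy : y ∈ HS A σ p lam) :
    tt (q2 A) x y ∈ HS A σ p lam :=
  hL.ct _ (xc_lt hL hp) _ (lam_le hA hL hlam) h0 (cons x (cons y fun _ => x))
    (HS_env hA hL hp hlam h0 hx hy hx)

theorem HS_down {i j : Ord} (hi : i ∈ HS A σ p lam) (hiΩ : i < O1) (hj : j < i) :
    j ∈ HS A σ p lam := by
  obtain ⟨n, h1, h2⟩ := hA.enum i hiΩ j hj
  have hn : (n : Ord) ∈ HS A σ p lam := (HS_clsd hA hL hp hlam h0).nat_mem hL.ω_le n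
  have h3 := hL.ce _ (xc_lt hL hp) _ (lam_le hA hL hlam) h0 (cons i (cons (n : Ord) fun _ => i))
    (HS_env hA hL hp hlam h0 hi hn hi)
  have h4 : sInf {k | A i n k} = j := h2 _ (csInf_mem (s := {k | A i n k}) ⟨j, h1⟩)
  have h5 : sInf {k | A i n k} ∈ HS A σ p lam := h3
  rwa [h4] at h5

theorem HS_mono {p' : List Ord} {lam' : Ord} (hp' : ∀ a ∈ p', a < V3 A) (hlam' : lam' ≤ O1)
    (h0' : 0 < lam') (h1 : ∀ a ∈ p', a ∈ HS A σ p lam) (h2 : ∀ i < lam', i ∈ HS A σ p lam) :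
    HS A σ p' lam' ⊆ HS A σ p lam := by
  refine Hl_sub hL.ω_le (xc_lt hL hp') (xc_lt hL hp) (lam_le hA hL hlam') (lam_le hA hL hlam)
    h0 ?_ h2
  have hX := HS_clsd hA hL hp hlam h0
  have h3 : V3 A ∈ HS A σ p lam := by
    have h4 := hX.lev' _ (Hl_param hL.ω_le (xc_lt hL hp) (lam_le hA hL hlam) h0)
    unfold xc at h4
    rwa [lev_mk hp] at h4
  exact hX.code' _ _ _ h3 h1 hp' (xc_lt hL hp')

end

end Pool.Agent.Lib.MP_7295f2_lc.LA

end

section

/-!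
# Every internal uncountable set catches one of its infinite subsets in the hull of three points
-/

open Ordinal Set

set_option linter.unusedVariables false
set_option linter.unusedSectionVars false

namespace Pool.Agent.Lib.MP_7295f2_lc.LA

variable {A : Ord → Ord → Ord → Prop}

theorem main_claim' (hA : Good A) {σ : Ord} (hL : Lev A σ) {X : Set Ord} (hX : LW X)
    (hint : Int A X) {z₃ γm τm : Ord} (hB : Bnd (q2 A) (V3 A) (V2 A) X z₃ γm τm) :
    ∃ b ∈ X, ∃ c ∈ X, ∃ d ∈ X, b < c ∧ c < d ∧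
      ∃ S ∈ A3 A (HS A σ [b, c, d] 1), S ⊆ X ∩ Set.Iio b ∧ S.Infinite := by
  classical
  have h1 := r1_q1 hA
  have h2 := r2_q2 hA
  have hXΩ := hB.lt
  by_contra hfail
  have h01 : (0 : Ord) < 1 := zero_lt_one
  have h1O : (1 : Ord) ≤ O1 := by
    have : ((1 : ℕ) : Ord) < O1 := (Ordinal.natCast_lt_omega0 1).trans omega_lt_O1
    simpa using this.le
  -- start
  obtain ⟨b₀, hb₀, c₀, hc₀, hbc₀, hAinf⟩ := start_pair' h2 hX hB.hz hB.X_lt
  set S₀ : Set Ord := {a | a ∈ X ∧ a < b₀ ∧ q2 A a b₀ ≤ q2 A b₀ c₀} with hS₀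
  have hAX : S₀ ⊆ X := fun a ha => ha.1
  have hAb : ∀ a ∈ S₀, a < b₀ := fun a ha => ha.2.1
  have hAc : S₀.Countable := by
    refine (hX.init b₀ hb₀).mono ?_
    intro a ha
    exact ⟨ha.1, ha.2.1⟩
  have hγ₀ : q2 A b₀ c₀ < V2 A := h2.lt c₀ (hXΩ c₀ hc₀) b₀ hbc₀.le
  have hS₀int : Int A S₀ := by
    obtain ⟨x, hx⟩ := hint
    have hd : Dfn A GG fun U e => e 0 ∈ D A (e 1) ∧ e 0 < e 2 ∧ q2 A (e 0) (e 2) ≤ e 3 := by
      refine Dfn.and (by (apply_rules (transparency := .reducible) (maxDepth := 1000) using is_poly)) (Dfn.and (by (apply_rules (transparency := .reducible) (maxDepth := 1000) using is_poly)) (Dfn.le ?_ (by (apply_rules (transparency := .reducible) (maxDepth := 1000) using is_poly))))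
      exact dfnF_q2 hA (DfnF.var 0) (DfnF.var 2)
    obtain ⟨z, hz⟩ := int_of_dfn' hd (cons x (cons b₀ (cons (q2 A b₀ c₀) fun _ => 0)))
      (β := b₀) (fun w hw => hw.2.1)
    refine ⟨z, ?_⟩
    rw [hz, hS₀, ← hx]
    rfl
  obtain ⟨i₀, hi₀, hAi₀⟩ := capture' hA hγ₀ (hXΩ b₀ hb₀) hAc hS₀int
    (fun a ha => ⟨ha.2.1, ha.2.2⟩)
  set ξ := Order.succ i₀ with hξdef
  have hξ : ξ < O1 := clos_O1.isLimit.succ_lt hi₀
  have hξ0 : 0 < ξ := lt_of_le_of_lt zero_le (Order.lt_succ i₀)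
  set Sees : List Ord → Prop := fun p => S₀ ∈ A3 A (HS A σ p ξ) with hSees
  have hval : ∀ {p : List Ord}, (∀ a ∈ p, a ∈ X) → ∀ a ∈ p, a < V3 A := fun h a ha => hXΩ a (h a ha)
  have hl2 : ∀ {x y : Ord}, x ∈ X → y ∈ X → ∀ a ∈ [x, y], a < V3 A := by
    intro x y hx hy
    apply hval
    intro a ha
    simp only [List.mem_cons, List.not_mem_nil, or_false] at ha
    rcases ha with rfl | rfl <;> assumption
  have hl3 : ∀ {x y z : Ord}, x ∈ X → y ∈ X → z ∈ X → ∀ a ∈ [x, y, z], a < V3 A := by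
    intro x y z hx hy hz
    apply hval
    intro a ha
    simp only [List.mem_cons, List.not_mem_nil, or_false] at ha
    rcases ha with rfl | rfl | rfl <;> assumption
  have hsees₀ : Sees [b₀, c₀] := by
    have hv := hl2 hb₀ hc₀
    have e1 : b₀ ∈ HS A σ [b₀, c₀] ξ := HS_base hA hL hv hξ.le hξ0 (by simp)
    have e2 : c₀ ∈ HS A σ [b₀, c₀] ξ := HS_base hA hL hv hξ.le hξ0 (by simp)
    exact ⟨_, HS_r2 hA hL hv hξ.le hξ0 e1 e2, _, e1, i₀,
      HS_lt hA hL hv hξ.le hξ0 (Order.lt_succ i₀), hAi₀⟩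
  -- the basic fact
  have F : ∀ b ∈ X, ∀ c ∈ X, ∀ d ∈ X, b < c → c < d → b₀ ≤ b → ∀ p : List Ord,
      (∀ a ∈ p, a ∈ [b, c, d]) →
      Sees p → (∀ i ∈ HS A σ [b, c, d] 1, i < O1 → i < ξ) ∧
        (q2 A b c ≤ q2 A c d → Sees [c, d]) ∧ (q2 A c d < q2 A b c → Sees [b, d]) := by
    intro b hb c hc d hd hbc hcd hb₀b p hp hsee
    have hv := hl3 hb hc hd
    have hvp : ∀ a ∈ p, a < V3 A := fun a ha => hv a (hp a ha)
    have hnot : S₀ ∉ A3 A (HS A σ [b, c, d] 1) := by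
      intro h
      exact hfail ⟨b, hb, c, hc, d, hd, hbc, hcd, S₀, h,
        fun a ha => ⟨hAX ha, (hAb a ha).trans_le hb₀b⟩, hAinf⟩
    have hi : ∀ i ∈ HS A σ [b, c, d] 1, i < O1 → i < ξ := by
      intro i hi hiΩ
      by_contra hcon
      push Not at hcon
      apply hnot
      refine A3_mono (HS_mono hA hL hv h1O h01 hvp hξ.le hξ0 ?_ ?_) hsee
      · exact fun a ha => HS_base hA hL hv h1O h01 (hp a ha)
      · intro j hj
        exact HS_down hA hL hv h1O h01 hi hiΩ (hj.trans_le hcon)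
    have hcΩ := hXΩ c hc
    have hdΩ := hXΩ d hd
    have eb : b ∈ HS A σ [b, c, d] 1 := HS_base hA hL hv h1O h01 (by simp)
    have ec : c ∈ HS A σ [b, c, d] 1 := HS_base hA hL hv h1O h01 (by simp)
    have ed : d ∈ HS A σ [b, c, d] 1 := HS_base hA hL hv h1O h01 (by simp)
    refine ⟨hi, fun hgood => ?_, fun hbad => ?_⟩
    · have hγ : q2 A c d < V2 A := h2.lt d hdΩ c hcd.le
      have hmem : b ∈ PP (q2 A) (q2 A c d) c := ⟨hbc, hgood⟩
      obtain ⟨hi1, hi2⟩ := ix_spec hA hγ hcΩ hmem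
      have hidx : ix A (q2 A c d) c b < ξ :=
        hi _ (HS_idx hA hL hv h1O h01 (HS_r2 hA hL hv h1O h01 ec ed) ec eb) hi1
      have hv' := hl2 hc hd
      have fc : c ∈ HS A σ [c, d] ξ := HS_base hA hL hv' hξ.le hξ0 (by simp)
      have fd : d ∈ HS A σ [c, d] ξ := HS_base hA hL hv' hξ.le hξ0 (by simp)
      have fb : b ∈ HS A σ [c, d] ξ := by
        rw [← hi2]
        exact HS_g hA hL hv' hξ.le hξ0 (HS_r2 hA hL hv' hξ.le hξ0 fc fd) fc
          (HS_lt hA hL hv' hξ.le hξ0 hidx)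
      refine A3_mono (HS_mono hA hL hv' hξ.le hξ0 hvp hξ.le hξ0 ?_ ?_) hsee
      · intro x hx
        have := hp x hx
        simp only [List.mem_cons, List.not_mem_nil, or_false] at this
        rcases this with rfl | rfl | rfl
        · exact fb
        · exact fc
        · exact fd
      · exact fun i hi => HS_lt hA hL hv' hξ.le hξ0 hi
    · have heq : q2 A b d = q2 A b c := h2.eq_of_lt hdΩ hbc.le hcd.le hbad
      have hγ : q2 A b d < V2 A := h2.lt d hdΩ b (hbc.trans hcd).le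
      have hmem : c ∈ PP (q2 A) (q2 A b d) d := ⟨hcd, heq ▸ hbad.le⟩
      obtain ⟨hi1, hi2⟩ := ix_spec hA hγ hdΩ hmem
      have hidx : ix A (q2 A b d) d c < ξ :=
        hi _ (HS_idx hA hL hv h1O h01 (HS_r2 hA hL hv h1O h01 eb ed) ed ec) hi1
      have hv' := hl2 hb hd
      have fb : b ∈ HS A σ [b, d] ξ := HS_base hA hL hv' hξ.le hξ0 (by simp)
      have fd : d ∈ HS A σ [b, d] ξ := HS_base hA hL hv' hξ.le hξ0 (by simp)
      have fc : c ∈ HS A σ [b, d] ξ := by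
        rw [← hi2]
        exact HS_g hA hL hv' hξ.le hξ0 (HS_r2 hA hL hv' hξ.le hξ0 fb fd) fd
          (HS_lt hA hL hv' hξ.le hξ0 hidx)
      refine A3_mono (HS_mono hA hL hv' hξ.le hξ0 hvp hξ.le hξ0 ?_ ?_) hsee
      · intro x hx
        have := hp x hx
        simp only [List.mem_cons, List.not_mem_nil, or_false] at this
        rcases this with rfl | rfl | rfl
        · exact fb
        · exact fc
        · exact fd
      · exact fun i hi => HS_lt hA hL hv' hξ.le hξ0 hi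
  -- choose `x₀` and `X₁`
  obtain ⟨x₀, hx₀X, hb₀x₀, hX₁⟩ : ∃ x₀ ∈ X, b₀ ≤ x₀ ∧
      ¬ {d | d ∈ X ∧ x₀ < d ∧ Sees [x₀, d]}.Countable := by
    by_contra hcon
    push Not at hcon
    have e1 := hcon b₀ hb₀ le_rfl
    have e2 := hcon c₀ hc₀ hbc₀.le
    apply (hX.above hc₀).unc
    refine (e1.union e2).mono ?_
    rintro d ⟨hd, hcd⟩
    have hF := (F b₀ hb₀ c₀ hc₀ d hd hbc₀ hcd le_rfl [b₀, c₀] (by
      intro x hx
      simp only [List.mem_cons, List.not_mem_nil, or_false] at hx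
      rcases hx with rfl | rfl <;> simp) hsees₀).2
    rcases le_or_gt (q2 A b₀ c₀) (q2 A c₀ d) with h | h
    · exact Or.inr ⟨hd, hcd, hF.1 h⟩
    · exact Or.inl ⟨hd, hbc₀.trans hcd, hF.2 h⟩
  set X₁ : Set Ord := {d | d ∈ X ∧ x₀ < d ∧ Sees [x₀, d]} with hX₁def
  have hX₁X : X₁ ⊆ X := fun d hd => hd.1
  have hX₁LW : LW X₁ := hX.sub hX₁X hX₁
  have hsub1 : ∀ x y z : Ord, ∀ a ∈ [x, y], a ∈ [x, y, z] := by
    intro x y z w hw
    simp only [List.mem_cons, List.not_mem_nil, or_false] at hw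
    rcases hw with rfl | rfl <;> simp
  have hsub2 : ∀ x y z : Ord, ∀ a ∈ [y, z], a ∈ [x, y, z] := by
    intro x y z w hw
    simp only [List.mem_cons, List.not_mem_nil, or_false] at hw
    rcases hw with rfl | rfl <;> simp
  have hsub3 : ∀ x y z : Ord, ∀ a ∈ [x, z], a ∈ [x, y, z] := by
    intro x y z w hw
    simp only [List.mem_cons, List.not_mem_nil, or_false] at hw
    rcases hw with rfl | rfl <;> simp
  have G : ∀ d ∈ X₁, ∀ e ∈ X₁, d < e → (∀ i ∈ HS A σ [x₀, d, e] 1, i < O1 → i < ξ) ∧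
      (q2 A x₀ d ≤ q2 A d e → Sees [d, e]) := by
    intro d hd e he hde
    have := F x₀ hx₀X d hd.1 e he.1 hd.2.1 hde hb₀x₀ [x₀, d] (hsub1 _ _ _) hd.2.2
    exact ⟨this.1, this.2.1⟩
  obtain ⟨X₂, hX₂X₁, hX₂, v₀, hgood, hv₀⟩ : ∃ X₂ ⊆ X₁, ¬ X₂.Countable ∧ ∃ v₀ : Ord,
      (∀ d ∈ X₂, ∀ e ∈ X₂, d < e → v₀ ≤ q2 A d e → Sees [d, e]) ∧
      (v₀ = 0 ∨ ∀ d ∈ X₂, q2 A x₀ d = v₀) := by
    by_cases hvc : ((fun d => q2 A x₀ d) '' X₁).Countable
    · obtain ⟨v, hv, hunc⟩ : ∃ v ∈ (fun d => q2 A x₀ d) '' X₁, ¬ {d ∈ X₁ | q2 A x₀ d = v}.Countable := by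
        by_contra hcon
        push Not at hcon
        apply hX₁
        refine (hvc.biUnion hcon).mono ?_
        intro d hd
        exact Set.mem_biUnion (x := q2 A x₀ d) ⟨d, hd, rfl⟩ ⟨hd, rfl⟩
      refine ⟨{d ∈ X₁ | q2 A x₀ d = v}, fun d hd => hd.1, hunc, v, ?_, Or.inr fun d hd => hd.2⟩
      intro d hd e he hde hle
      refine (G d hd.1 e he.1 hde).2 ?_
      rw [hd.2]
      exact hle
    · refine ⟨{d ∈ X₁ | ∀ c ∈ X₁, c < d → q2 A x₀ c ≠ q2 A x₀ d}, fun d hd => hd.1, ?_, 0, ?_,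
        Or.inl rfl⟩
      · intro hc
        apply hvc
        refine (hc.image fun d => q2 A x₀ d).mono ?_
        rintro _ ⟨d, hd, rfl⟩
        have hne : {c ∈ X₁ | q2 A x₀ c = q2 A x₀ d}.Nonempty := ⟨d, hd, rfl⟩
        obtain ⟨hm1, hm2⟩ := csInf_mem hne
        refine ⟨sInf {c ∈ X₁ | q2 A x₀ c = q2 A x₀ d}, ⟨hm1, fun c hc hcm heq => ?_⟩, hm2⟩
        have hcmem : c ∈ {c ∈ X₁ | q2 A x₀ c = q2 A x₀ d} := ⟨hc, heq.trans hm2⟩
        exact absurd (csInf_le' hcmem) (not_le.mpr hcm)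
      · intro d hd e he hde _
        refine (G d hd.1 e he.1 hde).2 ?_
        by_contra hcon
        push Not at hcon
        exact he.2 d hd.1 hde
          (h2.eq_of_lt (hXΩ e (hX₁X he.1)) hd.1.2.1.le hde.le hcon).symm
  have hX₂X : X₂ ⊆ X := hX₂X₁.trans hX₁X
  have hX₂LW : LW X₂ := hX₁LW.sub hX₂X₁ hX₂
  have httlt : ∀ γ ≤ γm, ∀ d ∈ X, tt (q2 A) γ d < V2 A := fun γ hγ d hd =>
    ((tt_mono hγ).trans_lt (hB.tt_lt d hd)).trans hB.hτ
  -- apply the three-dimensional lemma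
  obtain ⟨Y, hYX₂, hY, hYρ⟩ := u3' h1 h2 hX₂LW (hB.sub hX₂X) hξ (v₀ := v₀) (by
    intro b hb c hc d hd hbc hcd hor
    have hbX := hX₂X hb
    have hcX := hX₂X hc
    have hdX := hX₂X hd
    have hb₀b : b₀ ≤ b := hb₀x₀.trans (hX₂X₁ hb).2.1.le
    have hv := hl3 hbX hcX hdX
    have hH : ∀ i ∈ HS A σ [b, c, d] 1, i < O1 → i < ξ := by
      rcases hor with h | h | h
      · exact (F b hbX c hcX d hdX hbc hcd hb₀b _ (hsub1 _ _ _) (hgood b hb c hc hbc h)).1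
      · exact (F b hbX c hcX d hdX hbc hcd hb₀b _ (hsub2 _ _ _) (hgood c hc d hd hcd h)).1
      · exact (F b hbX c hcX d hdX hbc hcd hb₀b _ (hsub3 _ _ _)
          (hgood b hb d hd (hbc.trans hcd) h)).1
    have eb : b ∈ HS A σ [b, c, d] 1 := HS_base hA hL hv h1O h01 (by simp)
    have ec : c ∈ HS A σ [b, c, d] 1 := HS_base hA hL hv h1O h01 (by simp)
    have ed : d ∈ HS A σ [b, c, d] 1 := HS_base hA hL hv h1O h01 (by simp)
    have hrel : ∀ x ∈ HS A σ [b, c, d] 1, ∀ y ∈ HS A σ [b, c, d] 1, x ≤ y → y < V2 A →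
        q1 A x y ≤ ξ := fun x hx y hy hxy hyΩ =>
      (hH _ (HS_r1 hA hL hv h1O h01 hx hy) (h1.lt y hyΩ x hxy)).le
    have hcmp : ∀ x ∈ HS A σ [b, c, d] 1, ∀ y ∈ HS A σ [b, c, d] 1, x < V2 A → y < V2 A →
        Cmp (q1 A) ξ x y := by
      intro x hx y hy hxΩ hyΩ
      rcases lt_trichotomy x y with h | h | h
      · exact Or.inl (Or.inr ⟨h, hrel x hx y hy h.le hyΩ⟩)
      · exact Or.inl (Or.inl h)
      · exact Or.inr (Or.inr ⟨h, hrel y hy x hx h.le hxΩ⟩)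
    have l1 : q2 A b c < V2 A := h2.lt c (hXΩ c hcX) b hbc.le
    have l2 : q2 A c d < V2 A := h2.lt d (hXΩ d hdX) c hcd.le
    have l3 : q2 A b d < V2 A := h2.lt d (hXΩ d hdX) b (hbc.trans hcd).le
    refine ⟨hcmp _ (HS_r2 hA hL hv h1O h01 eb ec) _ (HS_r2 hA hL hv h1O h01 ec ed) l1 l2,
      hcmp _ (HS_r2 hA hL hv h1O h01 eb ed) _ (HS_r2 hA hL hv h1O h01 ec ed) l3 l2, fun hle => ?_⟩
    exact hrel _ (HS_tt hA hL hv h1O h01 (HS_r2 hA hL hv h1O h01 ec ed) eb) _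
      (HS_tt hA hL hv h1O h01 (HS_r2 hA hL hv h1O h01 ec ed) ec)
      (h2.tt_lt_tt (hXΩ c hcX) hbc hle).le (httlt _ (hB.le_γ c hcX d hdX hcd) c hcX))
  have hYX : Y ⊆ X := hYX₂.trans hX₂X
  have hYLW : LW Y := hX₂LW.sub hYX₂ hY
  rcases hv₀ with h0 | hv
  · obtain ⟨c, hc⟩ := hYLW.nonempty
    obtain ⟨d, hd, hcd⟩ := hYLW.exists_gt hc
    have := hYρ c hc d hd hcd
    rw [h0] at this
    exact not_lt_zero this
  · have hmono : ∀ b ∈ Y, ∀ c ∈ Y, b < c → tt (q2 A) v₀ b < tt (q2 A) v₀ c := fun b hb c hc hbc =>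
      h2.tt_lt_tt (hXΩ c (hYX hc)) hbc (hYρ b hb c hc hbc).le
    have hinj : Set.InjOn (tt (q2 A) v₀) Y := by
      intro b hb c hc hbc
      rcases lt_trichotomy b c with h | h | h
      · exact absurd hbc (hmono b hb c hc h).ne
      · exact h
      · exact absurd hbc.symm (hmono c hc b hb h).ne
    have hv₀m : v₀ ≤ γm := by
      obtain ⟨c, hc⟩ := hYLW.nonempty
      rw [← hv c (hYX₂ hc)]
      exact hB.le_γ x₀ hx₀X c (hYX hc) (hX₂X₁ (hYX₂ hc)).2.1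
    have hv₀Ω : v₀ < V2 A := hv₀m.trans_lt hB.hγ
    obtain ⟨x, hx, y, hy, hxy, hρ⟩ := h1.unbdd (tt (q2 A) v₀ '' Y)
      (fun hc => hY (Set.countable_of_injective_of_countable_image hinj hc)) τm hB.hτ
      (by
        rintro _ ⟨c, hc, rfl⟩
        exact (tt_mono hv₀m).trans_lt (hB.tt_lt c (hYX hc))) ξ hξ
    obtain ⟨b, hb, rfl⟩ := hx
    obtain ⟨c, hc, rfl⟩ := hy
    have hbc : b < c := by
      rcases lt_trichotomy b c with h | h | h
      · exact h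
      · rw [h] at hxy
        exact absurd hxy (lt_irrefl _)
      · exact absurd (hmono c hc b hb h) (not_lt.mpr hxy.le)
    have hbX₁ := hX₂X₁ (hYX₂ hb)
    have hcX₁ := hX₂X₁ (hYX₂ hc)
    have hvv := hl3 hx₀X (hYX hb) (hYX hc)
    have ex : x₀ ∈ HS A σ [x₀, b, c] 1 := HS_base hA hL hvv h1O h01 (by simp)
    have eb : b ∈ HS A σ [x₀, b, c] 1 := HS_base hA hL hvv h1O h01 (by simp)
    have ec : c ∈ HS A σ [x₀, b, c] 1 := HS_base hA hL hvv h1O h01 (by simp)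
    have ev : v₀ ∈ HS A σ [x₀, b, c] 1 := by
      rw [← hv b (hYX₂ hb)]
      exact HS_r2 hA hL hvv h1O h01 ex eb
    have := (G b hbX₁ c hcX₁ hbc).1 _ (HS_r1 hA hL hvv h1O h01 (HS_tt hA hL hvv h1O h01 ev eb)
      (HS_tt hA hL hvv h1O h01 ev ec)) (h1.lt _ (httlt _ hv₀m c (hYX hc)) _ hxy.le)
    exact absurd hρ (not_lt.mpr this.le)

end Pool.Agent.Lib.MP_7295f2_lc.LA

end

section

/-!
# The set mapping, on ordinals
-/

open Ordinal Set

set_option linter.unusedVariables false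
set_option linter.unusedSectionVars false

namespace Pool.Agent.Lib.MP_7295f2_lc.LA

variable {A : Ord → Ord → Ord → Prop} {P Q : Set Ord → Env → Prop}
  {f g h : Set Ord → Env → Ord}

open Classical in
theorem sup_lt {κ α : Ord} (hκ : Clos κ) (hf : DfnF A GG f) (p : Env) {X : Set Ord}
    (hX : Sj A α X) (hint : Int A X) (hα : α < sc A κ)
    (h : ∀ w ∈ X, ev f (cons w p) < sc A κ) : ∃ b < sc A κ, ∀ w ∈ X, ev f (cons w p) ≤ b := by
  obtain ⟨x, hx⟩ := hX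
  obtain ⟨z, hz⟩ := hint
  have h1 := DfnF.ite (A := A) (P := fun U e => val A (e 1) (e 0) ∈ D A (e 2))
    (f := fun U e => f U (cons (val A (e 1) (e 0)) fun j => e (j + 3))) (g := fun U e => 0)
    (by (apply_rules (transparency := .reducible) (maxDepth := 1000) using is_poly)) (DfnF.at hf 3 (by (apply_rules (transparency := .reducible) (maxDepth := 1000) using is_poly))) (by (apply_rules (transparency := .reducible) (maxDepth := 1000) using is_poly))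
  obtain ⟨b, hb, hb'⟩ := sc_reg hκ h1 (cons x (cons z p)) hα (by
    intro i hi
    by_cases hc : val A x i ∈ D A z
    · have : ev (fun U e => if val A (e 1) (e 0) ∈ D A (e 2) then
        f U (cons (val A (e 1) (e 0)) fun j => e (j + 3)) else 0) (cons i (cons x (cons z p))) =
        ev f (cons (val A x i) p) := if_pos hc
      rw [this]
      exact h _ (hz ▸ hc)
    · have : ev (fun U e => if val A (e 1) (e 0) ∈ D A (e 2) then
        f U (cons (val A (e 1) (e 0)) fun j => e (j + 3)) else 0) (cons i (cons x (cons z p))) =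
        0 := if_neg hc
      rw [this]
      exact lt_of_le_of_lt zero_le (lt_sc κ))
  refine ⟨b, hb, fun w hw => ?_⟩
  obtain ⟨i, hi, hiw⟩ := hx w hw
  have h2 := hb' i hi
  have hc : val A x i ∈ D A z := by
    rw [hiw, hz]
    exact hw
  have : ev (fun U e => if val A (e 1) (e 0) ∈ D A (e 2) then
    f U (cons (val A (e 1) (e 0)) fun j => e (j + 3)) else 0) (cons i (cons x (cons z p))) =
    ev f (cons (val A x i) p) := if_pos hc
  rw [this, hiw] at h2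
  exact h2

theorem O1_lt_V2 : O1 < V2 A := lt_sc O1

theorem V2_lt_V3 : V2 A < V3 A := lt_sc _

theorem exists_bnd (hA : Good A) {X : Set Ord} (hint : Int A X) (hX : ∀ x ∈ X, x < V3 A)
    (hSj : Sj A O1 X) : ∃ z₃ γm τm, Bnd (q2 A) (V3 A) (V2 A) X z₃ γm τm := by
  have h2 := r2_q2 hA
  have cO := clos_O1
  have cV2 : Clos (V2 A) := clos_sc (A := A) le_rfl
  have cV3 : Clos (V3 A) := clos_sc (A := A) (O1_lt_V2 (A := A)).le
  obtain ⟨z, hz⟩ := hint
  obtain ⟨z₃, h3, h4⟩ := sup_lt (A := A) (κ := V2 A) cV2 (f := fun _ e => e 0) (by (apply_rules (transparency := .reducible) (maxDepth := 1000) using is_poly))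
    (fun _ => 0) hSj ⟨z, hz⟩ ((O1_lt_V2 (A := A)).trans (lt_sc _)) (fun w hw => hX w hw)
  -- bounds for the values of `ρ₂`
  have hfd : DfnF A GG fun U e => q2 A (e 0) (e 1) := dfnF_q2 hA (DfnF.var 0) (DfnF.var 1)
  have hfd' : DfnF A GG fun U e => sInf {b | ∀ c ∈ D A (e 1), c < e 0 → q2 A c (e 0) ≤ b} := by
    apply DfnF.sInf
    refine Dfn.all_D (DfnF.var 2) (Dfn.imp (by (apply_rules (transparency := .reducible) (maxDepth := 1000) using is_poly)) (Dfn.le ?_ (by (apply_rules (transparency := .reducible) (maxDepth := 1000) using is_poly))))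
    exact dfnF_q2 hA (DfnF.var 0) (DfnF.var 2)
  have hb1 : ∀ d ∈ X, ∃ b < V2 A, ∀ c ∈ X, c < d → q2 A c d ≤ b := by
    intro d hd
    have hXd : Int A (X ∩ Iio d) := by
      have h5 : Dfn A GG fun U e => e 0 ∈ D A (e 1) ∧ e 0 < e 2 := by (apply_rules (transparency := .reducible) (maxDepth := 1000) using is_poly)
      obtain ⟨y, hy⟩ := int_of_dfn' h5 (cons z (cons d fun _ => 0)) (β := d) fun w hw => hw.2
      refine ⟨y, ?_⟩
      rw [hy, ← hz]
      rfl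
    obtain ⟨b, h5, h6⟩ := sup_lt (A := A) (κ := O1) cO hfd (fun _ => d)
      (hSj.mono le_rfl (Set.inter_subset_left (t := Iio d))) hXd O1_lt_V2 (fun w hw =>
        h2.lt d (hX d hd) w (Set.mem_Iio.mp hw.2).le)
    exact ⟨b, h5, fun c hc hcd => h6 c ⟨hc, hcd⟩⟩
  have hb2 : ∀ d ∈ X, sInf {b | ∀ c ∈ D A z, c < d → q2 A c d ≤ b} < V2 A ∧
      ∀ c ∈ D A z, c < d → q2 A c d ≤ sInf {b | ∀ c ∈ D A z, c < d → q2 A c d ≤ b} := by
    intro d hd
    obtain ⟨b, h5, h6⟩ := hb1 d hd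
    rw [← hz] at h6
    exact ⟨(csInf_le' (s := {b | ∀ c ∈ D A z, c < d → q2 A c d ≤ b}) h6).trans_lt h5,
      csInf_mem (s := {b | ∀ c ∈ D A z, c < d → q2 A c d ≤ b}) ⟨b, h6⟩⟩
  obtain ⟨γm, h5, h6⟩ := sup_lt (A := A) (κ := O1) cO hfd' (fun _ => z) hSj ⟨z, hz⟩ O1_lt_V2
    (fun w hw => (hb2 w hw).1)
  have hft : DfnF A GG fun U e => tt (q2 A) (e 1) (e 0) :=
    dfnF_tt (dfnF_V2 hA) (DfnF.var 1) (DfnF.var 0)
  obtain ⟨τ, h7, h8⟩ := sup_lt (A := A) (κ := O1) cO hft (fun _ => γm) hSj ⟨z, hz⟩ O1_lt_V2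
    (fun w hw => tt_lt_sc hA le_rfl clos_O1 h5 (hX w hw))
  refine ⟨z₃ + 1, γm, τ + 1, cV3.succ_lt h3, fun x hx => Order.lt_add_one_iff.mpr (h4 x hx), h5,
    fun c hc d hd hcd => ?_, cV2.succ_lt h7, fun d hd => Order.lt_add_one_iff.mpr (h8 d hd)⟩
  exact ((hb2 d hd).2 c (hz ▸ hc) hcd).trans (h6 d hd)

theorem countable_iff_otp {X : Set Ord} {x : Ord} : (X ∩ Iio x).Countable ↔ otp X x < O1 := by
  constructor
  · intro h
    have h1 : otp X x = otp (X ∩ Iio x) x := otp_congr fun z hz => ⟨fun h => ⟨h, hz⟩, fun h => h.1⟩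
    rw [h1]
    exact otp_lt_of_small Cardinal.isRegular_aleph_one (smallSet_aleph_one_iff.mpr h) x
  · intro h
    refine Set.countable_of_injective_of_countable_image (f := otp X)
      ((otp_injOn X).mono Set.inter_subset_left) ((lt_O1_iff.mp h).mono ?_)
    rintro _ ⟨y, hy, rfl⟩
    exact otp_lt_otp hy.1 hy.2

theorem LW_init {X : Set Ord} (hX : ¬ X.Countable) : LW {x ∈ X | (X ∩ Set.Iio x).Countable} := by
  refine ⟨?_, ?_⟩
  · intro hc
    have hne : (X \ {x ∈ X | (X ∩ Set.Iio x).Countable}).Nonempty := by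
      by_contra hcon
      rw [Set.not_nonempty_iff_eq_empty, Set.sdiff_eq_empty] at hcon
      exact hX (hc.mono hcon)
    set m := sInf (X \ {x ∈ X | (X ∩ Set.Iio x).Countable}) with hm
    have hm1 : m ∈ X \ {x ∈ X | (X ∩ Set.Iio x).Countable} := csInf_mem hne
    apply hm1.2
    refine ⟨hm1.1, hc.mono ?_⟩
    rintro y ⟨hy, hym⟩
    by_contra hcon
    have : m ≤ y := csInf_le' ⟨hy, hcon⟩
    exact absurd hym (not_lt.mpr this)
  · intro x hx
    refine hx.2.mono ?_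
    intro y hy
    exact ⟨hy.1.1, hy.2⟩

/-- The combinatorial statement for internal sets. -/
theorem main_int (hA : Good A) {σ : Ord} (hL : Lev A σ) {X : Set Ord} (hint : Int A X)
    (hX : ∀ x ∈ X, x < V3 A) (hSj : Sj A O1 X) (hunc : ¬ X.Countable) :
    ∃ b ∈ X, ∃ c ∈ X, ∃ d ∈ X, b < c ∧ c < d ∧
      ∃ S ∈ A3 A (HS A σ [b, c, d] 1), S ⊆ X ∩ Set.Iio b ∧ S.Infinite := by
  have hY : {x ∈ X | (X ∩ Set.Iio x).Countable} = {x | x ∈ X ∧ otp X x < O1} := by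
    ext x
    simp only [Set.mem_ofPred_eq]
    rw [countable_iff_otp]
  have hLW := LW_init hunc
  rw [hY] at hLW
  have hYint : Int A {x | x ∈ X ∧ otp X x < O1} := by
    obtain ⟨z, hz⟩ := hint
    have h1 : Dfn A GG fun U e => e 0 ∈ D A (e 1) ∧ otp {x | x ∈ D A (e 1)} (e 0) < O1 :=
      Dfn.and (by (apply_rules (transparency := .reducible) (maxDepth := 1000) using is_poly)) (Dfn.lt (by (apply_rules (transparency := .reducible) (maxDepth := 1000) using is_poly)) (dfnF_O1 hA))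
    obtain ⟨y, hy⟩ := int_of_dfn' h1 (fun _ => z) (β := V3 A) fun w hw => hX w (hz ▸ hw.1)
    refine ⟨y, ?_⟩
    rw [hy, ← hz]
    rfl
  have hYX : {x | x ∈ X ∧ otp X x < O1} ⊆ X := fun x hx => hx.1
  obtain ⟨z₃, γm, τm, hB⟩ := exists_bnd hA hYint (fun x hx => hX x hx.1) (hSj.mono le_rfl hYX)
  obtain ⟨b, hb, c, hc, d, hd, hbc, hcd, S, hS, hSX, hSi⟩ := main_claim' hA hL hLW hYint hB
  exact ⟨b, hb.1, c, hc.1, d, hd.1, hbc, hcd, S, hS, fun x hx => ⟨(hSX hx).1.1, (hSX hx).2⟩, hSi⟩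

/-- The `n`-th coded set. -/
def Sn (A : Ord → Ord → Ord → Prop) (σ z x n : Ord) : Set Ord :=
  TT A (hen A σ x (ent (ent (val A z n) 0) 0)) (hen A σ x (ent (ent (val A z n) 0) 1))
    (hen A σ x (ent (val A z n) 1))

theorem dfn_Sn (hA : Good A) {f₁ f₂ f₃ f₄ f₅ : Set Ord → Env → Ord} (h1 : DfnF A GG f₁)
    (h2 : DfnF A GG f₂) (h3 : DfnF A GG f₃) (h4 : DfnF A GG f₄) (h5 : DfnF A GG f₅) :
    Dfn A GG fun U e => f₁ U e ∈ Sn A (f₂ U e) (f₃ U e) (f₄ U e) (f₅ U e) := by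
  refine Dfn.comp5 (R := fun _ w s z x n => w ∈ Sn A s z x n) ?_ h1 h2 h3 h4 h5
  have h6 : Dfn A GG fun U e => ∃ j, A (hen A (e 1) (e 3) (ent (val A (e 2) (e 4)) 1)) ω j ∧
      e 0 = gg A (hen A (e 1) (e 3) (ent (ent (val A (e 2) (e 4)) 0) 0))
        (hen A (e 1) (e 3) (ent (ent (val A (e 2) (e 4)) 0) 1)) j := by
    refine Dfn.exG (Dfn.and (by (apply_rules (transparency := .reducible) (maxDepth := 1000) using is_poly)) (Dfn.eq (by (apply_rules (transparency := .reducible) (maxDepth := 1000) using is_poly)) (dfnF_gg hA (by (apply_rules (transparency := .reducible) (maxDepth := 1000) using is_poly)) (by (apply_rules (transparency := .reducible) (maxDepth := 1000) using is_poly))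
      (by (apply_rules (transparency := .reducible) (maxDepth := 1000) using is_poly)))))
  exact h6

/-- The chosen element of the `n`-th coded set. -/
noncomputable def an (A : Ord → Ord → Ord → Prop) (σ z x n : Ord) : Ord :=
  recF A (fun n y => sInf {v | v ∈ Sn A σ z x n ∧ ∀ m < n, v ≠ val A y m}) n

theorem dfnF_an (hA : Good A) {f₁ f₂ f₃ f₄ : Set Ord → Env → Ord} (h1 : DfnF A GG f₁)
    (h2 : DfnF A GG f₂) (h3 : DfnF A GG f₃) (h4 : DfnF A GG f₄) :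
    DfnF A GG fun U e => an A (f₁ U e) (f₂ U e) (f₃ U e) (f₄ U e) := by
  refine DfnF.comp4 (R := fun _ s z x n => an A s z x n) ?_ h1 h2 h3 h4
  have hG : DfnF A GG fun U e => (fun (p : Env) (n y : Ord) => sInf {v | v ∈ Sn A (p 0) (p 1) (p 2) n ∧
      ∀ m < n, v ≠ val A y m}) (fun i => e (i + 2)) (e 0) (e 1) := by
    apply DfnF.sInf
    refine Dfn.and (dfn_Sn hA (DfnF.var 0) (DfnF.var 3) (DfnF.var 4) (DfnF.var 5) (DfnF.var 1)) ?_
    unfold Ne
    (apply_rules (transparency := .reducible) (maxDepth := 1000) using is_poly)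
  exact recF_dfn' (G := fun (p : Env) (n y : Ord) => sInf {v | v ∈ Sn A (p 0) (p 1) (p 2) n ∧
      ∀ m < n, v ≠ val A y m}) hG 0 (DfnF.var 3)

theorem an_eq (hA : Good A) (σ z x n : Ord) :
    an A σ z x n = sInf {v | v ∈ Sn A σ z x n ∧ ∀ m < n, v ≠ an A σ z x m} := by
  have hG : DfnF A GG fun U e => (fun (p : Env) (n y : Ord) => sInf {v | v ∈ Sn A (p 0) (p 1) (p 2) n ∧
      ∀ m < n, v ≠ val A y m}) (fun i => e (i + 2)) (e 0) (e 1) := by
    apply DfnF.sInf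
    refine Dfn.and (dfn_Sn hA (DfnF.var 0) (DfnF.var 3) (DfnF.var 4) (DfnF.var 5) (DfnF.var 1)) ?_
    unfold Ne
    (apply_rules (transparency := .reducible) (maxDepth := 1000) using is_poly)
  have hv : ∀ m < n, val A (nm A (graphF A (fun n y => sInf {v | v ∈ Sn A σ z x n ∧
      ∀ m < n, v ≠ val A y m}) n)) m = an A σ z x m := fun m hm =>
    val_nm_graph (G := fun (p : Env) (n y : Ord) => sInf {v | v ∈ Sn A (p 0) (p 1) (p 2) n ∧
      ∀ m < n, v ≠ val A y m}) hG (cons σ (cons z fun _ => x)) hm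
  unfold an
  rw [recF_eq]
  congr 1
  ext v
  constructor
  · rintro ⟨h1, h2⟩
    refine ⟨h1, fun m hm => ?_⟩
    have := h2 m hm
    rwa [hv m hm] at this
  · rintro ⟨h1, h2⟩
    refine ⟨h1, fun m hm => ?_⟩
    rw [hv m hm]
    exact h2 m hm

/-- The mover. -/
noncomputable def mv (A : Ord → Ord → Ord → Prop) (σ z x v : Ord) : Ord :=
  sInf {w | w ∈ Sn A σ z x (sInf {n | n < ω ∧ an A σ z x n = v}) ∧ w ≠ v}

theorem dfnF_mv (hA : Good A) {f₁ f₂ f₃ f₄ : Set Ord → Env → Ord} (h1 : DfnF A GG f₁)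
    (h2 : DfnF A GG f₂) (h3 : DfnF A GG f₃) (h4 : DfnF A GG f₄) :
    DfnF A GG fun U e => mv A (f₁ U e) (f₂ U e) (f₃ U e) (f₄ U e) := by
  refine DfnF.comp4 (R := fun _ s z x v => mv A s z x v) ?_ h1 h2 h3 h4
  have h5 : DfnF A GG fun U e => sInf {n | n < ω ∧ an A (e 0) (e 1) (e 2) n = e 3} := by
    apply DfnF.sInf
    exact Dfn.and (by (apply_rules (transparency := .reducible) (maxDepth := 1000) using is_poly)) (Dfn.eq (dfnF_an hA (DfnF.var 1) (DfnF.var 2) (DfnF.var 3)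
      (DfnF.var 0)) (DfnF.var 4))
  unfold mv
  apply DfnF.sInf
  refine Dfn.and (dfn_Sn hA (DfnF.var 0) (DfnF.var 1) (DfnF.var 2) (DfnF.var 3) h5.shift) ?_
  unfold Ne
  (apply_rules (transparency := .reducible) (maxDepth := 1000) using is_poly)

/-- `z` enumerates the triples of codes in type `ω`. -/
def TrOK (A : Ord → Ord → Ord → Prop) (z : Ord) : Prop :=
  ∀ c₁ < mk 2 0 [], ∀ c₂ < mk 2 0 [], ∀ c₃ < mk 2 0 [], ∃ n : ℕ, val A z n = pr (pr c₁ c₂) c₃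

theorem exists_trOK (hA : Good A) : ∃ z, TrOK A z := by
  have h2 : mk 2 0 [] < O1 := by
    refine clos_O1.2 2 ?_ 0 [] (by simp)
    have : ((2 : ℕ) : Ord) < O1 := (Ordinal.natCast_lt_omega0 2).trans omega_lt_O1
    simpa using this
  set Λ := mk 2 0 [] with hΛ
  have h3 : mk (Λ + 1) 0 [] < O1 := clos_O1.2 _ (clos_O1.succ_lt h2) 0 [] (by simp)
  set Λ₁ := mk (Λ + 1) 0 [] with hΛ₁
  have h4 : mk (Λ₁ + 1) 0 [] < O1 := clos_O1.2 _ (clos_O1.succ_lt h3) 0 [] (by simp)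
  have hpr : ∀ a b c : Ord, a < c → b < c → pr a b < mk (c + 1) 0 [] := by
    intro a b c ha hb
    refine mk_lt_of_lev (valid_pr a b) ?_
    exact (Order.add_one_le_of_lt (max_lt ha hb)).trans_lt (lt_add_one c)
  have h5 : Λ < Λ₁ := (lt_add_one Λ).trans_le (le_mk _ _ _)
  obtain ⟨z, hz⟩ := hA.sj h4
  refine ⟨z, fun c₁ h6 c₂ h7 c₃ h8 => ?_⟩
  obtain ⟨i, hi, hiw⟩ := hz (pr (pr c₁ c₂) c₃) (hpr _ _ _ (hpr _ _ _ h6 h7) (h8.trans h5))
  obtain ⟨n, rfl⟩ := Ordinal.lt_omega0.mp hi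
  exact ⟨n, hiw⟩

theorem exists_code_HS {σ : Ord} {x y : Ord} (hx : x < σ) (h1σ : (1 : Ord) ≤ σ)
    (hy : y ∈ Hl A σ x 1) : ∃ c < mk 2 0 [], hen A σ x c = y := by
  obtain ⟨n, k, hk, rfl⟩ := hy
  refine ⟨mk 1 n k, mk_lt_of_lev hk one_lt_two, ?_⟩
  rw [hen_eq hx, num_mk hk, par_mk hk]
  rw [par_mk hk]
  exact fun c hc => (hk c hc).trans_le h1σ

theorem mover_spec (hA : Good A) {σ z : Ord} (hL : Lev A σ) (hz : TrOK A z) {p : List Ord}
    (hp : ∀ a ∈ p, a < V3 A) {S : Set Ord} (hS : S ∈ A3 A (HS A σ p 1)) (hinf : S.Infinite) :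
    ∃ a ∈ S, mv A σ z (xc A p) a ∈ S ∧ mv A σ z (xc A p) a ≠ a := by
  have h1O : (1 : Ord) ≤ O1 := by
    have : ((1 : ℕ) : Ord) < O1 := (Ordinal.natCast_lt_omega0 1).trans omega_lt_O1
    simpa using this.le
  have h1σ : (1 : Ord) ≤ σ := h1O.trans (O1_lt_sig hA hL).le
  obtain ⟨γ, hγ, d, hd, i, hi, rfl⟩ := hS
  obtain ⟨c₁, hc₁, rfl⟩ := exists_code_HS (xc_lt hL hp) h1σ hγ
  obtain ⟨c₂, hc₂, rfl⟩ := exists_code_HS (xc_lt hL hp) h1σ hd
  obtain ⟨c₃, hc₃, rfl⟩ := exists_code_HS (xc_lt hL hp) h1σ hi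
  obtain ⟨n, hn⟩ := hz c₁ hc₁ c₂ hc₂ c₃ hc₃
  have hSn : Sn A σ z (xc A p) n = TT A (hen A σ (xc A p) c₁) (hen A σ (xc A p) c₂)
      (hen A σ (xc A p) c₃) := by
    unfold Sn
    rw [hn]
    simp only [ent_pr_zero, ent_pr_one]
  rw [← hSn] at hinf ⊢
  have hfin : {v | ∃ m < (n : Ord), v = an A σ z (xc A p) m}.Finite := by
    have : {v | ∃ m < (n : Ord), v = an A σ z (xc A p) m} ⊆
        (fun m : ℕ => an A σ z (xc A p) m) '' Set.Iio n := by
      rintro v ⟨m, hm, rfl⟩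
      obtain ⟨k, rfl, hk⟩ := nat_of_lt hm
      exact ⟨k, hk, rfl⟩
    exact ((Set.finite_Iio n).image _).subset this
  have hne : {v | v ∈ Sn A σ z (xc A p) n ∧ ∀ m < (n : Ord), v ≠ an A σ z (xc A p) m}.Nonempty := by
    obtain ⟨v, hv, hv'⟩ := (hinf.sdiff hfin).nonempty
    exact ⟨v, hv, fun m hm h => hv' ⟨m, hm, h⟩⟩
  have ha := csInf_mem hne
  rw [← an_eq hA] at ha
  set a := an A σ z (xc A p) n with hadef
  have hN : sInf {m | m < ω ∧ an A σ z (xc A p) m = a} = n := by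
    apply le_antisymm
    · exact csInf_le' (s := {m | m < ω ∧ an A σ z (xc A p) m = a})
        ⟨Ordinal.natCast_lt_omega0 n, rfl⟩
    · by_contra hcon
      push Not at hcon
      have := csInf_mem (s := {m | m < ω ∧ an A σ z (xc A p) m = a})
        ⟨n, Ordinal.natCast_lt_omega0 n, rfl⟩
      exact ha.2 _ hcon this.2.symm
  refine ⟨a, ha.1, ?_⟩
  unfold mv
  rw [hN]
  obtain ⟨w, hw, hwa⟩ := (hinf.sdiff (Set.finite_singleton a)).nonempty
  exact csInf_mem (s := {w | w ∈ Sn A σ z (xc A p) n ∧ w ≠ a}) ⟨w, hw, fun h => hwa h⟩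

/-- No internal set of size `ω₁` is free. -/
theorem not_free_int (hA : Good A) {σ z : Ord} (hL : Lev A σ) (hz : TrOK A z) {X : Set Ord}
    (hint : Int A X) (hX : ∀ x ∈ X, x < V3 A) (hSj : Sj A O1 X) (hunc : ¬ X.Countable) :
    ∃ a ∈ X, ∃ b ∈ X, ∃ c ∈ X, ∃ d ∈ X, a < b ∧ b < c ∧ c < d ∧
      mv A σ z (xc A [b, c, d]) a ∈ X ∧ mv A σ z (xc A [b, c, d]) a < b ∧
      mv A σ z (xc A [b, c, d]) a ≠ a := by
  obtain ⟨b, hb, c, hc, d, hd, hbc, hcd, S, hS, hSX, hSi⟩ := main_int hA hL hint hX hSj hunc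
  obtain ⟨a, ha, h1, h2⟩ := mover_spec hA hL hz (p := [b, c, d]) (by
    intro x hx
    simp only [List.mem_cons, List.not_mem_nil, or_false] at hx
    rcases hx with rfl | rfl | rfl
    · exact hX _ hb
    · exact hX _ hc
    · exact hX _ hd) hS hSi
  exact ⟨a, (hSX ha).1, b, hb, c, hc, d, hd, (hSX ha).2, hbc, hcd, (hSX h1).1, (hSX h1).2, h2⟩

end Pool.Agent.Lib.MP_7295f2_lc.LA

end
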