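import Pool.Agent.Lib.MP_7295f2_lc.LModel

section

/-!
# Regularity of successors, definability of order types, definable hulls, GCH
-/

open Ordinal Set

set_option linter.unusedVariables false

namespace Pool.Agent.Lib.MP_7295f2_lc.LA

variable {A : Ord → Ord → Ord → Prop} {P Q : Set Ord → Env → Prop}
  {f g h : Set Ord → Env → Ord} {𝒰 : LC}

theorem DfnF.at (hf : DfnF A 𝒰 f) (k : ℕ) (hg : DfnF A 𝒰 g) :
    DfnF A 𝒰 fun U e => f U (cons (g U e) fun j => e (j + k)) := by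
  refine (hf.subst (t := tcons g fun i U e => e (i + k))
    (tcons_dfn hg fun i => DfnF.var (i + k))).congr fun U hU e he => ?_
  congr 1
  funext i
  cases i <;> rfl

theorem Dfn.at (hP : Dfn A 𝒰 P) (k : ℕ) (hg : DfnF A 𝒰 g) :
    Dfn A 𝒰 fun U e => P U (cons (g U e) fun j => e (j + k)) := by
  refine (hP.subst (t := tcons g fun i U e => e (i + k))
    (tcons_dfn hg fun i => DfnF.var (i + k))).congr fun U hU e he => ?_
  have : (fun i => tcons g (fun i U e => e (i + k)) i U e) = cons (g U e) fun j => e (j + k) := by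
    funext i
    cases i <;> rfl
  rw [this]

/-- Internal successor cardinals are regular for definable functions. -/
theorem sc_reg {κ : Ord} (hκ : Clos κ) (hf : DfnF A GG f) (p : Env) {α : Ord}
    (hα : α < sc A κ) (h : ∀ i < α, ev f (cons i p) < sc A κ) :
    ∃ b < sc A κ, ∀ i < α, ev f (cons i p) ≤ b := by
  by_contra hcon
  push Not at hcon
  obtain ⟨x₀, hx₀⟩ := sj_of_lt_sc hα
  have h1 : DfnF A GG fun U e => val A (sInf {x | ∀ w < f U (cons (val A (e 1) (ent (e 0) 0))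
      fun j => e (j + 3)), ∃ i < e 2, val A x i = w}) (ent (e 0) 1) := by
    refine DfnF.val (DfnF.sInf ?_) (by (apply_rules (transparency := .reducible) (maxDepth := 1000) using is_poly))
    refine Dfn.alllt ?_ (by (apply_rules (transparency := .reducible) (maxDepth := 1000) using is_poly))
    have := DfnF.at hf 4 (g := fun U e => val A (e 2) (ent (e 1) 0)) (by (apply_rules (transparency := .reducible) (maxDepth := 1000) using is_poly))
    exact this
  refine not_sj_of_sc (A := A) (lt_sc κ) (Sj.of_fun h1 (cons x₀ (cons κ p)) fun w hw => ?_)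
  obtain ⟨i, hi, hwi⟩ := hcon w hw
  obtain ⟨j, hj, hji⟩ := hx₀ i hi
  have h2 := h i hi
  set S := {x | ∀ w < ev f (cons i p), ∃ i < κ, val A x i = w} with hS
  have hm : sInf S ∈ S := by
    apply csInf_mem
    obtain ⟨x, hx⟩ := sj_of_lt_sc h2
    exact ⟨x, fun w hw => hx w hw⟩
  obtain ⟨k, hk, hkw⟩ := hm w hwi
  refine ⟨pr j k, hκ.pr_lt hj hk, ?_⟩
  show val A (sInf {x | ∀ w < f Set.univ (cons (val A x₀ (ent (pr j k) 0)) p),
    ∃ i < κ, val A x i = w}) (ent (pr j k) 1) = w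
  rw [ent_pr_zero, ent_pr_one, hji]
  exact hkw

theorem otp_eq_sSup (S : Set Ord) (α : Ord) :
    otp S α = sSup {v | ∃ y < α, y ∈ S ∧ v = otp S y + 1} := by
  have hb : BddAbove {v | ∃ y < α, y ∈ S ∧ v = otp S y + 1} := by
    refine ⟨α + 1, ?_⟩
    rintro v ⟨y, hy, _, rfl⟩
    have := (otp_le_self (X := S) y).trans_lt hy
    exact (Order.add_one_le_of_lt this).trans (lt_add_one α).le
  apply le_antisymm
  · rw [otp_le_iff]
    intro y hy hyα
    have : otp S y + 1 ≤ sSup {v | ∃ y < α, y ∈ S ∧ v = otp S y + 1} :=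
      le_csSup hb ⟨y, hyα, hy, rfl⟩
    exact (lt_add_one _).trans_le this
  · apply csSup_le'
    rintro v ⟨y, hy, hyS, rfl⟩
    exact Order.add_one_le_of_lt (otp_lt_otp hyS hy)

@[is_poly] theorem DfnF.otp {P : Set Ord → Env → Ord → Prop}
    (hP : Dfn A GG fun U e => P U (fun i => e (i + 1)) (e 0)) (hg : DfnF A GG g) :
    DfnF A GG fun U e => otp {x | P U e x} (g U e) := by
  have hP' : Dfn A GG fun U e => P Set.univ (fun i => e (i + 1)) (e 0) :=
    hP.congr fun U hU e he => by rw [mem_GG.mp hU]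
  set G : Env → Ord → Ord → Ord := fun p α x =>
    SupSet.sSup {v | ∃ y < α, P Set.univ p y ∧ v = LA.val A x y + 1} with hGdef
  have hG : DfnF A GG fun U e => G (fun i => e (i + 2)) (e 0) (e 1) := by
    apply DfnF.sSup
    refine Dfn.exlt (DfnF.var 1) (Dfn.and ?_ (by (apply_rules (transparency := .reducible) (maxDepth := 1000) using is_poly)))
    exact hP'.ren fun | 0 => 0 | i + 1 => i + 4
  have key : ∀ p α, recF A (G p) α = Pool.Agent.Lib.MP_7295f2_lc.otp {x | P Set.univ p x} α := by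
    intro p α
    induction α using WellFoundedLT.induction with
    | ind α ih =>
      rw [recF_eq, otp_eq_sSup]
      show SupSet.sSup _ = SupSet.sSup _
      congr 1
      ext v
      constructor
      · rintro ⟨y, hy, h1, h2⟩
        rw [val_nm_graph hG p hy, ih y hy] at h2
        exact ⟨y, hy, h1, h2⟩
      · rintro ⟨y, hy, h1, h2⟩
        rw [← ih y hy, ← val_nm_graph hG p hy] at h2
        exact ⟨y, hy, h1, h2⟩
  have h1 := recF_dfn' hG 0 hg
  refine h1.congr fun U hU e he => ?_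
  rw [key, mem_GG.mp hU]
  rfl

@[is_poly] theorem DfnF.sInfU {P : Set Ord → Env → Ord → Prop}
    (hP : Dfn A 𝒰 fun U e => P U (fun i => e (i + 1)) (e 0)) :
    DfnF A 𝒰 fun U e => InfSet.sInf {x | x ∈ U ∧ P U e x} := by
  refine ⟨fun U hU e he => ?_, ?_⟩
  · rcases Set.eq_empty_or_nonempty {x | x ∈ U ∧ P U e x} with h | h
    · rw [h, Ordinal.sInf_empty]
      simpa using (𝒰.h U hU).nat 0
    · exact (csInf_mem h).1
  · have h0 : Dfn A 𝒰 fun U e => P U (fun i => e (i + 2)) (e 0) :=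
      hP.ren fun | 0 => 0 | i + 1 => i + 2
    have h1 : Dfn A 𝒰 fun U e => (P U (fun i => e (i + 1)) (e 0) ∧
        ∀ y < e 0, ¬ P U (fun i => e (i + 1)) y) ∨
        ((∀ y ∈ U, ¬ P U (fun i => e (i + 1)) y) ∧ e 0 = 0) :=
      (hP.and (Dfn.alllt (DfnF.var 0) h0.not)).or
        ((Dfn.all (P := fun U e y => ¬ P U (fun i => e (i + 1)) y) h0.not).and
          (Dfn.eq (DfnF.var 0) DfnF.zero))
    refine h1.congr fun U hU e he => ?_
    set S := {x | x ∈ U ∧ P U (fun i => e (i + 1)) x} with hS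
    constructor
    · rintro (⟨h1, h2⟩ | ⟨h1, h2⟩)
      · apply le_antisymm
        · by_contra hcon
          exact h2 _ (not_le.mp hcon) (csInf_mem (s := S) ⟨_, he 0, h1⟩).2
        · exact csInf_le' (s := S) ⟨he 0, h1⟩
      · rw [h2]
        have : S = ∅ := by
          rw [Set.eq_empty_iff_forall_notMem]
          rintro x ⟨hx1, hx2⟩
          exact h1 x hx1 hx2
        rw [this, Ordinal.sInf_empty]
    · intro h1
      by_cases hne : S.Nonempty
      · left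
        rw [h1]
        exact ⟨(csInf_mem hne).2, fun y hy hyD => absurd (csInf_le' (s := S)
          ⟨(𝒰.h U hU).low _ (csInf_mem hne).1 _ hy.le, hyD⟩) (not_le.mpr hy)⟩
      · right
        rw [Set.not_nonempty_iff_eq_empty] at hne
        rw [h1]
        refine ⟨fun y hyU hy => ?_, ?_⟩
        · have : y ∈ S := ⟨hyU, hy⟩
          rw [hne] at this
          exact this
        · rw [hne, Ordinal.sInf_empty]

theorem Dfn.forall_nat {P : ℕ → Set Ord → Env → Prop} (k : ℕ) (h : ∀ j, Dfn A 𝒰 (P j)) :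
    Dfn A 𝒰 fun U e => ∀ j < k, P j U e := by
  induction k with
  | zero =>
    refine (Dfn.eq (A := A) (𝒰 := 𝒰) DfnF.zero DfnF.zero).congr fun U hU e he => ?_
    simp
  | succ k ih =>
    refine (ih.and (h k)).congr fun U hU e he => ?_
    rw [Nat.forall_lt_succ_right]

/-- The class consisting of one level. -/
def LS (σ : Ord) (h : ω ≤ σ) : LC := ⟨{Iio σ}, by
  intro U hU
  rw [Set.mem_singleton_iff] at hU
  subst hU
  exact ⟨fun x hx y hy => lt_of_le_of_lt hy hx, fun n => (Ordinal.natCast_lt_omega0 n).trans_le h⟩⟩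

theorem mem_LS {σ : Ord} {h : ω ≤ σ} {U : Set Ord} : U ∈ (LS σ h).S ↔ U = Iio σ := Iff.rfl

/-- The definable hull of `lam ∪ {x}` at level `σ`. -/
def Hl (A : Ord → Ord → Ord → Prop) (σ x lam : Ord) : Set Ord :=
  {y | ∃ n l, (∀ a ∈ l, a < lam) ∧ y = hf A (mk σ n (x :: l))}

section hull

variable {σ x lam : Ord} (hσ : ω ≤ σ) (hx : x < σ) (hlam : lam ≤ σ) (h0 : 0 < lam)

theorem lenv_cons (x : Ord) (l : List Ord) : lenv (x :: l) = cons x (lenv l) := by
  funext i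
  cases i with
  | zero => rfl
  | succ i =>
    unfold lenv
    rw [List.getD_cons_succ]
    rfl

include hx hlam in
theorem valid_cons {l : List Ord} (hl : ∀ a ∈ l, a < lam) : ∀ a ∈ x :: l, a < σ := by
  intro a ha
  rcases List.mem_cons.mp ha with rfl | ha
  · exact hx
  · exact (hl a ha).trans_le hlam

include hx hlam h0 in
theorem mem_Hl_iff {y : Ord} : y ∈ Hl A σ x lam ↔ y < σ ∧ ∃ P, Dfn A (LS σ hσ) P ∧ ∃ e : Env,
    (∀ i, e i < lam) ∧ ∀ w < σ, (P (Iio σ) (cons w (cons x e)) ↔ w = y) := by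
  have h0σ : 0 < σ := Ordinal.omega0_pos.trans_le hσ
  constructor
  · rintro ⟨n, l, hl, rfl⟩
    have hv := valid_cons hx hlam hl
    refine ⟨?_, ?_⟩
    · by_cases hne : (D A (mk σ n (x :: l))).Nonempty
      · have := D_lt (hf_mem hne)
        rwa [lev_mk hv] at this
      · rw [hf_eq_zero hne]
        exact h0σ
    by_cases hn : ∃ φ, enc φ = n
    · obtain ⟨φ, rfl⟩ := hn
      have hφ : Dfn A (LS σ hσ) fun U e => Sat A (D A) U φ e := ⟨φ, fun U hU e he => Iff.rfl⟩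
      refine ⟨fun U e => e 0 = InfSet.sInf {w | w ∈ U ∧ Sat A (D A) U φ (cons w fun i => e (i + 1))},
        ?_, lenv l, fun i => lenv_lt h0 hl i, ?_⟩
      · refine Dfn.eq (DfnF.var 0) (DfnF.sInfU ?_)
        exact Dfn.at hφ 2 (DfnF.var 0)
      · intro w hw
        have : D A (mk σ (enc φ) (x :: l)) = {w | w ∈ Iio σ ∧ Sat A (D A) (Iio σ) φ
            (cons w (cons x (lenv l)))} := by
          ext w
          rw [mem_D_mk hv, lenv_cons]
          rfl
        unfold hf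
        rw [this]
        rfl
    · refine ⟨fun U e => e 0 = 0, by (apply_rules (transparency := .reducible) (maxDepth := 1000) using is_poly), lenv l, fun i => lenv_lt h0 hl i, fun w hw => ?_⟩
      have hne : ¬ (D A (mk σ n (x :: l))).Nonempty := by
        rintro ⟨w, hw⟩
        obtain ⟨_, φ, h1, _⟩ := mem_D.mp hw
        rw [num_mk hv] at h1
        exact hn ⟨φ, h1⟩
      rw [hf_eq_zero hne]
      rfl
  · rintro ⟨hy, P, ⟨φ, hφ⟩, e, he, h⟩
    set N := bd φ with hN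
    have hl : ∀ a ∈ trunc N e, a < lam := by
      intro a ha
      unfold trunc at ha
      obtain ⟨i, _, rfl⟩ := List.mem_map.mp ha
      exact he i
    have hv := valid_cons hx hlam hl
    refine ⟨enc φ, trunc N e, hl, ?_⟩
    have : D A (mk σ (enc φ) (x :: trunc N e)) = {y} := by
      ext w
      rw [mem_D_mk hv, lenv_cons, Set.mem_singleton_iff]
      have key : w < σ → (Sat A (D A) (Iio σ) φ (cons w (cons x (lenv (trunc N e)))) ↔ w = y) := by
        intro hw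
        rw [← h w hw, ← hφ (Iio σ) (mem_LS.mpr rfl) (cons w (cons x e)) (by
          refine cons_mem hw (cons_mem hx fun i => (he i).trans_le hlam))]
        apply sat_congr
        intro i hi
        match i with
        | 0 => rfl
        | 1 => rfl
        | i + 2 => exact lenv_trunc (by omega) e
      constructor
      · rintro ⟨h1, h2⟩
        exact (key h1).mp h2
      · rintro rfl
        exact ⟨hy, (key hy).mpr rfl⟩
    unfold hf
    rw [this, csInf_singleton]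

include hσ hx hlam h0

theorem Hl_fun {f : Set Ord → Env → Ord} (hf : DfnF A (LS σ hσ) f) {y : Env}
    (hy : ∀ i, y i ∈ Hl A σ x lam) : f (Iio σ) y ∈ Hl A σ x lam := by
  have hy' := fun i => (mem_Hl_iff hσ hx hlam h0).mp (hy i)
  choose hyσ P hP e he h using hy'
  rw [mem_Hl_iff hσ hx hlam h0]
  have hyi : ∀ i, InfSet.sInf {w | w ∈ Iio σ ∧ P i (Iio σ) (cons w (cons x (e i)))} = y i := by
    intro i
    have : {w | w ∈ Iio σ ∧ P i (Iio σ) (cons w (cons x (e i)))} = {y i} := by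
      ext w
      simp only [Set.mem_ofPred_eq, Set.mem_singleton_iff]
      constructor
      · rintro ⟨h1, h2⟩
        exact (h i w h1).mp h2
      · intro h1
        rw [h1]
        exact ⟨hyσ i, (h i _ (hyσ i)).mpr rfl⟩
    rw [this, csInf_singleton]
  refine ⟨hf.maps _ (mem_LS.mpr rfl) _ hyσ, fun U e' => e' 0 = f U fun i =>
    InfSet.sInf {w | w ∈ U ∧ P i U (cons w (cons (e' 1) fun j => e' (Nat.pair i j + 2)))}, ?_,
    fun k => e (Nat.unpair k).1 (Nat.unpair k).2, fun k => he _ _, ?_⟩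
  · refine Dfn.eq (DfnF.var 0) (hf.subst (t := fun i U e' =>
      InfSet.sInf {w | w ∈ U ∧ P i U (cons w (cons (e' 1) fun j => e' (Nat.pair i j + 2)))}) ?_)
    intro i
    apply DfnF.sInfU
    refine ((hP i).ren fun | 0 => 0 | 1 => 2 | j + 2 => Nat.pair i j + 3).congr fun U hU e he => ?_
    have : (fun j => e (match j with | 0 => 0 | 1 => 2 | j + 2 => Nat.pair i j + 3)) =
        cons (e 0) (cons (e 2) fun j => e (Nat.pair i j + 3)) := by
      funext j
      match j with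
      | 0 => rfl
      | 1 => rfl
      | j + 2 => rfl
    rw [this]
  · intro w hw
    have : (fun i => InfSet.sInf {v | v ∈ Iio σ ∧ P i (Iio σ) (cons v (cons x fun j =>
        e (Nat.unpair (Nat.pair i j)).1 (Nat.unpair (Nat.pair i j)).2))}) = y := by
      funext i
      rw [← hyi i]
      simp only [Nat.unpair_pair]
    show w = f (Iio σ) (fun i => InfSet.sInf {v | v ∈ Iio σ ∧ P i (Iio σ) (cons v (cons x fun j =>
        e (Nat.unpair (Nat.pair i j)).1 (Nat.unpair (Nat.pair i j)).2))}) ↔ _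
    rw [this]

theorem Hl_param : x ∈ Hl A σ x lam := by
  rw [mem_Hl_iff hσ hx hlam h0]
  exact ⟨hx, fun U e => e 0 = e 1, by (apply_rules (transparency := .reducible) (maxDepth := 1000) using is_poly), fun _ => 0, fun _ => h0, fun w hw => Iff.rfl⟩

theorem Hl_lt {i : Ord} (hi : i < lam) : i ∈ Hl A σ x lam := by
  rw [mem_Hl_iff hσ hx hlam h0]
  exact ⟨hi.trans_le hlam, fun U e => e 0 = e 2, by (apply_rules (transparency := .reducible) (maxDepth := 1000) using is_poly), fun _ => i, fun _ => hi,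
    fun w hw => Iff.rfl⟩

theorem Hl_zero : 0 ∈ Hl A σ x lam := Hl_lt hσ hx hlam h0 h0

theorem Hl_clsd : Clsd A σ (Hl A σ x lam) where
  sub y hy := ((mem_Hl_iff hσ hx hlam h0).mp hy).1
  zero' _ := Hl_zero hσ hx hlam h0
  code' := by
    intro γ n l hγ hl hv hlt
    have hf : DfnF A (LS σ hσ) fun U e => InfSet.sInf {y | y ∈ U ∧ (lev y = e 0 ∧
        (num y : Ord) = n ∧ ((par y).length : Ord) = l.length ∧
        ∀ j < l.length, ent y (j : Ord) = e (j + 1))} := by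
      apply DfnF.sInfU
      refine Dfn.and (by (apply_rules (transparency := .reducible) (maxDepth := 1000) using is_poly)) (Dfn.and (by (apply_rules (transparency := .reducible) (maxDepth := 1000) using is_poly)) (Dfn.and (by (apply_rules (transparency := .reducible) (maxDepth := 1000) using is_poly)) ?_))
      exact Dfn.forall_nat _ fun j => Dfn.eq (DfnF.ent (DfnF.var 0) (DfnF.nat j)) (DfnF.var _)
    have h1 := Hl_fun hσ hx hlam h0 hf (y := cons γ (lenv l)) (by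
      intro i
      cases i with
      | zero => exact hγ
      | succ i =>
        show lenv l i ∈ _
        unfold lenv
        rw [List.getD_eq_getElem?_getD]
        cases h : l[i]? with
        | none => simpa using Hl_zero hσ hx hlam h0
        | some a => simpa using hl a (List.mem_of_getElem? h))
    have h2 : {y | y ∈ Iio σ ∧ (lev y = γ ∧ (num y : Ord) = n ∧
        ((par y).length : Ord) = l.length ∧
        ∀ j < l.length, ent y (j : Ord) = lenv l j)} = {mk γ n l} := by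
      ext y
      simp only [Set.mem_ofPred_eq, Set.mem_singleton_iff]
      constructor
      · rintro ⟨_, g1, g2, g3, g4⟩
        refine ext_tup ?_ ?_ ?_
        · rw [lev_mk hv, g1]
        · rw [num_mk hv]
          exact_mod_cast g2
        · rw [par_mk hv]
          exact par_eq_of_ent g3 g4
      · rintro rfl
        refine ⟨hlt, lev_mk hv, by rw [num_mk hv], by rw [par_mk hv], ?_⟩
        intro j hj
        rw [ent_nat, par_mk hv]
        rfl
    have h3 : InfSet.sInf {y | y ∈ Iio σ ∧ (lev y = γ ∧ (num y : Ord) = n ∧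
        ((par y).length : Ord) = l.length ∧
        ∀ j < l.length, ent y (j : Ord) = lenv l j)} ∈ Hl A σ x lam := h1
    rwa [h2, csInf_singleton] at h3
  lev' y hy := Hl_fun hσ hx hlam h0 (DfnF.lev (DfnF.var 0)) (y := fun _ => y) fun _ => hy
  par' y hy a ha := by
    obtain ⟨i, hi, rfl⟩ := mem_par_iff.mp ha
    obtain ⟨m, rfl, _⟩ := nat_of_lt hi
    exact Hl_fun hσ hx hlam h0 (DfnF.ent (DfnF.var 0) (DfnF.nat m)) (y := fun _ => y) fun _ => hy
  hf' y hy := Hl_fun hσ hx hlam h0 (DfnF.hf (DfnF.var 0)) (y := fun _ => y) fun _ => hy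

end hull

/-- The enumeration of the hull. -/
noncomputable def hen (A : Ord → Ord → Ord → Prop) (σ x c : Ord) : Ord :=
  hf A (sInf {y | lev y = σ ∧ (num y : Ord) = num c ∧ ((par y).length : Ord) = (par c).length + 1 ∧
    ent y 0 = x ∧ ∀ m < ((par c).length : Ord), ent y (m + 1) = ent c m})

theorem hen_eq {σ x c : Ord} (hx : x < σ) (hc : ∀ a ∈ par c, a < σ) :
    hen A σ x c = hf A (mk σ (num c) (x :: par c)) := by
  have hv : ∀ a ∈ x :: par c, a < σ := by
    intro a ha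
    rcases List.mem_cons.mp ha with rfl | ha
    · exact hx
    · exact hc a ha
  unfold hen
  congr 1
  have : {y | lev y = σ ∧ (num y : Ord) = num c ∧ ((par y).length : Ord) = (par c).length + 1 ∧
      ent y 0 = x ∧ ∀ m < ((par c).length : Ord), ent y (m + 1) = ent c m} =
      {mk σ (num c) (x :: par c)} := by
    ext y
    simp only [Set.mem_ofPred_eq, Set.mem_singleton_iff]
    constructor
    · rintro ⟨g1, g2, g3, g4, g5⟩
      refine ext_tup ?_ ?_ ?_
      · rw [lev_mk hv, g1]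
      · rw [num_mk hv]
        exact_mod_cast g2
      · rw [par_mk hv]
        apply par_eq_of_ent
        · rw [g3]
          simp
        · intro m hm
          cases m with
          | zero =>
            rw [List.getD_cons_zero, ← g4]
            simp
          | succ m =>
            rw [List.getD_cons_succ]
            have hm' : m < (par c).length := by simpa using hm
            have := g5 m (by exact_mod_cast hm')
            push_cast
            rw [this, ent_nat]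
    · rintro rfl
      refine ⟨lev_mk hv, by rw [num_mk hv], by rw [par_mk hv]; simp, ?_, ?_⟩
      · have := ent_nat (mk σ (num c) (x :: par c)) 0
        rw [par_mk hv] at this
        simpa using this
      · intro m hm
        obtain ⟨k, rfl, hk⟩ := nat_of_lt hm
        have := ent_nat (mk σ (num c) (x :: par c)) (k + 1)
        rw [par_mk hv, List.getD_cons_succ] at this
        push_cast at this
        rw [this, ent_nat]
  rw [this, csInf_singleton]

@[is_poly] theorem DfnF.hen (hf : DfnF A GG f) (hg : DfnF A GG g) (hh : DfnF A GG h) :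
    DfnF A GG fun U e => hen A (f U e) (g U e) (h U e) := by
  refine DfnF.comp3 (R := fun _ x y z => LA.hen A x y z) ?_ hf hg hh
  unfold LA.hen
  (apply_rules (transparency := .reducible) (maxDepth := 1000) using is_poly)

theorem Hl_eq_image {σ x lam : Ord} (hx : x < σ) (hlam : lam ≤ σ) (hl : Clos lam) :
    Hl A σ x lam = hen A σ x '' Iio lam := by
  ext y
  constructor
  · rintro ⟨n, l, hl', rfl⟩
    obtain ⟨c, hc, rfl, rfl⟩ := hl.exists_code n l hl'
    exact ⟨c, hc, hen_eq hx fun a ha => (hl' a ha).trans_le hlam⟩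
  · rintro ⟨c, hc, rfl⟩
    have h1 : ∀ a ∈ par c, a < lam := fun a ha => (par_lt_self ha).trans hc
    exact ⟨num c, par c, h1, hen_eq hx fun a ha => (h1 a ha).trans_le hlam⟩

theorem Hl_int {σ x lam : Ord} (hx : x < σ) (hlam : lam ≤ σ) (hl : Clos lam) :
    Int A (Hl A σ x lam) := by
  rw [Hl_eq_image hx hlam hl]
  have h1 : Dfn A GG fun U e => ∃ c < e 3, e 0 = hen A (e 1) (e 2) c := by (apply_rules (transparency := .reducible) (maxDepth := 1000) using is_poly)
  have hσ : ω ≤ σ := hl.1.le.trans hlam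
  have h0 : 0 < lam := Ordinal.omega0_pos.trans hl.1
  obtain ⟨z, hz⟩ := int_of_dfn' h1 (cons σ (cons x (cons lam fun _ => 0))) (β := σ) (by
    rintro w ⟨c, hc, hw⟩
    have hw' : w ∈ hen A σ x '' Iio lam := ⟨c, hc, hw.symm⟩
    rw [← Hl_eq_image hx hlam hl] at hw'
    exact ((mem_Hl_iff hσ hx hlam h0).mp hw').1)
  refine ⟨z, ?_⟩
  rw [hz]
  ext w
  constructor
  · rintro ⟨c, hc, hw⟩
    exact ⟨c, hc, hw.symm⟩
  · rintro ⟨c, hc, hw⟩
    exact ⟨c, hc, hw.symm⟩

/-- The predicate of the machine only concerns countable ordinals. -/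
def Ctb (A : Ord → Ord → Ord → Prop) : Prop := ∀ i j k, A i j k → i < O1 ∧ j < O1 ∧ k < O1

theorem Ctb.col (hA : Ctb A) {X : Set Ord} (hX : Iio O1 ⊆ X) :
    ∀ i ∈ X, ∀ j ∈ X, ∀ k ∈ X, (A i j k ↔ A (otp X i) (otp X j) (otp X k)) := by
  have key : ∀ i, i < O1 → otp X i = i := fun i hi => otp_eq_self ((Iio_subset_Iio hi.le).trans hX)
  have key2 : ∀ i, otp X i < O1 → i < O1 := by
    intro i hi
    by_contra hcon
    have h1 := otp_mono (S := X) (not_lt.mp hcon)
    rw [otp_eq_self hX] at h1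
    exact absurd hi (not_lt.mpr h1)
  intro i hi j hj k hk
  constructor
  · intro h
    obtain ⟨h1, h2, h3⟩ := hA _ _ _ h
    rwa [key i h1, key j h2, key k h3]
  · intro h
    obtain ⟨h1, h2, h3⟩ := hA _ _ _ h
    rwa [key i (key2 i h1), key j (key2 j h2), key k (key2 k h3)] at h

/-- GCH for uncountable internal cardinals: subsets of `lam` have names below its successor. -/
theorem gch_name (hA : Ctb A) {lam : Ord} (hlam : MC A lam) (h1 : O1 ≤ lam) {x : Ord}
    (hx : D A x ⊆ Iio lam) : ∃ x' < sc A lam, D A x' = D A x := by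
  have hcl : Clos lam := clos_of_mc hlam h1
  set σ := max x lam + 1 with hσdef
  have hxσ : x < σ := Order.lt_add_one_iff.mpr (le_max_left _ _)
  have hlσ : lam ≤ σ := (le_max_right _ _).trans (lt_add_one _).le
  have hσ : ω ≤ σ := hcl.1.le.trans hlσ
  have h0 : 0 < lam := Ordinal.omega0_pos.trans hcl.1
  set X := Hl A σ x lam with hX
  have hclsd : Clsd A σ X := Hl_clsd hσ hxσ hlσ h0
  have hlX : Iio lam ⊆ X := fun i hi => Hl_lt hσ hxσ hlσ h0 hi
  have hxX : x ∈ X := Hl_param hσ hxσ hlσ h0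
  have hcol := hA.col ((Iio_subset_Iio h1).trans hlX)
  obtain ⟨z, hz⟩ := Hl_int (A := A) hxσ hlσ hcl
  have hsj : Sj A lam (Iio (otp X σ)) := by
    have h2 : DfnF A GG fun U e => otp {y | y ∈ D A (e 1)} (hen A (e 2) (e 3) (e 0)) := by (apply_rules (transparency := .reducible) (maxDepth := 1000) using is_poly)
    refine Sj.of_fun h2 (cons z (cons σ (cons x fun _ => 0))) fun w hw => ?_
    obtain ⟨y, hy, _, hyw⟩ := exists_otp_eq (X := X) (y := σ) hw
    have hy' := hy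
    rw [hX, Hl_eq_image hxσ hlσ hcl] at hy'
    obtain ⟨c, hc, hcy⟩ := hy'
    refine ⟨c, hc, ?_⟩
    show otp {y | y ∈ D A z} (hen A σ x c) = w
    rw [hcy, hz]
    exact hyw
  have h3 : otp X σ < sc A lam := lt_sc_of_sj (lt_sc lam) hsj
  refine ⟨otp X x, (otp_lt_otp hxX hxσ).trans h3, ?_⟩
  rw [hclsd.D_col hσ hcol hxX]
  ext w
  constructor
  · rintro ⟨v, ⟨hv1, hv2⟩, rfl⟩
    rwa [otp_eq_self ((Iio_subset_Iio (Set.mem_Iio.mp (hx hv1)).le).trans hlX)]
  · intro hw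
    refine ⟨w, ⟨hw, hlX (hx hw)⟩, ?_⟩
    exact otp_eq_self ((Iio_subset_Iio (Set.mem_Iio.mp (hx hw)).le).trans hlX)

end Pool.Agent.Lib.MP_7295f2_lc.LA

end

section

/-!
# The choice of the predicate: countable ordinals are internally countable, and the internal
# bounded subsets of `ω₁` are enumerated in order type `ω₁`
-/

open Ordinal Set

set_option linter.unusedVariables false

namespace Pool.Agent.Lib.MP_7295f2_lc.LA

theorem exists_enu (i : Ord) : ∃ f : ℕ → Ord, i < O1 → ∀ k < i, ∃ n, f n = k := by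
  by_cases hi : i < O1
  · rcases (Iio i).eq_empty_or_nonempty with h0 | hne
    · refine ⟨fun _ => 0, fun _ k hk => ?_⟩
      have : k ∈ Iio i := hk
      rw [h0] at this
      exact absurd this (Set.notMem_empty k)
    · obtain ⟨f, hf⟩ := (lt_O1_iff.mp hi).exists_eq_range hne
      refine ⟨f, fun _ k hk => ?_⟩
      have : k ∈ range f := hf ▸ hk
      exact this
  · exact ⟨fun _ => 0, fun h => absurd h hi⟩

/-- Enumerations of the countable ordinals. -/
noncomputable def enu (i : Ord) : ℕ → Ord := (exists_enu i).choose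

theorem enu_spec {i : Ord} (hi : i < O1) : ∀ k < i, ∃ n, enu i n = k := (exists_enu i).choose_spec hi

/-- The predicate. -/
noncomputable def Af (i : Ord) : Ord → Ord → Prop := fun j k => i < O1 ∧ k < i ∧
  ((∃ n : ℕ, j = n ∧ enu i n = k) ∨
    (j = ω ∧ k ∈ D (fun i' j' k' => ∃ _ : i' < ent i 0, Af i' j' k') (ent i 1)))
termination_by i
decreasing_by exact lt_of_lt_of_le (by assumption) (ent_le i 0)

/-- Restriction of the predicate. -/
def restr (A : Ord → Ord → Ord → Prop) (ξ : Ord) : Ord → Ord → Ord → Prop :=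
  fun i j k => i < ξ ∧ A i j k

theorem Af_iff {i j k : Ord} : Af i j k ↔ i < O1 ∧ k < i ∧ ((∃ n : ℕ, j = n ∧ enu i n = k) ∨
    (j = ω ∧ k ∈ D (restr Af (ent i 0)) (ent i 1))) := by
  have e1 : (fun i' j' k' => ∃ _ : i' < ent i 0, Af i' j' k') = restr Af (ent i 0) := by
    funext i' j' k'
    simp [restr]
  have e2 : Af i j k = (i < O1 ∧ k < i ∧ ((∃ n : ℕ, j = n ∧ enu i n = k) ∨
    (j = ω ∧ k ∈ D (fun i' j' k' => ∃ _ : i' < ent i 0, Af i' j' k') (ent i 1)))) := by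
    conv_lhs => rw [Af]
  rw [e2, e1]

/-- The properties of the predicate which are used. -/
structure Good (A : Ord → Ord → Ord → Prop) : Prop where
  ctb : Ctb A
  small : ∀ i j k, A i j k → j ≤ ω ∧ k < i
  enum : ∀ i < O1, ∀ k < i, ∃ n : ℕ, A i n k ∧ ∀ k', A i n k' → k' = k
  sub : ∀ ξ < O1, ∀ x < O1, ∃ i < O1, ∀ k, A i ω k ↔ k ∈ D (restr A ξ) x

theorem good_Af : Good Af where
  ctb := by
    intro i j k h
    obtain ⟨h1, h2, h3⟩ := Af_iff.mp h
    refine ⟨h1, ?_, h2.trans h1⟩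
    rcases h3 with ⟨n, rfl, _⟩ | ⟨rfl, _⟩
    · exact (Ordinal.natCast_lt_omega0 n).trans omega_lt_O1
    · exact omega_lt_O1
  small := by
    intro i j k h
    obtain ⟨h1, h2, h3⟩ := Af_iff.mp h
    refine ⟨?_, h2⟩
    rcases h3 with ⟨n, rfl, _⟩ | ⟨rfl, _⟩
    · exact (Ordinal.natCast_lt_omega0 n).le
    · exact le_rfl
  enum := by
    intro i hi k hk
    obtain ⟨n, hn⟩ := enu_spec hi k hk
    refine ⟨n, Af_iff.mpr ⟨hi, hk, Or.inl ⟨n, rfl, hn⟩⟩, fun k' h => ?_⟩
    obtain ⟨_, _, h3⟩ := Af_iff.mp h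
    rcases h3 with ⟨m, h4, h5⟩ | ⟨h4, _⟩
    · have : n = m := by exact_mod_cast h4
      rw [← h5, ← hn, this]
    · exact absurd h4 (Ordinal.natCast_lt_omega0 n).ne
  sub := by
    intro ξ hξ x hx
    refine ⟨pr ξ x, clos_O1.pr_lt hξ hx, fun k => ?_⟩
    rw [Af_iff, ent_pr_zero, ent_pr_one]
    constructor
    · rintro ⟨_, _, h | h⟩
      · obtain ⟨n, h1, _⟩ := h
        exact absurd h1 (Ordinal.natCast_lt_omega0 n).ne'
      · exact h.2
    · intro h
      exact ⟨clos_O1.pr_lt hξ hx, (D_lt_self h).trans (right_lt_pr _ _), Or.inr ⟨rfl, h⟩⟩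

variable {A : Ord → Ord → Ord → Prop}

theorem Hl_countable {σ x ξ : Ord} (hξ : ξ < O1) : (Hl A σ x ξ).Countable := by
  have hc : Countable (Iio ξ) := lt_O1_iff.mp hξ
  have : Hl A σ x ξ ⊆ range fun p : ℕ × List (Iio ξ) =>
      hf A (mk σ p.1 (x :: p.2.map Subtype.val)) := by
    rintro y ⟨n, l, hl, rfl⟩
    refine ⟨(n, l.attach.map fun a => ⟨a.1, hl a.1 a.2⟩), ?_⟩
    simp [List.map_map, Function.comp_def]
  exact (countable_range _).mono this

theorem Hl_mono {σ x ξ ξ' : Ord} (h : ξ ≤ ξ') : Hl A σ x ξ ⊆ Hl A σ x ξ' := by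
  rintro y ⟨n, l, hl, rfl⟩
  exact ⟨n, l, fun a ha => (hl a ha).trans_le h, rfl⟩

theorem countable_bound {S : Set Ord} (hS : S.Countable) (h : ∀ x ∈ S, x < O1) :
    ∃ b < O1, ∀ x ∈ S, x < b := by
  have h1 : (⋃ x ∈ S, Iic x).Countable := by
    apply hS.biUnion
    intro x hx
    have : Iic x = insert x (Iio x) := by
      ext y
      simp only [Set.mem_Iic, Set.mem_insert_iff, Set.mem_Iio]
      exact le_iff_eq_or_lt
    rw [this]
    exact (lt_O1_iff.mp (h x hx)).insert x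
  set b := sInf {y | y ∉ ⋃ x ∈ S, Iic x} with hb
  have hne : {y | y ∉ ⋃ x ∈ S, Iic x}.Nonempty := by
    by_contra hcon
    rw [Set.not_nonempty_iff_eq_empty] at hcon
    have h2 : (Iio O1) ⊆ ⋃ x ∈ S, Iic x := by
      intro y _
      by_contra hy
      have : y ∈ {y | y ∉ ⋃ x ∈ S, Iic x} := hy
      rw [hcon] at this
      exact this
    exact absurd (lt_O1_iff.mpr (h1.mono h2)) (lt_irrefl _)
  have hmem : b ∉ ⋃ x ∈ S, Iic x := csInf_mem hne
  have hlt : Iio b ⊆ ⋃ x ∈ S, Iic x := by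
    intro y hy
    by_contra hcon
    exact absurd (csInf_le' (s := {y | y ∉ ⋃ x ∈ S, Iic x}) hcon) (not_le.mpr hy)
  refine ⟨b, lt_O1_iff.mpr (h1.mono hlt), fun x hx => ?_⟩
  by_contra hcon
  exact hmem (Set.mem_biUnion hx (not_lt.mp hcon))

/-- Bounded internal subsets of `ω₁` are coded by the predicate. -/
theorem Good.ch (hA : Good A) {x β : Ord} (hβ : β < O1) (hx : D A x ⊆ Iio β) :
    ∃ i < O1, ∀ k, A i ω k ↔ k ∈ D A x := by
  set σ := max x O1 + 1 with hσdef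
  have hxσ : x < σ := Order.lt_add_one_iff.mpr (le_max_left _ _)
  have hO1σ : O1 ≤ σ := (le_max_right _ _).trans (lt_add_one _).le
  have hσ : ω ≤ σ := omega_lt_O1.le.trans hO1σ
  have hg : ∀ ξ : Iio O1, ∃ b : Iio O1, ξ < b ∧ ∀ y ∈ Hl A σ x ξ.1, y < O1 → y < b.1 := by
    rintro ⟨ξ, hξ⟩
    obtain ⟨b, hb, h1⟩ := countable_bound (S := Hl A σ x ξ ∩ Iio O1)
      ((Hl_countable hξ).mono inter_subset_left) fun y hy => hy.2
    refine ⟨⟨max b (ξ + 1), max_lt hb (clos_O1.succ_lt hξ)⟩, ?_, ?_⟩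
    · exact (lt_add_one ξ).trans_le (le_max_right _ _)
    · intro y hy hy1
      exact (h1 y ⟨hy, hy1⟩).trans_le (le_max_left _ _)
  choose g hg1 hg2 using hg
  set s : ℕ → Iio O1 := fun n => g^[n] ⟨β + 1, clos_O1.succ_lt hβ⟩ with hs
  have hs' : ∀ n, s (n + 1) = g (s n) := fun n => Function.iterate_succ_apply' g n _
  set ξ : Ord := ⨆ n, (s n).1 with hξdef
  have hsξ : ∀ n, (s n).1 < ξ := fun n => by
    refine lt_of_lt_of_le (b := (s (n + 1)).1) ?_ (Ordinal.le_iSup (fun n => (s n).1) (n + 1))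
    rw [hs']
    exact hg1 _
  have hξ : ξ < O1 := by
    obtain ⟨b, hb, h1⟩ := countable_bound (S := range fun n => (s n).1) (countable_range _) (by
      rintro _ ⟨n, rfl⟩
      exact (s n).2)
    exact (Ordinal.iSup_le fun n => (h1 _ ⟨n, rfl⟩).le).trans_lt hb
  have hβξ : β < ξ := (lt_add_one β).trans (hsξ 0)
  have h0 : 0 < ξ := lt_of_le_of_lt zero_le hβξ
  have hξσ : ξ ≤ σ := hξ.le.trans hO1σ
  set X := Hl A σ x ξ with hX
  have hclsd : Clsd A σ X := Hl_clsd hσ hxσ hξσ h0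
  have hlX : Iio ξ ⊆ X := fun i hi => Hl_lt hσ hxσ hξσ h0 hi
  have hxX : x ∈ X := Hl_param hσ hxσ hξσ h0
  have htr : ∀ y ∈ X, y < O1 → y < ξ := by
    rintro y ⟨n, l, hl, rfl⟩ hy
    obtain ⟨b, hb, h1⟩ := exists_list_bound h0 l hl
    obtain ⟨m, hm⟩ := Ordinal.lt_iSup_iff.mp hb
    have h2 : hf A (LA.mk σ n (x :: l)) ∈ Hl A σ x (s m).1 :=
      ⟨n, l, fun a ha => (h1 a ha).trans_lt hm, rfl⟩
    have h3 := hg2 (s m) _ h2 hy
    rw [← hs'] at h3
    exact h3.trans (hsξ _)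
  have hωξ : ω < ξ := by
    have h1 : ω < σ := omega_lt_O1.trans_le hO1σ
    exact htr _ (hclsd.omega_mem h1) omega_lt_O1
  have hid : ∀ y ≤ ξ, otp X y = y := fun y hy => otp_eq_self ((Iio_subset_Iio hy).trans hlX)
  have hid' : ∀ y, otp X y < ξ → y < ξ := by
    intro y hy
    by_contra hcon
    have h1 := otp_mono (S := X) (not_lt.mp hcon)
    rw [hid ξ le_rfl] at h1
    exact absurd hy (not_lt.mpr h1)
  have hcol : ∀ i ∈ X, ∀ j ∈ X, ∀ k ∈ X,
      (A i j k ↔ restr A ξ (otp X i) (otp X j) (otp X k)) := by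
    intro i hi j hj k hk
    unfold restr
    constructor
    · intro h
      obtain ⟨h1, h2, h3⟩ := hA.ctb _ _ _ h
      have h1' := htr i hi h1
      have h2' := htr j hj h2
      have h3' := htr k hk h3
      rw [hid i h1'.le, hid j h2'.le, hid k h3'.le]
      exact ⟨h1', h⟩
    · rintro ⟨h1, h⟩
      have h1' := hid' i h1
      obtain ⟨h2, h3⟩ := hA.small _ _ _ h
      have h2' := hid' j (h2.trans_lt hωξ)
      rw [hid i h1'.le] at h3
      have h3' := hid' k (h3.trans h1')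
      rwa [hid i h1'.le, hid j h2'.le, hid k h3'.le] at h
  have hD : D (restr A ξ) (otp X x) = D A x := by
    rw [hclsd.D_col hσ hcol hxX]
    ext w
    constructor
    · rintro ⟨v, ⟨hv1, hv2⟩, rfl⟩
      rwa [hid v ((Set.mem_Iio.mp (hx hv1)).le.trans hβξ.le)]
    · intro hw
      have hwβ : w < β := hx hw
      exact ⟨w, ⟨hw, hlX (hwβ.trans hβξ)⟩, hid w (hwβ.le.trans hβξ.le)⟩
  have hotp : otp X x < O1 := by
    rw [lt_O1_iff]
    refine ((Hl_countable (A := A) (σ := σ) (x := x) hξ).image (otp X)).mono ?_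
    intro w hw
    obtain ⟨y, hy, _, hyw⟩ := exists_otp_eq (X := X) (y := x) hw
    exact ⟨y, hy, hyw⟩
  obtain ⟨i, hi, h1⟩ := hA.sub ξ hξ (otp X x) hotp
  refine ⟨i, hi, fun k => ?_⟩
  rw [h1, hD]

/-- Countable ordinals are internally countable. -/
theorem Good.sj (hA : Good A) {i : Ord} (hi : i < O1) : Sj A ω (Iio i) := by
  have h1 : DfnF A GG fun U e => sInf {k | A (e 1) (e 0) k} := by (apply_rules (transparency := .reducible) (maxDepth := 1000) using is_poly)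
  refine Sj.of_fun h1 (cons i fun _ => 0) fun w hw => ?_
  obtain ⟨n, h2, h3⟩ := hA.enum i hi w hw
  refine ⟨n, Ordinal.natCast_lt_omega0 n, ?_⟩
  show sInf {k | A i n k} = w
  exact h3 _ (csInf_mem (s := {k | A i n k}) ⟨w, h2⟩)

end Pool.Agent.Lib.MP_7295f2_lc.LA

end

section

/-!
# Derivations: uniform definability of the closure operator
-/

open Ordinal Set

set_option linter.unusedVariables false

namespace Pool.Agent.Lib.MP_7295f2_lc.LA

variable {A : Ord → Ord → Ord → Prop} {P Q : Set Ord → Env → Prop}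
  {f g h : Set Ord → Env → Ord} {𝒰 : LC}

/-- `Iio κ` together with the entries of a list. -/
def gen (κ : Ord) (l : List Ord) : Set Ord := {a | a < κ ∨ a ∈ l}

/-- Justification of `y` from the elements of `S`. -/
def Just (A : Ord → Ord → Ord → Prop) (Y S : Set Ord) (y : Ord) : Prop :=
  y ∈ Y ∨ y = 0 ∨ (lev y ∈ S ∧ ∀ a ∈ par y, a ∈ S) ∨ ∃ x ∈ S, y = lev x ∨ y ∈ par x ∨ y = hf A x

theorem Just.mono {Y S T : Set Ord} {y : Ord} (h : Just A Y S y) (hST : S ⊆ T) : Just A Y T y := by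
  rcases h with h | h | ⟨h1, h2⟩ | ⟨x, hx, h⟩
  · exact Or.inl h
  · exact Or.inr (Or.inl h)
  · exact Or.inr (Or.inr (Or.inl ⟨hST h1, fun a ha => hST (h2 a ha)⟩))
  · exact Or.inr (Or.inr (Or.inr ⟨x, hST hx, h⟩))

/-- `L` is a derivation from `Y` at height `ζ`. -/
def DerL (A : Ord → Ord → Ord → Prop) (ζ : Ord) (Y : Set Ord) (L : List Ord) : Prop :=
  ∀ (i : ℕ) (hi : i < L.length), L[i] < ζ ∧ Just A Y {x | ∃ j, ∃ (h : j < i), L[j] = x} L[i]

theorem DerL.sound {ζ : Ord} {Y : Set Ord} {L : List Ord} (h : DerL A ζ Y L) :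
    ∀ (i : ℕ) (hi : i < L.length), L[i] ∈ cl A ζ Y := by
  intro i
  induction i using Nat.strong_induction_on with
  | _ i ih =>
    intro hi
    obtain ⟨h1, h2⟩ := h i hi
    rcases h2 with h2 | h2 | ⟨⟨j, hj, h2⟩, h3⟩ | ⟨x, ⟨j, hj, rfl⟩, h2⟩
    · exact Cl.base h2 h1
    · rw [h2]
      rw [h2] at h1
      exact Cl.zero h1
    · have h4 : mk (lev L[i]) (num L[i]) (par L[i]) ∈ cl A ζ Y := by
        refine Cl.code ?_ ?_ (fun a ha => par_lt ha) (by rw [mk_eta]; exact h1)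
        · rw [← h2]
          exact ih j hj (hj.trans hi)
        · intro a ha
          obtain ⟨k, hk, rfl⟩ := h3 a ha
          exact ih k hk (hk.trans hi)
      rwa [mk_eta] at h4
    · have h4 := ih j hj (hj.trans hi)
      rcases h2 with h2 | h2 | h2
      · rw [h2]
        exact Cl.lev h4
      · exact Cl.par h4 h2
      · rw [h2]
        exact Cl.hf h4

theorem DerL.append {ζ : Ord} {Y : Set Ord} {L L' : List Ord} (h : DerL A ζ Y L)
    (h' : DerL A ζ Y L') : DerL A ζ Y (L ++ L') := by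
  intro i hi
  rcases lt_or_ge i L.length with h1 | h1
  · rw [List.getElem_append_left h1]
    refine ⟨(h i h1).1, (h i h1).2.mono ?_⟩
    rintro x ⟨j, hj, rfl⟩
    exact ⟨j, hj, by rw [List.getElem_append_left]⟩
  · rw [List.getElem_append_right h1]
    have h2 : i - L.length < L'.length := by
      rw [List.length_append] at hi
      omega
    refine ⟨(h' _ h2).1, (h' _ h2).2.mono ?_⟩
    rintro x ⟨j, hj, rfl⟩
    refine ⟨j + L.length, by omega, ?_⟩
    rw [List.getElem_append_right (by omega)]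
    simp

theorem DerL.snoc {ζ : Ord} {Y : Set Ord} {L : List Ord} (h : DerL A ζ Y L) {y : Ord}
    (hy : y < ζ) (hJ : Just A Y {x | x ∈ L} y) : DerL A ζ Y (L ++ [y]) := by
  intro i hi
  rcases lt_or_ge i L.length with h1 | h1
  · rw [List.getElem_append_left h1]
    refine ⟨(h i h1).1, (h i h1).2.mono ?_⟩
    rintro x ⟨j, hj, rfl⟩
    exact ⟨j, hj, by rw [List.getElem_append_left]⟩
  · have h2 : i = L.length := by
      simp at hi
      omega
    subst h2
    rw [List.getElem_append_right le_rfl]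
    simp only [Nat.sub_self, List.getElem_cons_zero]
    refine ⟨hy, hJ.mono ?_⟩
    intro x hx
    obtain ⟨j, hj, rfl⟩ := List.getElem_of_mem hx
    exact ⟨j, hj, by rw [List.getElem_append_left]⟩

theorem exists_derL {ζ : Ord} {Y : Set Ord} {v : Ord} (hv : v ∈ cl A ζ Y) :
    ∃ L, DerL A ζ Y L ∧ v ∈ L := by
  have hnil : DerL A ζ Y [] := fun i hi => absurd hi (by simp)
  induction hv with
  | @base y h1 h2 =>
    exact ⟨[] ++ [y], hnil.snoc h2 (Or.inl h1), by simp⟩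
  | zero h =>
    exact ⟨[] ++ [0], hnil.snoc h (Or.inr (Or.inl rfl)), by simp⟩
  | @code γ n l h1 h2 hv h3 ih1 ih2 =>
    obtain ⟨L, h4, h5⟩ := ih1
    have : ∃ L', DerL A ζ Y L' ∧ ∀ a ∈ l, a ∈ L' := by
      clear h2 hv h3
      induction l with
      | nil => exact ⟨[], hnil, by simp⟩
      | cons a l ih =>
        obtain ⟨L', g1, g2⟩ := ih fun c hc => ih2 c (List.mem_cons_of_mem _ hc)
        obtain ⟨L'', g3, g4⟩ := ih2 a List.mem_cons_self
        refine ⟨L' ++ L'', g1.append g3, fun c hc => ?_⟩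
        rcases List.mem_cons.mp hc with rfl | hc
        · exact List.mem_append_right _ g4
        · exact List.mem_append_left _ (g2 c hc)
    obtain ⟨L', h6, h7⟩ := this
    refine ⟨(L ++ L') ++ [mk γ n l], (h4.append h6).snoc h3 (Or.inr (Or.inr (Or.inl ⟨?_, ?_⟩))),
      by simp⟩
    · rw [lev_mk hv]
      exact List.mem_append_left _ h5
    · rw [par_mk hv]
      exact fun a ha => List.mem_append_right _ (h7 a ha)
  | @lev x hx ih =>
    obtain ⟨L, h1, h2⟩ := ih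
    exact ⟨L ++ [LA.lev x], h1.snoc ((lev_le x).trans_lt (cl_lt hx))
      (Or.inr (Or.inr (Or.inr ⟨x, h2, Or.inl rfl⟩))), by simp⟩
  | @par x a hx ha ih =>
    obtain ⟨L, h1, h2⟩ := ih
    exact ⟨L ++ [a], h1.snoc ((par_lt_self ha).trans (cl_lt hx))
      (Or.inr (Or.inr (Or.inr ⟨x, h2, Or.inr (Or.inl ha)⟩))), by simp⟩
  | @hf x hx ih =>
    obtain ⟨L, h1, h2⟩ := ih
    exact ⟨L ++ [LA.hf A x], h1.snoc ((hf_le_self x).trans_lt (cl_lt hx))
      (Or.inr (Or.inr (Or.inr ⟨x, h2, Or.inr (Or.inr rfl)⟩))), by simp⟩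

/-- `ℓ` codes a derivation containing `v` from `gen κ (par c)`. -/
def DerC (A : Ord → Ord → Ord → Prop) (v κ c ℓ : Ord) : Prop :=
  v ∈ par ℓ ∧ ∀ i < ((par ℓ).length : Ord),
    (ent ℓ i < κ ∨ ent ℓ i ∈ par c) ∨ ent ℓ i = 0 ∨
      ((∃ j < i, ent ℓ j = lev (ent ℓ i)) ∧ ∀ a ∈ par (ent ℓ i), ∃ j < i, ent ℓ j = a) ∨
      ∃ j < i, ent ℓ i = lev (ent ℓ j) ∨ ent ℓ i ∈ par (ent ℓ j) ∨ ent ℓ i = hf A (ent ℓ j)

@[is_poly] theorem Dfn.derC {f₁ f₂ f₃ f₄ : Set Ord → Env → Ord} (h1 : DfnF A 𝒰 f₁) (h2 : DfnF A 𝒰 f₂)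
    (h3 : DfnF A 𝒰 f₃) (h4 : DfnF A 𝒰 f₄) :
    Dfn A 𝒰 fun U e => DerC A (f₁ U e) (f₂ U e) (f₃ U e) (f₄ U e) := by
  refine Dfn.comp4 (R := fun _ a b c d => DerC A a b c d) ?_ h1 h2 h3 h4
  unfold DerC
  (apply_rules (transparency := .reducible) (maxDepth := 1000) using is_poly)

theorem ent_getElem {ℓ : Ord} {m : ℕ} (hm : m < (par ℓ).length) : ent ℓ m = (par ℓ)[m] :=
  ent_of_getElem? (List.getElem?_eq_getElem hm)

theorem derC_iff {v κ c ℓ : Ord} : DerC A v κ c ℓ ↔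
    v ∈ par ℓ ∧ DerL A (lev ℓ) (gen κ (par c)) (par ℓ) := by
  unfold DerC
  refine and_congr_right fun _ => ?_
  constructor
  · intro h i hi
    refine ⟨par_lt (List.getElem_mem hi), ?_⟩
    have h1 := h i (by exact_mod_cast hi)
    rw [ent_getElem hi] at h1
    rcases h1 with h1 | h1 | ⟨⟨j, hj, h1⟩, h2⟩ | ⟨j, hj, h1⟩
    · exact Or.inl h1
    · exact Or.inr (Or.inl h1)
    · refine Or.inr (Or.inr (Or.inl ⟨?_, ?_⟩))
      · obtain ⟨m, rfl, hm⟩ := nat_of_lt hj
        exact ⟨m, hm, by rw [← ent_getElem (hm.trans hi)]; exact h1⟩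
      · intro a ha
        obtain ⟨k, hk, h3⟩ := h2 a ha
        obtain ⟨m, rfl, hm⟩ := nat_of_lt hk
        exact ⟨m, hm, by rw [← ent_getElem (hm.trans hi)]; exact h3⟩
    · obtain ⟨m, rfl, hm⟩ := nat_of_lt hj
      rw [ent_getElem (hm.trans hi)] at h1
      exact Or.inr (Or.inr (Or.inr ⟨(par ℓ)[m], ⟨m, hm, rfl⟩, h1⟩))
  · intro h i hi
    obtain ⟨m, rfl, hm⟩ := nat_of_lt hi
    obtain ⟨_, h1⟩ := h m hm
    rw [ent_getElem hm]
    rcases h1 with h1 | h1 | ⟨⟨j, hj, h1⟩, h2⟩ | ⟨x, ⟨j, hj, rfl⟩, h1⟩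
    · exact Or.inl h1
    · exact Or.inr (Or.inl h1)
    · refine Or.inr (Or.inr (Or.inl ⟨?_, ?_⟩))
      · exact ⟨j, by exact_mod_cast hj, by rw [ent_getElem (hj.trans hm)]; exact h1⟩
      · intro a ha
        obtain ⟨k, hk, h3⟩ := h2 a ha
        exact ⟨k, by exact_mod_cast hk, by rw [ent_getElem (hk.trans hm)]; exact h3⟩
    · exact Or.inr (Or.inr (Or.inr ⟨j, by exact_mod_cast hj,
        by rw [ent_getElem (hj.trans hm)]; exact h1⟩))

theorem mem_cl_of_derC {v κ c ℓ : Ord} (h : DerC A v κ c ℓ) : v ∈ cl A (lev ℓ) (gen κ (par c)) := by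
  obtain ⟨h1, h2⟩ := derC_iff.mp h
  obtain ⟨i, hi, rfl⟩ := List.getElem_of_mem h1
  exact h2.sound i hi

theorem exists_derC {v κ c ζ : Ord} (h : v ∈ cl A ζ (gen κ (par c))) :
    ∃ ℓ < mk (ζ + 1) 0 [], lev ℓ = ζ ∧ DerC A v κ c ℓ := by
  obtain ⟨L, h1, h2⟩ := exists_derL h
  have hv : ∀ a ∈ L, a < ζ := by
    intro a ha
    obtain ⟨i, hi, rfl⟩ := List.getElem_of_mem ha
    exact (h1 i hi).1
  refine ⟨mk ζ 0 L, mk_lt_of_lev hv (lt_add_one ζ), lev_mk hv, ?_⟩
  rw [derC_iff, lev_mk hv, par_mk hv]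
  exact ⟨h2, h1⟩

/-- Membership in the closure, evaluated in the universe `U`. -/
def InCl (A : Ord → Ord → Ord → Prop) (U : Set Ord) (v ζ κ c : Ord) : Prop :=
  ∃ ℓ ∈ U, lev ℓ = ζ ∧ DerC A v κ c ℓ

theorem InCl.mem {U : Set Ord} {v ζ κ c : Ord} (h : InCl A U v ζ κ c) :
    v ∈ cl A ζ (gen κ (par c)) := by
  obtain ⟨ℓ, _, rfl, h1⟩ := h
  exact mem_cl_of_derC h1

theorem inCl_iff {γ v ζ κ c : Ord} (h : mk (ζ + 1) 0 [] ≤ γ) :
    InCl A (Iio γ) v ζ κ c ↔ v ∈ cl A ζ (gen κ (par c)) := by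
  refine ⟨InCl.mem, fun h1 => ?_⟩
  obtain ⟨ℓ, h2, h3⟩ := exists_derC h1
  exact ⟨ℓ, h2.trans_le h, h3⟩

theorem inCl_univ {v ζ κ c : Ord} :
    InCl A Set.univ v ζ κ c ↔ v ∈ cl A ζ (gen κ (par c)) := by
  refine ⟨InCl.mem, fun h1 => ?_⟩
  obtain ⟨ℓ, h2, h3⟩ := exists_derC h1
  exact ⟨ℓ, Set.mem_univ _, h3⟩

@[is_poly] theorem Dfn.inCl {f₁ f₂ f₃ f₄ : Set Ord → Env → Ord} (h1 : DfnF A 𝒰 f₁) (h2 : DfnF A 𝒰 f₂)
    (h3 : DfnF A 𝒰 f₃) (h4 : DfnF A 𝒰 f₄) :
    Dfn A 𝒰 fun U e => InCl A U (f₁ U e) (f₂ U e) (f₃ U e) (f₄ U e) := by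
  refine Dfn.comp4 (R := fun U a b c d => InCl A U a b c d) ?_ h1 h2 h3 h4
  unfold InCl
  (apply_rules (transparency := .reducible) (maxDepth := 1000) using is_poly)

@[is_poly] theorem Dfn.mem_cl {f₁ f₂ f₃ f₄ : Set Ord → Env → Ord} (h1 : DfnF A GG f₁)
    (h2 : DfnF A GG f₂) (h3 : DfnF A GG f₃) (h4 : DfnF A GG f₄) :
    Dfn A GG fun U e => f₁ U e ∈ cl A (f₂ U e) (gen (f₃ U e) (par (f₄ U e))) := by
  refine (Dfn.inCl h1 h2 h3 h4).congr fun U hU e he => ?_
  rw [mem_GG.mp hU]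
  exact inCl_univ

/-- Values of uniformly definable functions belong to closed sets. -/
theorem Clsd.fun_mem {η γ : Ord} {Y : Set Ord} (hY : Clsd A η Y) (hγ : γ ∈ Y) (hωγ : ω ≤ γ)
    (hcode : ∀ n l, (∀ a ∈ l, a < γ) → LA.mk γ n l < η) (hf : DfnF A 𝒰 f) (hU : Iio γ ∈ 𝒰.S)
    {e : Env} (he : ∀ i, e i ∈ Y ∧ e i < γ) : f (Iio γ) e ∈ Y := by
  obtain ⟨φ, hφ⟩ := hf.graph
  have hfγ : f (Iio γ) e < γ := hf.maps _ hU e fun i => (he i).2
  have hl : ∀ a ∈ trunc (bd φ) e, a ∈ Y ∧ a < γ := by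
    intro a ha
    unfold trunc at ha
    obtain ⟨i, _, rfl⟩ := List.mem_map.mp ha
    exact he i
  have hv : ∀ a ∈ trunc (bd φ) e, a < γ := fun a ha => (hl a ha).2
  have h1 : LA.mk γ (enc φ) (trunc (bd φ) e) ∈ Y :=
    hY.code' γ _ _ hγ (fun a ha => (hl a ha).1) hv (hcode _ _ hv)
  have h2 : D A (LA.mk γ (enc φ) (trunc (bd φ) e)) = {f (Iio γ) e} := by
    ext w
    rw [mem_D_mk hv, Set.mem_singleton_iff]
    have key : w < γ → (Sat A (D A) (Iio γ) φ (cons w (lenv (trunc (bd φ) e))) ↔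
        w = f (Iio γ) e) := by
      intro hw
      have h3 : Sat A (D A) (Iio γ) φ (cons w e) ↔ w = f (Iio γ) e :=
        hφ (Iio γ) hU (cons w e) (cons_mem hw fun i => (he i).2)
      rw [← h3]
      apply sat_congr
      intro i hi
      cases i with
      | zero => rfl
      | succ i => exact lenv_trunc (by omega) e
    constructor
    · rintro ⟨h3, h4⟩
      exact (key h3).mp h4
    · intro h3
      have hw : w < γ := h3 ▸ hfγ
      exact ⟨hw, (key hw).mpr h3⟩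
  have h3 := hY.hf' _ h1
  unfold LA.hf at h3
  rwa [h2, csInf_singleton] at h3

end Pool.Agent.Lib.MP_7295f2_lc.LA

end

section

/-!
# The least level at which `δ` is collapsed to `κ`
-/

open Ordinal Set

set_option linter.unusedVariables false

namespace Pool.Agent.Lib.MP_7295f2_lc.LA

variable {A : Ord → Ord → Ord → Prop} {P Q : Set Ord → Env → Prop}
  {f g h : Set Ord → Env → Ord} {𝒰 : LC}

theorem eq_add_one_iff {a b : Ord} : a = b + 1 ↔ b < a ∧ ∀ z < a, z ≤ b := by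
  constructor
  · rintro rfl
    exact ⟨lt_add_one b, fun z hz => Order.lt_add_one_iff.mp hz⟩
  · rintro ⟨h1, h2⟩
    apply le_antisymm
    · by_contra hcon
      exact absurd (h2 _ (not_le.mp hcon)) (not_le.mpr (lt_add_one b))
    · exact Order.add_one_le_of_lt h1

@[is_poly] theorem Dfn.eq_pr (hf : DfnF A 𝒰 f) (hg : DfnF A 𝒰 g) (hh : DfnF A 𝒰 h) :
    Dfn A 𝒰 fun U e => f U e = pr (g U e) (h U e) := by
  refine Dfn.comp3 (R := fun _ y a b => y = LA.pr a b) ?_ hf hg hh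
  have : Dfn A 𝒰 fun U e => (max (e 1) (e 2) < LA.lev (e 0) ∧ ∀ z < LA.lev (e 0), z ≤ max (e 1) (e 2)) ∧
      (LA.num (e 0) : Ord) = 0 ∧ ((LA.par (e 0)).length : Ord) = 2 ∧ LA.ent (e 0) 0 = e 1 ∧
      LA.ent (e 0) 1 = e 2 := by
    (apply_rules (transparency := .reducible) (maxDepth := 1000) using is_poly)
  refine this.congr fun U hU e he => ?_
  rw [eq_pr_iff, eq_add_one_iff]

theorem DfnF.valU (hf : DfnF A 𝒰 f) (hg : DfnF A 𝒰 g) :
    DfnF A 𝒰 fun U e => LA.val A (f U e) (g U e) := by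
  refine DfnF.comp2 (R := fun _ x β => LA.val A x β) ?_ hf hg
  have : DfnF A 𝒰 fun U e => InfSet.sInf {v | v ∈ U ∧ ∃ u ∈ D A (e 0), u = LA.pr (e 1) v} := by
    apply DfnF.sInfU
    refine Dfn.ex_D (DfnF.var 1) ?_
    exact Dfn.eq_pr (DfnF.var 0) (DfnF.var 3) (DfnF.var 1)
  refine this.congr fun U hU e he => ?_
  unfold LA.val
  congr 1
  ext v
  simp only [Set.mem_ofPred_eq]
  constructor
  · rintro ⟨_, u, hu, rfl⟩
    exact hu
  · intro h
    exact ⟨(𝒰.h U hU).low _ (he 0) _ ((right_lt_pr _ _).trans (D_lt_self h)).le, _, h, rfl⟩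

/-- `δ` is contained in the closure of `κ` and finitely many ordinals, at height `ζ`. -/
def Zp (A : Ord → Ord → Ord → Prop) (κ δ ζ : Ord) : Prop :=
  δ ≤ ζ ∧ ∃ c, lev c = ζ ∧ ∀ v < δ, v ∈ cl A ζ (gen κ (par c))

/-- The least such height. -/
noncomputable def zc (A : Ord → Ord → Ord → Prop) (κ δ : Ord) : Ord := sInf {ζ | Zp A κ δ ζ}

@[is_poly] theorem Dfn.Zp {f₁ f₂ f₃ : Set Ord → Env → Ord} (h1 : DfnF A GG f₁) (h2 : DfnF A GG f₂)
    (h3 : DfnF A GG f₃) : Dfn A GG fun U e => Zp A (f₁ U e) (f₂ U e) (f₃ U e) := by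
  refine Dfn.comp3 (R := fun _ a b c => LA.Zp A a b c) ?_ h1 h2 h3
  unfold LA.Zp
  (apply_rules (transparency := .reducible) (maxDepth := 1000) using is_poly)

@[is_poly] theorem DfnF.zc {f₁ f₂ : Set Ord → Env → Ord} (h1 : DfnF A GG f₁) (h2 : DfnF A GG f₂) :
    DfnF A GG fun U e => zc A (f₁ U e) (f₂ U e) := by
  refine DfnF.comp2 (R := fun _ a b => LA.zc A a b) ?_ h1 h2
  unfold LA.zc
  (apply_rules (transparency := .reducible) (maxDepth := 1000) using is_poly)

theorem Zp.of_list {κ δ ζ : Ord} (h : δ ≤ ζ) {l : List Ord} (hl : ∀ a ∈ l, a < ζ)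
    (h' : ∀ v < δ, v ∈ cl A ζ (gen κ l)) : Zp A κ δ ζ :=
  ⟨h, mk ζ 0 l, lev_mk hl, by rw [par_mk hl]; exact h'⟩

theorem exists_Zp {κ δ : Ord} (hκ : Clos κ) (h : Sj A κ (Iio δ)) : ∃ ζ, Zp A κ δ ζ := by
  obtain ⟨x, hx⟩ := h
  set σ := max x (max κ δ) + 1 with hσdef
  have hxσ : x < σ := Order.lt_add_one_iff.mpr (le_max_left _ _)
  have hκσ : κ < σ := Order.lt_add_one_iff.mpr ((le_max_left _ _).trans (le_max_right _ _))
  have hδσ : δ < σ := Order.lt_add_one_iff.mpr ((le_max_right _ _).trans (le_max_right _ _))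
  have hσ : ω ≤ σ := hκ.1.le.trans hκσ.le
  have h0 : 0 < κ := Ordinal.omega0_pos.trans hκ.1
  have hσζ : σ < mk (σ + 1) 0 [] := (lt_add_one σ).trans_le (le_mk _ _ _)
  refine ⟨mk (σ + 1) 0 [], Zp.of_list (l := [σ, x]) (hδσ.trans hσζ).le ?_ ?_⟩
  · intro a ha
    simp only [List.mem_cons, List.not_mem_nil, or_false] at ha
    rcases ha with rfl | rfl
    · exact hσζ
    · exact hxσ.trans hσζ
  · intro v hv
    obtain ⟨i, hi, hiv⟩ := hx v hv
    have h1 : v ∈ Hl A σ x κ := by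
      have h2 := Hl_fun hσ hxσ hκσ.le h0 (DfnF.valU (A := A) (𝒰 := LS σ hσ) (DfnF.var 0) (DfnF.var 1))
        (y := cons x fun _ => i) (by
          intro j
          cases j with
          | zero => exact Hl_param hσ hxσ hκσ.le h0
          | succ j => exact Hl_lt hσ hxσ hκσ.le h0 hi)
      have h3 : val A x i ∈ Hl A σ x κ := h2
      rwa [hiv] at h3
    obtain ⟨n, l, hl, rfl⟩ := h1
    have hv' := valid_cons hxσ hκσ.le hl
    apply Cl.hf
    refine Cl.code (Cl.base (Or.inr (by simp)) hσζ) ?_ hv' (mk_lt_of_lev hv' (lt_add_one σ))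
    intro a ha
    rcases List.mem_cons.mp ha with rfl | ha
    · exact Cl.base (Or.inr (by simp)) (hxσ.trans hσζ)
    · exact Cl.base (Or.inl (hl a ha)) (((hl a ha).trans hκσ).trans hσζ)

theorem zc_spec {κ δ : Ord} (hκ : Clos κ) (h : δ < sc A κ) : Zp A κ δ (zc A κ δ) :=
  csInf_mem (s := {ζ | Zp A κ δ ζ}) (exists_Zp hκ (sj_of_lt_sc h))

theorem zc_le {κ δ ζ : Ord} (h : Zp A κ δ ζ) : zc A κ δ ≤ ζ := csInf_le' (s := {ζ | Zp A κ δ ζ}) h

theorem zc_of_le {κ δ : Ord} (h : δ ≤ κ) : zc A κ δ ≤ δ := by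
  apply zc_le
  refine Zp.of_list (l := []) le_rfl (by simp) ?_
  intro v hv
  exact Cl.base (Or.inl (hv.trans_le h)) hv

/-- The closure of `κ` and finitely many ordinals is an internal image of `κ`. -/
theorem sj_cl {κ ζ c : Ord} (hκ : Clos κ) (hκζ : κ ≤ ζ) : Sj A κ (cl A ζ (gen κ (par c))) := by
  set σ := max ζ c + 1 with hσdef
  have hcσ : c < σ := Order.lt_add_one_iff.mpr (le_max_right _ _)
  have hζσ : ζ ≤ σ := (le_max_left _ _).trans (lt_add_one _).le
  have hσ : ω ≤ σ := hκ.1.le.trans (hκζ.trans hζσ)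
  have h0 : 0 < κ := Ordinal.omega0_pos.trans hκ.1
  have hκσ := hκζ.trans hζσ
  have hX := Hl_clsd (A := A) hσ hcσ hκσ h0
  have h1 : cl A ζ (gen κ (par c)) ⊆ Hl A σ c κ := by
    refine cl_subset hX hζσ ?_
    intro y hy _
    rcases hy with hy | hy
    · exact Hl_lt hσ hcσ hκσ h0 hy
    · exact hX.par' c (Hl_param hσ hcσ hκσ h0) y hy
  have h2 : DfnF A GG fun U e => hen A (e 1) (e 2) (e 0) := by (apply_rules (transparency := .reducible) (maxDepth := 1000) using is_poly)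
  refine Sj.of_fun h2 (cons σ (cons c fun _ => 0)) fun w hw => ?_
  have h3 := h1 hw
  rw [Hl_eq_image hcσ hκσ hκ] at h3
  obtain ⟨i, hi, hiw⟩ := h3
  exact ⟨i, hi, hiw⟩

theorem Sj.otp {κ ζ : Ord} {X : Set Ord} (h : Sj A κ X) (hX : Int A X) :
    Sj A κ (Iio (Pool.Agent.Lib.MP_7295f2_lc.otp X ζ)) := by
  obtain ⟨x, hx⟩ := h
  obtain ⟨z, hz⟩ := hX
  have h1 : DfnF A GG fun U e =>
    Pool.Agent.Lib.MP_7295f2_lc.otp {y | y ∈ D A (e 1)} (val A (e 2) (e 0)) := by (apply_rules (transparency := .reducible) (maxDepth := 1000) using is_poly)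
  refine Sj.of_fun h1 (cons z (cons x fun _ => 0)) fun w hw => ?_
  obtain ⟨y, hy, _, hyw⟩ := exists_otp_eq (X := X) (y := ζ) hw
  obtain ⟨i, hi, hiy⟩ := hx y hy
  refine ⟨i, hi, ?_⟩
  show Pool.Agent.Lib.MP_7295f2_lc.otp {y | y ∈ D A z} (val A x i) = w
  rw [hiy, hz]
  exact hyw

theorem cl_int {κ ζ c : Ord} : Int A (cl A ζ (gen κ (par c))) := by
  have h1 : Dfn A GG fun U e => e 0 ∈ cl A (e 1) (gen (e 2) (par (e 3))) := by (apply_rules (transparency := .reducible) (maxDepth := 1000) using is_poly)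
  obtain ⟨z, hz⟩ := int_of_dfn' h1 (cons ζ (cons κ (cons c fun _ => 0))) (β := ζ) (by
    intro w hw
    exact cl_lt hw)
  exact ⟨z, hz⟩

theorem otp_image_gen {κ : Ord} {X : Set Ord} (hX : Iio κ ⊆ X) (l : List Ord) :
    otp X '' gen κ l = gen κ (l.map (otp X)) := by
  have hid : ∀ y ≤ κ, otp X y = y := fun y hy => otp_eq_self ((Iio_subset_Iio hy).trans hX)
  ext v
  constructor
  · rintro ⟨y, hy | hy, rfl⟩
    · refine Or.inl ?_
      rw [hid y hy.le]
      exact hy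
    · exact Or.inr (List.mem_map_of_mem hy)
  · rintro (hv | hv)
    · exact ⟨v, Or.inl hv, hid v hv.le⟩
    · obtain ⟨y, hy, rfl⟩ := List.mem_map.mp hv
      exact ⟨y, Or.inr hy, rfl⟩

/-- The main collapsing computation: if `X` is the closure of `κ` and a finite list, then its
collapse is the closure of `κ` and the collapsed list. -/
theorem collapse_cl (hA : Ctb A) {κ ζ z : Ord} {X : Set Ord} {l : List Ord} (hκ : O1 ≤ κ)
    (hX : Clsd A ζ X) (hωζ : ω ≤ ζ) (hκX : Iio κ ⊆ X) (hzζ : z ≤ ζ) (hl : ∀ a ∈ l, a ∈ X) :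
    otp X '' cl A z (gen κ l) = cl A (otp X z) (gen κ (l.map (otp X))) := by
  rw [hX.col_cl hωζ (hA.col ((Iio_subset_Iio hκ).trans hκX)) hzζ, otp_image_gen hκX]
  rintro y (hy | hy)
  · exact hκX hy
  · exact hl y hy

theorem zc_full (hA : Ctb A) {κ δ : Ord} (hκ1 : O1 ≤ κ) (hκ : Clos κ) (h : δ < sc A κ)
    (hκδ : κ < δ) : zc A κ δ < sc A κ ∧ ∃ c, lev c = zc A κ δ ∧
      ∀ v < zc A κ δ, v ∈ cl A (zc A κ δ) (gen κ (par c)) := by
  obtain ⟨hδζ, c, hc, hcv⟩ := zc_spec hκ h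
  set ζ := zc A κ δ with hζ
  set X := cl A ζ (gen κ (par c)) with hX
  have hκζ : κ < ζ := hκδ.trans_le hδζ
  have hωζ : ω ≤ ζ := hκ.1.le.trans hκζ.le
  have hcl : ∀ a ∈ par c, a < ζ := fun a ha => hc ▸ par_lt ha
  have hgen : gen κ (par c) ⊆ X := by
    apply subset_cl
    rintro y (hy | hy)
    · exact hy.trans hκζ
    · exact hcl y hy
  have hκX : Iio κ ⊆ X := fun y hy => hgen (Or.inl hy)
  have hlX : ∀ a ∈ par c, a ∈ X := fun a ha => hgen (Or.inr ha)
  have h1 := collapse_cl hA hκ1 (clsd_cl (A := A) (Y := gen κ (par c))) hωζ hκX le_rfl hlX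
  have h2 : otp X '' X = Iio (otp X ζ) := by
    ext w
    constructor
    · rintro ⟨y, hy, rfl⟩
      exact otp_lt_otp hy (cl_lt hy)
    · intro hw
      obtain ⟨y, hy, _, hyw⟩ := exists_otp_eq (Set.mem_Iio.mp hw)
      exact ⟨y, hy, hyw⟩
  have hδX : Iio δ ⊆ X := hcv
  have hδζ' : δ ≤ otp X ζ := by
    have := otp_mono (S := X) hδζ
    rwa [otp_eq_self hδX] at this
  have hlt : ∀ a ∈ (par c).map (otp X), a < otp X ζ := by
    intro a ha
    obtain ⟨b, hb, rfl⟩ := List.mem_map.mp ha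
    exact otp_lt_otp (hlX b hb) (hcl b hb)
  have h3 : cl A (otp X ζ) (gen κ ((par c).map (otp X))) = Iio (otp X ζ) := by
    rw [← h1, ← h2]
  have h4 : Zp A κ δ (otp X ζ) := Zp.of_list hδζ' hlt (by
    intro v hv
    rw [h3]
    exact hv.trans_le hδζ')
  have h5 : otp X ζ = ζ := le_antisymm (otp_le_self ζ) (zc_le h4)
  rw [h5] at h3 hlt
  refine ⟨?_, mk ζ 0 ((par c).map (otp X)), lev_mk hlt, ?_⟩
  · have h6 : Sj A κ (Iio (otp X ζ)) := (sj_cl hκ hκζ.le).otp cl_int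
    rw [h5] at h6
    exact lt_sc_of_sj (lt_sc κ) h6
  · intro v hv
    rw [par_mk hlt, h3]
    exact hv

theorem zc_lt (hA : Ctb A) {κ δ : Ord} (hκ1 : O1 ≤ κ) (hκ : Clos κ) (h : δ < sc A κ) :
    zc A κ δ < sc A κ := by
  rcases le_or_gt δ κ with h1 | h1
  · exact (zc_of_le h1).trans_lt h
  · exact (zc_full hA hκ1 hκ h h1).1

/-- The class of all levels. -/
def UU : LC := ⟨{U | Lvl U}, fun _ h => h⟩

theorem Iio_mem_UU {γ : Ord} (h : ω ≤ γ) : Iio γ ∈ UU.S :=
  ⟨fun x hx y hy => lt_of_le_of_lt hy hx, fun n => (Ordinal.natCast_lt_omega0 n).trans_le h⟩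

/-- `zc`, evaluated in a level. -/
noncomputable def zcU (A : Ord → Ord → Ord → Prop) (U : Set Ord) (κ w : Ord) : Ord :=
  sInf {z | z ∈ U ∧ (w ≤ z ∧ ∃ c ∈ U, lev c = z ∧ ∀ v < w, InCl A U v z κ c)}

/-- The parameter, evaluated in a level. -/
noncomputable def qcU (A : Ord → Ord → Ord → Prop) (U : Set Ord) (κ w : Ord) : Ord :=
  sInf {c | c ∈ U ∧ (lev c = zcU A U κ w ∧ ∀ v < w, InCl A U v (zcU A U κ w) κ c)}

theorem zcU_dfn : DfnF A UU fun U e => zcU A U (e 1) (e 0) := by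
  unfold zcU
  (apply_rules (transparency := .reducible) (maxDepth := 1000) using is_poly)

theorem qcU_dfn : DfnF A UU fun U e => qcU A U (e 1) (e 0) := by
  unfold qcU
  apply DfnF.sInfU
  have h1 : DfnF A UU fun U e => zcU A U (e 2) (e 1) :=
    DfnF.comp2 (R := fun U a b => zcU A U b a) zcU_dfn (DfnF.var 1) (DfnF.var 2)
  refine Dfn.and (Dfn.eq (DfnF.lev (DfnF.var 0)) h1) (Dfn.alllt (DfnF.var 1) ?_)
  exact Dfn.inCl (DfnF.var 0) h1.shift (DfnF.var 3) (DfnF.var 1)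

theorem zcU_eq {κ w γ : Ord} (h : Zp A κ w (zc A κ w)) (hγ : mk (zc A κ w + 1) 0 [] ≤ γ) :
    zcU A (Iio γ) κ w = zc A κ w ∧ lev (qcU A (Iio γ) κ w) = zc A κ w ∧
      ∀ v < w, v ∈ cl A (zc A κ w) (gen κ (par (qcU A (Iio γ) κ w))) := by
  obtain ⟨h1, c, hc, h2⟩ := h
  have hzγ : zc A κ w < γ := ((lt_add_one _).trans_le (le_mk _ _ _)).trans_le hγ
  set c' := mk (zc A κ w) 0 (par c) with hc'
  have hcv : ∀ a ∈ par c, a < zc A κ w := fun a ha => hc ▸ par_lt ha
  have hc'γ : c' < γ := (mk_lt_of_lev hcv (lt_add_one _)).trans_le hγ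
  have hin : ∀ v < w, InCl A (Iio γ) v (zc A κ w) κ c' := by
    intro v hv
    rw [inCl_iff hγ, hc', par_mk hcv]
    exact h2 v hv
  have e1 : zcU A (Iio γ) κ w = zc A κ w := by
    unfold zcU
    apply le_antisymm
    · exact csInf_le' ⟨hzγ, h1, c', hc'γ, lev_mk hcv, hin⟩
    · obtain ⟨_, g1, c'', _, g2, g3⟩ := csInf_mem (s := {z | z ∈ Iio γ ∧ (w ≤ z ∧ ∃ c ∈ Iio γ,
        lev c = z ∧ ∀ v < w, InCl A (Iio γ) v z κ c)}) ⟨_, hzγ, h1, c', hc'γ, lev_mk hcv, hin⟩
      exact zc_le ⟨g1, c'', g2, fun v hv => (g3 v hv).mem⟩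
  refine ⟨e1, ?_⟩
  unfold qcU
  rw [e1]
  obtain ⟨_, g1, g2⟩ := csInf_mem (s := {c | c ∈ Iio γ ∧ (lev c = zc A κ w ∧
    ∀ v < w, InCl A (Iio γ) v (zc A κ w) κ c)}) ⟨c', hc'γ, lev_mk hcv, hin⟩
  exact ⟨g1, fun v hv => (g2 v hv).mem⟩

/-- Closed sets containing `w` and enough levels contain all ordinals below `w`. -/
theorem subset_of_mem {κ η w γ : Ord} {Y : Set Ord} (hκ : Clos κ) (hY : Clsd A η Y)
    (hκY : Iio κ ⊆ Y) (hκY' : κ ∈ Y) (hw : w ∈ Y) (hws : w < sc A κ) (hγ : γ ∈ Y) (hκγ : κ < γ)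
    (hγw : mk (zc A κ w + 1) 0 [] ≤ γ)
    (hcode : ∀ n l, (∀ a ∈ l, a < γ) → mk γ n l < η) : Iio w ⊆ Y := by
  have hs := zc_spec hκ hws
  obtain ⟨h1, h2, h3⟩ := zcU_eq hs hγw
  have hωγ : ω ≤ γ := hκ.1.le.trans hκγ.le
  have hwγ : w < γ := (hs.1.trans_lt ((lt_add_one _).trans_le (le_mk _ _ _))).trans_le hγw
  have he : ∀ i, (cons w fun _ => κ) i ∈ Y ∧ (cons w fun _ => κ) i < γ := by
    intro i
    cases i with
    | zero => exact ⟨hw, hwγ⟩
    | succ i => exact ⟨hκY', hκγ⟩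
  have h4 : zcU A (Iio γ) κ w ∈ Y := hY.fun_mem hγ hωγ hcode zcU_dfn (Iio_mem_UU hωγ) he
  have h5 : qcU A (Iio γ) κ w ∈ Y := hY.fun_mem hγ hωγ hcode qcU_dfn (Iio_mem_UU hωγ) he
  rw [h1] at h4
  intro v hv
  refine cl_subset hY (hY.sub _ h4).le ?_ (h3 v hv)
  rintro y (hy | hy) _
  · exact hκY hy
  · exact hY.par' _ h5 y hy

/-- The basic closed unbounded subset of `κ⁺`. -/
def Ec (A : Ord → Ord → Ord → Prop) (κ : Ord) : Set Ord :=
  {δ | κ < δ ∧ δ < sc A κ ∧ (∀ γ < δ, mk (γ + 1) 0 [] < δ) ∧ ∀ γ < δ, zc A κ γ < δ}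

theorem Ec_clos {κ δ : Ord} (hκ : Clos κ) (h : δ ∈ Ec A κ) : Clos δ := by
  refine ⟨hκ.1.trans h.1, fun γ hγ n l hl => ?_⟩
  exact (mk_lt_of_lev hl (lt_add_one γ)).trans (h.2.2.1 γ hγ)

/-- (M7) A closed set which is unbounded in `δ ∈ E` contains `δ`. -/
theorem M7 {κ η δ : Ord} {Y : Set Ord} (hκ : Clos κ) (hY : Clsd A η Y)
    (hκY : Iio κ ⊆ Y) (hκY' : κ ∈ Y) (hδ : δ ∈ Ec A κ) (hδη : δ ≤ η)
    (hub : ∀ b < δ, ∃ y ∈ Y, b < y ∧ y < δ) : Iio δ ⊆ Y := by
  intro b hb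
  obtain ⟨w, hw, hbw, hwδ⟩ := hub b hb
  have h1 : mk (zc A κ w + 1) 0 [] < δ := hδ.2.2.1 _ (hδ.2.2.2 w hwδ)
  obtain ⟨γ, hγ, h2, hγδ⟩ := hub (max (mk (zc A κ w + 1) 0 []) κ) (max_lt h1 hδ.1)
  refine subset_of_mem hκ hY hκY hκY' hw (hwδ.trans hδ.2.1) hγ ((le_max_right _ _).trans_lt h2)
    ((le_max_left _ _).trans_lt h2).le ?_ hbw
  intro n l hl
  exact ((Ec_clos hκ hδ).2 γ hγδ n l hl).trans_le hδη

end Pool.Agent.Lib.MP_7295f2_lc.LA

end
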