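import Mathlib

/-!
# Models of set theory, and the statements GCH and `(κ, r, 2) → μ` inside them

`M` is a type with a binary relation `E` (read `E x y` as `x ∈ y`).  Everything below is first
order over `(M, E)`.
-/

namespace Pool.Agent.Lib.MP_7295f2_lc

universe u

/-- Formulas of the language of set theory; variables are de Bruijn indices. -/
inductive SetFormula : Type
  | mem (i j : ℕ)
  | eq (i j : ℕ)
  | neg (φ : SetFormula)
  | and (φ ψ : SetFormula)
  | all (φ : SetFormula)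

/-- The assignment `v` with `x` pushed in front. -/
def push {M : Type u} (x : M) (v : ℕ → M) : ℕ → M
  | 0 => x
  | n + 1 => v n

section

variable {M : Type u} (E : M → M → Prop)

/-- Satisfaction of a formula in `(M, E)` under an assignment. -/
def SetFormula.Holds : SetFormula → (ℕ → M) → Prop
  | .mem i j, v => E (v i) (v j)
  | .eq i j, v => v i = v j
  | .neg φ, v => ¬ φ.Holds v
  | .and φ ψ, v => φ.Holds v ∧ ψ.Holds v
  | .all φ, v => ∀ x, φ.Holds (push x v)

/-- `(M, E)` is a model of ZFC. -/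
structure ModelsZFC : Prop where
  extensionality : ∀ x y, (∀ z, E z x ↔ E z y) → x = y
  foundation : ∀ x, (∃ y, E y x) → ∃ y, E y x ∧ ∀ z, E z y → ¬ E z x
  pairing : ∀ x y, ∃ z, ∀ w, E w z ↔ w = x ∨ w = y
  union : ∀ x, ∃ y, ∀ z, E z y ↔ ∃ w, E w x ∧ E z w
  powerset : ∀ x, ∃ y, ∀ z, E z y ↔ ∀ w, E w z → E w x
  infinity : ∃ x, (∃ y, E y x ∧ ∀ z, ¬ E z y) ∧
    ∀ y, E y x → ∃ z, E z x ∧ ∀ w, E w z ↔ E w y ∨ w = y
  separation : ∀ (φ : SetFormula) (v : ℕ → M) (x : M), ∃ y, ∀ z, E z y ↔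
    E z x ∧ φ.Holds E (push z v)
  replacement : ∀ (φ : SetFormula) (v : ℕ → M) (x : M),
    (∀ y, E y x → ∃! z, φ.Holds E (push z (push y v))) →
      ∃ t, ∀ z, E z t ↔ ∃ y, E y x ∧ φ.Holds E (push z (push y v))
  choice : ∀ x, (∀ y, E y x → ∃ z, E z y) →
    (∀ y z, E y x → E z x → (∃ w, E w y ∧ E w z) → y = z) →
      ∃ c, ∀ y, E y x → ∃! z, E z c ∧ E z y

/-- `p` is the Kuratowski pair `(a, b)`. -/
def IsPair (p a b : M) : Prop :=
  ∀ z, E z p ↔ (∀ w, E w z ↔ w = a) ∨ (∀ w, E w z ↔ w = a ∨ w = b)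

/-- `(a, b) ∈ f`. -/
def HasPair (f a b : M) : Prop := ∃ p, E p f ∧ IsPair E p a b

/-- `f` is an injective function from `x` to `y`. -/
structure IsInj (f x y : M) : Prop where
  pairs : ∀ p, E p f → ∃ a b, E a x ∧ E b y ∧ IsPair E p a b
  total : ∀ a, E a x → ∃ b, HasPair E f a b
  func : ∀ a b b', HasPair E f a b → HasPair E f a b' → b = b'
  inj : ∀ a a' b, HasPair E f a b → HasPair E f a' b → a = a'

/-- There is an injection from `x` to `y`. -/
def CardLe (x y : M) : Prop := ∃ f, IsInj E f x y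

/-- `x` is a transitive set. -/
def IsTrans' (x : M) : Prop := ∀ y, E y x → ∀ z, E z y → E z x

/-- `x` is an ordinal (in a well-founded model: a transitive set of transitive sets). -/
def IsOrd (x : M) : Prop := IsTrans' E x ∧ ∀ y, E y x → IsTrans' E y

/-- `x` is a cardinal (an initial ordinal). -/
def IsCard (x : M) : Prop := IsOrd E x ∧ ∀ y, E y x → ¬ CardLe E x y

/-- `x` is an infinite cardinal (a cardinal which is a nonzero limit ordinal). -/
def IsInfCard (x : M) : Prop := IsCard E x ∧ (∃ y, E y x) ∧ ∀ y, E y x → ∃ z, E z x ∧ E y z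

/-- `y` is the least cardinal above `x`. -/
def IsSuccCard (x y : M) : Prop := IsCard E y ∧ E x y ∧ ∀ z, IsCard E z → E x z → y = z ∨ E y z

/-- `x = ℵₙ`. -/
def IsAleph : ℕ → M → Prop
  | 0, x => IsInfCard E x ∧ ∀ y, E y x → ¬ IsInfCard E y
  | n + 1, x => ∃ y, IsAleph n y ∧ IsSuccCard E y x

/-- The generalized continuum hypothesis: `2^κ = κ⁺` for all infinite cardinals `κ` (the power set
of `κ` injects into `κ⁺`). -/
def GCH : Prop := ∀ κ lam P, IsInfCard E κ → IsSuccCard E κ lam →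
  (∀ z, E z P ↔ ∀ w, E w z → E w κ) → CardLe E P lam

/-- `s` is a subset of `x` with exactly `r` elements. -/
def IsSubsetOfSize (r : ℕ) (x s : M) : Prop :=
  ∃ l : Fin r → M, Function.Injective l ∧ (∀ i, E (l i) x) ∧ ∀ z, E z s ↔ ∃ i, l i = z

/-- `f` is a set mapping `[κ]^r → [κ]^{<2}`: a function assigning to each `r`-element subset of
`κ` a subset of `κ` with at most one element. -/
structure IsSetMapping (r : ℕ) (κ f : M) : Prop where
  pairs : ∀ p, E p f → ∃ s t, IsSubsetOfSize E r κ s ∧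
    ((∀ w, E w t → E w κ) ∧ ∀ w w', E w t → E w' t → w = w') ∧ IsPair E p s t
  total : ∀ s, IsSubsetOfSize E r κ s → ∃ t, HasPair E f s t
  func : ∀ s t t', HasPair E f s t → HasPair E f s t' → t = t'

/-- `X` is free for `f`: if `s` is an `r`-element subset of `X` and `x ∈ X \ s` then
`x ∉ f(s)`. -/
def IsFreeFor (r : ℕ) (f X : M) : Prop :=
  ∀ s t x, IsSubsetOfSize E r X s → HasPair E f s t → E x X → ¬ E x s → ¬ E x t

/-- `X` has cardinality `μ`. -/
def HasCard (X μ : M) : Prop := CardLe E X μ ∧ CardLe E μ X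

/-- The relation `(κ, r, 2) → μ` in the model. -/
def Arrow (κ : M) (r : ℕ) (μ : M) : Prop :=
  ∀ f, IsSetMapping E r κ f → ∃ X, (∀ w, E w X → E w κ) ∧ HasCard E X μ ∧ IsFreeFor E r f X

end

/-- `N` is an inner model of the universe of sets: a transitive class containing all (von Neumann)
ordinals. -/
def IsInnerClass (N : Set ZFSet.{0}) : Prop :=
  (∀ x ∈ N, ∀ y ∈ x, y ∈ N) ∧ ∀ α : Ordinal.{0}, α.toZFSet ∈ N

/-- The membership relation of the class `N`. -/
def MemOn (N : Set ZFSet.{0}) (x y : N) : Prop := x.1 ∈ y.1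

end Pool.Agent.Lib.MP_7295f2_lc
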