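import Pool.Agent.Lib.MP_7295f2_lc.LBase
import Pool.Agent.Lib.MP_7295f2_lc.Stmt

section

/-!
# Entries of tuples; global definability
-/

open Ordinal Set

set_option linter.unusedVariables false

namespace Pool.Agent.Lib.MP_7295f2_lc.LA

variable {A : Ord → Ord → Ord → Prop} {𝒰 : LC} {P Q : Set Ord → Env → Prop}
  {f g h : Set Ord → Env → Ord}

/-- The `i`-th parameter of `x`. -/
noncomputable def ent (x i : Ord) : Ord :=
  if i < ω then (par x).getD (sInf {m : ℕ | i = m}) 0 else 0

theorem ent_nat (x : Ord) (m : ℕ) : ent x m = (par x).getD m 0 := by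
  unfold ent
  rw [if_pos (Ordinal.natCast_lt_omega0 m)]
  have : {k : ℕ | (m : Ord) = k} = {m} := by
    ext k
    simp only [Set.mem_ofPred_eq, Nat.cast_inj, Set.mem_singleton_iff]
    exact eq_comm
  rw [this, csInf_singleton]

theorem ent_of_getElem? {x a : Ord} {m : ℕ} (h : (par x)[m]? = some a) : ent x m = a := by
  rw [ent_nat, List.getD_eq_getElem?_getD, h]
  rfl

theorem ent_le (x i : Ord) : ent x i ≤ x := by
  by_cases hi : i < ω
  · obtain ⟨m, rfl⟩ := Ordinal.lt_omega0.mp hi
    rw [ent_nat, List.getD_eq_getElem?_getD]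
    cases h : (par x)[m]? with
    | none => simp
    | some a => simpa using (par_lt_self (List.mem_of_getElem? h)).le
  · unfold ent
    rw [if_neg hi]
    exact zero_le

theorem mem_par_iff {x a : Ord} : a ∈ par x ↔ ∃ i < ((par x).length : Ord), a = ent x i := by
  constructor
  · intro h
    obtain ⟨m, hm, rfl⟩ := List.getElem_of_mem h
    refine ⟨m, by exact_mod_cast hm, ?_⟩
    rw [ent_of_getElem? (List.getElem?_eq_getElem hm)]
  · rintro ⟨i, hi, rfl⟩
    obtain ⟨m, rfl⟩ := Ordinal.lt_omega0.mp (hi.trans (Ordinal.natCast_lt_omega0 _))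
    have hm : m < (par x).length := by exact_mod_cast hi
    rw [ent_of_getElem? (List.getElem?_eq_getElem hm)]
    exact List.getElem_mem hm

theorem dfn_getElem : Dfn A 𝒰 fun U e => ∃ m : ℕ, e 0 = m ∧ (par (e 1))[m]? = some (e 2) :=
  ⟨.par 2 0 1, fun U hU e he => Iff.rfl⟩

@[is_poly] theorem DfnF.ent (hf : DfnF A 𝒰 f) (hg : DfnF A 𝒰 g) :
    DfnF A 𝒰 fun U e => ent (f U e) (g U e) := by
  refine DfnF.comp2 (R := fun _ x i => LA.ent x i) ⟨fun U hU e he =>
    (𝒰.h U hU).low _ (he 0) _ (ent_le _ _), ?_⟩ hf hg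
  have hR : ∀ {f₁ f₂ f₃ : Set Ord → Env → Ord}, DfnF A 𝒰 f₁ → DfnF A 𝒰 f₂ → DfnF A 𝒰 f₃ →
      Dfn A 𝒰 fun U e => ∃ m : ℕ, f₁ U e = m ∧ (LA.par (f₂ U e))[m]? = some (f₃ U e) :=
    fun h1 h2 h3 => Dfn.comp3 (R := fun _ x y z => ∃ m : ℕ, x = m ∧ (LA.par y)[m]? = some z)
      dfn_getElem h1 h2 h3
  have h1 := (hR (DfnF.var 2) (DfnF.var 1) (DfnF.var 0)).or
    (((Dfn.ex (P := fun U e z => ∃ m : ℕ, e 2 = m ∧ (LA.par (e 1))[m]? = some z)
      (hR (DfnF.var 3) (DfnF.var 2) (DfnF.var 0))).not).and (Dfn.eq (DfnF.var 0) DfnF.zero))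
  refine h1.congr fun U hU e he => ?_
  constructor
  · rintro (⟨m, h2, h3⟩ | ⟨h2, h3⟩)
    · simp only [zero_add]
      rw [h2, ent_of_getElem? h3]
    · rw [h3]
      by_cases hi : e 2 < ω
      · obtain ⟨m, hm⟩ := Ordinal.lt_omega0.mp hi
        simp only [zero_add]
        show (0 : Ord) = LA.ent (e 1) (e 2)
        rw [hm, ent_nat, List.getD_eq_getElem?_getD]
        cases h4 : (LA.par (e 1))[m]? with
        | none => rfl
        | some a =>
          exfalso
          exact h2 ⟨a, (𝒰.h U hU).low _ (he 1) _ (par_lt_self (List.mem_of_getElem? h4)).le,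
            m, hm, h4⟩
      · show (0 : Ord) = LA.ent (e 1) (e 2)
        unfold LA.ent
        rw [if_neg hi]
  · intro h2
    have h2' : e 0 = LA.ent (e 1) (e 2) := h2
    by_cases hi : ∃ z ∈ U, ∃ m : ℕ, e 2 = m ∧ (LA.par (e 1))[m]? = some z
    · left
      obtain ⟨z, hz, m, h3, h4⟩ := hi
      refine ⟨m, h3, ?_⟩
      rw [h2', h3, ent_of_getElem? h4]
      exact h4
    · right
      refine ⟨hi, ?_⟩
      rw [h2']
      unfold LA.ent
      split_ifs with h3
      · obtain ⟨m, hm⟩ := Ordinal.lt_omega0.mp h3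
        have := ent_nat (e 1) m
        unfold LA.ent at this
        rw [if_pos (Ordinal.natCast_lt_omega0 m)] at this
        rw [hm, this, List.getD_eq_getElem?_getD]
        cases h4 : (LA.par (e 1))[m]? with
        | none => rfl
        | some a =>
          exfalso
          exact hi ⟨a, (𝒰.h U hU).low _ (he 1) _ (par_lt_self (List.mem_of_getElem? h4)).le,
            m, hm, h4⟩
      · rfl

@[is_poly] theorem Dfn.mem_par (hf : DfnF A 𝒰 f) (hg : DfnF A 𝒰 g) :
    Dfn A 𝒰 fun U e => f U e ∈ par (g U e) := by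
  refine Dfn.comp2 (R := fun _ x y => x ∈ LA.par y) ?_ hf hg
  have : Dfn A 𝒰 fun U e => ∃ i < ((par (e 1)).length : Ord), e 0 = LA.ent (e 1) i := by
    apply_rules using is_poly
  exact this.congr fun U hU e he => mem_par_iff.symm

@[is_poly] theorem Dfn.ex_par {P : Set Ord → Env → Ord → Prop} (hf : DfnF A 𝒰 f)
    (hP : Dfn A 𝒰 fun U e => P U (fun i => e (i + 1)) (e 0)) :
    Dfn A 𝒰 fun U e => ∃ y ∈ par (f U e), P U e y := by
  refine (Dfn.ex (P := fun U e y => y ∈ par (f U e) ∧ P U e y)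
    ((Dfn.mem_par (DfnF.var 0) hf.shift).and hP)).congr ?_
  intro U hU e he
  constructor
  · rintro ⟨y, _, h1, h2⟩
    exact ⟨y, h1, h2⟩
  · rintro ⟨y, h1, h2⟩
    exact ⟨y, (𝒰.h U hU).low _ (hf.maps U hU e he) _ (par_lt_self h1).le, h1, h2⟩

@[is_poly] theorem Dfn.all_par {P : Set Ord → Env → Ord → Prop} (hf : DfnF A 𝒰 f)
    (hP : Dfn A 𝒰 fun U e => P U (fun i => e (i + 1)) (e 0)) :
    Dfn A 𝒰 fun U e => ∀ y ∈ par (f U e), P U e y :=
  (Dfn.ex_par (P := fun U e y => ¬ P U e y) hf hP.not).not.congr fun U hU e he => by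
    push Not
    rfl

@[is_poly] theorem Dfn.ex_D {P : Set Ord → Env → Ord → Prop} (hf : DfnF A 𝒰 f)
    (hP : Dfn A 𝒰 fun U e => P U (fun i => e (i + 1)) (e 0)) :
    Dfn A 𝒰 fun U e => ∃ y ∈ D A (f U e), P U e y := by
  refine (Dfn.ex (P := fun U e y => y ∈ D A (f U e) ∧ P U e y)
    ((Dfn.mem (DfnF.var 0) hf.shift).and hP)).congr ?_
  intro U hU e he
  constructor
  · rintro ⟨y, _, h1, h2⟩
    exact ⟨y, h1, h2⟩
  · rintro ⟨y, h1, h2⟩
    exact ⟨y, (𝒰.h U hU).low _ (hf.maps U hU e he) _ (D_lt_self h1).le, h1, h2⟩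

@[is_poly] theorem Dfn.all_D {P : Set Ord → Env → Ord → Prop} (hf : DfnF A 𝒰 f)
    (hP : Dfn A 𝒰 fun U e => P U (fun i => e (i + 1)) (e 0)) :
    Dfn A 𝒰 fun U e => ∀ y ∈ D A (f U e), P U e y :=
  (Dfn.ex_D (P := fun U e y => ¬ P U e y) hf hP.not).not.congr fun U hU e he => by
    push Not
    rfl

@[is_poly] theorem DfnF.hf (h1f : DfnF A 𝒰 f) : DfnF A 𝒰 fun U e => LA.hf A (f U e) := by
  refine DfnF.comp1 (R := fun _ x => LA.hf A x) ⟨fun U hU e he =>
    (𝒰.h U hU).low _ (he 0) _ (hf_le_self _), ?_⟩ h1f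
  have : Dfn A 𝒰 fun U e => (e 0 ∈ D A (e 1) ∧ ∀ y < e 0, ¬ y ∈ D A (e 1)) ∨
      ((∀ y < e 1, ¬ y ∈ D A (e 1)) ∧ e 0 = 0) := by
    apply_rules using is_poly
  refine this.congr fun U hU e he => ?_
  constructor
  · rintro (⟨h1, h2⟩ | ⟨h1, h2⟩)
    · apply le_antisymm _ (hf_le h1)
      by_contra hcon
      exact h2 _ (not_le.mp hcon) (hf_mem ⟨_, h1⟩)
    · rw [h2]
      symm
      apply hf_eq_zero
      rintro ⟨y, hy⟩
      exact h1 y (D_lt_self hy) hy
  · intro h1
    have h1' : e 0 = LA.hf A (e 1) := h1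
    by_cases hne : (D A (e 1)).Nonempty
    · left
      rw [h1']
      exact ⟨hf_mem hne, fun y hy hyD => absurd (hf_le hyD) (not_le.mpr hy)⟩
    · right
      rw [h1', hf_eq_zero hne]
      exact ⟨fun y _ hy => hne ⟨y, hy⟩, rfl⟩

/-- The class consisting of the universe of all ordinals. -/
def GG : LC := ⟨{Set.univ}, by
  intro U hU
  rw [Set.mem_singleton_iff] at hU
  subst hU
  exact ⟨fun _ _ _ _ => Set.mem_univ _, fun _ => Set.mem_univ _⟩⟩

theorem mem_GG {U : Set Ord} : U ∈ GG.S ↔ U = Set.univ := Iff.rfl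

@[is_poly] theorem Dfn.exG {P : Set Ord → Env → Ord → Prop}
    (hP : Dfn A GG fun U e => P U (fun i => e (i + 1)) (e 0)) :
    Dfn A GG fun U e => ∃ y, P U e y := by
  refine (Dfn.ex (P := P) hP).congr fun U hU e he => ?_
  rw [mem_GG.mp hU]
  simp

@[is_poly] theorem Dfn.allG {P : Set Ord → Env → Ord → Prop}
    (hP : Dfn A GG fun U e => P U (fun i => e (i + 1)) (e 0)) :
    Dfn A GG fun U e => ∀ y, P U e y := by
  refine (Dfn.all (P := P) hP).congr fun U hU e he => ?_
  rw [mem_GG.mp hU]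
  simp

theorem DfnF.ofG (h : Dfn A GG fun U e => e 0 = f U fun i => e (i + 1)) : DfnF A GG f :=
  ⟨fun U hU e he => by rw [mem_GG.mp hU]; exact Set.mem_univ _, h⟩

@[is_poly] theorem DfnF.sInf {P : Set Ord → Env → Ord → Prop}
    (hP : Dfn A GG fun U e => P U (fun i => e (i + 1)) (e 0)) :
    DfnF A GG fun U e => sInf {x | P U e x} := by
  apply DfnF.ofG
  have h0 : Dfn A GG fun U e => P U (fun i => e (i + 2)) (e 0) := hP.ren fun | 0 => 0 | i + 1 => i + 2
  have h1 : Dfn A GG fun U e => (P U (fun i => e (i + 1)) (e 0) ∧ ∀ y < e 0, ¬ P U (fun i => e (i + 1)) y)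
      ∨ ((∀ y, ¬ P U (fun i => e (i + 1)) y) ∧ e 0 = 0) :=
    (hP.and (Dfn.alllt (DfnF.var 0) h0.not)).or ((Dfn.allG h0.not).and (Dfn.eq (DfnF.var 0) DfnF.zero))
  refine h1.congr fun U hU e he => ?_
  set S := {x | P U (fun i => e (i + 1)) x} with hS
  constructor
  · rintro (⟨h1, h2⟩ | ⟨h1, h2⟩)
    · apply le_antisymm
      · by_contra hcon
        exact h2 _ (not_le.mp hcon) (csInf_mem (s := S) ⟨_, h1⟩)
      · exact csInf_le' (s := S) h1
    · rw [h2]
      have : S = ∅ := by
        rw [Set.eq_empty_iff_forall_notMem]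
        exact h1
      rw [this, Ordinal.sInf_empty]
  · intro h1
    by_cases hne : S.Nonempty
    · left
      rw [h1]
      exact ⟨csInf_mem hne, fun y hy hyD => absurd (csInf_le' (s := S) hyD) (not_le.mpr hy)⟩
    · right
      rw [Set.not_nonempty_iff_eq_empty] at hne
      rw [h1]
      refine ⟨fun y hy => ?_, ?_⟩
      · have : y ∈ S := hy
        rw [hne] at this
        exact this
      · rw [hne, Ordinal.sInf_empty]

@[is_poly] theorem DfnF.sSup {P : Set Ord → Env → Ord → Prop}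
    (hP : Dfn A GG fun U e => P U (fun i => e (i + 1)) (e 0)) :
    DfnF A GG fun U e => sSup {x | P U e x} := by
  have h0 : Dfn A GG fun U e => P U (fun i => e (i + 2)) (e 0) := hP.ren fun | 0 => 0 | i + 1 => i + 2
  have h1 : DfnF A GG fun U e => InfSet.sInf {b | ∀ x, P U e x → x ≤ b} := by
    apply DfnF.sInf
    exact Dfn.allG (h0.imp (Dfn.le (DfnF.var 0) (DfnF.var 1)))
  refine h1.congr fun U hU e he => ?_
  rfl

open Classical in
@[is_poly] theorem DfnF.ite (hP : Dfn A GG P) (hf : DfnF A GG f) (hg : DfnF A GG g) :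
    DfnF A GG fun U e => if P U e then f U e else g U e := by
  apply DfnF.ofG
  have hP' : Dfn A GG fun U e => P U fun i => e (i + 1) := hP.ren fun i => i + 1
  refine ((hP'.and (Dfn.eq (DfnF.var 0) hf.shift)).or
    (hP'.not.and (Dfn.eq (DfnF.var 0) hg.shift))).congr fun U hU e he => ?_
  by_cases h : P U fun i => e (i + 1)
  · rw [if_pos h]
    tauto
  · rw [if_neg h]
    tauto

@[is_poly] theorem DfnF.max (hf : DfnF A 𝒰 f) (hg : DfnF A 𝒰 g) :
    DfnF A 𝒰 fun U e => max (f U e) (g U e) := by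
  refine DfnF.comp2 (R := fun _ x y => Max.max x y) ⟨fun U hU e he => ?_, ?_⟩ hf hg
  · rcases max_choice (e 0) (e 1) with h | h <;> rw [h] <;> exact he _
  · have : Dfn A 𝒰 fun U e => (e 1 ≤ e 2 ∧ e 0 = e 2) ∨ (e 2 ≤ e 1 ∧ e 0 = e 1) := by
      apply_rules using is_poly
    refine this.congr fun U hU e he => ?_
    show _ ↔ e 0 = Max.max (e 1) (e 2)
    rcases le_total (e 1) (e 2) with h | h
    · rw [max_eq_right h]
      constructor
      · rintro (h1 | h1)
        · exact h1.2
        · rw [h1.2]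
          exact le_antisymm h h1.1
      · intro h1
        exact Or.inl ⟨h, h1⟩
    · rw [max_eq_left h]
      constructor
      · rintro (h1 | h1)
        · rw [h1.2]
          exact le_antisymm h h1.1
        · exact h1.2
      · intro h1
        exact Or.inr ⟨h, h1⟩

@[is_poly] theorem DfnF.succ (hf : DfnF A GG f) : DfnF A GG fun U e => f U e + 1 := by
  apply DfnF.ofG
  have hf' := hf.shift
  have : Dfn A GG fun U e => (f U fun i => e (i + 1)) < e 0 ∧ ∀ y < e 0, y ≤ f U fun i => e (i + 1) := by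
    refine (Dfn.lt hf' (DfnF.var 0)).and (Dfn.alllt (DfnF.var 0) (Dfn.le (DfnF.var 0) ?_))
    exact hf'.shift
  refine this.congr fun U hU e he => ?_
  rw [← Order.add_one_le_iff]
  constructor
  · rintro ⟨h1, h2⟩
    apply le_antisymm _ h1
    by_contra hcon
    exact absurd (h2 _ (not_le.mp hcon)) (not_le.mpr (Order.lt_add_one_iff.mpr le_rfl))
  · intro h
    refine ⟨h.ge, fun y hy => ?_⟩
    rw [h] at hy
    exact Order.lt_add_one_iff.mp hy

/-- Pairs. -/
noncomputable def pr (a b : Ord) : Ord := mk (max a b + 1) 0 [a, b]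

theorem valid_pr (a b : Ord) : ∀ c ∈ [a, b], c < max a b + 1 := by
  intro c hc
  rw [Order.lt_add_one_iff]
  simp only [List.mem_cons, List.not_mem_nil, or_false] at hc
  rcases hc with rfl | rfl
  · exact le_max_left _ _
  · exact le_max_right _ _

theorem lev_pr (a b : Ord) : lev (pr a b) = max a b + 1 := lev_mk (valid_pr a b)
theorem num_pr (a b : Ord) : num (pr a b) = 0 := num_mk (valid_pr a b)
theorem par_pr (a b : Ord) : par (pr a b) = [a, b] := par_mk (valid_pr a b)

@[simp] theorem ent_pr_zero (a b : Ord) : ent (pr a b) 0 = a := by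
  have := ent_nat (pr a b) 0
  rw [par_pr] at this
  simpa using this

@[simp] theorem ent_pr_one (a b : Ord) : ent (pr a b) 1 = b := by
  have := ent_nat (pr a b) 1
  rw [par_pr] at this
  simpa using this

theorem left_lt_pr (a b : Ord) : a < pr a b := par_lt_self (x := pr a b) (by rw [par_pr]; simp)
theorem right_lt_pr (a b : Ord) : b < pr a b := par_lt_self (x := pr a b) (by rw [par_pr]; simp)

theorem pr_inj {a b c d : Ord} : pr a b = pr c d ↔ a = c ∧ b = d := by
  constructor
  · intro h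
    have h1 := congrArg (fun x => ent x 0) h
    have h2 := congrArg (fun x => ent x 1) h
    simp only [ent_pr_zero, ent_pr_one] at h1 h2
    exact ⟨h1, h2⟩
  · rintro ⟨rfl, rfl⟩
    rfl

theorem pr_lt_pr {a b c d : Ord} (h1 : max a b < max c d) : pr a b < pr c d := by
  apply mk_lt_of_lev (valid_pr a b)
  rw [Order.lt_add_one_iff]
  exact Order.add_one_le_of_lt h1

theorem eq_pr_iff {y a b : Ord} : y = pr a b ↔ (lev y = max a b + 1 ∧ (num y : Ord) = 0 ∧
    ((par y).length : Ord) = 2 ∧ ent y 0 = a ∧ ent y 1 = b) := by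
  constructor
  · rintro rfl
    rw [lev_pr, num_pr, par_pr, ent_pr_zero, ent_pr_one]
    simp
  · rintro ⟨h1, h2, h3, h4, h5⟩
    have h3' : (par y).length = 2 := by exact_mod_cast h3
    have h2' : num y = 0 := by exact_mod_cast h2
    obtain ⟨c, d, hcd⟩ := List.length_eq_two.mp h3'
    have e0 := ent_nat y 0
    have e1 := ent_nat y 1
    rw [hcd] at e0 e1
    simp only [Nat.cast_zero, Nat.cast_one, List.getD_cons_zero, List.getD_cons_succ] at e0 e1
    rw [h4] at e0
    rw [h5] at e1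
    rw [← mk_eta y, h1, h2', hcd, e0, e1]
    rfl

@[is_poly] theorem DfnF.pr (hf : DfnF A GG f) (hg : DfnF A GG g) :
    DfnF A GG fun U e => pr (f U e) (g U e) := by
  refine DfnF.comp2 (R := fun _ x y => LA.pr x y) (DfnF.ofG ?_) hf hg
  have : Dfn A GG fun U e => LA.lev (e 0) = Max.max (e 1) (e 2) + 1 ∧ (LA.num (e 0) : Ord) = 0 ∧
      ((LA.par (e 0)).length : Ord) = 2 ∧ LA.ent (e 0) 0 = e 1 ∧ LA.ent (e 0) 1 = e 2 := by
    apply_rules using is_poly
  exact this.congr fun U hU e he => eq_pr_iff.symm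

end Pool.Agent.Lib.MP_7295f2_lc.LA

end

section

/-!
# Reflection, internal sets, and recursion
-/

open Ordinal Set

set_option linter.unusedVariables false

namespace Pool.Agent.Lib.MP_7295f2_lc.LA

variable {A : Ord → Ord → Ord → Prop} {P Q : Set Ord → Env → Prop}
  {f g h : Set Ord → Env → Ord}

/-- Truncation of an environment. -/
def trunc (N : ℕ) (e : Env) : List Ord := (List.range N).map e

theorem lenv_trunc {N i : ℕ} (hi : i < N) (e : Env) : lenv (trunc N e) i = e i := by
  unfold lenv trunc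
  rw [List.getD_eq_getElem?_getD, List.getElem?_map, List.getElem?_range hi]
  rfl

theorem sat_trunc {DD : Ord → Set Ord} {U : Set Ord} (φ : Fm) (e : Env) :
    Sat A DD U φ (lenv (trunc (bd φ) e)) ↔ Sat A DD U φ e :=
  sat_congr φ fun i hi => lenv_trunc hi e

theorem exists_reflect_fun (A : Ord → Ord → Ord → Prop) (φ : Fm) : ∃ g : Ord → Ord, ∀ γ, 0 < γ →
    (∀ β < γ, g β < γ) → ∀ e : Env, (∀ i, e i < γ) →
      (Sat A (D A) (Iio γ) φ e ↔ Sat A (D A) Set.univ φ e) := by
  induction φ with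
  | neg φ ih =>
    obtain ⟨g, hg⟩ := ih
    exact ⟨g, fun γ h0 hγ e he => not_congr (hg γ h0 hγ e he)⟩
  | and φ ψ ih1 ih2 =>
    obtain ⟨g1, hg1⟩ := ih1
    obtain ⟨g2, hg2⟩ := ih2
    refine ⟨fun β => max (g1 β) (g2 β), fun γ h0 hγ e he => and_congr ?_ ?_⟩
    · exact hg1 γ h0 (fun β hβ => (le_max_left _ _).trans_lt (hγ β hβ)) e he
    · exact hg2 γ h0 (fun β hβ => (le_max_right _ _).trans_lt (hγ β hβ)) e he
  | ex φ ih =>
    obtain ⟨g, hg⟩ := ih
    set W : List Ord → Ord := fun l => sInf {y | Sat A (D A) Set.univ φ (cons y (lenv l))} with hW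
    refine ⟨fun β => max (g β) (⨆ l : List (Iic β), W (l.map Subtype.val)), fun γ h0 hγ e he => ?_⟩
    have hg' := hg γ h0 fun β hβ => (le_max_left _ _).trans_lt (hγ β hβ)
    simp only [Sat]
    constructor
    · rintro ⟨y, hy, hsat⟩
      exact ⟨y, Set.mem_univ _, (hg' _ (by
        intro i
        cases i with
        | zero => exact hy
        | succ i => exact he i)).mp hsat⟩
    · rintro ⟨y, _, hsat⟩
      have hsame : ∀ y, Sat A (D A) Set.univ φ (cons y (lenv (trunc (bd φ) e))) ↔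
          Sat A (D A) Set.univ φ (cons y e) := by
        intro y
        apply sat_congr
        intro i hi
        cases i with
        | zero => rfl
        | succ i => exact lenv_trunc (by omega) e
      have hmem : W (trunc (bd φ) e) ∈ {y | Sat A (D A) Set.univ φ (cons y (lenv (trunc (bd φ) e)))} :=
        csInf_mem ⟨y, (hsame y).mpr hsat⟩
      obtain ⟨β, hβ, hβe⟩ : ∃ β < γ, ∀ a ∈ trunc (bd φ) e, a ≤ β := by
        unfold trunc
        have : ∀ l : List ℕ, ∃ β < γ, ∀ a ∈ l.map e, a ≤ β := by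
          intro l
          induction l with
          | nil => exact ⟨0, h0, by simp⟩
          | cons i l ih =>
            obtain ⟨β, h1, h2⟩ := ih
            refine ⟨max β (e i), max_lt h1 (he i), fun a ha => ?_⟩
            rw [List.map_cons] at ha
            rcases List.mem_cons.mp ha with rfl | ha
            · exact le_max_right _ _
            · exact (h2 a ha).trans (le_max_left _ _)
        exact this _
      have hWγ : W (trunc (bd φ) e) < γ := by
        refine lt_of_le_of_lt ?_ (hγ β hβ)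
        refine le_trans ?_ (le_max_right _ _)
        have := Ordinal.le_iSup (fun l : List (Iic β) => W (l.map Subtype.val))
          ((trunc (bd φ) e).attach.map fun a => ⟨a.1, hβe a.1 a.2⟩)
        simpa [List.map_map, Function.comp_def] using this
      refine ⟨_, hWγ, (hg' _ (by
        intro i
        cases i with
        | zero => exact hWγ
        | succ i => exact he i)).mpr ((hsame _).mp hmem)⟩
  | _ => exact ⟨fun _ => 0, fun γ h0 hγ e he => Iff.rfl⟩

theorem exists_closed (g : Ord → Ord) (β : Ord) : ∃ γ, β < γ ∧ ω ≤ γ ∧ ∀ x < γ, g x < γ := by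
  set F : Ord → Ord := fun x => max (Order.succ x) (⨆ y : Iic x, Order.succ (g y.1)) with hF
  set s : ℕ → Ord := fun n => F^[n] (max (Order.succ β) ω) with hs
  have hs' : ∀ n, s (n + 1) = F (s n) := fun n => Function.iterate_succ_apply' F n _
  have hlt : ∀ n, s n < s (n + 1) := fun n => by
    rw [hs']
    exact (Order.lt_succ _).trans_le (le_max_left _ _)
  refine ⟨⨆ n, s n, ?_, ?_, ?_⟩
  · exact (Order.lt_succ β).trans_le ((le_max_left _ _).trans (Ordinal.le_iSup s 0))
  · exact (le_max_right _ _).trans (Ordinal.le_iSup s 0)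
  · intro x hx
    obtain ⟨n, hn⟩ := Ordinal.lt_iSup_iff.mp hx
    have h1 : g x < s (n + 1) := by
      rw [hs']
      refine lt_of_lt_of_le (Order.lt_succ _) (le_trans ?_ (le_max_right _ _))
      exact Ordinal.le_iSup (fun y : Iic (s n) => Order.succ (g y.1)) ⟨x, hn.le⟩
    exact h1.trans_le (Ordinal.le_iSup s _)

/-- `γ` reflects `φ`. -/
def Reflects (A : Ord → Ord → Ord → Prop) (γ : Ord) (φ : Fm) : Prop :=
  ∀ e : Env, (∀ i, e i < γ) → (Sat A (D A) (Iio γ) φ e ↔ Sat A (D A) Set.univ φ e)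

theorem exists_reflects (A : Ord → Ord → Ord → Prop) (l : List Fm) (β : Ord) :
    ∃ γ, β < γ ∧ ω ≤ γ ∧ ∀ φ ∈ l, Reflects A γ φ := by
  have : ∃ g : Ord → Ord, ∀ γ, 0 < γ → (∀ β < γ, g β < γ) → ∀ φ ∈ l, Reflects A γ φ := by
    induction l with
    | nil => exact ⟨fun _ => 0, by simp⟩
    | cons φ l ih =>
      obtain ⟨g1, h1⟩ := ih
      obtain ⟨g2, h2⟩ := exists_reflect_fun A φ
      refine ⟨fun β => max (g1 β) (g2 β), fun γ h0 hγ ψ hψ => ?_⟩
      rcases List.mem_cons.mp hψ with rfl | hψ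
      · exact h2 γ h0 fun β hβ => (le_max_right _ _).trans_lt (hγ β hβ)
      · exact h1 γ h0 (fun β hβ => (le_max_left _ _).trans_lt (hγ β hβ)) ψ hψ
  obtain ⟨g, hg⟩ := this
  obtain ⟨γ, h1, h2, h3⟩ := exists_closed g β
  exact ⟨γ, h1, h2, hg γ (Ordinal.omega0_pos.trans_le h2) h3⟩

/-- Internal sets of ordinals. -/
def Int (A : Ord → Ord → Ord → Prop) (S : Set Ord) : Prop := ∃ x, D A x = S

/-- Bounded definable sets are internal. -/
theorem int_of_dfn (hP : Dfn A GG P) (e : Env) (β : Ord) :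
    Int A {w | w < β ∧ P Set.univ (cons w e)} := by
  obtain ⟨φ, hφ⟩ := hP
  set N := bd φ with hN
  set ψ : Fm := .and (.lt 0 1) (ren (fun | 0 => 0 | i + 1 => i + 2) φ) with hψ
  obtain ⟨b, hb⟩ : ∃ b, ∀ a ∈ β :: trunc N e, a ≤ b := by
    have : ∀ l : List Ord, ∃ b, ∀ a ∈ l, a ≤ b := by
      intro l
      induction l with
      | nil => exact ⟨0, by simp⟩
      | cons c l ih =>
        obtain ⟨b, hb⟩ := ih
        refine ⟨max b c, fun a ha => ?_⟩
        rcases List.mem_cons.mp ha with rfl | ha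
        · exact le_max_right _ _
        · exact (hb a ha).trans (le_max_left _ _)
    exact this _
  obtain ⟨γ, h1, h2, h3⟩ := exists_reflects A [ψ] b
  have hv : ∀ a ∈ β :: trunc N e, a < γ := fun a ha => (hb a ha).trans_lt h1
  have h0 : 0 < γ := Ordinal.omega0_pos.trans_le h2
  refine ⟨mk γ (enc ψ) (β :: trunc N e), ?_⟩
  ext w
  rw [mem_D_mk hv]
  have key : ∀ w, w < γ → (Sat A (D A) (Iio γ) ψ (cons w (lenv (β :: trunc N e))) ↔
      w < β ∧ P Set.univ (cons w e)) := by
    intro w hw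
    rw [h3 ψ (by simp) _ (by
      intro i
      cases i with
      | zero => exact hw
      | succ i => exact lenv_lt h0 hv i)]
    rw [hψ]
    simp only [Sat]
    rw [sat_ren]
    refine and_congr Iff.rfl ?_
    rw [← hφ Set.univ (mem_GG.mpr rfl) _ fun i => Set.mem_univ _]
    apply sat_congr
    intro i hi
    cases i with
    | zero => rfl
    | succ i =>
      show lenv (β :: trunc N e) (i + 1) = e i
      have : lenv (β :: trunc N e) (i + 1) = lenv (trunc N e) i := by
        unfold lenv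
        rw [List.getD_cons_succ]
      rw [this]
      exact lenv_trunc (by omega) e
  constructor
  · rintro ⟨h4, h5⟩
    exact (key w h4).mp h5
  · intro h4
    have hwγ : w < γ := h4.1.trans (hv β List.mem_cons_self)
    exact ⟨hwγ, (key w hwγ).mpr h4⟩

theorem int_of_dfn' (hP : Dfn A GG P) (e : Env) {β : Ord} (hβ : ∀ w, P Set.univ (cons w e) → w < β) :
    Int A {w | P Set.univ (cons w e)} := by
  have := int_of_dfn hP e β
  convert this using 2
  ext w
  exact ⟨fun h => ⟨hβ w h, h⟩, fun h => h.2⟩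

/-- The least name of an internal set. -/
noncomputable def nm (A : Ord → Ord → Ord → Prop) (S : Set Ord) : Ord := sInf {x | D A x = S}

theorem D_nm {S : Set Ord} (h : Int A S) : D A (nm A S) = S := csInf_mem (s := {x | D A x = S}) h

theorem nm_le {x : Ord} {S : Set Ord} (h : D A x = S) : nm A S ≤ x := csInf_le' (s := {x | D A x = S}) h

@[is_poly] theorem DfnF.nm {P : Set Ord → Env → Ord → Prop}
    (hP : Dfn A GG fun U e => P U (fun i => e (i + 1)) (e 0)) :
    DfnF A GG fun U e => nm A {x | P U e x} := by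
  have h1 : DfnF A GG fun U e => InfSet.sInf {x | ∀ w, w ∈ D A x ↔ P U e w} := by
    apply DfnF.sInf
    have h0 : Dfn A GG fun U e => P U (fun i => e (i + 2)) (e 0) :=
      hP.ren fun | 0 => 0 | i + 1 => i + 2
    exact Dfn.allG ((Dfn.mem (DfnF.var 0) (DfnF.var 1)).iff h0)
  refine h1.congr fun U hU e he => ?_
  unfold LA.nm
  congr 1
  ext x
  simp only [Set.mem_ofPred_eq, Set.ext_iff]

/-- Recursion on ordinals, for functions of names. -/
noncomputable def recF (A : Ord → Ord → Ord → Prop) (G : Ord → Ord → Ord) (α : Ord) : Ord :=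
  G α (nm A {u | ∃ β, ∃ _ : β < α, u = pr β (recF A G β)})
termination_by α

/-- The graph of `recF` below `α`. -/
def graphF (A : Ord → Ord → Ord → Prop) (G : Ord → Ord → Ord) (α : Ord) : Set Ord :=
  {u | ∃ β < α, u = pr β (recF A G β)}

theorem recF_eq (A : Ord → Ord → Ord → Prop) (G : Ord → Ord → Ord) (α : Ord) : recF A G α = G α (nm A (graphF A G α)) := by
  rw [recF]
  congr 2
  ext u
  simp [graphF]

section rec

variable {G : Env → Ord → Ord → Ord}

/-- `x` codes the recursion up to `α`. -/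
def App (A : Ord → Ord → Ord → Prop) (G : Env → Ord → Ord → Ord) (p : Env) (α x : Ord) : Prop :=
  (∀ u ∈ D A x, ∃ β < α, u = pr β (ent u 1)) ∧
  ∀ β < α, pr β (G p β (nm A {u | u ∈ D A x ∧ ent u 0 < β})) ∈ D A x ∧
    ∀ u ∈ D A x, ent u 0 = β → u = pr β (G p β (nm A {u | u ∈ D A x ∧ ent u 0 < β}))

theorem app_iff {p : Env} {α x : Ord} : App A G p α x ↔ D A x = graphF A (G p) α := by
  constructor
  · rintro ⟨h1, h2⟩
    have key : ∀ β < α, {u | u ∈ D A x ∧ ent u 0 < β} = graphF A (G p) β := by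
      intro β
      induction β using WellFoundedLT.induction with
      | ind β ih =>
        intro hβ
        ext u
        constructor
        · rintro ⟨hu, huβ⟩
          obtain ⟨_, h3⟩ := h2 (ent u 0) (huβ.trans hβ)
          have h4 := h3 u hu rfl
          rw [ih _ huβ (huβ.trans hβ), ← recF_eq A (G p)] at h4
          exact ⟨ent u 0, huβ, h4⟩
        · rintro ⟨β', hβ', rfl⟩
          obtain ⟨h3, _⟩ := h2 β' (hβ'.trans hβ)
          rw [ih _ hβ' (hβ'.trans hβ), ← recF_eq A (G p)] at h3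
          exact ⟨h3, by rw [ent_pr_zero]; exact hβ'⟩
    ext u
    constructor
    · intro hu
      obtain ⟨β, hβ, h3⟩ := h1 u hu
      have h4 : ent u 0 = β := by
        rw [h3, ent_pr_zero]
      have h5 := (h2 β hβ).2 u hu h4
      rw [key β hβ, ← recF_eq A (G p)] at h5
      exact ⟨β, hβ, h5⟩
    · rintro ⟨β, hβ, rfl⟩
      have h3 := (h2 β hβ).1
      rwa [key β hβ, ← recF_eq A (G p)] at h3
  · intro h
    have key : ∀ β < α, {u | u ∈ D A x ∧ ent u 0 < β} = graphF A (G p) β := by
      intro β hβ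
      rw [h]
      ext u
      constructor
      · rintro ⟨⟨β', hβ', rfl⟩, h4⟩
        rw [ent_pr_zero] at h4
        exact ⟨β', h4, rfl⟩
      · rintro ⟨β', hβ', rfl⟩
        exact ⟨⟨β', hβ'.trans hβ, rfl⟩, by rw [ent_pr_zero]; exact hβ'⟩
    refine ⟨?_, ?_⟩
    · rw [h]
      rintro u ⟨β, hβ, rfl⟩
      exact ⟨β, hβ, by rw [ent_pr_one]⟩
    · intro β hβ
      rw [key β hβ, ← recF_eq A (G p), h]
      refine ⟨⟨β, hβ, rfl⟩, ?_⟩
      rintro u ⟨β', hβ', rfl⟩ h4
      rw [ent_pr_zero] at h4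
      rw [h4]

variable (hG : DfnF A GG fun U e => G (fun i => e (i + 2)) (e 0) (e 1))

include hG

theorem dfnF_G (k : ℕ) (hf : DfnF A GG f) (hg : DfnF A GG g) :
    DfnF A GG fun U e => G (fun i => e (i + k)) (f U e) (g U e) :=
  hG.subst (t := tcons f (tcons g fun i U e => e (i + k)))
    (tcons_dfn hf (tcons_dfn hg fun i => DfnF.var (i + k)))

theorem app_dfn (k : ℕ) (hf : DfnF A GG f) (hg : DfnF A GG g) :
    Dfn A GG fun U e => App A G (fun i => e (i + k)) (f U e) (g U e) := by
  have hbase : Dfn A GG fun U e => App A G (fun i => e (i + 2)) (e 0) (e 1) := by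
    unfold App
    have hG1 : DfnF A GG fun U e => pr (e 0) (G (fun i => e (i + 3)) (e 0)
        (nm A {u | u ∈ D A (e 2) ∧ ent u 0 < e 0})) := by
      apply DfnF.pr (DfnF.var 0)
      apply dfnF_G hG 3 (DfnF.var 0)
      apply_rules (transparency := .reducible) (maxDepth := 1000) using is_poly
    have hG2 : DfnF A GG fun U e => pr (e 1) (G (fun i => e (i + 4)) (e 1)
        (nm A {u | u ∈ D A (e 3) ∧ ent u 0 < e 1})) := by
      apply DfnF.pr (DfnF.var 1)
      apply dfnF_G hG 4 (DfnF.var 1)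
      apply_rules (transparency := .reducible) (maxDepth := 1000) using is_poly
    refine Dfn.and ?_ ?_
    · apply_rules (transparency := .reducible) (maxDepth := 1000) using is_poly
    · refine Dfn.alllt (DfnF.var 0) (Dfn.and ?_ ?_)
      · exact Dfn.mem hG1 (DfnF.var 2)
      · refine Dfn.all_D (DfnF.var 2) (Dfn.imp ?_ ?_)
        · apply_rules (transparency := .reducible) (maxDepth := 1000) using is_poly
        · exact Dfn.eq (DfnF.var 0) hG2
  exact hbase.subst (t := tcons f (tcons g fun i U e => e (i + k)))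
    (tcons_dfn hf (tcons_dfn hg fun i => DfnF.var (i + k)))

theorem graph_int (p : Env) (α : Ord) : Int A (graphF A (G p) α) := by
  induction α using WellFoundedLT.induction with
  | ind α ih =>
    have h1 : Dfn A GG fun U e => ∃ β < e 1, ∃ x, App A G (fun i => e (i + 2)) β x ∧
        e 0 = pr β (G (fun i => e (i + 2)) β (nm A {w | w ∈ D A x})) := by
      refine Dfn.exlt (DfnF.var 1) (Dfn.exG (Dfn.and ?_ ?_))
      · exact app_dfn hG 4 (DfnF.var 1) (DfnF.var 0)
      · refine Dfn.eq (DfnF.var 2) (DfnF.pr (DfnF.var 1) ?_)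
        apply dfnF_G hG 4 (DfnF.var 1)
        apply_rules (transparency := .reducible) (maxDepth := 1000) using is_poly
    have h2 := int_of_dfn' h1 (cons α p) (β := ⨆ β : Iio α, Order.succ (pr β.1 (recF A (G p) β.1)))
      (by
        rintro w ⟨β, hβ, x, hx, hw⟩
        have hβ' : β < α := hβ
        have hx' : App A G p β x := hx
        rw [app_iff] at hx'
        have hw' : w = pr β (G p β (nm A {w | w ∈ D A x})) := hw
        have e1 : {w | w ∈ D A x} = graphF A (G p) β := by rw [← hx']; rfl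
        rw [e1, ← recF_eq A (G p)] at hw'
        rw [hw']
        exact (Order.lt_succ _).trans_le (Ordinal.le_iSup
          (fun β : Iio α => Order.succ (pr β.1 (recF A (G p) β.1))) ⟨β, hβ'⟩))
    convert h2 using 2
    ext w
    constructor
    · rintro ⟨β, hβ, rfl⟩
      obtain ⟨x, hx⟩ := ih β hβ
      refine ⟨β, hβ, x, app_iff.mpr hx, ?_⟩
      show pr β (recF A (G p) β) = pr β (G p β (nm A {w | w ∈ D A x}))
      have e1 : {w | w ∈ D A x} = graphF A (G p) β := by rw [← hx]; rfl
      rw [e1, ← recF_eq A (G p)]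
    · rintro ⟨β, hβ, x, hx, hw⟩
      have hx' : App A G p β x := hx
      rw [app_iff] at hx'
      have hw' : w = pr β (G p β (nm A {w | w ∈ D A x})) := hw
      have e1 : {w | w ∈ D A x} = graphF A (G p) β := by rw [← hx']; rfl
      rw [e1, ← recF_eq A (G p)] at hw'
      exact ⟨β, hβ, hw'⟩

/-- Functions defined by recursion are definable. -/
theorem recF_dfn : DfnF A GG fun U e => recF A (G fun i => e (i + 1)) (e 0) := by
  apply DfnF.ofG
  have h1 : Dfn A GG fun U e => ∃ x, App A G (fun i => e (i + 2)) (e 1) x ∧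
      e 0 = G (fun i => e (i + 2)) (e 1) (nm A {w | w ∈ D A x}) := by
    refine Dfn.exG (Dfn.and ?_ ?_)
    · exact app_dfn hG 3 (DfnF.var 2) (DfnF.var 0)
    · refine Dfn.eq (DfnF.var 1) ?_
      apply dfnF_G hG 3 (DfnF.var 2)
      apply_rules (transparency := .reducible) (maxDepth := 1000) using is_poly
  refine h1.congr fun U hU e he => ?_
  show _ ↔ e 0 = recF A (G fun i => e (i + 2)) (e 1)
  constructor
  · rintro ⟨x, hx, h2⟩
    rw [app_iff] at hx
    have e1 : {w | w ∈ D A x} = graphF A (G fun i => e (i + 2)) (e 1) := by rw [← hx]; rfl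
    rw [h2, e1, ← recF_eq A (G fun i => e (i + 2))]
  · intro h2
    obtain ⟨x, hx⟩ := graph_int hG (fun i => e (i + 2)) (e 1)
    refine ⟨x, app_iff.mpr hx, ?_⟩
    have e1 : {w | w ∈ D A x} = graphF A (G fun i => e (i + 2)) (e 1) := by rw [← hx]; rfl
    rw [h2, e1, ← recF_eq A (G fun i => e (i + 2))]

theorem recF_dfn' (k : ℕ) (hf : DfnF A GG f) :
    DfnF A GG fun U e => recF A (G fun i => e (i + k)) (f U e) :=
  (recF_dfn hG).subst (t := tcons f fun i U e => e (i + k)) (tcons_dfn hf fun i => DfnF.var (i + k))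

end rec

end Pool.Agent.Lib.MP_7295f2_lc.LA

end

section

/-!
# The sets named by ordinals
-/

open Ordinal Set

set_option linter.unusedVariables false

namespace Pool.Agent.Lib.MP_7295f2_lc.LA

variable {A : Ord → Ord → Ord → Prop} {P Q : Set Ord → Env → Prop}
  {f g h : Set Ord → Env → Ord}

/-- The value at `β` of the function coded by `x`. -/
noncomputable def val (A : Ord → Ord → Ord → Prop) (x β : Ord) : Ord := sInf {v | pr β v ∈ D A x}

@[is_poly] theorem DfnF.val (hf : DfnF A GG f) (hg : DfnF A GG g) :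
    DfnF A GG fun U e => val A (f U e) (g U e) := by
  refine DfnF.comp2 (R := fun _ x β => LA.val A x β) ?_ hf hg
  unfold LA.val
  apply_rules (transparency := .reducible) (maxDepth := 1000) using is_poly

theorem val_of {x β v : Ord} (h : pr β v ∈ D A x) (h' : ∀ v', pr β v' ∈ D A x → v' = v) :
    val A x β = v := h' _ (csInf_mem (s := {v | pr β v ∈ D A x}) ⟨v, h⟩)

theorem val_nm_graph {G : Env → Ord → Ord → Ord}
    (hG : DfnF A GG fun U e => G (fun i => e (i + 2)) (e 0) (e 1)) (p : Env) {β α : Ord}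
    (hβ : β < α) : val A (nm A (graphF A (G p) α)) β = recF A (G p) β := by
  have h := D_nm (graph_int hG p α)
  apply val_of
  · rw [h]
    exact ⟨β, hβ, rfl⟩
  · intro v' hv'
    rw [h] at hv'
    obtain ⟨β', hβ', h1⟩ := hv'
    rw [pr_inj] at h1
    rw [h1.2, ← h1.1]

theorem small_D (x : Ord) : Small.{0} (D A x) :=
  small_subset (s := Iio x) fun _ hw => D_lt_self hw

/-- The set named by `x`. -/
noncomputable def KK (A : Ord → Ord → Ord → Prop) (x : Ord) : ZFSet.{0} :=
  have := small_D (A := A) x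
  ZFSet.range fun w : D A x => KK A w.1
termination_by x
decreasing_by exact D_lt_self w.2

theorem mem_KK {x : Ord} {z : ZFSet.{0}} : z ∈ KK A x ↔ ∃ w ∈ D A x, KK A w = z := by
  have := small_D (A := A) x
  rw [KK, ZFSet.mem_range]
  simp

theorem KK_eq_iff {x y : Ord} : KK A x = KK A y ↔ (∀ u ∈ D A x, ∃ v ∈ D A y, KK A u = KK A v) ∧
    (∀ v ∈ D A y, ∃ u ∈ D A x, KK A u = KK A v) := by
  constructor
  · intro h
    constructor
    · intro u hu
      have : KK A u ∈ KK A y := h ▸ mem_KK.mpr ⟨u, hu, rfl⟩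
      obtain ⟨v, hv, h1⟩ := mem_KK.mp this
      exact ⟨v, hv, h1.symm⟩
    · intro v hv
      have : KK A v ∈ KK A x := h ▸ mem_KK.mpr ⟨v, hv, rfl⟩
      obtain ⟨u, hu, h1⟩ := mem_KK.mp this
      exact ⟨u, hu, h1⟩
  · rintro ⟨h1, h2⟩
    ext z
    rw [mem_KK, mem_KK]
    constructor
    · rintro ⟨u, hu, rfl⟩
      obtain ⟨v, hv, h3⟩ := h1 u hu
      exact ⟨v, hv, h3.symm⟩
    · rintro ⟨v, hv, rfl⟩
      obtain ⟨u, hu, h3⟩ := h2 v hv
      exact ⟨u, hu, h3⟩

/-- The recursion step for equality of named sets. -/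
noncomputable def GQ (A : Ord → Ord → Ord → Prop) (α x : Ord) : Ord :=
  nm A {w | (ent w 0 ≤ α ∧ ent w 1 ≤ α ∧ w = pr (ent w 0) (ent w 1)) ∧
    (∀ u ∈ D A (ent w 0), ∃ v ∈ D A (ent w 1), pr u v ∈ D A (val A x (max u v))) ∧
    (∀ v ∈ D A (ent w 1), ∃ u ∈ D A (ent w 0), pr u v ∈ D A (val A x (max u v)))}

theorem GQ_dfn : DfnF A GG fun U e => (fun _ : Env => GQ A) (fun i => e (i + 2)) (e 0) (e 1) := by
  show DfnF A GG fun U e => GQ A (e 0) (e 1)
  unfold GQ
  apply_rules (transparency := .reducible) (maxDepth := 1000) using is_poly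

theorem D_recF_GQ (α : Ord) : D A (recF A (GQ A) α) =
    {w | (ent w 0 ≤ α ∧ ent w 1 ≤ α ∧ w = pr (ent w 0) (ent w 1)) ∧
      KK A (ent w 0) = KK A (ent w 1)} := by
  induction α using WellFoundedLT.induction with
  | ind α ih =>
    have hx : ∀ β < α, val A (nm A (graphF A (GQ A) α)) β = recF A (GQ A) β := fun β hβ =>
      val_nm_graph (G := fun _ => GQ A) GQ_dfn (fun _ => 0) hβ
    have hint : Int A {w | (ent w 0 ≤ α ∧ ent w 1 ≤ α ∧ w = pr (ent w 0) (ent w 1)) ∧
        (∀ u ∈ D A (ent w 0), ∃ v ∈ D A (ent w 1),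
          pr u v ∈ D A (val A (nm A (graphF A (GQ A) α)) (max u v))) ∧
        (∀ v ∈ D A (ent w 1), ∃ u ∈ D A (ent w 0),
          pr u v ∈ D A (val A (nm A (graphF A (GQ A) α)) (max u v)))} := by
      have h1 : Dfn A GG fun U e => (ent (e 0) 0 ≤ e 1 ∧ ent (e 0) 1 ≤ e 1 ∧
          e 0 = pr (ent (e 0) 0) (ent (e 0) 1)) ∧
        (∀ u ∈ D A (ent (e 0) 0), ∃ v ∈ D A (ent (e 0) 1),
          pr u v ∈ D A (val A (e 2) (max u v))) ∧
        (∀ v ∈ D A (ent (e 0) 1), ∃ u ∈ D A (ent (e 0) 0),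
          pr u v ∈ D A (val A (e 2) (max u v))) := by apply_rules (transparency := .reducible) (maxDepth := 1000) using is_poly
      refine int_of_dfn' h1 (cons α (cons (nm A (graphF A (GQ A) α)) fun _ => 0))
        (β := pr (α + 1) (α + 1)) ?_
      rintro w ⟨⟨h2, h3, h4⟩, _⟩
      have h4' : w = pr (ent w 0) (ent w 1) := h4
      rw [h4']
      apply pr_lt_pr
      rw [max_self, Order.lt_add_one_iff]
      exact max_le h2 h3
    rw [recF_eq, GQ, D_nm hint]
    ext w
    refine and_congr_right fun hw => ?_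
    rw [KK_eq_iff]
    have key : ∀ u ∈ D A (ent w 0), ∀ v ∈ D A (ent w 1),
        (pr u v ∈ D A (val A (nm A (graphF A (GQ A) α)) (max u v)) ↔ KK A u = KK A v) := by
      intro u hu v hv
      have hm : max u v < α := max_lt ((D_lt_self hu).trans_le hw.1) ((D_lt_self hv).trans_le hw.2.1)
      rw [hx _ hm, ih _ hm]
      simp only [Set.mem_ofPred_eq, ent_pr_zero, ent_pr_one, le_max_left, le_max_right, true_and]
    refine and_congr ?_ ?_
    · refine forall₂_congr fun u hu => exists_congr fun v => and_congr_right fun hv => key u hu v hv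
    · refine forall₂_congr fun v hv => exists_congr fun u => and_congr_right fun hu => key u hu v hv

@[is_poly] theorem Dfn.KK_eq (hf : DfnF A GG f) (hg : DfnF A GG g) :
    Dfn A GG fun U e => KK A (f U e) = KK A (g U e) := by
  refine Dfn.comp2 (R := fun _ x y => KK A x = KK A y) ?_ hf hg
  have h1 : DfnF A GG fun U e => recF A (GQ A) (max (e 0) (e 1)) :=
    recF_dfn' (G := fun _ => GQ A) GQ_dfn 0 (DfnF.max (DfnF.var 0) (DfnF.var 1))
  have h2 : Dfn A GG fun U e => pr (e 0) (e 1) ∈ D A (recF A (GQ A) (max (e 0) (e 1))) :=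
    Dfn.mem (DfnF.pr (DfnF.var 0) (DfnF.var 1)) h1
  refine h2.congr fun U hU e he => ?_
  rw [D_recF_GQ]
  simp only [Set.mem_ofPred_eq, ent_pr_zero, ent_pr_one, le_max_left, le_max_right, true_and]

@[is_poly] theorem Dfn.KK_mem (hf : DfnF A GG f) (hg : DfnF A GG g) :
    Dfn A GG fun U e => KK A (f U e) ∈ KK A (g U e) := by
  refine Dfn.comp2 (R := fun _ x y => KK A x ∈ KK A y) ?_ hf hg
  have : Dfn A GG fun U e => ∃ w ∈ D A (e 1), KK A w = KK A (e 0) := by apply_rules (transparency := .reducible) (maxDepth := 1000) using is_poly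
  exact this.congr fun U hU e he => mem_KK.symm

/-- The model. -/
abbrev MM (A : Ord → Ord → Ord → Prop) : Type 1 := {z : ZFSet.{0} // ∃ x, KK A x = z}

/-- The element of the model named by `x`. -/
noncomputable def km (A : Ord → Ord → Ord → Prop) (x : Ord) : MM A := ⟨KK A x, x, rfl⟩

theorem km_surj (z : MM A) : ∃ x, km A x = z := by
  obtain ⟨z, x, rfl⟩ := z
  exact ⟨x, rfl⟩

/-- Membership in the model. -/
def EE (A : Ord → Ord → Ord → Prop) (y z : MM A) : Prop := y.1 ∈ z.1

theorem EE_km {x y : Ord} : EE A (km A x) (km A y) ↔ ∃ w ∈ D A y, km A w = km A x := by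
  unfold EE km
  rw [mem_KK]
  simp only [Subtype.mk.injEq]

theorem EE_iff {z : MM A} {y : Ord} : EE A z (km A y) ↔ ∃ w ∈ D A y, km A w = z := by
  obtain ⟨x, rfl⟩ := km_surj z
  exact EE_km

@[is_poly] theorem Dfn.exM {P : Set Ord → Env → MM A → Prop}
    (hP : Dfn A GG fun U e => P U (fun i => e (i + 1)) (km A (e 0))) :
    Dfn A GG fun U e => ∃ z, P U e z := by
  refine (Dfn.exG (P := fun U e y => P U e (km A y)) hP).congr fun U hU e he => ?_
  constructor
  · rintro ⟨y, hy⟩
    exact ⟨_, hy⟩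
  · rintro ⟨z, hz⟩
    obtain ⟨x, rfl⟩ := km_surj z
    exact ⟨x, hz⟩

@[is_poly] theorem Dfn.allM {P : Set Ord → Env → MM A → Prop}
    (hP : Dfn A GG fun U e => P U (fun i => e (i + 1)) (km A (e 0))) :
    Dfn A GG fun U e => ∀ z, P U e z := by
  refine (Dfn.allG (P := fun U e y => P U e (km A y)) hP).congr fun U hU e he => ?_
  constructor
  · intro h z
    obtain ⟨x, rfl⟩ := km_surj z
    exact h x
  · intro h x
    exact h _

@[is_poly] theorem Dfn.km_eq (hf : DfnF A GG f) (hg : DfnF A GG g) :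
    Dfn A GG fun U e => km A (f U e) = km A (g U e) :=
  (Dfn.KK_eq hf hg).congr fun U hU e he => by
    unfold km
    rw [Subtype.mk.injEq]

@[is_poly] theorem Dfn.EE (hf : DfnF A GG f) (hg : DfnF A GG g) :
    Dfn A GG fun U e => EE A (km A (f U e)) (km A (g U e)) := Dfn.KK_mem hf hg

/-- Bounded definable classes of names yield sets of the model. -/
theorem exists_set (hP : Dfn A GG P) (e : Env) (β : Ord) :
    ∃ z : MM A, ∀ y, EE A y z ↔ ∃ w < β, P Set.univ (cons w e) ∧ km A w = y := by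
  obtain ⟨x, hx⟩ := int_of_dfn hP e β
  refine ⟨km A x, fun y => ?_⟩
  rw [EE_iff, hx]
  constructor
  · rintro ⟨w, ⟨h1, h2⟩, h3⟩
    exact ⟨w, h1, h2, h3⟩
  · rintro ⟨w, h1, h2, h3⟩
    exact ⟨w, ⟨h1, h2⟩, h3⟩

end Pool.Agent.Lib.MP_7295f2_lc.LA

end

section

/-!
# The model satisfies ZFC
-/

open Ordinal Set

set_option linter.unusedVariables false

namespace Pool.Agent.Lib.MP_7295f2_lc.LA

variable {A : Ord → Ord → Ord → Prop} {P Q : Set Ord → Env → Prop}
  {f g h : Set Ord → Env → Ord}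

theorem dfn_holds (φ : SetFormula) : Dfn A GG fun U e => φ.Holds (EE A) fun i => km A (e i) := by
  induction φ with
  | mem i j =>
    show Dfn A GG fun U e => EE A (km A (e i)) (km A (e j))
    apply_rules (transparency := .reducible) (maxDepth := 1000) using is_poly
  | eq i j =>
    show Dfn A GG fun U e => km A (e i) = km A (e j)
    apply_rules (transparency := .reducible) (maxDepth := 1000) using is_poly
  | neg φ ih => exact ih.not
  | and φ ψ ih1 ih2 => exact ih1.and ih2
  | all φ ih =>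
    have : Dfn A GG fun U e => ∀ z : MM A, φ.Holds (EE A) (push z fun i => km A (e i)) := by
      apply Dfn.allM
      refine ih.congr fun U hU e he => ?_
      have : (push (km A (e 0)) fun i => km A (e (i + 1))) = fun i => km A (e i) := by
        funext i
        cases i <;> rfl
      rw [this]
    exact this

theorem exists_env (v : ℕ → MM A) : ∃ e : Env, ∀ i, km A (e i) = v i := by
  choose e he using fun i => km_surj (v i)
  exact ⟨e, he⟩

theorem EE_lt {x y : Ord} (h : EE A (km A x) (km A y)) : ∃ w < y, km A w = km A x := by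
  obtain ⟨w, hw, h1⟩ := EE_km.mp h
  exact ⟨w, D_lt_self hw, h1⟩

/-- A family of sets of the model indexed by the elements of a small set is bounded by an
ordinal. -/
theorem exists_bound {S : Set (MM A)} (x : Ord) (R : MM A → MM A → Prop)
    (hS : ∀ z ∈ S, ∃ w < x, R (km A w) z) (hR : ∀ y z z', R y z → R y z' → z = z') :
    ∃ β, ∀ z ∈ S, ∃ w < β, km A w = z := by
  classical
  let F : Iio x → Ord := fun w => if h : ∃ z, R (km A w.1) z then
    Order.succ (Classical.choose (km_surj h.choose)) else 0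
  refine ⟨⨆ w, F w, fun z hz => ?_⟩
  obtain ⟨w, hw, h1⟩ := hS z hz
  have h : ∃ z, R (km A w) z := ⟨z, h1⟩
  refine ⟨Classical.choose (km_surj h.choose), ?_, ?_⟩
  · refine (Order.lt_succ _).trans_le ?_
    have := Ordinal.le_iSup F ⟨w, hw⟩
    simp only [F, dif_pos h] at this
    exact this
  · rw [Classical.choose_spec (km_surj h.choose)]
    exact hR _ _ _ h.choose_spec h1

theorem modelsZFC (A : Ord → Ord → Ord → Prop) : ModelsZFC (EE A) where
  extensionality := by
    rintro ⟨x, a, rfl⟩ ⟨y, b, rfl⟩ h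
    apply Subtype.ext
    ext z
    constructor
    · intro hz
      obtain ⟨w, _, rfl⟩ := mem_KK.mp hz
      exact (h (km A w)).mp hz
    · intro hz
      obtain ⟨w, _, rfl⟩ := mem_KK.mp hz
      exact (h (km A w)).mpr hz
  foundation := by
    rintro ⟨x, a, rfl⟩ ⟨⟨y, b, rfl⟩, hy⟩
    have hne : KK A a ≠ ∅ := by
      intro h
      have : KK A b ∈ KK A a := hy
      rw [h] at this
      exact ZFSet.notMem_empty _ this
    obtain ⟨z, hz, h⟩ := ZFSet.regularity _ hne
    obtain ⟨w, _, rfl⟩ := mem_KK.mp hz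
    refine ⟨km A w, hz, fun t ht ht' => ?_⟩
    have : t.1 ∈ KK A a ∩ KK A w := ZFSet.mem_inter.mpr ⟨ht', ht⟩
    rw [h] at this
    exact ZFSet.notMem_empty _ this
  pairing := by
    intro x y
    obtain ⟨a, rfl⟩ := km_surj x
    obtain ⟨b, rfl⟩ := km_surj y
    have h1 : Dfn A GG fun U e => e 0 = e 1 ∨ e 0 = e 2 := by apply_rules (transparency := .reducible) (maxDepth := 1000) using is_poly
    obtain ⟨z, hz⟩ := exists_set h1 (cons a (cons b fun _ => 0)) (max a b + 1)
    refine ⟨z, fun w => ?_⟩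
    rw [hz]
    constructor
    · rintro ⟨c, _, h | h, rfl⟩
      · have : c = a := h
        rw [this]
        exact Or.inl rfl
      · have : c = b := h
        rw [this]
        exact Or.inr rfl
    · rintro (rfl | rfl)
      · exact ⟨a, Order.lt_add_one_iff.mpr (le_max_left _ _), Or.inl rfl, rfl⟩
      · exact ⟨b, Order.lt_add_one_iff.mpr (le_max_right _ _), Or.inr rfl, rfl⟩
  union := by
    intro x
    obtain ⟨a, rfl⟩ := km_surj x
    have h1 : Dfn A GG fun U e => ∃ w ∈ D A (e 1), e 0 ∈ D A w := by apply_rules (transparency := .reducible) (maxDepth := 1000) using is_poly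
    obtain ⟨z, hz⟩ := exists_set h1 (cons a fun _ => 0) a
    refine ⟨z, fun y => ?_⟩
    rw [hz]
    constructor
    · rintro ⟨c, _, ⟨w, h2, h3⟩, rfl⟩
      exact ⟨km A w, EE_iff.mpr ⟨w, h2, rfl⟩, EE_iff.mpr ⟨c, h3, rfl⟩⟩
    · rintro ⟨w, h2, h3⟩
      obtain ⟨d, hd, rfl⟩ := EE_iff.mp h2
      obtain ⟨c, hc, rfl⟩ := EE_iff.mp h3
      exact ⟨c, (D_lt_self hc).trans (D_lt_self hd), ⟨d, hd, hc⟩, rfl⟩
  powerset := by
    intro x
    obtain ⟨a, rfl⟩ := km_surj x
    obtain ⟨β, hβ⟩ : ∃ β : Ord, ∀ z : MM A, z.1 ⊆ KK A a → ∃ w < β, km A w = z := by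
      have : Small.{0} {z : MM A // z.1 ⊆ KK A a} := by
        let F : {z : MM A // z.1 ⊆ KK A a} → ↥(ZFSet.powerset (KK A a)) :=
          fun z => ⟨z.1.1, ZFSet.mem_powerset.mpr z.2⟩
        have hF : Function.Injective F := by
          rintro ⟨z, hz⟩ ⟨z', hz'⟩ h
          have := congrArg Subtype.val h
          exact Subtype.ext (Subtype.ext this)
        exact small_of_injective hF
      choose c hc using fun z : MM A => km_surj z
      refine ⟨⨆ z : {z : MM A // z.1 ⊆ KK A a}, Order.succ (c z.1), fun z hz => ?_⟩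
      refine ⟨c z, (Order.lt_succ _).trans_le ?_, hc z⟩
      exact Ordinal.le_iSup (fun z : {z : MM A // z.1 ⊆ KK A a} => Order.succ (c z.1)) ⟨z, hz⟩
    have h1 : Dfn A GG fun U e => ∀ w : MM A, EE A w (km A (e 0)) → EE A w (km A (e 1)) := by apply_rules (transparency := .reducible) (maxDepth := 1000) using is_poly
    obtain ⟨z, hz⟩ := exists_set h1 (cons a fun _ => 0) β
    refine ⟨z, fun y => ?_⟩
    rw [hz]
    constructor
    · rintro ⟨c, _, h2, rfl⟩
      exact h2
    · intro h2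
      obtain ⟨c, hc, rfl⟩ := hβ y (by
        intro t ht
        obtain ⟨b, hb⟩ := y.2
        rw [← hb] at ht
        obtain ⟨w, _, rfl⟩ := mem_KK.mp ht
        exact h2 (km A w) (by
          show KK A w ∈ y.1
          rw [← hb]
          exact ht))
      exact ⟨c, hc, h2, rfl⟩
  infinity := by
    -- an ordinal closed under the successor operation on names
    have hs : ∀ x : Ord, ∃ y, ∀ w : MM A, EE A w (km A y) ↔ EE A w (km A x) ∨ w = km A x := by
      intro x
      have h1 : Dfn A GG fun U e => EE A (km A (e 0)) (km A (e 1)) ∨ e 0 = e 1 := by apply_rules (transparency := .reducible) (maxDepth := 1000) using is_poly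
      obtain ⟨z, hz⟩ := exists_set h1 (cons x fun _ => 0) (x + 1)
      obtain ⟨y, rfl⟩ := km_surj z
      refine ⟨y, fun w => ?_⟩
      rw [hz]
      constructor
      · rintro ⟨c, _, h2 | h2, rfl⟩
        · exact Or.inl h2
        · have : c = x := h2
          rw [this]
          exact Or.inr rfl
      · rintro (h2 | rfl)
        · obtain ⟨c, hc, rfl⟩ := EE_iff.mp h2
          exact ⟨c, (D_lt_self hc).trans (Order.lt_add_one_iff.mpr le_rfl),
            Or.inl (EE_iff.mpr ⟨c, hc, rfl⟩), rfl⟩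
        · exact ⟨x, Order.lt_add_one_iff.mpr le_rfl, Or.inr rfl, rfl⟩
    choose F hF using hs
    obtain ⟨γ, hγ, hγω, hγF⟩ := exists_closed F 0
    have h1 : Dfn A GG fun U e => e 0 = e 0 := by apply_rules (transparency := .reducible) (maxDepth := 1000) using is_poly
    obtain ⟨z, hz⟩ := exists_set h1 (fun _ => 0) γ
    refine ⟨z, ⟨km A 0, (hz _).mpr ⟨0, hγ, rfl, rfl⟩, fun t ht => ?_⟩, ?_⟩
    · obtain ⟨w, hw, _⟩ := EE_iff.mp ht
      exact not_lt_zero (D_lt_self hw)
    · intro y hy
      obtain ⟨c, hc, _, rfl⟩ := (hz _).mp hy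
      exact ⟨km A (F c), (hz _).mpr ⟨F c, hγF c hc, rfl, rfl⟩, hF c⟩
  separation := by
    intro φ v x
    obtain ⟨a, rfl⟩ := km_surj x
    obtain ⟨e, he⟩ := exists_env v
    have h1 : Dfn A GG fun U e => e 0 ∈ D A (e 1) ∧
        φ.Holds (EE A) fun i => km A (e (match i with | 0 => 0 | i + 1 => i + 2)) := by
      refine Dfn.and (by apply_rules (transparency := .reducible) (maxDepth := 1000) using is_poly) ?_
      exact (dfn_holds φ).ren fun | 0 => 0 | i + 1 => i + 2
    obtain ⟨z, hz⟩ := exists_set h1 (cons a e) a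
    refine ⟨z, fun y => ?_⟩
    rw [hz]
    have key : ∀ w, (fun i => km A ((cons w (cons a e)) (match i with | 0 => 0 | i + 1 => i + 2))) =
        push (km A w) v := by
      intro w
      funext i
      cases i with
      | zero => rfl
      | succ i => exact he i
    constructor
    · rintro ⟨w, _, ⟨h2, h3⟩, rfl⟩
      rw [key] at h3
      exact ⟨EE_iff.mpr ⟨w, h2, rfl⟩, h3⟩
    · rintro ⟨h2, h3⟩
      obtain ⟨w, hw, rfl⟩ := EE_iff.mp h2
      refine ⟨w, D_lt_self hw, ⟨hw, ?_⟩, rfl⟩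
      rw [key]
      exact h3
  replacement := by
    intro φ v x hφ
    obtain ⟨a, rfl⟩ := km_surj x
    obtain ⟨e, he⟩ := exists_env v
    have h1 : Dfn A GG fun U e => ∃ y ∈ D A (e 1),
        φ.Holds (EE A) fun i => km A ((cons (e 0) (cons y fun j => e (j + 2))) i) := by
      refine Dfn.ex_D (DfnF.var 1) ?_
      refine ((dfn_holds φ).ren fun | 0 => 1 | 1 => 0 | i + 2 => i + 3).congr fun U hU e he => ?_
      have : (fun i => km A (e (match i with | 0 => 1 | 1 => 0 | i + 2 => i + 3))) =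
          fun i => km A ((cons (e 1) (cons (e 0) fun j => e (j + 3))) i) := by
        funext i
        match i with
        | 0 => rfl
        | 1 => rfl
        | i + 2 => rfl
      rw [this]
    obtain ⟨β, hβ⟩ := exists_bound (S := {z | ∃ y, EE A y (km A a) ∧ φ.Holds (EE A) (push z (push y v))})
      a (fun y z => EE A y (km A a) ∧ φ.Holds (EE A) (push z (push y v))) (by
        rintro z ⟨y, hy, hz⟩
        obtain ⟨w, hw, rfl⟩ := EE_iff.mp hy
        exact ⟨w, D_lt_self hw, hy, hz⟩) (by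
        rintro y z z' ⟨hy, hz⟩ ⟨_, hz'⟩
        exact (hφ y hy).unique hz hz')
    obtain ⟨t, ht⟩ := exists_set h1 (cons a e) β
    have key : ∀ w y, (fun i => km A ((cons w (cons y e)) i)) = push (km A w) (push (km A y) v) := by
      intro w y
      funext i
      match i with
      | 0 => rfl
      | 1 => rfl
      | i + 2 => exact he i
    refine ⟨t, fun z => ?_⟩
    rw [ht]
    constructor
    · rintro ⟨w, _, ⟨y, hy, h3⟩, rfl⟩
      refine ⟨km A y, EE_iff.mpr ⟨y, hy, rfl⟩, ?_⟩
      rw [← key]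
      exact h3
    · rintro ⟨y, hy, h3⟩
      obtain ⟨w, hw, rfl⟩ := hβ z ⟨y, hy, h3⟩
      obtain ⟨c, hc, rfl⟩ := EE_iff.mp hy
      refine ⟨w, hw, ⟨c, hc, ?_⟩, rfl⟩
      rw [← key] at h3
      exact h3
  choice := by
    intro x hne hdisj
    obtain ⟨a, rfl⟩ := km_surj x
    have h1 : Dfn A GG fun U e => ∃ y ∈ D A (e 1), EE A (km A (e 0)) (km A y) ∧
        ∀ w < e 0, ¬ EE A (km A w) (km A y) := by apply_rules (transparency := .reducible) (maxDepth := 1000) using is_poly
    obtain ⟨c, hc⟩ := exists_set h1 (cons a fun _ => 0) a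
    refine ⟨c, fun y hy => ?_⟩
    obtain ⟨b, hb, rfl⟩ := EE_iff.mp hy
    obtain ⟨z, hz⟩ := hne _ hy
    set S : Set Ord := {w | EE A (km A w) (km A b)} with hS
    obtain ⟨w₀, hw₀, rfl⟩ := EE_iff.mp hz
    have hSne : S.Nonempty := ⟨w₀, hz⟩
    have hm : sInf S ∈ S := csInf_mem hSne
    refine ⟨km A (sInf S), ⟨?_, hm⟩, ?_⟩
    · rw [hc]
      refine ⟨sInf S, ?_, ⟨b, hb, hm, ?_⟩, rfl⟩
      · have : sInf S ≤ w₀ := csInf_le' hz
        exact this.trans_lt ((D_lt_self hw₀).trans (D_lt_self hb))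
      · intro w hw hwb
        exact absurd (csInf_le' (s := S) hwb) (not_le.mpr hw)
    · rintro z' ⟨h2, h3⟩
      rw [hc] at h2
      obtain ⟨w, _, ⟨b', hb', h4, h5⟩, rfl⟩ := h2
      have h4' : EE A (km A w) (km A b') := h4
      have hb'' : km A b' = km A b :=
        hdisj _ _ (EE_iff.mpr ⟨b', hb', rfl⟩) (EE_iff.mpr ⟨b, hb, rfl⟩) ⟨_, h4', h3⟩
      have h5' : ∀ u < w, ¬ EE A (km A u) (km A b) := by
        intro u hu
        rw [← hb'']
        exact h5 u hu
      have : w = sInf S := by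
        apply le_antisymm
        · by_contra hcon
          exact h5' _ (not_le.mp hcon) hm
        · exact csInf_le' h3
      rw [this]

end Pool.Agent.Lib.MP_7295f2_lc.LA

end

section

/-!
# Internal surjections and internal cardinals
-/

open Ordinal Set

set_option linter.unusedVariables false

namespace Pool.Agent.Lib.MP_7295f2_lc.LA

variable {A : Ord → Ord → Ord → Prop} {P Q : Set Ord → Env → Prop}
  {f g h : Set Ord → Env → Ord}

/-- Evaluate a global function. -/
abbrev ev (f : Set Ord → Env → Ord) (e : Env) : Ord := f Set.univ e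

/-- Definable functions on an initial segment are coded. -/
theorem exists_val (hf : DfnF A GG f) (p : Env) (α : Ord) :
    ∃ x, ∀ i < α, val A x i = ev f (cons i p) := by
  have h1 : Dfn A GG fun U e => ∃ i < e 1, e 0 = pr i (f U (cons i fun j => e (j + 2))) := by
    refine Dfn.exlt (DfnF.var 1) (Dfn.eq (DfnF.var 1) (DfnF.pr (DfnF.var 0) ?_))
    refine (hf.subst (t := tcons (fun U e => e 0) fun i U e => e (i + 3))
      (tcons_dfn (DfnF.var 0) fun i => DfnF.var (i + 3))).congr fun U hU e he => ?_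
    congr 1
    funext i
    cases i <;> rfl
  obtain ⟨x, hx⟩ := int_of_dfn' h1 (cons α p)
    (β := ⨆ i : Iio α, Order.succ (pr i.1 (ev f (cons i.1 p)))) (by
      rintro w ⟨i, hi, hw⟩
      have hi' : i < α := hi
      have hw' : w = pr i (ev f (cons i p)) := hw
      rw [hw']
      exact (Order.lt_succ _).trans_le (Ordinal.le_iSup
        (fun i : Iio α => Order.succ (pr i.1 (ev f (cons i.1 p)))) ⟨i, hi'⟩))
  refine ⟨x, fun i hi => val_of ?_ ?_⟩
  · rw [hx]
    exact ⟨i, hi, rfl⟩
  · intro v' hv'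
    rw [hx] at hv'
    obtain ⟨i', _, h2⟩ := hv'
    have h2' : pr i v' = pr i' (ev f (cons i' p)) := h2
    rw [pr_inj] at h2'
    rw [h2'.2, ← h2'.1]

/-- There is an internal map from `α` onto a superset of `S`. -/
def Sj (A : Ord → Ord → Ord → Prop) (α : Ord) (S : Set Ord) : Prop :=
  ∃ x, ∀ w ∈ S, ∃ i < α, val A x i = w

theorem Sj.of_fun (hf : DfnF A GG f) (p : Env) {α : Ord} {S : Set Ord}
    (h : ∀ w ∈ S, ∃ i < α, ev f (cons i p) = w) : Sj A α S := by
  obtain ⟨x, hx⟩ := exists_val hf p α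
  refine ⟨x, fun w hw => ?_⟩
  obtain ⟨i, hi, h1⟩ := h w hw
  exact ⟨i, hi, by rw [hx i hi, h1]⟩

theorem Sj.mono {α β : Ord} {S T : Set Ord} (h : Sj A α T) (hαβ : α ≤ β) (hST : S ⊆ T) :
    Sj A β S := by
  obtain ⟨x, hx⟩ := h
  refine ⟨x, fun w hw => ?_⟩
  obtain ⟨i, hi, h1⟩ := hx w (hST hw)
  exact ⟨i, hi.trans_le hαβ, h1⟩

theorem Sj.trans {α β : Ord} {S : Set Ord} (h : Sj A α (Iio β)) (h' : Sj A β S) : Sj A α S := by
  obtain ⟨x, hx⟩ := h
  obtain ⟨y, hy⟩ := h'
  have h1 : DfnF A GG fun U e => val A (e 1) (val A (e 2) (e 0)) := by apply_rules (transparency := .reducible) (maxDepth := 1000) using is_poly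
  refine Sj.of_fun h1 (cons y (cons x fun _ => 0)) fun w hw => ?_
  obtain ⟨j, hj, h2⟩ := hy w hw
  obtain ⟨i, hi, h3⟩ := hx j hj
  refine ⟨i, hi, ?_⟩
  show val A y (val A x i) = w
  rw [h3, h2]

theorem Sj.refl (α : Ord) : Sj A α (Iio α) := by
  have h1 : DfnF A GG fun U e => e 0 := by apply_rules (transparency := .reducible) (maxDepth := 1000) using is_poly
  exact Sj.of_fun h1 (fun _ => 0) fun w hw => ⟨w, hw, rfl⟩

/-- Internal surjections are surjections. -/
theorem Sj.card_le {α : Ord} {S : Set Ord} (h : Sj A α S) :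
    Cardinal.mk S ≤ Cardinal.lift.{1} α.card := by
  obtain ⟨x, hx⟩ := h
  rw [← Cardinal.mk_Iio_ordinal]
  refine le_trans (Cardinal.mk_le_mk_of_subset (t := (val A x) '' Iio α) ?_) Cardinal.mk_image_le
  intro w hw
  obtain ⟨i, hi, h1⟩ := hx w hw
  exact ⟨i, hi, h1⟩

/-- Internal cardinals. -/
def MC (A : Ord → Ord → Ord → Prop) (μ : Ord) : Prop := ∀ α < μ, ¬ Sj A α (Iio μ)

theorem mc_of_card {c : Cardinal.{0}} : MC A c.ord := by
  intro α hα h
  have h1 := h.card_le
  rw [Cardinal.mk_Iio_ordinal, Cardinal.lift_le, Cardinal.card_ord] at h1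
  rw [Cardinal.lt_ord] at hα
  exact absurd h1 (not_le.mpr hα)

/-- The least internal cardinal above `κ`. -/
noncomputable def sc (A : Ord → Ord → Ord → Prop) (κ : Ord) : Ord := sInf {μ | κ < μ ∧ MC A μ}

theorem sc_spec (κ : Ord) : κ < sc A κ ∧ MC A (sc A κ) := by
  apply csInf_mem (s := {μ | κ < μ ∧ MC A μ})
  refine ⟨(Order.succ κ.card).ord, ?_, mc_of_card⟩
  rw [Cardinal.lt_ord]
  exact Order.lt_succ _

theorem lt_sc (κ : Ord) : κ < sc A κ := (sc_spec κ).1
theorem mc_sc (κ : Ord) : MC A (sc A κ) := (sc_spec κ).2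

theorem sc_le {κ μ : Ord} (h : κ < μ) (hμ : MC A μ) : sc A κ ≤ μ :=
  csInf_le' (s := {μ | κ < μ ∧ MC A μ}) ⟨h, hμ⟩

theorem sc_le_succ (κ : Ord) : sc A κ ≤ (Order.succ κ.card).ord := by
  apply sc_le _ mc_of_card
  rw [Cardinal.lt_ord]
  exact Order.lt_succ _

theorem sj_of_lt_sc {κ α : Ord} (h : α < sc A κ) : Sj A κ (Iio α) := by
  induction α using WellFoundedLT.induction with
  | ind α ih =>
    rcases le_or_gt α κ with h1 | h1
    · exact (Sj.refl κ).mono le_rfl (Iio_subset_Iio h1)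
    · have h2 : ¬ MC A α := fun hmc => absurd (sc_le h1 hmc) (not_le.mpr h)
      unfold MC at h2
      push Not at h2
      obtain ⟨β, hβ, h3⟩ := h2
      exact (ih β hβ (hβ.trans h)).trans h3

theorem not_sj_of_sc {κ α : Ord} (h : α < sc A κ) : ¬ Sj A α (Iio (sc A κ)) := mc_sc κ α h

theorem lt_sc_of_sj {κ α β : Ord} (hα : α < sc A κ) (h : Sj A α (Iio β)) : β < sc A κ := by
  by_contra hcon
  exact not_sj_of_sc hα (h.mono le_rfl (Iio_subset_Iio (not_lt.mp hcon)))

/-- Closure under the coding function. -/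
def Clos (μ : Ord) : Prop := ω < μ ∧ ∀ γ < μ, ∀ n l, (∀ a ∈ l, a < γ) → mk γ n l < μ

theorem Clos.succ_lt {μ x : Ord} (h : Clos μ) (hx : x < μ) : x + 1 < μ := by
  by_contra hcon
  push Not at hcon
  have h1 := h.2 x hx 1 [] (by simp)
  have h2 : mk x 0 [] < mk x 1 [] := mk_lt_of_num (by simp) (by norm_num)
  have h3 := Order.add_one_le_of_lt ((le_mk x 0 []).trans_lt h2)
  exact absurd (h3.trans_lt h1) (not_lt.mpr hcon)

theorem Clos.pr_lt {μ a b : Ord} (h : Clos μ) (ha : a < μ) (hb : b < μ) : pr a b < μ :=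
  h.2 _ (h.succ_lt (max_lt ha hb)) _ _ (valid_pr a b)

theorem Clos.isLimit {μ : Ord} (h : Clos μ) : Order.IsSuccLimit μ := by
  rw [Ordinal.isSuccLimit_iff]
  refine ⟨(Ordinal.omega0_pos.trans h.1).ne', fun a ha => ?_⟩
  exact ha.2 (lt_add_one a) (h.succ_lt ha.lt)

theorem exists_list_bound {μ : Ord} (h0 : 0 < μ) (l : List Ord) (hl : ∀ a ∈ l, a < μ) :
    ∃ b < μ, ∀ a ∈ l, a ≤ b := by
  induction l with
  | nil => exact ⟨0, h0, by simp⟩
  | cons c l ih =>
    obtain ⟨b, hb, h⟩ := ih fun a ha => hl a (List.mem_cons_of_mem _ ha)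
    refine ⟨max b c, max_lt hb (hl c List.mem_cons_self), fun a ha => ?_⟩
    rcases List.mem_cons.mp ha with rfl | ha
    · exact le_max_right _ _
    · exact (h a ha).trans (le_max_left _ _)

/-- Every list of ordinals below `μ` is coded below `μ`. -/
theorem Clos.exists_code {μ : Ord} (h : Clos μ) (n : ℕ) (l : List Ord) (hl : ∀ a ∈ l, a < μ) :
    ∃ c < μ, num c = n ∧ par c = l := by
  obtain ⟨b, hb, h1⟩ := exists_list_bound (Ordinal.omega0_pos.trans h.1) l hl
  have hv : ∀ a ∈ l, a < b + 1 := fun a ha => Order.lt_add_one_iff.mpr (h1 a ha)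
  exact ⟨mk (b + 1) n l, h.2 _ (h.succ_lt hb) _ _ hv, num_mk hv, par_mk hv⟩

theorem Sj.union {lam : Ord} (hl : Clos lam) {S T : Set Ord} (hS : Sj A lam S) (hT : Sj A lam T) :
    Sj A lam (S ∪ T) := by
  classical
  obtain ⟨x, hx⟩ := hS
  obtain ⟨y, hy⟩ := hT
  have h1 := DfnF.ite (A := A) (P := fun U e => ent (e 0) 0 = 0)
    (f := fun U e => val A (e 1) (ent (e 0) 1)) (g := fun U e => val A (e 2) (ent (e 0) 1))
    (by apply_rules (transparency := .reducible) (maxDepth := 1000) using is_poly) (by apply_rules (transparency := .reducible) (maxDepth := 1000) using is_poly) (by apply_rules (transparency := .reducible) (maxDepth := 1000) using is_poly)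
  have h0 : 0 < lam := Ordinal.omega0_pos.trans hl.1
  have h01 : 1 < lam := by simpa using hl.succ_lt h0
  refine Sj.of_fun h1 (cons x (cons y fun _ => 0)) fun w hw => ?_
  rcases hw with hw | hw
  · obtain ⟨i, hi, h2⟩ := hx w hw
    refine ⟨pr 0 i, hl.pr_lt h0 hi, ?_⟩
    have e1 : ent (pr 0 i) 0 = 0 := ent_pr_zero _ _
    refine (if_pos e1).trans ?_
    show val A x (ent (pr 0 i) 1) = w
    rw [ent_pr_one, h2]
  · obtain ⟨i, hi, h2⟩ := hy w hw
    refine ⟨pr 1 i, hl.pr_lt h01 hi, ?_⟩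
    have e1 : ¬ ent (pr 1 i) 0 = 0 := by
      rw [ent_pr_zero]
      exact one_ne_zero
    refine (if_neg e1).trans ?_
    show val A y (ent (pr 1 i) 1) = w
    rw [ent_pr_one, h2]

theorem Sj.singleton {lam : Ord} (h0 : 0 < lam) (a : Ord) : Sj A lam {a} := by
  have h1 : DfnF A GG fun U e => e 1 := by apply_rules (transparency := .reducible) (maxDepth := 1000) using is_poly
  exact Sj.of_fun h1 (cons a fun _ => 0) fun w hw => ⟨0, h0, hw.symm⟩

theorem Sj.iio_succ {lam γ : Ord} (hl : Clos lam) (h : Sj A lam (Iio γ)) :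
    Sj A lam (Iio (γ + 1)) := by
  refine (h.union hl (Sj.singleton (Ordinal.omega0_pos.trans hl.1) γ)).mono le_rfl ?_
  intro w hw
  have hw' : w < γ + 1 := hw
  rcases (Order.lt_add_one_iff.mp hw').eq_or_lt with h1 | h1
  · exact Or.inr h1
  · exact Or.inl h1

theorem exists_preimage_list {lam : Ord} {G : Ord → Ord} {k : List Ord}
    (h : ∀ b ∈ k, ∃ i < lam, G i = b) : ∃ l : List Ord, (∀ a ∈ l, a < lam) ∧ l.map G = k := by
  induction k with
  | nil => exact ⟨[], by simp, rfl⟩
  | cons b k ih =>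
    obtain ⟨l, h1, h2⟩ := ih fun c hc => h c (List.mem_cons_of_mem _ hc)
    obtain ⟨i, hi, hib⟩ := h b List.mem_cons_self
    refine ⟨i :: l, ?_, ?_⟩
    · intro c hc
      rcases List.mem_cons.mp hc with rfl | hc
      · exact hi
      · exact h1 c hc
    · rw [List.map_cons, hib, h2]

/-- Entries determine the list. -/
theorem par_eq_of_ent {y : Ord} {l : List Ord} (h1 : ((par y).length : Ord) = l.length)
    (h2 : ∀ m : ℕ, m < l.length → ent y m = l.getD m 0) : par y = l := by
  have h1' : (par y).length = l.length := by exact_mod_cast h1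
  apply List.ext_getElem h1'
  intro m hm hm'
  have h3 := h2 m hm'
  rw [ent_nat, List.getD_eq_getElem?_getD, List.getD_eq_getElem?_getD,
    List.getElem?_eq_getElem hm, List.getElem?_eq_getElem hm'] at h3
  simpa using h3

theorem nat_of_lt {i : Ord} {k : ℕ} (h : i < (k : Ord)) : ∃ m : ℕ, i = m ∧ m < k := by
  obtain ⟨m, rfl⟩ := Ordinal.lt_omega0.mp (h.trans (Ordinal.natCast_lt_omega0 k))
  exact ⟨m, rfl, by exact_mod_cast h⟩

/-- The codes of tuples of level at most `γ` are an internal image of `lam`, if `γ` is. -/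
theorem Sj.codes {lam γ : Ord} (hl : Clos lam) (h : Sj A lam (Iio γ)) :
    Sj A lam (Iio (mk (γ + 1) 0 [])) := by
  obtain ⟨x, hx⟩ := h.iio_succ hl
  have h1 : DfnF A GG fun U e => sInf {y | lev y = val A (e 1) (ent (e 0) 0) ∧
      (num y : Ord) = num (e 0) ∧ ((par y).length : Ord) + 1 = (par (e 0)).length ∧
      ∀ m < ((par y).length : Ord), ent y m = val A (e 1) (ent (e 0) (m + 1))} := by apply_rules (transparency := .reducible) (maxDepth := 1000) using is_poly
  refine Sj.of_fun h1 (cons x fun _ => 0) fun w hw => ?_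
  have hlev : lev w < γ + 1 := by
    by_contra hcon
    push Not at hcon
    have h2 : mk (γ + 1) 0 [] ≤ w := by
      have h3 : mk (lev w) 0 [] ≤ mk (lev w) (num w) (par w) := mk_nil_le
      rw [mk_eta] at h3
      rcases hcon.eq_or_lt with h4 | h4
      · rw [h4]
        exact h3
      · exact (mk_lt_of_lev (n := 0) (n' := 0) (l := []) (l' := []) (by simp) h4).le.trans h3
    exact absurd hw (not_lt.mpr h2)
  obtain ⟨l, hl1, hl2⟩ := exists_preimage_list (lam := lam) (G := val A x) (k := lev w :: par w) (by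
    intro b hb
    apply hx
    rcases List.mem_cons.mp hb with rfl | hb
    · exact hlev
    · exact (par_lt hb).trans hlev)
  obtain ⟨c, hc, hc1, hc2⟩ := hl.exists_code (num w) l hl1
  refine ⟨c, hc, ?_⟩
  show sInf {y | lev y = val A x (ent c 0) ∧
      (num y : Ord) = num c ∧ ((par y).length : Ord) + 1 = (par c).length ∧
      ∀ m < ((par y).length : Ord), ent y m = val A x (ent c (m + 1))} = w
  have hlen : l.length = (par w).length + 1 := by
    have := congrArg List.length hl2
    simpa using this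
  have hval : ∀ m : ℕ, m < l.length → val A x (ent c m) = (lev w :: par w).getD m 0 := by
    intro m hm
    rw [← hl2, ent_nat, hc2, List.getD_eq_getElem?_getD, List.getD_eq_getElem?_getD,
      List.getElem?_map, List.getElem?_eq_getElem hm]
    rfl
  have hset : {y | lev y = val A x (ent c 0) ∧ (num y : Ord) = num c ∧
      ((par y).length : Ord) + 1 = (par c).length ∧
      ∀ m < ((par y).length : Ord), ent y m = val A x (ent c (m + 1))} = {w} := by
    have e0 : val A x (ent c 0) = lev w := by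
      have := hval 0 (by omega)
      simpa using this
    have e1 : ∀ m : ℕ, m < (par w).length → val A x (ent c ((m : Ord) + 1)) = (par w).getD m 0 := by
      intro m hm
      have := hval (m + 1) (by omega)
      rw [List.getD_cons_succ] at this
      push_cast at this
      exact this
    ext y
    simp only [Set.mem_ofPred_eq, Set.mem_singleton_iff]
    rw [e0, hc1, hc2, hlen]
    constructor
    · rintro ⟨g1, g2, g3, g4⟩
      have g3' : (par y).length = (par w).length := by
        have : (par y).length + 1 = (par w).length + 1 := by exact_mod_cast g3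
        omega
      refine ext_tup g1 (by exact_mod_cast g2) (par_eq_of_ent (by rw [g3']) ?_)
      intro m hm
      rw [g4 m (by rw [g3']; exact_mod_cast hm), e1 m hm]
    · rintro rfl
      refine ⟨rfl, rfl, by push_cast; rfl, ?_⟩
      intro m hm
      obtain ⟨k, rfl, hk⟩ := nat_of_lt hm
      rw [e1 k hk, ent_nat]
  rw [hset, csInf_singleton]

/-- `ω₁`. -/
noncomputable abbrev O1 : Ord := (Cardinal.aleph 1).ord

theorem lt_O1_iff {x : Ord} : x < O1 ↔ (Iio x).Countable := by
  rw [Cardinal.lt_ord, ← Cardinal.le_aleph0_iff_set_countable, Cardinal.mk_Iio_ordinal,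
    ← Cardinal.succ_aleph0, Order.lt_succ_iff, Cardinal.lift_le_aleph0]

theorem omega_lt_O1 : ω < O1 := by
  rw [lt_O1_iff, ← Cardinal.le_aleph0_iff_set_countable, Cardinal.mk_Iio_ordinal,
    Ordinal.card_omega0, Cardinal.lift_aleph0]

theorem clos_O1 : Clos O1 := by
  refine ⟨omega_lt_O1, fun γ hγ n l hl => ?_⟩
  rw [lt_O1_iff] at hγ ⊢
  have hc : (Iic γ).Countable := by
    have : Iic γ = insert γ (Iio γ) := by
      ext x
      simp only [Set.mem_Iic, Set.mem_insert_iff, Set.mem_Iio]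
      exact le_iff_eq_or_lt
    rw [this]
    exact hγ.insert γ
  have : Countable (Iic γ) := hc
  have hle : ∀ x : Iio (mk γ n l), lev x.1 ≤ γ := by
    intro x
    have := lev_mono x.2.le
    rwa [lev_mk hl] at this
  let F : Iio (mk γ n l) → Iic γ × ℕ × List (Iic γ) := fun x =>
    (⟨lev x.1, hle x⟩, num x.1, (par x.1).attach.map fun a => ⟨a.1, (par_lt a.2).le.trans (hle x)⟩)
  have hF : Function.Injective F := by
    intro x y hxy
    simp only [F, Prod.mk.injEq] at hxy
    obtain ⟨h1, h2, h3⟩ := hxy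
    have h1 : lev x.1 = lev y.1 := congrArg Subtype.val h1
    have h4 := congrArg (List.map Subtype.val) h3
    rw [List.map_map, List.map_map] at h4
    have e1 : par x.1 = par y.1 := by simpa [Function.comp_def] using h4
    exact Subtype.ext (ext_tup h1 h2 e1)
  exact hF.countable

theorem clos_of_mc {μ : Ord} (hμ : MC A μ) (h1 : O1 ≤ μ) : Clos μ := by
  induction μ using WellFoundedLT.induction with
  | ind μ ih =>
    rcases h1.eq_or_lt with rfl | h1
    · exact clos_O1
    refine ⟨omega_lt_O1.trans h1, fun γ hγ n l hl => ?_⟩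
    rcases lt_or_ge γ O1 with h2 | h2
    · exact (clos_O1.2 γ h2 n l hl).trans h1
    · set S := {lam | Sj A lam (Iio γ)} with hS
      have hm : sInf S ∈ S := csInf_mem ⟨γ, Sj.refl γ⟩
      set lam := sInf S with hlam
      have h3 : lam ≤ γ := csInf_le' (Sj.refl γ : γ ∈ S)
      have h4 : MC A lam := by
        intro α hα h5
        have : α ∈ S := h5.trans hm
        exact absurd (csInf_le' this) (not_le.mpr hα)
      have h5 : O1 ≤ lam := by
        by_contra hcon
        push Not at hcon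
        have h6 : Sj A lam (Iio O1) := Sj.mono hm le_rfl (Iio_subset_Iio h2)
        exact mc_of_card lam hcon h6
      have h6 : Clos lam := ih lam (h3.trans_lt hγ) h4 h5
      have h7 : Sj A lam (Iio (mk (γ + 1) 0 [])) := Sj.codes h6 hm
      by_contra hcon
      push Not at hcon
      refine hμ lam (h3.trans_lt hγ) (h7.mono le_rfl (Iio_subset_Iio ?_))
      refine hcon.trans (mk_lt_of_lev hl ?_).le
      exact lt_add_one γ

end Pool.Agent.Lib.MP_7295f2_lc.LA

end
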