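import Pool.Agent.Lib.MP_7295f2_lc.LCond

section

/-!
# Square, part 1: the clubs `CC`
-/

open Ordinal Set

set_option linter.unusedVariables false
set_option linter.unusedSectionVars false

namespace Pool.Agent.Lib.MP_7295f2_lc.LA

variable {A : Ord → Ord → Ord → Prop} {κ δ ζ η y : Ord} {l : List Ord} {F : Set Ord}

/-- `S` is cofinal in `η` (or contains an element above). -/
def Cof (S : Set Ord) (η : Ord) : Prop := ∀ β < η, ∃ x ∈ S, β ≤ x

theorem Cof.mono {S T : Set Ord} (h : Cof S η) (hST : S ⊆ T) : Cof T η := fun β hβ => by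
  obtain ⟨x, hx, hx'⟩ := h β hβ
  exact ⟨x, hST hx, hx'⟩

theorem not_cof {S : Set Ord} : ¬ Cof S η ↔ ∃ β < η, ∀ x ∈ S, x < β := by
  unfold Cof
  push Not
  rfl

/-- The step at which `Iio y` is generated. -/
noncomputable def St (A : Ord → Ord → Ord → Prop) (κ : Ord) (l : List Ord) (y : Ord) : Ord :=
  sInf {η | (∀ a ∈ l, a < η) ∧ ∀ v < y, v ∈ cl A η (gen κ l)}

theorem st_le (h1 : ∀ a ∈ l, a < η) (h2 : ∀ v < y, v ∈ cl A η (gen κ l)) : St A κ l y ≤ η :=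
  csInf_le' (s := {η | (∀ a ∈ l, a < η) ∧ ∀ v < y, v ∈ cl A η (gen κ l)}) ⟨h1, h2⟩

theorem st_of_exists (h : ∃ η, (∀ a ∈ l, a < η) ∧ ∀ v < y, v ∈ cl A η (gen κ l)) :
    (∀ a ∈ l, a < St A κ l y) ∧ ∀ v < y, v ∈ cl A (St A κ l y) (gen κ l) :=
  csInf_mem (s := {η | (∀ a ∈ l, a < η) ∧ ∀ v < y, v ∈ cl A η (gen κ l)}) h

/-- The situation at a point `δ`. -/
structure Frm (A : Ord → Ord → Ord → Prop) (κ δ ζ : Ord) (l : List Ord) : Prop where
  ctb : Ctb A
  hκ1 : O1 ≤ κ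
  hκ : Clos κ
  hδ : δ ∈ Ec A κ
  lim : Order.IsSuccLimit ζ
  lt : δ < ζ
  par : ∀ a ∈ l, a < ζ
  gen : ∀ v < ζ, v ∈ cl A ζ (gen κ l)
  min : ∀ η < ζ, ¬ Zp A κ δ η

/-- The clubs, before cutting down their order type. -/
def CC (A : Ord → Ord → Ord → Prop) (κ : Ord) (F : Set Ord) (l : List Ord) (δ : Ord) : Set Ord :=
  {y | y ∈ F ∧ y < δ ∧ ∀ v ∈ cl A (St A κ l y) (gen κ l), v < δ → v < y}

namespace Frm

variable (h : Frm A κ δ ζ l)

include h

theorem lt' : κ < ζ := h.hδ.1.trans h.lt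

theorem omega_le : ω ≤ ζ := h.hκ.1.le.trans h.lt'.le

theorem exists_st (hy : y < δ) : ∃ η < ζ, (∀ a ∈ l, a < η) ∧ ∀ v < y, v ∈ cl A η (LA.gen κ l) := by
  obtain ⟨h1, c, h2, h3⟩ := zc_spec (A := A) h.hκ (hy.trans h.hδ.2.1)
  have hz : zc A κ y < δ := h.hδ.2.2.2 y hy
  have hcδ : c < δ := by
    have h4 := mk_lt_of_lev (n := num c) (n' := 0) (l := LA.par c) (l' := [])
      (fun a ha => par_lt ha) (lt_add_one (lev c))
    rw [mk_eta, h2] at h4
    exact h4.trans (h.hδ.2.2.1 _ hz)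
  obtain ⟨η₁, h5, h6⟩ := cl_cont h.lim (h.gen c (hcδ.trans h.lt))
  obtain ⟨b, hb, h7⟩ := exists_list_bound h.lim.bot_lt l h.par
  refine ⟨max (Order.succ b) η₁, max_lt (h.lim.succ_lt hb) h5, fun a ha => ?_, fun v hv => ?_⟩
  · exact (Order.lt_succ_iff.mpr (h7 a ha)).trans_le (le_max_left _ _)
  · apply cl_mono (le_max_right (Order.succ b) η₁) Subset.rfl
    have h8 : lev c ∈ cl A η₁ (LA.gen κ l) := Cl.lev h6
    rw [h2] at h8
    refine cl_idem_subset (cl_lt h8).le ?_ (h3 v hv)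
    rintro w (hw | hw) hwz
    · exact Cl.base (Or.inl hw) (hwz.trans (cl_lt h8))
    · exact Cl.par h6 hw

theorem st_spec (hy : y < δ) : St A κ l y < ζ ∧ (∀ a ∈ l, a < St A κ l y) ∧
    ∀ v < y, v ∈ cl A (St A κ l y) (LA.gen κ l) := by
  obtain ⟨η, h1, h2, h3⟩ := h.exists_st hy
  exact ⟨(st_le h2 h3).trans_lt h1, st_of_exists ⟨η, h2, h3⟩⟩

theorem st_mono {y y' : Ord} (hy : y' < δ) (hyy : y ≤ y') : St A κ l y ≤ St A κ l y' := by
  obtain ⟨_, h2, h3⟩ := h.st_spec hy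
  exact st_le h2 fun v hv => h3 v (hv.trans_le hyy)

theorem st_cof (hy : y < δ) : Cof (cl A (St A κ l y) (LA.gen κ l)) (St A κ l y) := by
  by_contra hcon
  obtain ⟨β, hβ, h1⟩ := not_cof.mp hcon
  obtain ⟨_, h2, h3⟩ := h.st_spec hy
  have h4 := cl_eq_of_subset (A := A) (Y := LA.gen κ l) hβ.le fun x hx => h1 x hx
  have h5 : St A κ l y ≤ β := by
    refine st_le (fun a ha => h1 a (Cl.base (Or.inr ha) (h2 a ha))) fun v hv => ?_
    rw [← h4]
    exact h3 v hv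
  exact absurd hβ (not_lt.mpr h5)

theorem bdd (hη : η < ζ) : ∃ b < δ, ∀ v ∈ cl A η (LA.gen κ l), v < δ → v < b := by
  by_contra hcon
  push Not at hcon
  have hκδ : κ + 1 < δ := by
    have := h.hδ.2.2.1 κ h.hδ.1
    exact (le_mk _ _ _).trans_lt this
  obtain ⟨h1, h2, h3⟩ := h.st_spec hκδ
  set η' := max η (St A κ l (κ + 1)) with hη'
  have hη'ζ : η' < ζ := max_lt hη h1
  have h3' : ∀ v < κ + 1, v ∈ cl A η' (LA.gen κ l) := fun v hv =>
    cl_mono (le_max_right _ _) Subset.rfl (h3 v hv)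
  have hub : ∀ b < δ, ∃ y ∈ cl A η' (LA.gen κ l), b < y ∧ y < δ := by
    intro b hb
    obtain ⟨v, g1, g2, g3⟩ := hcon (b + 1) ((le_mk _ 0 []).trans_lt (h.hδ.2.2.1 b hb))
    exact ⟨v, cl_mono (le_max_left _ _) Subset.rfl g1, (lt_add_one b).trans_le g3, g2⟩
  have hδη : δ ≤ η' := by
    by_contra hlt
    push Not at hlt
    obtain ⟨v, g1, g2, _⟩ := hub _ hlt
    exact absurd (cl_lt g1) (not_lt.mpr g2.le)
  have h4 := M7 h.hκ (clsd_cl (A := A) (Y := LA.gen κ l))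
    (fun v hv => h3' v ((Set.mem_Iio.mp hv).trans (lt_add_one κ))) (h3' κ (lt_add_one κ)) h.hδ hδη hub
  refine h.min η' hη'ζ (Zp.of_list hδη (fun a ha => ?_) fun v hv => h4 hv)
  exact (h2 a ha).trans_le (le_max_right _ _)

theorem cc_lt {y y' : Ord} (hy : y ∈ CC A κ F l δ) (hy' : y' < δ) (hyy : y < y') :
    St A κ l y < St A κ l y' := by
  refine lt_of_le_of_ne (h.st_mono hy' hyy.le) fun heq => ?_
  obtain ⟨_, _, h3⟩ := h.st_spec hy'
  have h4 := h3 y hyy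
  rw [← heq] at h4
  exact lt_irrefl _ (hy.2.2 y h4 hy.2.1)

/-- The steps of the earlier points of the club are cofinal in the step of a limit point. -/
theorem cc_cof (hy : y < δ) (hacc : IsAcc (CC A κ F l δ) y) {η : Ord} (hη : η < St A κ l y) :
    ∃ y' ∈ CC A κ F l δ, y' < y ∧ η < St A κ l y' := by
  by_contra hcon
  push Not at hcon
  have h0 : 0 < y := pos_iff_ne_zero.mpr hacc.1
  refine absurd hη (not_lt.mpr (st_le (fun a ha => ?_) fun v hv => ?_))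
  · obtain ⟨y', g1, _, g2⟩ := hacc.2 0 h0
    exact ((h.st_spec (g2.trans hy)).2.1 a ha).trans_le (hcon y' g1 g2)
  · obtain ⟨y', g1, g2, g3⟩ := hacc.2 v hv
    exact cl_mono (hcon y' g1 g3) Subset.rfl ((h.st_spec (g3.trans hy)).2.2 v g2)

theorem st_lim (hy : y < δ) (hacc : IsAcc (CC A κ F l δ) y) :
    Order.IsSuccLimit (St A κ l y) := by
  have h0 : 0 < y := pos_iff_ne_zero.mpr hacc.1
  rw [Ordinal.isSuccLimit_iff]
  refine ⟨?_, fun a ha => ?_⟩
  · obtain ⟨y', g1, _, g2⟩ := hacc.2 0 h0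
    exact (lt_of_le_of_lt zero_le (h.cc_lt g1 hy g2)).ne'
  · obtain ⟨y', g1, g2, g3⟩ := h.cc_cof hy hacc ha.lt
    exact ha.2 g3 (h.cc_lt g1 hy g2)

theorem cc_mem_of (hy : y < δ) (hacc : IsAcc (CC A κ F l δ) y) {v : Ord}
    (hv : v ∈ cl A (St A κ l y) (LA.gen κ l)) :
    ∃ y' ∈ CC A κ F l δ, y' < y ∧ v ∈ cl A (St A κ l y') (LA.gen κ l) := by
  obtain ⟨η', h1, h2⟩ := cl_cont (h.st_lim hy hacc) hv
  obtain ⟨y', g1, g2, g3⟩ := h.cc_cof hy hacc h1
  exact ⟨y', g1, g2, cl_mono g3.le Subset.rfl h2⟩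

/-- A list version of the previous fact. -/
theorem cc_mem_of_list (hy : y < δ) (hacc : IsAcc (CC A κ F l δ) y) {k : List Ord}
    (hk : ∀ v ∈ k, v ∈ cl A (St A κ l y) (LA.gen κ l)) :
    ∃ y' ∈ CC A κ F l δ, y' < y ∧ ∀ v ∈ k, v ∈ cl A (St A κ l y') (LA.gen κ l) := by
  obtain ⟨η', h1, h2⟩ := exists_common (h.st_lim hy hacc)
    (P := fun a b => a ∈ cl A b (LA.gen κ l)) (fun a b b' hb ha => cl_mono hb Subset.rfl ha)
    (l := k) fun a ha => by
      obtain ⟨η', h3, h4⟩ := cl_cont (h.st_lim hy hacc) (hk a ha)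
      exact ⟨η', h3, h4⟩
  obtain ⟨y', g1, g2, g3⟩ := h.cc_cof hy hacc h1
  exact ⟨y', g1, g2, fun v hv => cl_mono g3.le Subset.rfl (h2 v hv)⟩

theorem cc_closed (hF : ∀ y < δ, IsAcc F y → y ∈ F) (hy : y < δ)
    (hacc : IsAcc (CC A κ F l δ) y) : y ∈ CC A κ F l δ := by
  refine ⟨hF y hy ⟨hacc.1, fun x hx => ?_⟩, hy, fun v hv hvδ => ?_⟩
  · obtain ⟨y', g1, g2, g3⟩ := hacc.2 x hx
    exact ⟨y', g1.1, g2, g3⟩
  · obtain ⟨y', g1, g2, g3⟩ := h.cc_mem_of hy hacc hv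
    exact (g1.2.2 v g3 hvδ).trans g2

end Frm

/-- The situation at a limit point `y` of the club at `δ`. -/
structure Lim (A : Ord → Ord → Ord → Prop) (κ δ ζ : Ord) (l : List Ord) (F : Set Ord) (y : Ord) :
    Prop where
  frm : Frm A κ δ ζ l
  hy : y < δ
  mem : y ∈ CC A κ F l δ
  acc : IsAcc (CC A κ F l δ) y
  κlt : κ < y

namespace Lim

/-- The set which is collapsed. -/
def X (A : Ord → Ord → Ord → Prop) (κ : Ord) (l : List Ord) (y : Ord) : Set Ord :=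
  cl A (St A κ l y) (gen κ l)

variable (h : Lim A κ δ ζ l F y)

include h

theorem iio_sub : Iio y ⊆ X A κ l y := fun v hv => (h.frm.st_spec h.hy).2.2 v hv

theorem lt_iff {v : Ord} (hv : v ∈ X A κ l y) : v < δ ↔ v < y :=
  ⟨fun h1 => h.mem.2.2 v hv h1, fun h1 => h1.trans h.hy⟩

theorem id_of_le {v : Ord} (hv : v ≤ y) : otp (X A κ l y) v = v :=
  otp_eq_self ((Iio_subset_Iio hv).trans h.iio_sub)

theorem lt_of_otp_lt {v : Ord} (hv : otp (X A κ l y) v < y) : v < y := by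
  by_contra hcon
  have h1 := otp_mono (S := X A κ l y) (not_lt.mp hcon)
  rw [h.id_of_le le_rfl] at h1
  exact absurd hv (not_lt.mpr h1)

theorem clsd : Clsd A (St A κ l y) (X A κ l y) := clsd_cl

theorem kap_sub : Iio κ ⊆ X A κ l y := (Iio_subset_Iio h.κlt.le).trans h.iio_sub

theorem y_le : y ≤ St A κ l y := by
  by_contra hcon
  exact absurd (cl_lt (h.iio_sub (not_le.mp hcon))) (lt_irrefl _)

theorem omega_le : ω ≤ St A κ l y := h.frm.hκ.1.le.trans (h.κlt.le.trans h.y_le)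

theorem par_sub : ∀ a ∈ l, a ∈ X A κ l y := fun a ha =>
  Cl.base (Or.inr ha) ((h.frm.st_spec h.hy).2.1 a ha)

theorem collapse {z : Ord} {k : List Ord} (hz : z ≤ St A κ l y) (hk : ∀ a ∈ k, a ∈ X A κ l y) :
    otp (X A κ l y) '' cl A z (gen κ k) =
      cl A (otp (X A κ l y) z) (gen κ (k.map (otp (X A κ l y)))) :=
  collapse_cl h.frm.ctb h.frm.hκ1 h.clsd h.omega_le h.kap_sub hz hk

theorem image : otp (X A κ l y) '' X A κ l y = Iio (otp (X A κ l y) (St A κ l y)) := by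
  ext w
  constructor
  · rintro ⟨v, hv, rfl⟩
    exact otp_lt_otp hv (cl_lt hv)
  · intro hw
    obtain ⟨v, hv, _, hvw⟩ := exists_otp_eq (Set.mem_Iio.mp hw)
    exact ⟨v, hv, hvw⟩

theorem gen_top : cl A (otp (X A κ l y) (St A κ l y)) (gen κ (l.map (otp (X A κ l y)))) =
    Iio (otp (X A κ l y) (St A κ l y)) := by
  rw [← h.collapse le_rfl h.par_sub]
  exact h.image

theorem sub_of_mem {z : Ord} {k : List Ord} (hz : z ≤ St A κ l y) (hk : ∀ a ∈ k, a ∈ X A κ l y) :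
    cl A z (gen κ k) ⊆ X A κ l y := by
  refine cl_subset h.clsd hz ?_
  rintro w (hw | hw) _
  · exact h.kap_sub hw
  · exact hk w hw

/-- Elements below `y` of the collapse of a subset. -/
theorem mem_of_otp {S : Set Ord} (hS : S ⊆ X A κ l y) {v : Ord} (hv : v < y)
    (hvS : v ∈ otp (X A κ l y) '' S) : v ∈ S := by
  obtain ⟨w, hw, hwv⟩ := hvS
  have h1 : otp (X A κ l y) w = otp (X A κ l y) v := by rw [hwv, h.id_of_le hv.le]
  have h2 := otp_injOn _ (hS hw) (h.iio_sub hv) h1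
  rwa [← h2]

theorem y_le' : y ≤ otp (X A κ l y) (St A κ l y) := by
  have := otp_mono (S := X A κ l y) h.y_le
  rwa [h.id_of_le le_rfl] at this

theorem cof : Cof (X A κ l y) (St A κ l y) := h.frm.st_cof h.hy

theorem zc_eq : zc A κ y = otp (X A κ l y) (St A κ l y) := by
  set π := otp (X A κ l y) with hπ
  set η := St A κ l y with hη
  apply le_antisymm
  · refine zc_le (Zp.of_list (l := l.map π) h.y_le' ?_ ?_)
    · intro a ha
      obtain ⟨b, hb, rfl⟩ := List.mem_map.mp ha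
      exact otp_lt_otp (h.par_sub b hb) (cl_lt (h.par_sub b hb))
    · intro v hv
      rw [h.gen_top]
      exact hv.trans_le h.y_le'
  · by_contra hcon
    push Not at hcon
    obtain ⟨h1, c, h2, h3⟩ := zc_spec (A := A) h.frm.hκ (h.hy.trans h.frm.hδ.2.1)
    obtain ⟨z', hz', hz'η, hz'z⟩ := exists_otp_eq hcon
    obtain ⟨k, hk1, hk2⟩ := exists_list_map (X := X A κ l y) (y := z') hz'z.ge (LA.par c)
      (fun b hb => h2 ▸ par_lt hb)
    obtain ⟨y', g1, g2, g3⟩ := h.frm.cc_mem_of_list h.hy h.acc (k := z' :: k) (by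
      intro v hv
      rcases List.mem_cons.mp hv with rfl | hv
      · exact hz'
      · exact hk1 v hv)
    have hz'y := g3 z' List.mem_cons_self
    have h4 : cl A z' (gen κ k) ⊆ cl A (St A κ l y') (gen κ l) := by
      refine cl_idem_subset (cl_lt hz'y).le ?_
      rintro w (hw | hw) hwz
      · exact Cl.base (Or.inl hw) (hwz.trans (cl_lt hz'y))
      · exact g3 w (List.mem_cons_of_mem _ hw)
    have h5 : y' ∈ cl A z' (gen κ k) := by
      apply h.mem_of_otp (h.sub_of_mem hz'η.le hk1) g2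
      rw [h.collapse hz'η.le hk1, hz'z, hk2]
      exact h3 y' g2
    exact lt_irrefl _ (g1.2.2 y' (h4 h5) g1.2.1)

/-- The steps below `y`, computed in the collapse. -/
theorem st_eq {y' : Ord} (hy' : y' ≤ y) :
    St A κ (l.map (otp (X A κ l y))) y' = otp (X A κ l y) (St A κ l y') := by
  set π := otp (X A κ l y) with hπ
  have hy'δ := hy'.trans_lt h.hy
  obtain ⟨_, h1, h2⟩ := h.frm.st_spec hy'δ
  have hle : St A κ l y' ≤ St A κ l y := h.frm.st_mono h.hy hy'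
  have g1 : ∀ a ∈ l.map π, a < π (St A κ l y') := by
    intro a ha
    obtain ⟨b, hb, rfl⟩ := List.mem_map.mp ha
    exact otp_lt_otp (h.par_sub b hb) (h1 b hb)
  have g2 : ∀ v < y', v ∈ cl A (π (St A κ l y')) (gen κ (l.map π)) := by
    intro v hv
    rw [← h.collapse hle h.par_sub]
    exact ⟨v, h2 v hv, h.id_of_le (hv.le.trans hy')⟩
  apply le_antisymm (st_le g1 g2)
  by_contra hcon
  push Not at hcon
  obtain ⟨g3, g4⟩ := st_of_exists (A := A) (κ := κ) (l := l.map π) (y := y') ⟨_, g1, g2⟩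
  obtain ⟨b, hb, hbη, hbz⟩ := exists_otp_eq hcon
  have g5 : St A κ l y' ≤ b := by
    refine st_le (fun a ha => ?_) fun v hv => ?_
    · have := g3 _ (List.mem_map_of_mem ha)
      rw [← hbz] at this
      exact (otp_lt_iff (h.par_sub a ha)).mp this
    · apply h.mem_of_otp (h.sub_of_mem (hbη.le.trans hle) h.par_sub) (hv.trans_le hy')
      rw [h.collapse (hbη.le.trans hle) h.par_sub, hbz]
      exact g4 v hv
  exact absurd hbη (not_lt.mpr g5)

/-- Coherence of the clubs. -/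
theorem cc_eq : CC A κ F (l.map (otp (X A κ l y))) y = CC A κ F l δ ∩ Iio y := by
  set π := otp (X A κ l y) with hπ
  ext y'
  have key : y' < y → ((∀ v ∈ cl A (St A κ (l.map π) y') (gen κ (l.map π)), v < y → v < y') ↔
      ∀ v ∈ cl A (St A κ l y') (gen κ l), v < δ → v < y') := by
    intro hy'
    have hle : St A κ l y' ≤ St A κ l y := h.frm.st_mono h.hy hy'.le
    rw [h.st_eq hy'.le, ← h.collapse hle h.par_sub]
    constructor
    · intro h1 v hv hvδ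
      have hvX := h.sub_of_mem hle h.par_sub hv
      have hvy := (h.lt_iff hvX).mp hvδ
      have h2 := h1 (otp (X A κ l y) v) ⟨v, hv, rfl⟩
      rw [h.id_of_le hvy.le] at h2
      exact h2 hvy
    · rintro h1 _ ⟨v, hv, rfl⟩ hvy
      have hvy' := h.lt_of_otp_lt hvy
      rw [h.id_of_le hvy'.le]
      exact h1 v hv (hvy'.trans h.hy)
  constructor
  · rintro ⟨h1, h2, h3⟩
    exact ⟨⟨h1, h2.trans h.hy, (key h2).mp h3⟩, h2⟩
  · rintro ⟨⟨h1, h2, h3⟩, h4⟩
    exact ⟨h1, h4, (key h4).mpr h3⟩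

end Lim

end Pool.Agent.Lib.MP_7295f2_lc.LA

end

section

/-!
# Square, part 2: cutting down the order type
-/

open Ordinal Set

set_option linter.unusedVariables false
set_option linter.unusedSectionVars false

namespace Pool.Agent.Lib.MP_7295f2_lc.LA

variable {A : Ord → Ord → Ord → Prop} {κ δ ζ η y : Ord} {l m : List Ord} {F : Set Ord}

/-- `Iio ξ`, the entries of `l`, and the entries of `m` which are at least `e`. -/
def gq (ξ : Ord) (l m : List Ord) (e : Ord) : Set Ord := {a | a < ξ ∨ a ∈ l ∨ (a ∈ m ∧ e ≤ a)}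

theorem gq_congr {ξ e : Ord} {m' : List Ord} (h : ∀ a, e ≤ a → (a ∈ m ↔ a ∈ m')) :
    gq ξ l m e = gq ξ l m' e := by
  ext a
  simp only [gq, Set.mem_ofPred_eq]
  constructor
  · rintro (h1 | h1 | ⟨h1, h2⟩)
    · exact Or.inl h1
    · exact Or.inr (Or.inl h1)
    · exact Or.inr (Or.inr ⟨(h a h2).mp h1, h2⟩)
  · rintro (h1 | h1 | ⟨h1, h2⟩)
    · exact Or.inl h1
    · exact Or.inr (Or.inl h1)
    · exact Or.inr (Or.inr ⟨(h a h2).mpr h1, h2⟩)

theorem gq_mono {ξ ξ' e : Ord} (h : ξ ≤ ξ') : gq ξ l m e ⊆ gq ξ' l m e := by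
  rintro a (h1 | h1)
  · exact Or.inl (h1.trans_le h)
  · exact Or.inr h1

/-- The descent set. -/
def IsQ (A : Ord → Ord → Ord → Prop) (κ ζ : Ord) (l m : List Ord) : Prop :=
  (∀ e ∈ m, e < κ ∧ ¬ Cof (cl A ζ (gq e l m (e + 1))) ζ ∧
    Cof (cl A ζ (gq (e + 1) l m (e + 1))) ζ) ∧
  ∀ ξ, Cof (cl A ζ (gq (ξ + 1) l m 0)) ζ → Cof (cl A ζ (gq ξ l m 0)) ζ

theorem Cof.cl_mono {S T : Set Ord} (h : Cof (cl A ζ S) η) (hST : S ⊆ T) : Cof (cl A ζ T) η :=
  h.mono (LA.cl_mono le_rfl hST)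

theorem IsQ.cof_mem (h : IsQ A κ ζ l m) {e : Ord} (he : e ∈ m) :
    Cof (cl A ζ (gq e l m 0)) ζ := by
  refine (h.1 e he).2.2.cl_mono ?_
  rintro a (h1 | h1 | ⟨h1, h2⟩)
  · rcases (Order.lt_add_one_iff.mp h1).eq_or_lt with h3 | h3
    · rw [h3]
      exact Or.inr (Or.inr ⟨he, zero_le⟩)
    · exact Or.inl h3
  · exact Or.inr (Or.inl h1)
  · exact Or.inr (Or.inr ⟨h1, zero_le⟩)

theorem IsQ.aux {m' : List Ord} (h : IsQ A κ ζ l m) (h' : IsQ A κ ζ l m') {e : Ord} (he : e ∈ m)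
    (he' : e ∉ m') (hmax : ∀ b, e < b → (b ∈ m ↔ b ∈ m')) : False := by
  have heq : ∀ ξ, gq ξ l m (e + 1) = gq ξ l m' (e + 1) := fun ξ =>
    gq_congr fun a ha => hmax a ((lt_add_one e).trans_le ha)
  obtain ⟨_, h1, h2⟩ := h.1 e he
  by_cases hex : ∃ e' ∈ m', e' < e
  · obtain ⟨e', he'1, he'2⟩ := Set.exists_max_image {b | b ∈ m' ∧ b < e} id
      ((List.finite_toSet m').subset fun b hb => hb.1) hex
    obtain ⟨_, _, h3⟩ := h'.1 e' he'1.1
    apply h1
    rw [heq]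
    refine h3.cl_mono ?_
    rintro a (g1 | g1 | ⟨g1, g2⟩)
    · exact Or.inl (g1.trans_le (Order.add_one_le_of_lt he'1.2))
    · exact Or.inr (Or.inl g1)
    · refine Or.inr (Or.inr ⟨g1, ?_⟩)
      apply Order.add_one_le_of_lt
      rcases lt_trichotomy a e with g3 | g3 | g3
      · have := he'2 a ⟨g1, g3⟩
        exact absurd ((lt_add_one e').trans_le g2) (not_lt.mpr this)
      · exact absurd (g3 ▸ g1) he'
      · exact g3
  · push Not at hex
    have heq2 : ∀ ξ, gq ξ l m' 0 = gq ξ l m' (e + 1) := by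
      intro ξ
      ext a
      simp only [gq, Set.mem_ofPred_eq]
      constructor
      · rintro (g1 | g1 | ⟨g1, g2⟩)
        · exact Or.inl g1
        · exact Or.inr (Or.inl g1)
        · refine Or.inr (Or.inr ⟨g1, Order.add_one_le_of_lt ?_⟩)
          exact lt_of_le_of_ne (hex a g1) fun h => he' (h ▸ g1)
      · rintro (g1 | g1 | ⟨g1, g2⟩)
        · exact Or.inl g1
        · exact Or.inr (Or.inl g1)
        · exact Or.inr (Or.inr ⟨g1, zero_le⟩)
    apply h1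
    rw [heq, ← heq2]
    apply h'.2
    rw [heq2, ← heq]
    exact h2

/-- Uniqueness of the descent set. -/
theorem IsQ.unique {m' : List Ord} (h : IsQ A κ ζ l m) (h' : IsQ A κ ζ l m') (a : Ord) :
    a ∈ m ↔ a ∈ m' := by
  by_contra hcon
  set S : Set Ord := {b | ¬ (b ∈ m ↔ b ∈ m')} with hS
  have hfin : S.Finite := by
    refine ((List.finite_toSet m).union (List.finite_toSet m')).subset ?_
    intro b hb
    by_contra hcon2
    simp only [Set.mem_union, Set.mem_ofPred_eq, not_or] at hcon2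
    exact hb ⟨fun h => absurd h hcon2.1, fun h => absurd h hcon2.2⟩
  obtain ⟨e, he1, he2⟩ := Set.exists_max_image S id hfin ⟨a, hcon⟩
  have hmax : ∀ b, e < b → (b ∈ m ↔ b ∈ m') := by
    intro b hb
    by_contra hb'
    exact absurd (he2 b hb') (not_le.mpr hb)
  by_cases h1 : e ∈ m
  · have h2 : e ∉ m' := fun h2 => he1 ⟨fun _ => h2, fun _ => h1⟩
    exact h.aux h' h1 h2 hmax
  · have h2 : e ∈ m' := by
      by_contra h2
      exact he1 ⟨fun h => absurd h h1, fun h => absurd h h2⟩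
    exact h'.aux h h2 h1 fun b hb => (hmax b hb).symm

/-- Existence of the descent set. -/
theorem exists_isQ (hκ : Cof (cl A ζ (gen κ l)) ζ) : ∃ m, IsQ A κ ζ l m := by
  set Λ : Set Ord := {ξ | ∃ m : List Ord, (∀ e ∈ m, e < κ ∧ ξ ≤ e ∧
    ¬ Cof (cl A ζ (gq e l m (e + 1))) ζ ∧ Cof (cl A ζ (gq (e + 1) l m (e + 1))) ζ) ∧
    Cof (cl A ζ (gq ξ l m 0)) ζ ∧ ∀ ξ' < ξ, ¬ Cof (cl A ζ (gq ξ' l m 0)) ζ} with hΛ
  have hleast : ∀ m ξ, Cof (cl A ζ (gq ξ l m 0)) ζ → ∃ ξ₀ ≤ ξ, Cof (cl A ζ (gq ξ₀ l m 0)) ζ ∧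
      ∀ ξ' < ξ₀, ¬ Cof (cl A ζ (gq ξ' l m 0)) ζ := by
    intro m ξ h
    refine ⟨sInf {ξ | Cof (cl A ζ (gq ξ l m 0)) ζ}, csInf_le' h, ?_, ?_⟩
    · exact csInf_mem (s := {ξ | Cof (cl A ζ (gq ξ l m 0)) ζ}) ⟨ξ, h⟩
    · intro ξ' hξ' h'
      exact absurd (csInf_le' (s := {ξ | Cof (cl A ζ (gq ξ l m 0)) ζ}) h') (not_le.mpr hξ')
  have hκ' : ∀ m, Cof (cl A ζ (gq κ l m 0)) ζ := by
    intro m
    refine hκ.cl_mono ?_
    rintro a (h1 | h1)
    · exact Or.inl h1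
    · exact Or.inr (Or.inl h1)
  have hne : Λ.Nonempty := by
    obtain ⟨ξ₀, _, h1, h2⟩ := hleast [] κ (hκ' [])
    exact ⟨ξ₀, [], by simp, h1, h2⟩
  obtain ⟨m, h1, h2, h3⟩ := csInf_mem hne
  set ξ₀ := sInf Λ with hξ₀
  have hξ₀κ : ξ₀ ≤ κ := by
    by_contra hcon
    exact h3 κ (not_le.mp hcon) (hκ' m)
  refine ⟨m, fun e he => ⟨(h1 e he).1, (h1 e he).2.2⟩, fun ξ hξ => ?_⟩
  by_contra hcon
  have h4 : ξ₀ = ξ + 1 := by
    apply le_antisymm
    · by_contra h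
      exact h3 _ (not_le.mp h) hξ
    · apply Order.add_one_le_of_lt
      by_contra h
      exact hcon (h2.cl_mono (gq_mono (not_lt.mp h)))
  have hξκ : ξ < κ := (lt_add_one ξ).trans_le (h4 ▸ hξ₀κ)
  have hm : ∀ e ∈ m, ξ < e := fun e he =>
    (lt_add_one ξ).trans_le (h4 ▸ (h1 e he).2.1)
  have e1 : ∀ ξ' e, ξ < e → gq ξ' l (ξ :: m) e = gq ξ' l m e := by
    intro ξ' e he
    apply gq_congr
    intro a ha
    rw [List.mem_cons]
    constructor
    · rintro (rfl | h)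
      · exact absurd he (not_lt.mpr ha)
      · exact h
    · exact Or.inr
  have e2 : ∀ ξ', gq ξ' l m (ξ + 1) = gq ξ' l m 0 := by
    intro ξ'
    ext a
    simp only [gq, Set.mem_ofPred_eq]
    constructor
    · rintro (g1 | g1 | ⟨g1, g2⟩)
      · exact Or.inl g1
      · exact Or.inr (Or.inl g1)
      · exact Or.inr (Or.inr ⟨g1, zero_le⟩)
    · rintro (g1 | g1 | ⟨g1, g2⟩)
      · exact Or.inl g1
      · exact Or.inr (Or.inl g1)
      · exact Or.inr (Or.inr ⟨g1, Order.add_one_le_of_lt (hm a g1)⟩)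
  have e3 : gq ξ l (ξ :: m) 0 = gq (ξ + 1) l m 0 := by
    ext a
    simp only [gq, Set.mem_ofPred_eq, List.mem_cons]
    constructor
    · rintro (g1 | g1 | ⟨g1 | g1, g2⟩)
      · exact Or.inl (g1.trans (lt_add_one ξ))
      · exact Or.inr (Or.inl g1)
      · exact Or.inl (by rw [g1]; exact lt_add_one ξ)
      · exact Or.inr (Or.inr ⟨g1, zero_le⟩)
    · rintro (g1 | g1 | ⟨g1, g2⟩)
      · rcases (Order.lt_add_one_iff.mp g1).eq_or_lt with g3 | g3
        · exact Or.inr (Or.inr ⟨Or.inl g3, zero_le⟩)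
        · exact Or.inl g3
      · exact Or.inr (Or.inl g1)
      · exact Or.inr (Or.inr ⟨Or.inr g1, zero_le⟩)
  have h5 : Cof (cl A ζ (gq ξ l (ξ :: m) 0)) ζ := by
    rw [e3]
    exact hξ
  obtain ⟨ξ₁, g1, g2, g3⟩ := hleast _ _ h5
  have h6 : ξ₁ ∈ Λ := by
    refine ⟨ξ :: m, fun e he => ?_, g2, g3⟩
    rcases List.mem_cons.mp he with rfl | he
    · refine ⟨hξκ, g1, ?_, ?_⟩
      · rw [e1 _ _ (lt_add_one _), e2]
        exact hcon
      · rw [e1 _ _ (lt_add_one _), e2]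
        exact hξ
    · obtain ⟨g4, g5, g6, g7⟩ := h1 e he
      refine ⟨g4, g1.trans (hm e he).le, ?_, ?_⟩
      · rw [e1 _ _ ((hm e he).trans (lt_add_one e))]
        exact g6
      · rw [e1 _ _ ((hm e he).trans (lt_add_one e))]
        exact g7
  have h7 : ξ₀ ≤ ξ₁ := csInf_le' h6
  rw [h4] at h7
  exact absurd (h7.trans g1) (not_le.mpr (lt_add_one ξ))

/-- The witnessing condition. -/
def Wit (A : Ord → Ord → Ord → Prop) (κ ζ : Ord) (l m : List Ord) (y ξ : Ord) : Prop :=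
  (∀ v ∈ cl A ζ (gq ξ l m 0), v < St A κ l y) ∧ Cof (cl A ζ (gq ξ l m 0)) (St A κ l y)

/-- The clubs of order type at most `κ`. -/
def DD (A : Ord → Ord → Ord → Prop) (κ : Ord) (F : Set Ord) (ζ : Ord) (l m : List Ord) (δ : Ord) :
    Set Ord :=
  {y | y ∈ CC A κ F l δ ∧ (∃ ξ, Wit A κ ζ l m y ξ) ∧
    ∀ e ∈ m, ¬ Cof (cl A ζ (gq e l m (e + 1))) (St A κ l y)}

theorem DD_congr {m' : List Ord} (h : ∀ a, a ∈ m ↔ a ∈ m') :
    DD A κ F ζ l m δ = DD A κ F ζ l m' δ := by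
  have e1 : ∀ ξ e, gq ξ l m e = gq ξ l m' e := fun ξ e => gq_congr fun a _ => h a
  unfold DD Wit
  simp only [e1, h]

/-- The situation at `δ`, with the descent set. -/
structure FrmQ (A : Ord → Ord → Ord → Prop) (κ δ ζ : Ord) (l m : List Ord) (F : Set Ord) :
    Prop where
  frm : Frm A κ δ ζ l
  q : IsQ A κ ζ l m
  closed : ∀ y < δ, IsAcc F y → y ∈ F
  κlt : ∀ y ∈ F, κ < y

namespace FrmQ

variable (h : FrmQ A κ δ ζ l m F)

include h

theorem wit_lt {y ξ : Ord} (hy : y < δ) (hw : Wit A κ ζ l m y ξ) : ξ < κ := by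
  by_contra hcon
  push Not at hcon
  have h1 := (h.frm.st_spec hy).1
  have h2 := h.frm.gen _ h1
  refine lt_irrefl _ (hw.1 _ (cl_mono le_rfl ?_ h2))
  rintro a (h3 | h3)
  · exact Or.inl (h3.trans_le hcon)
  · exact Or.inr (Or.inl h3)

theorem wit_mono {y y' ξ ξ' : Ord} (hy : y ∈ CC A κ F l δ) (hy' : y' < δ) (hyy : y < y')
    (hw : Wit A κ ζ l m y ξ) (hw' : Wit A κ ζ l m y' ξ') : ξ < ξ' := by
  by_contra hcon
  push Not at hcon
  obtain ⟨x, h1, h2⟩ := hw'.2 _ (h.frm.cc_lt hy hy' hyy)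
  exact absurd (hw.1 x (cl_mono le_rfl (gq_mono hcon) h1)) (not_lt.mpr h2)

theorem otp_le_wit (y : Ord) : ∀ ξ, y ∈ DD A κ F ζ l m δ → Wit A κ ζ l m y ξ →
    otp (DD A κ F ζ l m δ) y ≤ ξ := by
  induction y using WellFoundedLT.induction with
  | ind y ih =>
    intro ξ hy hw
    rw [otp_le_iff]
    intro y' hy' hyy
    obtain ⟨ξ', hw'⟩ := hy'.2.1
    exact (ih y' hyy ξ' hy' hw').trans_lt (h.wit_mono hy'.1 hy.1.2.1 hyy hw' hw)

theorem otp_lt {y : Ord} (hy : y ∈ DD A κ F ζ l m δ) : otp (DD A κ F ζ l m δ) y < κ := by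
  obtain ⟨ξ, hw⟩ := hy.2.1
  exact (h.otp_le_wit y ξ hy hw).trans_lt (h.wit_lt hy.1.2.1 hw)

theorem cof_step (hy : y < δ) (hacc : IsAcc (DD A κ F ζ l m δ) y) {η : Ord}
    (hη : η < St A κ l y) : ∃ y' ∈ DD A κ F ζ l m δ, y' < y ∧ η < St A κ l y' := by
  have hacc' : IsAcc (CC A κ F l δ) y := ⟨hacc.1, fun x hx => by
    obtain ⟨y', g1, g2⟩ := hacc.2 x hx
    exact ⟨y', g1.1, g2⟩⟩
  obtain ⟨y₁, g1, g2, g3⟩ := h.frm.cc_cof hy hacc' hη
  obtain ⟨y₂, g4, g5, g6⟩ := hacc.2 y₁ g2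
  exact ⟨y₂, g4, g6, g3.trans_le (h.frm.st_mono (g6.trans hy) g5.le)⟩

/-- The supremum of the witnesses is a witness. -/
theorem exists_sup (hy : y < δ) (hacc : IsAcc (DD A κ F ζ l m δ) y) :
    ∃ ξ, Wit A κ ζ l m y ξ ∧ ∀ ξ' < ξ, ∃ y' ∈ DD A κ F ζ l m δ, ∃ ξ'', y' < y ∧
      Wit A κ ζ l m y' ξ'' ∧ ξ' + 1 < ξ'' := by
  set Ξ : Set Ord := {ξ | ∃ y' ∈ DD A κ F ζ l m δ, y' < y ∧ Wit A κ ζ l m y' ξ} with hΞ
  have hb : BddAbove Ξ := ⟨κ, by
    rintro ξ ⟨y', g1, g2, g3⟩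
    exact (h.wit_lt (g2.trans hy) g3).le⟩
  have hlt : ∀ ξ' < sSup Ξ, ∃ ξ ∈ Ξ, ξ' < ξ := fun ξ' hξ' => exists_lt_of_lt_csSup' hξ'
  have hsucc : ∀ ξ ∈ Ξ, ∃ ξ' ∈ Ξ, ξ < ξ' := by
    rintro ξ ⟨y', g1, g2, g3⟩
    obtain ⟨y'', g4, g5, g6⟩ := hacc.2 y' g2
    obtain ⟨ξ', g7⟩ := g4.2.1
    exact ⟨ξ', ⟨y'', g4, g6, g7⟩, h.wit_mono g1.1 (g6.trans hy) g5 g3 g7⟩
  have h0 : ∃ ξ, ξ ∈ Ξ := by
    obtain ⟨y', g1, _, g2⟩ := hacc.2 0 (pos_iff_ne_zero.mpr hacc.1)
    obtain ⟨ξ, g3⟩ := g1.2.1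
    exact ⟨ξ, y', g1, g2, g3⟩
  refine ⟨sSup Ξ, ⟨?_, ?_⟩, ?_⟩
  · intro v hv
    obtain ⟨F₀, hF₀, hfin, hvF⟩ := cl_finite hv
    have key : ∃ ξ ∈ Ξ, ∀ a ∈ F₀, a < sSup Ξ → a < ξ := by
      clear hvF hv
      induction F₀, hfin using Set.Finite.induction_on with
      | empty =>
        obtain ⟨ξ, hξ⟩ := h0
        exact ⟨ξ, hξ, fun a ha => absurd ha (Set.notMem_empty a)⟩
      | @insert a s _ _ ih =>
        obtain ⟨ξ, hξ, hξs⟩ := ih ((Set.subset_insert a s).trans hF₀)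
        by_cases ha : a < sSup Ξ
        · obtain ⟨ξ', hξ', ha'⟩ := hlt a ha
          rcases le_total ξ ξ' with hle | hle
          · refine ⟨ξ', hξ', fun b hb hbs => ?_⟩
            rcases hb with rfl | hb
            · exact ha'
            · exact (hξs b hb hbs).trans_le hle
          · refine ⟨ξ, hξ, fun b hb hbs => ?_⟩
            rcases hb with rfl | hb
            · exact ha'.trans_le hle
            · exact hξs b hb hbs
        · refine ⟨ξ, hξ, fun b hb hbs => ?_⟩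
          rcases hb with rfl | hb
          · exact absurd hbs ha
          · exact hξs b hb hbs
    obtain ⟨ξ, ⟨y', g1, g2, g3⟩, hξ⟩ := key
    have h1 : v ∈ cl A ζ (gq ξ l m 0) := by
      refine cl_mono le_rfl ?_ hvF
      intro a ha
      rcases hF₀ ha with g4 | g4
      · exact Or.inl (hξ a ha g4)
      · exact Or.inr g4
    exact (g3.1 v h1).trans_le (h.frm.st_mono hy g2.le)
  · intro β hβ
    obtain ⟨y', g1, g2, g3⟩ := h.cof_step hy hacc hβ
    obtain ⟨ξ, g4⟩ := g1.2.1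
    obtain ⟨x, g5, g6⟩ := g4.2 β g3
    exact ⟨x, cl_mono le_rfl (gq_mono (le_csSup hb ⟨y', g1, g2, g4⟩)) g5, g6⟩
  · intro ξ' hξ'
    obtain ⟨ξ₁, g1, g2⟩ := hlt ξ' hξ'
    obtain ⟨ξ₂, g3, g4⟩ := hsucc ξ₁ g1
    obtain ⟨y', g5, g6, g7⟩ := g3
    exact ⟨y', g5, ξ₂, g6, g7, (Order.add_one_le_of_lt g2).trans_lt g4⟩

theorem dd_closed (hy : y < δ) (hacc : IsAcc (DD A κ F ζ l m δ) y) :
    y ∈ DD A κ F ζ l m δ := by
  have hacc' : IsAcc (CC A κ F l δ) y := ⟨hacc.1, fun x hx => by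
    obtain ⟨y', g1, g2⟩ := hacc.2 x hx
    exact ⟨y', g1.1, g2⟩⟩
  obtain ⟨ξ, h1, _⟩ := h.exists_sup hy hacc
  refine ⟨h.frm.cc_closed h.closed hy hacc', ⟨ξ, h1⟩, fun e he => ?_⟩
  obtain ⟨y', g1, _, g2⟩ := hacc.2 0 (pos_iff_ne_zero.mpr hacc.1)
  obtain ⟨β, g3, g4⟩ := not_cof.mp (g1.2.2 e he)
  exact not_cof.mpr ⟨β, g3.trans_le (h.frm.st_mono hy g2.le), g4⟩

theorem lim (hy : y < δ) (hacc : IsAcc (DD A κ F ζ l m δ) y) : Lim A κ δ ζ l F y := by
  have hacc' : IsAcc (CC A κ F l δ) y := ⟨hacc.1, fun x hx => by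
    obtain ⟨y', g1, g2⟩ := hacc.2 x hx
    exact ⟨y', g1.1, g2⟩⟩
  exact ⟨h.frm, hy, h.frm.cc_closed h.closed hy hacc', hacc',
    h.κlt y (h.dd_closed hy hacc).1.1⟩

end FrmQ

end Pool.Agent.Lib.MP_7295f2_lc.LA

end

section

/-!
# Square, part 3: coherence
-/

open Ordinal Set

set_option linter.unusedVariables false
set_option linter.unusedSectionVars false

namespace Pool.Agent.Lib.MP_7295f2_lc.LA

variable {A : Ord → Ord → Ord → Prop} {κ δ ζ η y : Ord} {l m : List Ord} {F : Set Ord}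

namespace Lim

variable (h : Lim A κ δ ζ l F y)

include h

theorem gq_image {ξ e : Ord} (hξ : ξ ≤ κ) (hm : ∀ a ∈ m, a < κ) :
    otp (X A κ l y) '' gq ξ l m e = gq ξ (l.map (otp (X A κ l y))) m e := by
  have hid : ∀ v, v ≤ κ → otp (X A κ l y) v = v := fun v hv => h.id_of_le (hv.trans h.κlt.le)
  ext v
  constructor
  · rintro ⟨w, hw | hw | ⟨hw, hw'⟩, rfl⟩
    · refine Or.inl ?_
      rw [hid w (hw.le.trans hξ)]
      exact hw
    · exact Or.inr (Or.inl (List.mem_map_of_mem hw))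
    · refine Or.inr (Or.inr ?_)
      rw [hid w (hm w hw).le]
      exact ⟨hw, hw'⟩
  · rintro (hv | hv | ⟨hv, hv'⟩)
    · exact ⟨v, Or.inl hv, hid v (hv.le.trans hξ)⟩
    · obtain ⟨w, hw, rfl⟩ := List.mem_map.mp hv
      exact ⟨w, Or.inr (Or.inl hw), rfl⟩
    · exact ⟨v, Or.inr (Or.inr ⟨hv, hv'⟩), hid v (hm v hv).le⟩

theorem gq_sub {ξ e : Ord} (hξ : ξ ≤ κ) (hm : ∀ a ∈ m, a < κ) : gq ξ l m e ⊆ X A κ l y := by
  rintro a (h1 | h1 | ⟨h1, _⟩)
  · exact h.kap_sub (h1.trans_le hξ)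
  · exact h.par_sub a h1
  · exact h.kap_sub (hm a h1)

theorem collapse_gq {ξ e z : Ord} (hξ : ξ ≤ κ) (hm : ∀ a ∈ m, a < κ) (hz : z ≤ St A κ l y) :
    otp (X A κ l y) '' cl A z (gq ξ l m e) =
      cl A (otp (X A κ l y) z) (gq ξ (l.map (otp (X A κ l y))) m e) := by
  rw [h.clsd.col_cl h.omega_le (h.frm.ctb.col ((Iio_subset_Iio h.frm.hκ1).trans h.kap_sub)) hz
    (h.gq_sub hξ hm), h.gq_image hξ hm]

theorem sub_gq {ξ e z : Ord} (hξ : ξ ≤ κ) (hm : ∀ a ∈ m, a < κ) (hz : z ≤ St A κ l y) :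
    cl A z (gq ξ l m e) ⊆ X A κ l y :=
  cl_subset h.clsd hz fun a ha _ => h.gq_sub hξ hm ha

/-- Transfer of cofinality. -/
theorem cof_iff {S : Set Ord} {z : Ord} (hS : S ⊆ X A κ l y)
    (hz : ∀ β < z, ∃ b ∈ X A κ l y, β ≤ b ∧ b < z) :
    Cof (otp (X A κ l y) '' S) (otp (X A κ l y) z) ↔ Cof S z := by
  constructor
  · intro h1 β hβ
    obtain ⟨b, hb, hβb, hbz⟩ := hz β hβ
    obtain ⟨_, ⟨x, hx, rfl⟩, hbx⟩ := h1 _ (otp_lt_otp hb hbz)
    refine ⟨x, hx, hβb.trans ?_⟩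
    by_contra hcon
    exact absurd hbx (not_le.mpr (otp_lt_otp (hS hx) (not_le.mp hcon)))
  · intro h1 β hβ
    obtain ⟨b, hb, hbz, rfl⟩ := exists_otp_eq hβ
    obtain ⟨x, hx, hbx⟩ := h1 b hbz
    exact ⟨_, ⟨x, hx, rfl⟩, otp_mono hbx⟩

theorem hz_st {y' : Ord} (hy' : y' ≤ y) : ∀ β < St A κ l y', ∃ b ∈ X A κ l y, β ≤ b ∧
    b < St A κ l y' := by
  intro β hβ
  obtain ⟨b, h1, h2⟩ := h.frm.st_cof (hy'.trans_lt h.hy) β hβ
  exact ⟨b, h.sub_of_mem (h.frm.st_mono h.hy hy') h.par_sub h1, h2, cl_lt h1⟩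

end Lim

namespace FrmQ

variable (h : FrmQ A κ δ ζ l m F)

include h

/-- The descent set of `y`. -/
theorem isQ_of_acc (hy : y < δ) (hacc : IsAcc (DD A κ F ζ l m δ) y) :
    IsQ A κ (otp (Lim.X A κ l y) (St A κ l y)) (l.map (otp (Lim.X A κ l y))) m := by
  have L := h.lim hy hacc
  have hmem := h.dd_closed hy hacc
  obtain ⟨ξs, hw, hξs⟩ := h.exists_sup hy hacc
  have hm : ∀ a ∈ m, a < κ := fun a ha => (h.q.1 a ha).1
  have hξsκ := h.wit_lt hy hw
  have hηζ := (h.frm.st_spec hy).1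
  set η := St A κ l y with hη
  have hcoll : ∀ ξ e, ξ ≤ κ → (Cof (cl A (otp (Lim.X A κ l y) η)
      (gq ξ (l.map (otp (Lim.X A κ l y))) m e)) (otp (Lim.X A κ l y) η) ↔
      Cof (cl A η (gq ξ l m e)) η) := by
    intro ξ e hξ
    rw [← L.collapse_gq hξ hm le_rfl]
    exact L.cof_iff (L.sub_gq hξ hm le_rfl) (L.hz_st le_rfl)
  have f1 : cl A ζ (gq ξs l m 0) = cl A η (gq ξs l m 0) := cl_eq_of_subset hηζ.le hw.1
  refine ⟨fun e he => ⟨hm e he, ?_, ?_⟩, ?_⟩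
  · rw [hcoll _ _ (hm e he).le]
    intro h1
    exact hmem.2.2 e he (h1.mono (cl_mono hηζ.le Subset.rfl))
  · have heκ : e + 1 ≤ κ := Order.add_one_le_of_lt (hm e he)
    rw [hcoll _ _ heκ]
    have hξe : ξs ≤ e := by
      by_contra hcon
      push Not at hcon
      have h1 := (h.q.cof_mem he) η hηζ
      obtain ⟨x, h2, h3⟩ := h1
      exact absurd (hw.1 x (cl_mono le_rfl (gq_mono hcon.le) h2)) (not_lt.mpr h3)
    have h2 : Cof (cl A η (gq ξs l m 0)) η := by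
      rw [← f1]
      exact hw.2
    refine h2.cl_mono ?_
    rintro a (g1 | g1 | ⟨g1, _⟩)
    · exact Or.inl (g1.trans (hξe.trans_lt (lt_add_one e)))
    · exact Or.inr (Or.inl g1)
    · rcases lt_or_ge a (e + 1) with g2 | g2
      · exact Or.inl g2
      · exact Or.inr (Or.inr ⟨g1, g2⟩)
  · intro ξ h1
    rcases le_or_gt ξs ξ with h2 | h2
    · refine Cof.cl_mono ?_ (gq_mono h2)
      rw [hcoll _ _ hξsκ.le, ← f1]
      exact hw.2
    · exfalso
      obtain ⟨y', g1, ξ'', g2, g3, g4⟩ := hξs ξ h2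
      have h3 : ξ + 1 ≤ κ := g4.le.trans (h.wit_lt (g2.trans hy) g3).le
      rw [hcoll _ _ h3] at h1
      obtain ⟨x, h4, h5⟩ := h1 (St A κ l y') (h.frm.cc_lt g1.1 hy g2)
      exact absurd (g3.1 x (cl_mono hηζ.le (gq_mono g4.le) h4)) (not_lt.mpr h5)

/-- Coherence of the clubs `DD`. -/
theorem dd_eq (hy : y < δ) (hacc : IsAcc (DD A κ F ζ l m δ) y) :
    DD A κ F (otp (Lim.X A κ l y) (St A κ l y)) (l.map (otp (Lim.X A κ l y))) m y =
      DD A κ F ζ l m δ ∩ Iio y := by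
  have L := h.lim hy hacc
  have hmem := h.dd_closed hy hacc
  obtain ⟨ξs, hw, hξs⟩ := h.exists_sup hy hacc
  have hm : ∀ a ∈ m, a < κ := fun a ha => (h.q.1 a ha).1
  have hξsκ := h.wit_lt hy hw
  have hηζ := (h.frm.st_spec hy).1
  have hcc := L.cc_eq
  set π := otp (Lim.X A κ l y) with hπ
  set η := St A κ l y with hη
  ext y'
  have hcc' : y' ∈ CC A κ F (l.map π) y ↔ y' ∈ CC A κ F l δ ∧ y' < y := by
    rw [hcc]
    rfl
  have key : y' ∈ CC A κ F l δ → y' < y → (((∃ ξ, Wit A κ (π η) (l.map π) m y' ξ) ∧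
      ∀ e ∈ m, ¬ Cof (cl A (π η) (gq e (l.map π) m (e + 1))) (St A κ (l.map π) y')) ↔
      ((∃ ξ, Wit A κ ζ l m y' ξ) ∧ ∀ e ∈ m, ¬ Cof (cl A ζ (gq e l m (e + 1))) (St A κ l y'))) := by
    intro hy'C hy'
    have hst := L.st_eq hy'.le
    have hlt : St A κ l y' < η := h.frm.cc_lt hy'C hy hy'
    have hle := hlt.le
    set η' := St A κ l y' with hη'
    have hcoll : ∀ ξ e, ξ ≤ κ → (Cof (cl A (π η) (gq ξ (l.map π) m e)) (π η') ↔
        Cof (cl A η (gq ξ l m e)) η') := by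
      intro ξ e hξ
      rw [← L.collapse_gq hξ hm le_rfl]
      exact L.cof_iff (L.sub_gq hξ hm le_rfl) (L.hz_st hy'.le)
    have hbd : ∀ ξ e, ξ ≤ κ → ((∀ v ∈ cl A (π η) (gq ξ (l.map π) m e), v < π η') ↔
        ∀ v ∈ cl A η (gq ξ l m e), v < η') := by
      intro ξ e hξ
      rw [← L.collapse_gq hξ hm le_rfl]
      constructor
      · intro h1 v hv
        have h2 := h1 _ ⟨v, hv, rfl⟩
        exact (otp_lt_iff (L.sub_gq hξ hm le_rfl hv)).mp h2
      · rintro h1 _ ⟨v, hv, rfl⟩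
        exact otp_lt_otp (L.sub_gq hξ hm le_rfl hv) (h1 v hv)
    have hξκ : ∀ ξ, (∀ v ∈ cl A (π η) (gq ξ (l.map π) m 0), v < π η') → ξ ≤ κ := by
      intro ξ h1
      by_contra hcon
      push Not at hcon
      obtain ⟨b, hb, hb1, hb2⟩ := L.hz_st le_rfl η' hlt
      have h2 : π b ∈ cl A (π η) (gq ξ (l.map π) m 0) := by
        have h3 : π b ∈ cl A (π η) (gen κ (l.map π)) := by
          rw [hπ, L.gen_top]
          exact otp_lt_otp hb hb2
        refine cl_mono le_rfl ?_ h3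
        rintro a (h4 | h4)
        · exact Or.inl (h4.trans hcon)
        · exact Or.inr (Or.inl h4)
      exact absurd (h1 _ h2) (not_lt.mpr (otp_mono hb1))
    have hlts : ∀ ξ, (∀ v ∈ cl A η (gq ξ l m 0), v < η') → ξ < ξs := by
      intro ξ h1
      by_contra hcon
      push Not at hcon
      obtain ⟨x, h2, h3⟩ := hw.2 η' hlt
      have f1 : cl A ζ (gq ξs l m 0) = cl A η (gq ξs l m 0) := cl_eq_of_subset hηζ.le hw.1
      rw [f1] at h2
      exact absurd (h1 x (cl_mono le_rfl (gq_mono hcon) h2)) (not_lt.mpr h3)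
    refine and_congr ?_ ?_
    · constructor
      · rintro ⟨ξ, h1, h2⟩
        rw [hst] at h1 h2
        have hξ := hξκ ξ h1
        rw [hbd _ _ hξ] at h1
        rw [hcoll _ _ hξ] at h2
        have hξ' := hlts ξ h1
        have h3 : cl A ζ (gq ξ l m 0) = cl A η (gq ξ l m 0) :=
          cl_eq_of_subset hηζ.le fun v hv => hw.1 v (cl_mono le_rfl (gq_mono hξ'.le) hv)
        refine ⟨ξ, ?_, ?_⟩
        · rw [h3]
          exact h1
        · rw [h3]
          exact h2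
      · rintro ⟨ξ, hw'⟩
        have hξ := (h.wit_lt (hy'.trans hy) hw').le
        have h3 : cl A ζ (gq ξ l m 0) = cl A η (gq ξ l m 0) :=
          cl_eq_of_subset hηζ.le fun v hv => (hw'.1 v hv).trans hlt
        refine ⟨ξ, ?_, ?_⟩
        · rw [hst, hbd _ _ hξ, ← h3]
          exact hw'.1
        · rw [hst, hcoll _ _ hξ, ← h3]
          exact hw'.2
    · refine forall_congr' fun e => forall_congr' fun he => ?_
      rw [hst, hcoll _ _ (hm e he).le]
      have h3 : cl A ζ (gq e l m (e + 1)) = cl A η (gq e l m (e + 1)) := by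
        apply cl_eq_of_subset hηζ.le
        obtain ⟨β, h4, h5⟩ := not_cof.mp (hmem.2.2 e he)
        exact fun v hv => (h5 v hv).trans h4
      rw [h3]
  constructor
  · rintro ⟨h1, h2⟩
    have h3 := hcc'.mp h1
    exact ⟨⟨h3.1, (key h3.1 h3.2).mp h2⟩, h3.2⟩
  · rintro ⟨⟨h1, h2⟩, h3⟩
    exact ⟨hcc'.mpr ⟨h1, h3⟩, (key h1 h3).mpr h2⟩

end FrmQ

/-- The set of codes of generating sequences. -/
def PcS (A : Ord → Ord → Ord → Prop) (κ ζ : Ord) : Set Ord :=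
  {c | lev c = ζ ∧ ∀ v < ζ, v ∈ cl A ζ (gen κ (par c))}

/-- The least generating sequence. -/
noncomputable def pc (A : Ord → Ord → Ord → Prop) (κ δ : Ord) : Ord := sInf (PcS A κ (zc A κ δ))

theorem pc_spec (hA : Ctb A) (hκ1 : O1 ≤ κ) (hκ : Clos κ) (h : δ < sc A κ) (hκδ : κ < δ) :
    lev (pc A κ δ) = zc A κ δ ∧ ∀ v < zc A κ δ, v ∈ cl A (zc A κ δ) (gen κ (par (pc A κ δ))) := by
  obtain ⟨_, c, h1, h2⟩ := zc_full hA hκ1 hκ h hκδ
  exact csInf_mem (s := PcS A κ (zc A κ δ)) ⟨c, h1, h2⟩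

theorem pc_le {c : Ord} (h : c ∈ PcS A κ (zc A κ δ)) : pc A κ δ ≤ c := csInf_le' h

theorem pc_num (hA : Ctb A) (hκ1 : O1 ≤ κ) (hκ : Clos κ) (h : δ < sc A κ) (hκδ : κ < δ) :
    num (pc A κ δ) = 0 := by
  obtain ⟨h1, h2⟩ := pc_spec hA hκ1 hκ h hκδ
  by_contra hcon
  have hv : ∀ a ∈ par (pc A κ δ), a < zc A κ δ := fun a ha => h1 ▸ par_lt ha
  have h3 : mk (zc A κ δ) 0 (par (pc A κ δ)) ∈ PcS A κ (zc A κ δ) := by
    refine ⟨lev_mk hv, ?_⟩
    rw [par_mk hv]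
    exact h2
  have h4 : mk (zc A κ δ) 0 (par (pc A κ δ)) < pc A κ δ := by
    have := mk_lt_of_num (l' := par (pc A κ δ)) hv (Nat.pos_of_ne_zero hcon)
    rw [← h1, mk_eta] at this
    rw [← h1]
    exact this
  exact absurd (pc_le h3) (not_le.mpr h4)

theorem shortlex_map {X : Set Ord} {l k : List Ord} (h0 : (0 : Ord) ∈ X) (hl : ∀ a ∈ l, a ∈ X)
    (hk : ∀ a ∈ k, a ∈ X) : List.Shortlex (· < ·) (l.map (otp X)) (k.map (otp X)) ↔
      List.Shortlex (· < ·) l k := by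
  have := tlt_map (X := X) (t := (0, 0, l)) (u := (0, 0, k)) ⟨h0, hl⟩ ⟨h0, hk⟩
  rw [tlt_def, tlt_def] at this
  simpa using this

theorem pc_eq_mk (hA : Ctb A) (hκ1 : O1 ≤ κ) (hκ : Clos κ) (h : δ < sc A κ) (hκδ : κ < δ) :
    mk (zc A κ δ) 0 (par (pc A κ δ)) = pc A κ δ := by
  have h1 := (pc_spec hA hκ1 hκ h hκδ).1
  have h2 := pc_num hA hκ1 hκ h hκδ
  conv_rhs => rw [← mk_eta (pc A κ δ), h1, h2]

/-- The least generating sequence of a limit point. -/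
theorem Lim.pc_par (h : Lim A κ δ (zc A κ δ) (par (pc A κ δ)) F y) :
    par (pc A κ y) = (par (pc A κ δ)).map (otp (Lim.X A κ (par (pc A κ δ)) y)) := by
  set l := par (pc A κ δ) with hl
  set π := otp (Lim.X A κ l y) with hπ
  set η := St A κ l y with hη
  have hys : y < sc A κ := h.hy.trans h.frm.hδ.2.1
  have hzc : zc A κ y = π η := h.zc_eq
  obtain ⟨h1, h2⟩ := pc_spec h.frm.ctb h.frm.hκ1 h.frm.hκ hys h.κlt
  have e1 := pc_eq_mk h.frm.ctb h.frm.hκ1 h.frm.hκ hys h.κlt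
  have e2 := pc_eq_mk h.frm.ctb h.frm.hκ1 h.frm.hκ h.frm.hδ.2.1 h.frm.hδ.1
  rw [hzc] at h1 h2 e1
  have hv1 : ∀ a ∈ par (pc A κ y), a < π η := fun a ha => h1 ▸ par_lt ha
  have hv2 : ∀ a ∈ l.map π, a < π η := by
    intro a ha
    obtain ⟨b, hb, rfl⟩ := List.mem_map.mp ha
    exact otp_lt_otp (h.par_sub b hb) (cl_lt (h.par_sub b hb))
  have h3 : pc A κ y ≤ LA.mk (π η) 0 (l.map π) := by
    apply pc_le
    rw [hzc]
    refine ⟨lev_mk hv2, ?_⟩
    rw [par_mk hv2, hπ, h.gen_top]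
    exact fun v hv => hv
  obtain ⟨k, hk1, hk2⟩ := exists_list_map (X := Lim.X A κ l y) (y := η) le_rfl (par (pc A κ y)) hv1
  rcases h3.eq_or_lt with h4 | h4
  · rw [h4, par_mk hv2]
  · exfalso
    rw [← e1, mk_lt_mk hv1 hv2] at h4
    have h5 : List.Shortlex (· < ·) k l := by
      rw [← shortlex_map (h.clsd.zero' (h.frm.hκ.1.trans_le
        (h.κlt.le.trans h.y_le) |>.trans' Ordinal.omega0_pos)) hk1 h.par_sub, hk2]
      rcases h4 with h4 | ⟨_, h4 | ⟨_, h4⟩⟩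
      · exact absurd h4 (lt_irrefl _)
      · exact absurd h4 (lt_irrefl _)
      · exact h4
    have hηζ := (h.frm.st_spec h.hy).1
    have hkη : ∀ a ∈ k, a < η := fun a ha => cl_lt (hk1 a ha)
    have hkζ : ∀ a ∈ k, a < zc A κ δ := fun a ha => (hkη a ha).trans hηζ
    have hXk : Lim.X A κ l y ⊆ cl A η (gen κ k) := by
      intro v hv
      have h6 : π v ∈ π '' cl A η (gen κ k) := by
        rw [h.collapse le_rfl hk1, hk2]
        exact h2 _ (otp_lt_otp hv (cl_lt hv))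
      obtain ⟨w, h7, h8⟩ := h6
      have h9 := otp_injOn _ (h.sub_of_mem le_rfl hk1 h7) hv h8
      rwa [← h9]
    have h6 : LA.mk (zc A κ δ) 0 k ∈ PcS A κ (zc A κ δ) := by
      refine ⟨lev_mk hkζ, ?_⟩
      rw [par_mk hkζ]
      intro v hv
      have h7 := h.frm.gen v hv
      refine cl_idem_subset le_rfl ?_ h7
      rintro w (hw | hw) hwz
      · exact Cl.base (Or.inl hw) hwz
      · exact cl_mono hηζ.le Subset.rfl (hXk (h.par_sub w hw))
    have h7 : LA.mk (zc A κ δ) 0 k < pc A κ δ := by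
      rw [← e2, mk_lt_mk hkζ h.frm.par]
      exact Or.inr ⟨rfl, Or.inr ⟨rfl, h5⟩⟩
    exact absurd (pc_le h6) (not_le.mpr h7)

end Pool.Agent.Lib.MP_7295f2_lc.LA

end

section

/-!
# Square, part 4: definability
-/

open Ordinal Set

set_option linter.unusedVariables false
set_option linter.unusedSectionVars false

namespace Pool.Agent.Lib.MP_7295f2_lc.LA

variable {A : Ord → Ord → Ord → Prop} {P Q : Set Ord → Env → Prop}
  {f g h : Set Ord → Env → Ord} {𝒰 : LC} {κ δ ζ η y : Ord} {l m : List Ord} {F : Set Ord}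

theorem eq_mk_nil_iff {x γ : Ord} : x = mk γ 0 [] ↔ lev x = γ ∧ (num x : Ord) = 0 ∧
    ((par x).length : Ord) = 0 := by
  have h1 : lev (mk γ 0 []) = γ := lev_mk (by simp)
  have h2 : num (mk γ 0 []) = 0 := num_mk (by simp)
  have h3 : par (mk γ 0 []) = [] := par_mk (by simp)
  constructor
  · rintro rfl
    rw [h1, h2, h3]
    simp
  · rintro ⟨g1, g2, g3⟩
    refine ext_tup (by rw [g1, h1]) (by rw [h2]; exact_mod_cast g2) ?_
    rw [h3]
    exact List.length_eq_zero_iff.mp (by exact_mod_cast g3)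

@[is_poly] theorem DfnF.mk0 (hf : DfnF A GG f) : DfnF A GG fun U e => LA.mk (f U e) 0 [] := by
  refine DfnF.comp1 (R := fun _ x => LA.mk x 0 []) ?_ hf
  apply DfnF.ofG
  have : Dfn A GG fun U e => LA.lev (e 0) = e 1 ∧ (LA.num (e 0) : Ord) = 0 ∧
    ((LA.par (e 0)).length : Ord) = 0 := by (apply_rules (transparency := .reducible) (maxDepth := 1000) using is_poly)
  refine this.congr fun U hU e he => ?_
  rw [eq_mk_nil_iff]

@[is_poly] theorem DfnF.omega : DfnF A GG fun _ _ => ω := by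
  have h1 : DfnF A GG fun U e => LA.mk 1 0 [] := by (apply_rules (transparency := .reducible) (maxDepth := 1000) using is_poly)
  refine h1.congr fun U hU e he => ?_
  rw [mk_one]

theorem exists_par (l : List Ord) : ∃ c, par c = l := by
  have : ∃ b, ∀ a ∈ l, a < b := by
    induction l with
    | nil => exact ⟨0, by simp⟩
    | cons a l ih =>
      obtain ⟨b, hb⟩ := ih
      refine ⟨max (a + 1) b, fun c hc => ?_⟩
      rcases List.mem_cons.mp hc with rfl | hc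
      · exact (lt_add_one c).trans_le (le_max_left _ _)
      · exact (hb c hc).trans_le (le_max_right _ _)
  obtain ⟨b, hb⟩ := this
  exact ⟨LA.mk b 0 l, par_mk hb⟩

@[is_poly] theorem Dfn.mem_clq {f₁ f₂ f₃ f₄ f₅ f₆ : Set Ord → Env → Ord} (h1 : DfnF A GG f₁)
    (h2 : DfnF A GG f₂) (h3 : DfnF A GG f₃) (h4 : DfnF A GG f₄) (h5 : DfnF A GG f₅)
    (h6 : DfnF A GG f₆) :
    Dfn A GG fun U e => f₁ U e ∈ cl A (f₂ U e) (gq (f₃ U e) (par (f₄ U e)) (par (f₅ U e))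
      (f₆ U e)) := by
  refine Dfn.comp6 (R := fun _ v z x p q a => v ∈ cl A z (gq x (par p) (par q) a)) ?_
    h1 h2 h3 h4 h5 h6
  have h7 : Dfn A GG fun U e => ∃ c, (∀ a ∈ par c, a ∈ par (e 3) ∨ (a ∈ par (e 4) ∧ e 5 ≤ a)) ∧
      e 0 ∈ cl A (e 1) (gen (e 2) (par c)) := by (apply_rules (transparency := .reducible) (maxDepth := 1000) using is_poly)
  refine h7.congr fun U hU e he => ?_
  constructor
  · rintro ⟨c, hc1, hc2⟩
    refine cl_mono le_rfl ?_ hc2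
    rintro a (ha | ha)
    · exact Or.inl ha
    · exact Or.inr (hc1 a ha)
  · intro h8
    classical
    obtain ⟨c, hc⟩ := exists_par (par (e 3) ++ (par (e 4)).filter fun a => e 5 ≤ a)
    refine ⟨c, ?_, ?_⟩
    · rw [hc]
      intro a ha
      rcases List.mem_append.mp ha with ha | ha
      · exact Or.inl ha
      · rw [List.mem_filter] at ha
        exact Or.inr ⟨ha.1, by simpa using ha.2⟩
    · refine cl_mono le_rfl ?_ h8
      rintro a (ha | ha | ⟨ha, ha'⟩)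
      · exact Or.inl ha
      · exact Or.inr (by rw [hc]; exact List.mem_append_left _ ha)
      · refine Or.inr ?_
        rw [hc]
        apply List.mem_append_right
        rw [List.mem_filter]
        exact ⟨ha, by simpa using ha'⟩

@[is_poly] theorem Dfn.cofq {f₁ f₂ f₃ f₄ f₅ f₆ : Set Ord → Env → Ord} (h1 : DfnF A GG f₁)
    (h2 : DfnF A GG f₂) (h3 : DfnF A GG f₃) (h4 : DfnF A GG f₄) (h5 : DfnF A GG f₅)
    (h6 : DfnF A GG f₆) :
    Dfn A GG fun U e => Cof (cl A (f₁ U e) (gq (f₂ U e) (par (f₃ U e)) (par (f₄ U e))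
      (f₅ U e))) (f₆ U e) := by
  refine Dfn.comp6 (R := fun _ z x p q a b => Cof (cl A z (gq x (par p) (par q) a)) b) ?_
    h1 h2 h3 h4 h5 h6
  have h7 : Dfn A GG fun U e => ∀ β < e 5, ∃ x, x ∈ cl A (e 0) (gq (e 1) (par (e 2)) (par (e 3))
      (e 4)) ∧ β ≤ x := by (apply_rules (transparency := .reducible) (maxDepth := 1000) using is_poly)
  exact h7

@[is_poly] theorem Dfn.isQ {f₁ f₂ f₃ f₄ : Set Ord → Env → Ord} (h1 : DfnF A GG f₁)
    (h2 : DfnF A GG f₂) (h3 : DfnF A GG f₃) (h4 : DfnF A GG f₄) :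
    Dfn A GG fun U e => IsQ A (f₁ U e) (f₂ U e) (par (f₃ U e)) (par (f₄ U e)) := by
  refine Dfn.comp4 (R := fun _ x z p q => IsQ A x z (par p) (par q)) ?_ h1 h2 h3 h4
  unfold IsQ
  (apply_rules (transparency := .reducible) (maxDepth := 1000) using is_poly)

@[is_poly] theorem DfnF.St {f₁ f₂ f₃ : Set Ord → Env → Ord} (h1 : DfnF A GG f₁)
    (h2 : DfnF A GG f₂) (h3 : DfnF A GG f₃) :
    DfnF A GG fun U e => LA.St A (f₁ U e) (par (f₂ U e)) (f₃ U e) := by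
  refine DfnF.comp3 (R := fun _ x p y => LA.St A x (par p) y) ?_ h1 h2 h3
  unfold LA.St
  (apply_rules (transparency := .reducible) (maxDepth := 1000) using is_poly)

@[is_poly] theorem DfnF.sc (h1 : DfnF A GG f) : DfnF A GG fun U e => LA.sc A (f U e) := by
  refine DfnF.comp1 (R := fun _ x => LA.sc A x) ?_ h1
  have h2 : DfnF A GG fun U e => InfSet.sInf {μ | e 0 < μ ∧ ∀ α < μ, ¬ ∃ x, ∀ w < μ,
      ∃ i < α, LA.val A x i = w} := by (apply_rules (transparency := .reducible) (maxDepth := 1000) using is_poly)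
  exact h2

@[is_poly] theorem Dfn.mem_Ec (h1 : DfnF A GG f) (h2 : DfnF A GG g) :
    Dfn A GG fun U e => f U e ∈ Ec A (g U e) := by
  refine Dfn.comp2 (R := fun _ x y => x ∈ Ec A y) ?_ h1 h2
  have h3 : Dfn A GG fun U e => e 1 < e 0 ∧ e 0 < LA.sc A (e 1) ∧
      (∀ γ < e 0, LA.mk (γ + 1) 0 [] < e 0) ∧ ∀ γ < e 0, LA.zc A (e 1) γ < e 0 := by (apply_rules (transparency := .reducible) (maxDepth := 1000) using is_poly)
  exact h3

/-- Limit points of `Ec`. -/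
def E1 (A : Ord → Ord → Ord → Prop) (κ : Ord) : Set Ord := {δ | δ ∈ Ec A κ ∧ IsAcc (Ec A κ) δ}

@[is_poly] theorem Dfn.mem_E1 (h1 : DfnF A GG f) (h2 : DfnF A GG g) :
    Dfn A GG fun U e => f U e ∈ E1 A (g U e) := by
  refine Dfn.comp2 (R := fun _ x y => x ∈ E1 A y) ?_ h1 h2
  have h3 : Dfn A GG fun U e => e 0 ∈ Ec A (e 1) ∧ e 0 ≠ 0 ∧
      ∀ x < e 0, ∃ y, y ∈ Ec A (e 1) ∧ x < y ∧ y < e 0 := by
    unfold Ne
    (apply_rules (transparency := .reducible) (maxDepth := 1000) using is_poly)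
  exact h3

@[is_poly] theorem Dfn.mem_CC {f₁ f₂ f₃ f₄ : Set Ord → Env → Ord} (h1 : DfnF A GG f₁)
    (h2 : DfnF A GG f₂) (h3 : DfnF A GG f₃) (h4 : DfnF A GG f₄) :
    Dfn A GG fun U e => f₁ U e ∈ CC A (f₂ U e) (E1 A (f₂ U e)) (par (f₃ U e)) (f₄ U e) := by
  refine Dfn.comp4 (R := fun _ y k p d => y ∈ CC A k (E1 A k) (par p) d) ?_ h1 h2 h3 h4
  have h5 : Dfn A GG fun U e => e 0 ∈ E1 A (e 1) ∧ e 0 < e 3 ∧
      ∀ v, v ∈ cl A (LA.St A (e 1) (par (e 2)) (e 0)) (gen (e 1) (par (e 2))) → v < e 3 →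
        v < e 0 := by (apply_rules (transparency := .reducible) (maxDepth := 1000) using is_poly)
  exact h5

@[is_poly] theorem Dfn.wit {f₁ f₂ f₃ f₄ f₅ f₆ : Set Ord → Env → Ord} (h1 : DfnF A GG f₁)
    (h2 : DfnF A GG f₂) (h3 : DfnF A GG f₃) (h4 : DfnF A GG f₄) (h5 : DfnF A GG f₅)
    (h6 : DfnF A GG f₆) :
    Dfn A GG fun U e => Wit A (f₁ U e) (f₂ U e) (par (f₃ U e)) (par (f₄ U e)) (f₅ U e)
      (f₆ U e) := by
  refine Dfn.comp6 (R := fun _ k z p q y x => Wit A k z (par p) (par q) y x) ?_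
    h1 h2 h3 h4 h5 h6
  have h7 : Dfn A GG fun U e => (∀ v, v ∈ cl A (e 1) (gq (e 5) (par (e 2)) (par (e 3)) 0) →
      v < LA.St A (e 0) (par (e 2)) (e 4)) ∧ Cof (cl A (e 1) (gq (e 5) (par (e 2)) (par (e 3)) 0))
      (LA.St A (e 0) (par (e 2)) (e 4)) := by (apply_rules (transparency := .reducible) (maxDepth := 1000) using is_poly)
  exact h7

@[is_poly] theorem Dfn.mem_DD {f₁ f₂ f₃ f₄ f₅ f₆ : Set Ord → Env → Ord} (h1 : DfnF A GG f₁)
    (h2 : DfnF A GG f₂) (h3 : DfnF A GG f₃) (h4 : DfnF A GG f₄) (h5 : DfnF A GG f₅)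
    (h6 : DfnF A GG f₆) :
    Dfn A GG fun U e => f₁ U e ∈ DD A (f₂ U e) (E1 A (f₂ U e)) (f₃ U e) (par (f₄ U e))
      (par (f₅ U e)) (f₆ U e) := by
  refine Dfn.comp6 (R := fun _ y k z p q d => y ∈ DD A k (E1 A k) z (par p) (par q) d) ?_
    h1 h2 h3 h4 h5 h6
  have h7 : Dfn A GG fun U e => e 0 ∈ CC A (e 1) (E1 A (e 1)) (par (e 3)) (e 5) ∧
      (∃ ξ, Wit A (e 1) (e 2) (par (e 3)) (par (e 4)) (e 0) ξ) ∧
      ∀ a ∈ par (e 4), ¬ Cof (cl A (e 2) (gq a (par (e 3)) (par (e 4)) (a + 1)))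
        (LA.St A (e 1) (par (e 3)) (e 0)) := by (apply_rules (transparency := .reducible) (maxDepth := 1000) using is_poly)
  exact h7

@[is_poly] theorem DfnF.pc (h1 : DfnF A GG f) (h2 : DfnF A GG g) :
    DfnF A GG fun U e => LA.pc A (f U e) (g U e) := by
  refine DfnF.comp2 (R := fun _ x y => LA.pc A x y) ?_ h1 h2
  have h3 : DfnF A GG fun U e => InfSet.sInf {c | LA.lev c = LA.zc A (e 0) (e 1) ∧
      ∀ v < LA.zc A (e 0) (e 1), v ∈ cl A (LA.zc A (e 0) (e 1)) (gen (e 0) (par c))} := by (apply_rules (transparency := .reducible) (maxDepth := 1000) using is_poly)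
  exact h3

/-- The code of the descent set. -/
noncomputable def ql (A : Ord → Ord → Ord → Prop) (κ δ : Ord) : Ord :=
  sInf {q | IsQ A κ (zc A κ δ) (par (pc A κ δ)) (par q)}

@[is_poly] theorem DfnF.ql (h1 : DfnF A GG f) (h2 : DfnF A GG g) :
    DfnF A GG fun U e => LA.ql A (f U e) (g U e) := by
  refine DfnF.comp2 (R := fun _ x y => LA.ql A x y) ?_ h1 h2
  unfold LA.ql
  (apply_rules (transparency := .reducible) (maxDepth := 1000) using is_poly)

/-- The club of order type at most `κ` at `δ`. -/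
def Dd (A : Ord → Ord → Ord → Prop) (κ δ : Ord) : Set Ord :=
  DD A κ (E1 A κ) (zc A κ δ) (par (pc A κ δ)) (par (ql A κ δ)) δ

@[is_poly] theorem Dfn.mem_Dd {f₁ f₂ f₃ : Set Ord → Env → Ord} (h1 : DfnF A GG f₁)
    (h2 : DfnF A GG f₂) (h3 : DfnF A GG f₃) :
    Dfn A GG fun U e => f₁ U e ∈ Dd A (f₂ U e) (f₃ U e) := by
  refine Dfn.comp3 (R := fun _ y k d => y ∈ Dd A k d) ?_ h1 h2 h3
  have h7 : Dfn A GG fun U e => e 0 ∈ DD A (e 1) (E1 A (e 1)) (LA.zc A (e 1) (e 2))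
    (par (LA.pc A (e 1) (e 2))) (par (LA.ql A (e 1) (e 2))) (e 2) := by (apply_rules (transparency := .reducible) (maxDepth := 1000) using is_poly)
  exact h7

/-- `z` codes a cofinal subset of `E1 ∩ δ` of order type `ω`. -/
def SeqOK (A : Ord → Ord → Ord → Prop) (κ δ z : Ord) : Prop :=
  (∀ v ∈ D A z, v ∈ E1 A κ ∧ v < δ) ∧ (∀ b < δ, ∃ v ∈ D A z, b < v) ∧
    ∀ v ∈ D A z, otp (D A z) v < ω

@[is_poly] theorem Dfn.seqOK {f₁ f₂ f₃ : Set Ord → Env → Ord} (h1 : DfnF A GG f₁)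
    (h2 : DfnF A GG f₂) (h3 : DfnF A GG f₃) :
    Dfn A GG fun U e => SeqOK A (f₁ U e) (f₂ U e) (f₃ U e) := by
  refine Dfn.comp3 (R := fun _ k d z => SeqOK A k d z) ?_ h1 h2 h3
  have h7 : Dfn A GG fun U e => (∀ v ∈ D A (e 2), v ∈ E1 A (e 0) ∧ v < e 1) ∧
      (∀ b < e 1, ∃ v ∈ D A (e 2), b < v) ∧
      ∀ v ∈ D A (e 2), otp {x | x ∈ D A (e 2)} v < ω := by (apply_rules (transparency := .reducible) (maxDepth := 1000) using is_poly)
  exact h7

/-- The final club at `δ`. -/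
def CS (A : Ord → Ord → Ord → Prop) (κ δ : Ord) : Set Ord :=
  {y | ((∀ b < δ, ∃ v ∈ Dd A κ δ, b < v) ∧ y ∈ Dd A κ δ) ∨
    ((¬ ∀ b < δ, ∃ v ∈ Dd A κ δ, b < v) ∧ y ∈ D A (sInf {z | SeqOK A κ δ z}))}

@[is_poly] theorem Dfn.mem_CS {f₁ f₂ f₃ : Set Ord → Env → Ord} (h1 : DfnF A GG f₁)
    (h2 : DfnF A GG f₂) (h3 : DfnF A GG f₃) :
    Dfn A GG fun U e => f₁ U e ∈ CS A (f₂ U e) (f₃ U e) := by
  refine Dfn.comp3 (R := fun _ y k d => y ∈ CS A k d) ?_ h1 h2 h3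
  have h7 : Dfn A GG fun U e =>
    ((∀ b < e 2, ∃ v, v ∈ Dd A (e 1) (e 2) ∧ b < v) ∧ e 0 ∈ Dd A (e 1) (e 2)) ∨
    ((¬ ∀ b < e 2, ∃ v, v ∈ Dd A (e 1) (e 2) ∧ b < v) ∧
      e 0 ∈ D A (InfSet.sInf {z | SeqOK A (e 1) (e 2) z})) := by (apply_rules (transparency := .reducible) (maxDepth := 1000) using is_poly)
  exact h7

end Pool.Agent.Lib.MP_7295f2_lc.LA

end

section

/-!
# Square, part 5: the clubs `Dd` are closed, short and coherent
-/

open Ordinal Set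

set_option linter.unusedVariables false
set_option linter.unusedSectionVars false

namespace Pool.Agent.Lib.MP_7295f2_lc.LA

variable {A : Ord → Ord → Ord → Prop} {κ δ ζ η y : Ord} {l m : List Ord} {F : Set Ord}

theorem Ec_closed (hy : y < sc A κ) (hacc : IsAcc (Ec A κ) y) : y ∈ Ec A κ := by
  obtain ⟨y', h1, _, h2⟩ := hacc.2 0 (pos_iff_ne_zero.mpr hacc.1)
  refine ⟨h1.1.trans h2, hy, fun γ hγ => ?_, fun γ hγ => ?_⟩
  · obtain ⟨z, g1, g2, g3⟩ := hacc.2 γ hγ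
    exact (g1.2.2.1 γ g2).trans g3
  · obtain ⟨z, g1, g2, g3⟩ := hacc.2 γ hγ
    exact (g1.2.2.2 γ g2).trans g3

theorem E1_closed (hy : y < sc A κ) (hacc : IsAcc (E1 A κ) y) : y ∈ E1 A κ := by
  have h1 : IsAcc (Ec A κ) y := ⟨hacc.1, fun x hx => by
    obtain ⟨z, g1, g2⟩ := hacc.2 x hx
    exact ⟨z, g1.1, g2⟩⟩
  exact ⟨Ec_closed hy h1, h1⟩

theorem iio_clsd (hκ : Clos κ) {w : Ord} (hw : w ∈ Ec A κ) (hη : w ≤ η) : Clsd A η (Iio w) where
  sub x hx := lt_of_lt_of_le hx hη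
  zero' _ := Ordinal.omega0_pos.trans (hκ.1.trans hw.1)
  code' γ n l hγ hl hv _ := by
    exact (mk_lt_of_lev hv (lt_add_one γ)).trans (hw.2.2.1 γ hγ)
  lev' x hx := (lev_le x).trans_lt hx
  par' x hx a ha := (par_lt_self ha).trans hx
  hf' x hx := (hf_le_self x).trans_lt hx

theorem frm_of_E1 (hA : Ctb A) (hκ1 : O1 ≤ κ) (hκ : Clos κ) (hδ : δ ∈ E1 A κ) :
    Frm A κ δ (zc A κ δ) (par (pc A κ δ)) := by
  classical
  obtain ⟨⟨h1, h2, h3, h4⟩, hacc⟩ := hδ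
  have hsp := zc_spec (A := A) hκ h2
  obtain ⟨hp1, hp2⟩ := pc_spec hA hκ1 hκ h2 h1
  have hpar : ∀ a ∈ par (pc A κ δ), a < zc A κ δ := fun a ha => hp1 ▸ par_lt ha
  have hlt : δ < zc A κ δ := by
    refine lt_of_le_of_ne hsp.1 fun heq => ?_
    rw [← heq] at hp2 hpar
    obtain ⟨b, hb, hb'⟩ := exists_list_bound (lt_of_le_of_lt zero_le h1) _ hpar
    obtain ⟨w, g1, g2, g3⟩ := hacc.2 b hb
    have h5 : cl A δ (gen κ (par (pc A κ δ))) ⊆ Iio w := by
      refine cl_subset (iio_clsd hκ g1 g3.le) le_rfl ?_ |>.trans subset_rfl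
      rintro v (hv | hv) _
      · exact hv.trans g1.1
      · exact (hb' v hv).trans_lt g2
    exact lt_irrefl w (Set.mem_Iio.mp (h5 (hp2 w g3)))
  refine ⟨hA, hκ1, hκ, ⟨h1, h2, h3, h4⟩, ?_, hlt, hpar, hp2, fun η hη h => ?_⟩
  · rcases Ordinal.zero_or_succ_or_isSuccLimit (zc A κ δ) with h0 | ⟨z, hz⟩ | h0
    · rw [h0] at hlt
      exact absurd hlt not_lt_zero
    · exfalso
      have hz' : zc A κ δ = Order.succ z := hz.symm
      have hδz : δ ≤ z := Order.lt_succ_iff.mp (hz' ▸ hlt)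
      set l := par (pc A κ δ) with hl
      have hZ : Zp A κ δ z := by
        refine Zp.of_list (l := (l ++ lev z :: hf A z :: par z).filter fun a => a < z) hδz ?_ ?_
        · intro a ha
          rw [List.mem_filter] at ha
          simpa using ha.2
        · intro v hv
          have h5 := hp2 v (hv.trans hlt)
          rw [hz'] at h5
          rcases cl_succ h5 with h6 | h6
          · refine cl_idem_subset le_rfl ?_ h6
            rintro a (ha | ha) haz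
            · rcases ha with ha | ha
              · exact Cl.base (Or.inl ha) haz
              · refine Cl.base (Or.inr ?_) haz
                rw [List.mem_filter]
                exact ⟨List.mem_append_left _ ha, by simpa using haz⟩
            · refine Cl.base (Or.inr ?_) haz
              rw [List.mem_filter]
              refine ⟨List.mem_append_right _ ?_, by simpa using haz⟩
              rcases ha with ha | ha | ha
              · exact List.mem_cons.mpr (Or.inl ha)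
              · exact List.mem_cons_of_mem _ (List.mem_cons.mpr (Or.inl ha))
              · exact List.mem_cons_of_mem _ (List.mem_cons_of_mem _ ha)
          · rw [Set.mem_singleton_iff] at h6
            rw [h6] at hv
            exact absurd hδz (not_le.mpr hv)
      have := zc_le hZ
      rw [hz'] at this
      exact absurd this (not_le.mpr (Order.lt_succ z))
    · exact h0
  · exact absurd (zc_le h) (not_le.mpr hη)

theorem ql_spec (hA : Ctb A) (hκ1 : O1 ≤ κ) (hκ : Clos κ) (hδ : δ ∈ E1 A κ) :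
    IsQ A κ (zc A κ δ) (par (pc A κ δ)) (par (ql A κ δ)) := by
  have h := frm_of_E1 hA hκ1 hκ hδ
  apply csInf_mem (s := {q | IsQ A κ (zc A κ δ) (par (pc A κ δ)) (par q)})
  obtain ⟨m, hm⟩ := exists_isQ (A := A) (κ := κ) (ζ := zc A κ δ) (l := par (pc A κ δ)) (by
    intro β hβ
    exact ⟨β, h.gen β hβ, le_rfl⟩)
  obtain ⟨c, hc⟩ := exists_par m
  refine ⟨c, ?_⟩
  show IsQ A κ (zc A κ δ) (par (pc A κ δ)) (par c)
  rw [hc]
  exact hm

theorem frmQ_of_E1 (hA : Ctb A) (hκ1 : O1 ≤ κ) (hκ : Clos κ) (hδ : δ ∈ E1 A κ) :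
    FrmQ A κ δ (zc A κ δ) (par (pc A κ δ)) (par (ql A κ δ)) (E1 A κ) where
  frm := frm_of_E1 hA hκ1 hκ hδ
  q := ql_spec hA hκ1 hκ hδ
  closed y hy hacc := E1_closed (hy.trans hδ.1.2.1) hacc
  κlt y hy := hy.1.1

theorem Dd_sub {v : Ord} (hv : v ∈ Dd A κ δ) : v ∈ E1 A κ ∧ v < δ := ⟨hv.1.1, hv.1.2.1⟩

theorem Dd_otp (hA : Ctb A) (hκ1 : O1 ≤ κ) (hκ : Clos κ) (hδ : δ ∈ E1 A κ) {v : Ord}
    (hv : v ∈ Dd A κ δ) : otp (Dd A κ δ) v < κ :=
  (frmQ_of_E1 hA hκ1 hκ hδ).otp_lt hv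

theorem Dd_coh (hA : Ctb A) (hκ1 : O1 ≤ κ) (hκ : Clos κ) (hδ : δ ∈ E1 A κ) (hy : y < δ)
    (hacc : IsAcc (Dd A κ δ) y) : y ∈ Dd A κ δ ∧ Dd A κ y = Dd A κ δ ∩ Iio y := by
  have h := frmQ_of_E1 hA hκ1 hκ hδ
  have hmem : y ∈ Dd A κ δ := h.dd_closed hy hacc
  refine ⟨hmem, ?_⟩
  have L := h.lim hy hacc
  have hyE : y ∈ E1 A κ := hmem.1.1
  have h1 := h.dd_eq hy hacc
  have h2 := h.isQ_of_acc hy hacc
  have h3 := ql_spec hA hκ1 hκ hyE
  rw [L.zc_eq, L.pc_par] at h3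
  unfold Dd
  rw [L.zc_eq, L.pc_par, ← DD_congr (h2.unique h3), h1]

theorem omega_le_otp_of_acc {S : Set Ord} (h : IsAcc S y) : ω ≤ otp S y := by
  have key : ∀ n : ℕ, ∃ x ∈ S, x < y ∧ (n : Ord) ≤ otp S x := by
    intro n
    induction n with
    | zero =>
      obtain ⟨x, h1, _, h2⟩ := h.2 0 (pos_iff_ne_zero.mpr h.1)
      exact ⟨x, h1, h2, by simp⟩
    | succ n ih =>
      obtain ⟨x, h1, h2, h3⟩ := ih
      obtain ⟨z, h4, h5, h6⟩ := h.2 x h2
      refine ⟨z, h4, h6, ?_⟩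
      push_cast
      exact Order.add_one_le_of_lt (h3.trans_lt (otp_lt_otp h1 h5))
  rw [Ordinal.omega0_le]
  intro n
  obtain ⟨x, h1, h2, h3⟩ := key n
  exact h3.trans (otp_mono h2.le)

/-- The alternative for `δ`. -/
def Alt (A : Ord → Ord → Ord → Prop) (κ δ : Ord) : Prop :=
  (∀ b < δ, ∃ v ∈ Dd A κ δ, b < v) ∨ ∃ z, SeqOK A κ δ z

theorem CS_eq_of_unb (h : ∀ b < δ, ∃ v ∈ Dd A κ δ, b < v) : CS A κ δ = Dd A κ δ := by
  ext y
  constructor
  · rintro (⟨_, h1⟩ | ⟨h1, _⟩)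
    · exact h1
    · exact absurd h h1
  · intro h1
    exact Or.inl ⟨h, h1⟩

theorem CS_eq_of_bdd (h : ¬ ∀ b < δ, ∃ v ∈ Dd A κ δ, b < v) :
    CS A κ δ = D A (sInf {z | SeqOK A κ δ z}) := by
  ext y
  constructor
  · rintro (⟨h1, _⟩ | ⟨_, h1⟩)
    · exact absurd h1 h
    · exact h1
  · intro h1
    exact Or.inr ⟨h, h1⟩

/-- The properties of `CS`. -/
structure CSGood (A : Ord → Ord → Ord → Prop) (κ δ : Ord) : Prop where
  sub : ∀ y ∈ CS A κ δ, y ∈ E1 A κ ∧ y < δ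
  unb : ∀ b < δ, ∃ v ∈ CS A κ δ, b < v
  otp : ∀ y ∈ CS A κ δ, otp (CS A κ δ) y < κ
  coh : ∀ y < δ, IsAcc (CS A κ δ) y → y ∈ CS A κ δ ∧ CS A κ y = CS A κ δ ∩ Iio y

theorem csGood_of_alt (hA : Ctb A) (hκ1 : O1 ≤ κ) (hκ : Clos κ) (hδ : δ ∈ E1 A κ)
    (halt : Alt A κ δ) : CSGood A κ δ := by
  by_cases h : ∀ b < δ, ∃ v ∈ Dd A κ δ, b < v
  · have e := CS_eq_of_unb h
    refine ⟨?_, ?_, ?_, ?_⟩
    · rw [e]
      exact fun y hy => Dd_sub hy
    · rw [e]
      exact h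
    · rw [e]
      exact fun y hy => Dd_otp hA hκ1 hκ hδ hy
    · rw [e]
      intro y hy hacc
      obtain ⟨h1, h2⟩ := Dd_coh hA hκ1 hκ hδ hy hacc
      refine ⟨h1, ?_⟩
      rw [← h2]
      apply CS_eq_of_unb
      rw [h2]
      intro b hb
      obtain ⟨v, g1, g2, g3⟩ := hacc.2 b hb
      exact ⟨v, ⟨g1, g3⟩, g2⟩
  · have e := CS_eq_of_bdd h
    obtain ⟨h1, h2, h3⟩ : SeqOK A κ δ (sInf {z | SeqOK A κ δ z}) := by
      rcases halt with h' | h'
      · exact absurd h' h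
      · exact csInf_mem (s := {z | SeqOK A κ δ z}) h'
    refine ⟨?_, ?_, ?_, ?_⟩
    · rw [e]
      exact h1
    · rw [e]
      exact h2
    · rw [e]
      exact fun y hy => (h3 y hy).trans hκ.1
    · rw [e]
      intro y hy hacc
      exfalso
      obtain ⟨v, g1, g2⟩ := h2 y hy
      have g3 := (omega_le_otp_of_acc hacc).trans (otp_mono g2.le)
      exact absurd (h3 v g1) (not_lt.mpr g3)

end Pool.Agent.Lib.MP_7295f2_lc.LA

end

section

/-!
# Square, part 6: either `Dd` is unbounded or `δ` has internal cofinality `ω`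
-/

open Ordinal Set

set_option linter.unusedVariables false
set_option linter.unusedSectionVars false

namespace Pool.Agent.Lib.MP_7295f2_lc.LA

variable {A : Ord → Ord → Ord → Prop} {κ δ ζ η y : Ord} {l m : List Ord} {F : Set Ord}
  {f : Set Ord → Env → Ord}

open Classical in
/-- Definable iteration. -/
theorem exists_iter {N : Env → Ord → Ord → Ord}
    (hN : DfnF A GG fun U e => N (fun i => e (i + 2)) (e 0) (e 1)) :
    ∃ s : Env → Ord → Ord, (∀ (k : ℕ) (f : Set Ord → Env → Ord), DfnF A GG f →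
      DfnF A GG (fun U e => s (fun i => e (i + k)) (f U e))) ∧
      ∀ p, s p 0 = p 0 ∧ ∀ n : ℕ, s p ((n : Ord) + 1) = N p n (s p n) := by
  set G : Env → Ord → Ord → Ord := fun p α x => @ite _ (α = 0) (Classical.propDecidable _) (p 0)
    (N p (InfSet.sInf {β | β + 1 = α}) (val A x (InfSet.sInf {β | β + 1 = α}))) with hG
  have hGd : DfnF A GG fun U e => G (fun i => e (i + 2)) (e 0) (e 1) := by
    have h1 : DfnF A GG fun U e => InfSet.sInf {β | β + 1 = e 0} := by (apply_rules (transparency := .reducible) (maxDepth := 1000) using is_poly)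
    have h2 : DfnF A GG fun U e => val A (e 1) (InfSet.sInf {β | β + 1 = e 0}) := by (apply_rules (transparency := .reducible) (maxDepth := 1000) using is_poly)
    exact DfnF.ite (P := fun U e => e 0 = 0) (f := fun U e => e 2) (by (apply_rules (transparency := .reducible) (maxDepth := 1000) using is_poly)) (by (apply_rules (transparency := .reducible) (maxDepth := 1000) using is_poly))
      (dfnF_G hN 2 h1 h2)
  refine ⟨fun p α => recF A (G p) α, fun k f hf => recF_dfn' hGd k hf, fun p => ⟨?_, fun n => ?_⟩⟩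
  · show recF A (G p) 0 = p 0
    rw [recF_eq]
    exact if_pos rfl
  · show recF A (G p) ((n : Ord) + 1) = N p n (recF A (G p) n)
    rw [recF_eq]
    have e1 : InfSet.sInf {β : Ord | β + 1 = (n : Ord) + 1} = n := by
      have : {β : Ord | β + 1 = (n : Ord) + 1} = {(n : Ord)} := by
        ext β
        simp only [Set.mem_ofPred_eq, Set.mem_singleton_iff]
        constructor
        · intro h
          exact Order.succ_injective (by simpa [Order.succ_eq_add_one] using h)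
        · intro h
          rw [h]
      rw [this, csInf_singleton]
    have e2 : (n : Ord) + 1 ≠ 0 := (lt_of_le_of_lt zero_le (lt_add_one (n : Ord))).ne'
    refine (if_neg e2).trans ?_
    rw [e1, val_nm_graph hGd p (lt_add_one _)]

theorem cl_gq_sup {Ξ : Set Ord} {ξs : Ord} (h0 : Ξ.Nonempty) (hlt : ∀ ξ' < ξs, ∃ ξ ∈ Ξ, ξ' < ξ)
    {v : Ord} (hv : v ∈ cl A ζ (gq ξs l m 0)) : ∃ ξ ∈ Ξ, v ∈ cl A ζ (gq ξ l m 0) := by
  obtain ⟨F₀, hF₀, hfin, hvF⟩ := cl_finite hv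
  have key : ∃ ξ ∈ Ξ, ∀ a ∈ F₀, a < ξs → a < ξ := by
    clear hvF hv
    induction F₀, hfin using Set.Finite.induction_on with
    | empty =>
      obtain ⟨ξ, hξ⟩ := h0
      exact ⟨ξ, hξ, fun a ha => absurd ha (Set.notMem_empty a)⟩
    | @insert a s _ _ ih =>
      obtain ⟨ξ, hξ, hξs⟩ := ih ((Set.subset_insert a s).trans hF₀)
      by_cases ha : a < ξs
      · obtain ⟨ξ', hξ', ha'⟩ := hlt a ha
        rcases le_total ξ ξ' with hle | hle
        · refine ⟨ξ', hξ', fun b hb hbs => ?_⟩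
          rcases hb with rfl | hb
          · exact ha'
          · exact (hξs b hb hbs).trans_le hle
        · refine ⟨ξ, hξ, fun b hb hbs => ?_⟩
          rcases hb with rfl | hb
          · exact ha'.trans_le hle
          · exact hξs b hb hbs
      · refine ⟨ξ, hξ, fun b hb hbs => ?_⟩
        rcases hb with rfl | hb
        · exact absurd hbs ha
        · exact hξs b hb hbs
  obtain ⟨ξ, hξ, h1⟩ := key
  refine ⟨ξ, hξ, cl_mono le_rfl ?_ hvF⟩
  intro a ha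
  rcases hF₀ ha with g4 | g4
  · exact Or.inl (h1 a ha g4)
  · exact Or.inr g4

/-- The step relation. -/
def Stp (A : Ord → Ord → Ord → Prop) (δ κ ζ a b fl x n η η' : Ord) : Prop :=
  η < η' ∧ (∃ e, e ∈ E1 A κ ∧ e < δ ∧ (∀ v, v ∈ cl A η (gen κ (par a)) → v < δ → v < e) ∧
    ∀ v < e + 1, v ∈ cl A η' (gen κ (par a))) ∧
  (fl = 0 → ∃ ξ, (∀ v, v ∈ cl A ζ (gq ξ (par a) (par b) 0) → v < η') ∧
    ∃ w, w ∈ cl A ζ (gq ξ (par a) (par b) 0) ∧ η ≤ w) ∧
  (val A x n < ζ → val A x n < η')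

/-- The closure of a finite set is an internal image of `ω`. -/
theorem sj_omega (hA : Good A) (hζ : ω ≤ ζ) {a b : Ord} :
    Sj A ω (cl A ζ (gq 0 (par a) (par b) 0)) := by
  set x := pr a b with hx
  set σ := max ζ x + 1 with hσdef
  have hxσ : x < σ := Order.lt_add_one_iff.mpr (le_max_right _ _)
  have hζσ : ζ ≤ σ := (le_max_left _ _).trans (lt_add_one _).le
  have hσ : ω ≤ σ := hζ.trans hζσ
  have h1σ : (1 : Ord) ≤ σ := (by
    have : ((1 : ℕ) : Ord) ≤ ω := (Ordinal.natCast_lt_omega0 1).le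
    rw [Nat.cast_one] at this
    exact this.trans hσ)
  have hX := Hl_clsd (A := A) hσ hxσ h1σ zero_lt_one
  have hxX := Hl_param (A := A) hσ hxσ h1σ zero_lt_one
  have h1 : cl A ζ (gq 0 (par a) (par b) 0) ⊆ Hl A σ x 1 := by
    refine cl_subset hX hζσ ?_
    have ha : a ∈ Hl A σ x 1 := hX.par' x hxX a (by rw [hx, par_pr]; simp)
    have hb : b ∈ Hl A σ x 1 := hX.par' x hxX b (by rw [hx, par_pr]; simp)
    rintro w (hw | hw | ⟨hw, _⟩) _
    · exact absurd hw not_lt_zero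
    · exact hX.par' a ha w hw
    · exact hX.par' b hb w hw
  have h2 : DfnF A GG fun U e => hen A (e 1) (e 2) (e 0) := by (apply_rules (transparency := .reducible) (maxDepth := 1000) using is_poly)
  have h3 : Sj A (mk 2 0 []) (Hl A σ x 1) := by
    refine Sj.of_fun h2 (cons σ (cons x fun _ => 0)) fun w hw => ?_
    obtain ⟨n, k, hk, rfl⟩ := hw
    refine ⟨mk 1 n k, mk_lt_of_lev hk one_lt_two, ?_⟩
    show hen A σ x (mk 1 n k) = _
    rw [hen_eq hxσ, num_mk hk, par_mk hk]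
    rw [par_mk hk]
    exact fun c hc => (hk c hc).trans_le h1σ
  have h4 : mk 2 0 [] < O1 := by
    refine clos_O1.2 2 ?_ 0 [] (by simp)
    have : ((2 : ℕ) : Ord) < O1 := (Ordinal.natCast_lt_omega0 2).trans omega_lt_O1
    simpa using this
  exact (hA.sj h4).trans (h3.mono le_rfl h1)

theorem alt_E1 (hA : Good A) (hκ1 : O1 ≤ κ) (hκ : Clos κ) (hδ : δ ∈ E1 A κ)
    (hacc : IsAcc (E1 A κ) δ) : Alt A κ δ := by
  by_contra hno
  unfold Alt at hno
  push Not at hno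
  obtain ⟨⟨b₀, hb₀, hb₀'⟩, hseq⟩ := hno
  have h := frmQ_of_E1 hA.ctb hκ1 hκ hδ
  have hDd : Dd A κ δ = DD A κ (E1 A κ) (zc A κ δ) (par (pc A κ δ)) (par (ql A κ δ)) δ := rfl
  rw [hDd] at hb₀'
  clear hDd
  generalize zc A κ δ = ζ at h hb₀'
  generalize pc A κ δ = a at h hb₀'
  generalize ql A κ δ = b at h hb₀'
  have hlim := h.frm.lim
  have hζω := h.frm.omega_le
  have hδ1 : ∀ e < δ, e + 1 < δ := fun e he => (le_mk _ 0 []).trans_lt (hδ.1.2.2.1 e he)
  -- the basic step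
  have step0 : ∀ η < ζ, ∃ e, e ∈ E1 A κ ∧ e < δ ∧
      (∀ v, v ∈ cl A η (gen κ (par a)) → v < δ → v < e) ∧ ∃ η₁ < ζ, ∀ η' ≥ η₁, ∀ v < e + 1,
        v ∈ cl A η' (gen κ (par a)) := by
    intro η hη
    obtain ⟨c, hc, hc'⟩ := h.frm.bdd hη
    obtain ⟨e, g1, g2, g3⟩ := hacc.2 c hc
    obtain ⟨g4, g5, g6⟩ := h.frm.st_spec (hδ1 e g3)
    exact ⟨e, g1, g3, fun v hv hvδ => (hc' v hv hvδ).trans g2, _, g4, fun η' hη' v hv =>
      cl_mono hη' Subset.rfl (g6 v hv)⟩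
  have total : ∃ fl x, (∀ n : ℕ, ∀ η < ζ, ∃ η' < ζ, Stp A δ κ ζ a b fl x n η η') ∧
      (fl ≠ 0 → ∀ η < ζ, ∃ n : ℕ, η ≤ val A x n ∧ val A x n < ζ) := by
    classical
    by_cases hc0 : Cof (cl A ζ (gq 0 (par a) (par b) 0)) ζ
    · obtain ⟨x, hx⟩ := sj_omega (A := A) (ζ := ζ) (a := a) (b := b) hA hζω
      refine ⟨1, x, fun n η hη => ?_, fun _ η hη => ?_⟩
      · obtain ⟨e, g1, g2, g3, η₁, g4, g5⟩ := step0 η hη
        refine ⟨max (Order.succ η) (max η₁ (if val A x n < ζ then Order.succ (val A x n) else 0)),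
          ?_, ?_, ⟨e, g1, g2, g3, ?_⟩, fun h => absurd h one_ne_zero, fun h1 => ?_⟩
        · refine max_lt (hlim.succ_lt hη) (max_lt g4 ?_)
          by_cases h1 : val A x n < ζ
          · rw [if_pos h1]
            exact hlim.succ_lt h1
          · rw [if_neg h1]
            exact hlim.bot_lt
        · exact (Order.lt_succ η).trans_le (le_max_left _ _)
        · exact g5 _ ((le_max_left _ _).trans (le_max_right _ _))
        · rw [if_pos h1]
          exact (Order.lt_succ _).trans_le ((le_max_right _ _).trans (le_max_right _ _))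
      · obtain ⟨w, hw, hηw⟩ := hc0 η hη
        obtain ⟨i, hi, hiw⟩ := hx w hw
        obtain ⟨n, rfl⟩ := Ordinal.lt_omega0.mp hi
        exact ⟨n, by rw [hiw]; exact hηw, by rw [hiw]; exact cl_lt hw⟩
    · refine ⟨0, 0, fun n η hη => ?_, fun h => absurd rfl h⟩
      obtain ⟨e, g1, g2, g3, η₁, g4, g5⟩ := step0 η hη
      set Λ : Set Ord := {ξ | Cof (cl A ζ (gq ξ (par a) (par b) 0)) ζ} with hΛ
      have hne : Λ.Nonempty := by
        refine ⟨κ, fun β hβ => ⟨β, cl_mono le_rfl ?_ (h.frm.gen β hβ), le_rfl⟩⟩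
        rintro c (hc | hc)
        · exact Or.inl hc
        · exact Or.inr (Or.inl hc)
      have hm := csInf_mem hne
      have hmin : ∀ ξ < sInf Λ, ¬ Cof (cl A ζ (gq ξ (par a) (par b) 0)) ζ := fun ξ hξ h1 =>
        absurd (csInf_le' (s := Λ) h1) (not_le.mpr hξ)
      set ξs := sInf Λ with hξs
      have hξlim : Order.IsSuccLimit ξs := by
        rcases Ordinal.zero_or_succ_or_isSuccLimit ξs with h0 | ⟨z, hz⟩ | h0
        · rw [h0] at hm
          exact absurd hm hc0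
        · exfalso
          rw [← hz] at hm hmin
          refine hmin z (Order.lt_succ z) (h.q.2 z ?_)
          rw [← Order.succ_eq_add_one]
          exact hm
        · exact h0
      obtain ⟨w, hw, hηw⟩ := hm η hη
      obtain ⟨ξ, hξ, hw'⟩ := cl_gq_sup (Ξ := Iio ξs) ⟨0, hξlim.bot_lt⟩ (fun ξ' hξ' =>
        ⟨Order.succ ξ', hξlim.succ_lt hξ', Order.lt_succ ξ'⟩) hw
      obtain ⟨β, hβ, hβ'⟩ := not_cof.mp (hmin ξ hξ)
      refine ⟨max (Order.succ η) (max (max η₁ β) (if val A 0 n < ζ then Order.succ (val A 0 n)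
        else 0)), ?_, ?_, ⟨e, g1, g2, g3, ?_⟩, fun _ => ⟨ξ, fun v hv => ?_, w, hw', hηw⟩,
        fun h1 => ?_⟩
      · refine max_lt (hlim.succ_lt hη) (max_lt (max_lt g4 hβ) ?_)
        by_cases h1 : val A 0 n < ζ
        · rw [if_pos h1]
          exact hlim.succ_lt h1
        · rw [if_neg h1]
          exact hlim.bot_lt
      · exact (Order.lt_succ η).trans_le (le_max_left _ _)
      · exact g5 _ ((le_max_left _ _).trans ((le_max_left _ _).trans (le_max_right _ _)))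
      · exact (hβ' v hv).trans_le ((le_max_right _ _).trans
          ((le_max_left _ _).trans (le_max_right _ _)))
      · rw [if_pos h1]
        exact (Order.lt_succ _).trans_le ((le_max_right _ _).trans (le_max_right _ _))
  obtain ⟨fl, x, htot, hflag⟩ := total
  -- the starting point
  obtain ⟨s0, hs0, hs1, hs2, hs3⟩ : ∃ s0 < ζ, (∀ c ∈ par a, c < s0) ∧
      b₀ ∈ cl A s0 (gen κ (par a)) ∧ ∀ e ∈ par b, ∀ v ∈ cl A ζ (gq e (par a) (par b) (e + 1)),
        v < s0 := by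
    obtain ⟨g4, g5, g6⟩ := h.frm.st_spec (hδ1 b₀ hb₀)
    obtain ⟨β, g7, g8⟩ := exists_common hlim (l := par b)
      (P := fun e β => ∀ v ∈ cl A ζ (gq e (par a) (par b) (e + 1)), v < β)
      (fun e β β' hle h1 v hv => (h1 v hv).trans_le hle) fun e he => by
        obtain ⟨β, h1, h2⟩ := not_cof.mp (h.q.1 e he).2.1
        exact ⟨β, h1, h2⟩
    refine ⟨max (St A κ (par a) (b₀ + 1)) β, max_lt g4 g7, fun c hc =>
      (g5 c hc).trans_le (le_max_left _ _), ?_, fun e he v hv =>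
      (g8 e he v hv).trans_le (le_max_right _ _)⟩
    exact cl_mono (le_max_left _ _) Subset.rfl (g6 b₀ (lt_add_one b₀))
  -- the iteration
  have hN : DfnF A GG fun U e => InfSet.sInf {η' | Stp A (e 3) (e 4) (e 5) (e 6) (e 7) (e 8) (e 9)
      (e 0) (e 1) η'} := by
    unfold Stp
    (apply_rules (transparency := .reducible) (maxDepth := 1000) using is_poly)
  obtain ⟨s, hsd, hs⟩ := exists_iter (N := fun p n η => InfSet.sInf {η' | Stp A (p 1) (p 2) (p 3)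
    (p 4) (p 5) (p 6) (p 7) n η η'}) hN
  set p : Env := cons s0 (cons δ (cons κ (cons ζ (cons a (cons b (cons fl (cons x
    fun _ => 0))))))) with hp
  obtain ⟨hsz, hss⟩ := hs p
  set S : ℕ → Ord := fun n => s p n with hS
  have hS0 : S 0 = s0 := by
    show s p ((0 : ℕ) : Ord) = s0
    rw [Nat.cast_zero, hsz]
    rfl
  have hstep : ∀ n, S n < ζ → S (n + 1) < ζ ∧ Stp A δ κ ζ a b fl x n (S n) (S (n + 1)) := by
    intro n hn
    obtain ⟨η', g1, g2⟩ := htot n (S n) hn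
    have e1 : S (n + 1) = sInf {η' | Stp A δ κ ζ a b fl x n (S n) η'} := by
      show s p ((n + 1 : ℕ) : Ord) = _
      rw [Nat.cast_add, Nat.cast_one, hss]
      rfl
    refine ⟨?_, ?_⟩
    · rw [e1]
      exact (csInf_le' (s := {η' | Stp A δ κ ζ a b fl x n (S n) η'}) g2).trans_lt g1
    · rw [e1]
      exact csInf_mem (s := {η' | Stp A δ κ ζ a b fl x n (S n) η'}) ⟨η', g2⟩
  have hSζ : ∀ n, S n < ζ := by
    intro n
    induction n with
    | zero =>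
      rw [hS0]
      exact hs0
    | succ n ih => exact (hstep n ih).1
  have hStp : ∀ n : ℕ, Stp A δ κ ζ a b fl x n (S n) (S (n + 1)) := fun n => (hstep n (hSζ n)).2
  have hSlt : ∀ n, S n < S (n + 1) := fun n => (hStp n).1
  have hSmono : Monotone S := monotone_nat_of_le_succ fun n => (hSlt n).le
  -- the points `E n`
  have hEF : DfnF A GG fun U e => InfSet.sInf {e' | e' ∈ E1 A (e 3) ∧ e' < e 2 ∧
      ∀ v, v ∈ cl A (s (fun i => e (i + 1)) (e 0)) (gen (e 3) (par (e 5))) → v < e 2 → v < e'} := by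
    apply DfnF.sInf
    refine Dfn.and (by (apply_rules (transparency := .reducible) (maxDepth := 1000) using is_poly)) (Dfn.and (by (apply_rules (transparency := .reducible) (maxDepth := 1000) using is_poly)) (Dfn.allG (Dfn.imp ?_ (by (apply_rules (transparency := .reducible) (maxDepth := 1000) using is_poly)))))
    exact Dfn.mem_cl (DfnF.var 0) (hsd 3 _ (DfnF.var 2)) (DfnF.var 5) (DfnF.var 7)
  obtain ⟨xE, hxE⟩ := exists_val hEF p ω
  set E : ℕ → Ord := fun n => sInf {e' | e' ∈ E1 A κ ∧ e' < δ ∧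
    ∀ v, v ∈ cl A (S n) (gen κ (par a)) → v < δ → v < e'} with hE
  have hxE' : ∀ n : ℕ, val A xE n = E n := fun n => hxE n (Ordinal.natCast_lt_omega0 n)
  have hEspec : ∀ n, E n ∈ E1 A κ ∧ E n < δ ∧
      (∀ v, v ∈ cl A (S n) (gen κ (par a)) → v < δ → v < E n) ∧
      ∀ v < E n + 1, v ∈ cl A (S (n + 1)) (gen κ (par a)) := by
    intro n
    obtain ⟨e, g1, g2, g3, g4⟩ := (hStp n).2.1
    have g5 : e ∈ {e' | e' ∈ E1 A κ ∧ e' < δ ∧
        ∀ v, v ∈ cl A (S n) (gen κ (par a)) → v < δ → v < e'} := ⟨g1, g2, g3⟩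
    obtain ⟨g6, g7, g8⟩ := csInf_mem (s := {e' | e' ∈ E1 A κ ∧ e' < δ ∧
      ∀ v, v ∈ cl A (S n) (gen κ (par a)) → v < δ → v < e'}) ⟨e, g5⟩
    refine ⟨g6, g7, g8, fun v hv => g4 v (hv.trans_le ?_)⟩
    have : E n ≤ e := csInf_le' g5
    rw [← Order.succ_eq_add_one, ← Order.succ_eq_add_one]
    exact Order.succ_le_succ this
  have hEmem : ∀ n, E n ∈ cl A (S (n + 1)) (gen κ (par a)) := fun n =>
    (hEspec n).2.2.2 _ (lt_add_one _)
  have hElt : ∀ n, E n < E (n + 1) := fun n =>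
    (hEspec (n + 1)).2.2.1 _ (hEmem n) (hEspec n).2.1
  have hEmono : StrictMono E := strictMono_nat_of_lt_succ hElt
  by_cases hsup : ∀ η < ζ, ∃ n, η ≤ S n
  · -- internal cofinality `ω`
    have hd : Dfn A GG fun U e => ∃ i < ω, e 0 = val A (e 1) i := by (apply_rules (transparency := .reducible) (maxDepth := 1000) using is_poly)
    obtain ⟨z, hz⟩ := int_of_dfn' hd (cons xE fun _ => 0) (β := δ) (by
      rintro w ⟨i, hi, hw⟩
      have hi' : i < ω := hi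
      obtain ⟨n, rfl⟩ := Ordinal.lt_omega0.mp hi'
      have hw' : w = val A xE n := hw
      rw [hw', hxE']
      exact (hEspec n).2.1)
    have hz' : ∀ w, w ∈ D A z ↔ ∃ n : ℕ, w = E n := by
      intro w
      rw [hz]
      constructor
      · rintro ⟨i, hi, hw⟩
        have hi' : i < ω := hi
        obtain ⟨n, rfl⟩ := Ordinal.lt_omega0.mp hi'
        exact ⟨n, (show w = val A xE n from hw).trans (hxE' n)⟩
      · rintro ⟨n, rfl⟩
        exact ⟨n, Ordinal.natCast_lt_omega0 n, (hxE' n).symm⟩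
    refine hseq z ⟨?_, ?_, ?_⟩
    · intro v hv
      obtain ⟨n, rfl⟩ := (hz' v).mp hv
      exact ⟨(hEspec n).1, (hEspec n).2.1⟩
    · intro c hc
      obtain ⟨η', g1, g2⟩ := cl_cont hlim (h.frm.gen c (hc.trans h.frm.lt))
      obtain ⟨n, g3⟩ := hsup η' g1
      exact ⟨E n, (hz' _).mpr ⟨n, rfl⟩, (hEspec n).2.2.1 c (cl_mono g3 Subset.rfl g2) hc⟩
    · intro v hv
      obtain ⟨n, rfl⟩ := (hz' v).mp hv
      have key : ∀ n : ℕ, otp (D A z) (E n) ≤ n := by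
        intro n
        induction n using Nat.strong_induction_on with
        | _ n ih =>
          rw [otp_le_iff]
          intro w hw hwn
          obtain ⟨k, rfl⟩ := (hz' w).mp hw
          have hkn : k < n := hEmono.lt_iff_lt.mp hwn
          exact (ih k hkn).trans_lt (by exact_mod_cast hkn)
      exact (key n).trans_lt (Ordinal.natCast_lt_omega0 n)
  · -- a point of `Dd` above `b₀`
    push Not at hsup
    obtain ⟨η₁, hη₁, hη₁'⟩ := hsup
    have hfl : fl = 0 := by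
      by_contra hcon
      obtain ⟨n, g1, g2⟩ := hflag hcon η₁ hη₁
      exact absurd ((hStp n).2.2.2 g2) (not_lt.mpr ((hη₁' (n + 1)).le.trans g1))
    set ηs : Ord := ⨆ n, S n with hηs
    have hSη : ∀ n, S n < ηs := fun n => (hSlt n).trans_le (Ordinal.le_iSup S (n + 1))
    have hηζ : ηs < ζ := (Ordinal.iSup_le fun n => (hη₁' n).le).trans_lt hη₁
    have hlts : ∀ x < ηs, ∃ n, x < S n := fun x hx => Ordinal.lt_iSup_iff.mp hx
    set y : Ord := ⨆ n, E n with hy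
    have hEy : ∀ n, E n < y := fun n => (hElt n).trans_le (Ordinal.le_iSup E (n + 1))
    have hlty : ∀ x < y, ∃ n, x < E n := fun x hx => Ordinal.lt_iSup_iff.mp hx
    have hηslim : Order.IsSuccLimit ηs := by
      rw [Ordinal.isSuccLimit_iff]
      refine ⟨(lt_of_le_of_lt zero_le (hSη 0)).ne', fun c hc => ?_⟩
      obtain ⟨n, hn⟩ := hlts c hc.lt
      exact hc.2 hn (hSη n)
    have hyδ : y < δ := by
      obtain ⟨c, hc, hc'⟩ := h.frm.bdd hηζ
      refine (Ordinal.iSup_le fun n => ?_).trans_lt hc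
      exact (hc' (E n) (cl_mono (hSη (n + 1)).le Subset.rfl (hEmem n)) (hEspec n).2.1).le
    have hyacc : IsAcc (E1 A κ) y := by
      refine ⟨(lt_of_le_of_lt zero_le (hEy 0)).ne', fun c hc => ?_⟩
      obtain ⟨n, hn⟩ := hlty c hc
      exact ⟨E n, (hEspec n).1, hn, hEy n⟩
    have hiio : ∀ v < y, v ∈ cl A ηs (gen κ (par a)) := by
      intro v hv
      obtain ⟨n, hn⟩ := hlty v hv
      exact cl_mono (hSη (n + 1)).le Subset.rfl
        ((hEspec n).2.2.2 v (hn.trans (lt_add_one _)))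
    have hSty : St A κ (par a) y = ηs := by
      have hpa : ∀ c ∈ par a, c < ηs := fun c hc =>
        (hs1 c hc).trans (by rw [← hS0]; exact hSη 0)
      apply le_antisymm (st_le hpa hiio)
      by_contra hcon
      push Not at hcon
      obtain ⟨n, hn⟩ := hlts _ hcon
      have g1 := (h.frm.st_spec hyδ).2.2 (E n) (hEy n)
      exact lt_irrefl _ ((hEspec n).2.2.1 (E n) (cl_mono hn.le Subset.rfl g1) (hEspec n).2.1)
    have hyCC : y ∈ CC A κ (E1 A κ) (par a) δ := by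
      refine ⟨E1_closed (hyδ.trans hδ.1.2.1) hyacc, hyδ, fun v hv hvδ => ?_⟩
      rw [hSty] at hv
      obtain ⟨η', g1, g2⟩ := cl_cont hηslim hv
      obtain ⟨n, g3⟩ := hlts η' g1
      exact ((hEspec n).2.2.1 v (cl_mono g3.le Subset.rfl g2) hvδ).trans (hEy n)
    have hwit : ∃ ξ, Wit A κ ζ (par a) (par b) y ξ := by
      set Ξ : Set Ord := {ξ | ∃ n, ∀ v, v ∈ cl A ζ (gq ξ (par a) (par b) 0) → v < S n} with hΞ
      have hb : BddAbove Ξ := by
        refine ⟨κ, ?_⟩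
        rintro ξ ⟨n, hn⟩
        by_contra hcon
        push Not at hcon
        have g1 := h.frm.gen _ (hSζ n)
        refine lt_irrefl _ (hn _ (cl_mono le_rfl ?_ g1))
        rintro c (hc | hc)
        · exact Or.inl (hc.trans hcon)
        · exact Or.inr (Or.inl hc)
      have hne : Ξ.Nonempty := by
        obtain ⟨ξ, g1, _⟩ := (hStp 0).2.2.1 hfl
        exact ⟨ξ, 1, g1⟩
      refine ⟨sSup Ξ, ?_, ?_⟩
      · intro v hv
        obtain ⟨ξ, ⟨n, hn⟩, hv'⟩ := cl_gq_sup hne (fun ξ' hξ' => exists_lt_of_lt_csSup hne hξ') hv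
        rw [hSty]
        exact (hn v hv').trans (hSη n)
      · intro β hβ
        rw [hSty] at hβ
        obtain ⟨n, hn⟩ := hlts β hβ
        obtain ⟨ξ, g1, w, g2, g3⟩ := (hStp n).2.2.1 hfl
        exact ⟨w, cl_mono le_rfl (gq_mono (le_csSup hb ⟨n + 1, g1⟩)) g2, hn.le.trans g3⟩
    have hyDD : y ∈ DD A κ (E1 A κ) ζ (par a) (par b) δ := by
      refine ⟨hyCC, hwit, fun e he => not_cof.mpr ⟨s0, ?_, hs3 e he⟩⟩
      rw [hSty, ← hS0]
      exact hSη 0
    have hb₀y : b₀ < y := by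
      refine lt_trans ?_ (hEy 0)
      exact (hEspec 0).2.2.1 b₀ (by rw [hS0]; exact hs2) hb₀
    exact absurd hb₀y (not_lt.mpr (hb₀' y hyDD))

end Pool.Agent.Lib.MP_7295f2_lc.LA

end

section

/-!
# Square, part 7: transfer to the successor
-/

open Ordinal Set

set_option linter.unusedVariables false
set_option linter.unusedSectionVars false

namespace Pool.Agent.Lib.MP_7295f2_lc.LA

variable {A : Ord → Ord → Ord → Prop} {P Q : Set Ord → Env → Prop}
  {f g h : Set Ord → Env → Ord} {κ δ ζ η y : Ord}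

/-- Closure points of definable functions are unbounded in a successor. -/
theorem exists_clpt (hκ : Clos κ) (hg : DfnF A GG g) (p : Env)
    (hgθ : ∀ γ < sc A κ, ev g (cons γ p) < sc A κ) {b : Ord} (hb : b < sc A κ) :
    ∃ δ < sc A κ, b < δ ∧ ∀ γ < δ, ev g (cons γ p) < δ := by
  have hθ1 : ∀ x < sc A κ, x + 1 < sc A κ := by
    intro x hx
    have h1 : DfnF A GG fun U e => e 0 + 1 := by (apply_rules (transparency := .reducible) (maxDepth := 1000) using is_poly)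
    have := lt_sc_of_sj (lt_sc κ) ((sj_of_lt_sc hx).iio_succ hκ)
    exact this
  have hN : DfnF A GG fun U e => InfSet.sInf {v | e 1 < v ∧ ∀ γ < e 1 + 1,
      g U (cons γ fun j => e (j + 3)) < v} := by
    apply DfnF.sInf
    refine Dfn.and (by (apply_rules (transparency := .reducible) (maxDepth := 1000) using is_poly)) (Dfn.alllt (by (apply_rules (transparency := .reducible) (maxDepth := 1000) using is_poly)) (Dfn.lt ?_ (by (apply_rules (transparency := .reducible) (maxDepth := 1000) using is_poly))))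
    exact DfnF.at hg 5 (DfnF.var 0)
  obtain ⟨s, hsd, hs⟩ := exists_iter (N := fun p n η => InfSet.sInf {v | η < v ∧ ∀ γ < η + 1,
      g Set.univ (cons γ fun j => p (j + 1)) < v}) (by
    refine hN.congr fun U hU e he => ?_
    rw [mem_GG.mp hU])
  obtain ⟨hsz, hss⟩ := hs (cons b p)
  set S : ℕ → Ord := fun n => s (cons b p) n with hS
  have hS0 : S 0 = b := by
    show s (cons b p) ((0 : ℕ) : Ord) = b
    rw [Nat.cast_zero, hsz]
    rfl
  have hstep : ∀ n : ℕ, S n < sc A κ → S (n + 1) < sc A κ ∧ S n < S (n + 1) ∧ ∀ γ < S n + 1,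
      ev g (cons γ p) < S (n + 1) := by
    intro n hn
    obtain ⟨c, hc, hc'⟩ := sc_reg hκ hg p (hθ1 _ hn) fun i hi => hgθ i (hi.trans (hθ1 _ hn))
    have e1 : S (n + 1) = sInf {v | S n < v ∧ ∀ γ < S n + 1, ev g (cons γ p) < v} := by
      show s (cons b p) ((n + 1 : ℕ) : Ord) = _
      rw [Nat.cast_add, Nat.cast_one, hss]
      rfl
    have h1 : max (S n) c + 1 ∈ {v | S n < v ∧ ∀ γ < S n + 1, ev g (cons γ p) < v} := by
      refine ⟨Order.lt_add_one_iff.mpr (le_max_left _ _), fun γ hγ => ?_⟩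
      exact Order.lt_add_one_iff.mpr ((hc' γ hγ).trans (le_max_right _ _))
    refine ⟨?_, ?_⟩
    · rw [e1]
      exact (csInf_le' h1).trans_lt (hθ1 _ (max_lt hn hc))
    · rw [e1]
      exact csInf_mem ⟨_, h1⟩
  have hSθ : ∀ n, S n < sc A κ := by
    intro n
    induction n with
    | zero =>
      rw [hS0]
      exact hb
    | succ n ih => exact (hstep n ih).1
  have hsd1 := hsd 1 _ (DfnF.var 0)
  obtain ⟨c, hc, hc'⟩ := sc_reg hκ hsd1 (cons b p) (hκ.1.trans (lt_sc (A := A) κ)) (by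
    intro i hi
    obtain ⟨n, rfl⟩ := Ordinal.lt_omega0.mp hi
    exact hSθ n)
  have hSlt : ∀ n, S n < ⨆ n, S n := fun n =>
    (hstep n (hSθ n)).2.1.trans_le (Ordinal.le_iSup S (n + 1))
  refine ⟨⨆ n, S n, ?_, ?_, fun γ hγ => ?_⟩
  · exact (Ordinal.iSup_le fun (n : ℕ) => hc' n (Ordinal.natCast_lt_omega0 n)).trans_lt hc
  · rw [← hS0]
    exact hSlt 0
  · obtain ⟨n, hn⟩ := Ordinal.lt_iSup_iff.mp hγ
    exact ((hstep n (hSθ n)).2.2 γ (hn.trans (lt_add_one _))).trans (hSlt (n + 1))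

theorem Ec_unb (hA : Ctb A) (hκ1 : O1 ≤ κ) (hκ : Clos κ) {b : Ord} (hb : b < sc A κ) :
    ∃ δ ∈ Ec A κ, b < δ := by
  have hcl : Clos (sc A κ) := clos_of_mc (mc_sc κ) (hκ1.trans (lt_sc κ).le)
  have hg : DfnF A GG fun U e => max (mk (e 0 + 1) 0 []) (zc A (e 1) (e 0)) := by (apply_rules (transparency := .reducible) (maxDepth := 1000) using is_poly)
  obtain ⟨δ, h1, h2, h3⟩ := exists_clpt hκ hg (fun _ => κ) (by
    intro γ hγ
    exact max_lt (hcl.2 _ (hcl.succ_lt hγ) 0 [] (by simp)) (zc_lt hA hκ1 hκ hγ))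
    (max_lt hb (lt_sc (A := A) κ))
  refine ⟨δ, ⟨(le_max_right _ _).trans_lt h2, h1, fun γ hγ => ?_, fun γ hγ => ?_⟩,
    (le_max_left _ _).trans_lt h2⟩
  · exact (le_max_left _ _).trans_lt (h3 γ hγ)
  · exact (le_max_right _ _).trans_lt (h3 γ hγ)

theorem E1_unb (hA : Ctb A) (hκ1 : O1 ≤ κ) (hκ : Clos κ) {b : Ord} (hb : b < sc A κ) :
    ∃ δ ∈ E1 A κ, b < δ := by
  have hg : DfnF A GG fun U e => InfSet.sInf {y | y ∈ Ec A (e 1) ∧ e 0 < y} := by (apply_rules (transparency := .reducible) (maxDepth := 1000) using is_poly)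
  have hsp : ∀ γ < sc A κ, sInf {y | y ∈ Ec A κ ∧ γ < y} ∈ Ec A κ ∧
      γ < sInf {y | y ∈ Ec A κ ∧ γ < y} := by
    intro γ hγ
    obtain ⟨z, h1, h2⟩ := Ec_unb hA hκ1 hκ hγ
    exact csInf_mem (s := {y | y ∈ Ec A κ ∧ γ < y}) ⟨z, h1, h2⟩
  obtain ⟨δ, h1, h2, h3⟩ := exists_clpt hκ hg (fun _ => κ) (by
    intro γ hγ
    exact (hsp γ hγ).1.2.1) hb
  have hacc : IsAcc (Ec A κ) δ := by
    refine ⟨(lt_of_le_of_lt zero_le h2).ne', fun x hx => ?_⟩
    exact ⟨_, (hsp x (hx.trans h1)).1, (hsp x (hx.trans h1)).2, h3 x hx⟩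
  exact ⟨δ, ⟨Ec_closed h1 hacc, hacc⟩, h2⟩

/-- The enumeration of `E1`. -/
noncomputable def ep (A : Ord → Ord → Ord → Prop) (κ α : Ord) : Ord :=
  sInf {x | x ∈ E1 A κ ∧ otp (E1 A κ) x = α}

@[is_poly] theorem DfnF.otpE1 (h1 : DfnF A GG f) (h2 : DfnF A GG g) :
    DfnF A GG fun U e => Pool.Agent.Lib.MP_7295f2_lc.otp (E1 A (f U e)) (g U e) := by
  refine DfnF.comp2 (R := fun _ x y => Pool.Agent.Lib.MP_7295f2_lc.otp (E1 A x) y) ?_ h1 h2
  have h3 : DfnF A GG fun U e => Pool.Agent.Lib.MP_7295f2_lc.otp {x | x ∈ E1 A (e 0)} (e 1) := by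
    (apply_rules (transparency := .reducible) (maxDepth := 1000) using is_poly)
  exact h3

@[is_poly] theorem DfnF.ep (h1 : DfnF A GG f) (h2 : DfnF A GG g) :
    DfnF A GG fun U e => LA.ep A (f U e) (g U e) := by
  refine DfnF.comp2 (R := fun _ x y => LA.ep A x y) ?_ h1 h2
  unfold LA.ep
  (apply_rules (transparency := .reducible) (maxDepth := 1000) using is_poly)

section ep

variable (hA : Ctb A) (hκ1 : O1 ≤ κ) (hκ : Clos κ)

include hA hκ1 hκ

theorem ep_otp {x : Ord} (hx : x ∈ E1 A κ) : ep A κ (otp (E1 A κ) x) = x := by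
  unfold ep
  have : {y | y ∈ E1 A κ ∧ otp (E1 A κ) y = otp (E1 A κ) x} = {x} := by
    ext y
    simp only [Set.mem_ofPred_eq, Set.mem_singleton_iff]
    constructor
    · rintro ⟨h1, h2⟩
      exact otp_injOn _ h1 hx h2
    · rintro rfl
      exact ⟨hx, rfl⟩
  rw [this, csInf_singleton]

theorem ep_spec {α : Ord} (hα : α < sc A κ) :
    ep A κ α ∈ E1 A κ ∧ otp (E1 A κ) (ep A κ α) = α ∧ ep A κ α < sc A κ := by
  have h0 : α < otp (E1 A κ) (sc A κ) := by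
    by_contra hcon
    push Not at hcon
    have h1 : DfnF A GG fun U e => ep A (e 1) (e 0) := by (apply_rules (transparency := .reducible) (maxDepth := 1000) using is_poly)
    obtain ⟨b, hb, hb'⟩ := sc_reg hκ h1 (fun _ => κ) (hcon.trans_lt hα) (by
      intro i hi
      obtain ⟨z, h2, h3, h4⟩ := exists_otp_eq hi
      show ep A κ i < sc A κ
      rw [← h4, ep_otp hA hκ1 hκ h2]
      exact h3)
    obtain ⟨x, hx, hbx⟩ := E1_unb hA hκ1 hκ hb
    have h5 : ep A κ (otp (E1 A κ) x) ≤ b := hb' _ (otp_lt_otp hx hx.1.2.1)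
    rw [ep_otp hA hκ1 hκ hx] at h5
    exact absurd hbx (not_lt.mpr h5)
  obtain ⟨z, h2, h3, h4⟩ := exists_otp_eq h0
  obtain ⟨h5, h6⟩ := csInf_mem (s := {x | x ∈ E1 A κ ∧ otp (E1 A κ) x = α}) ⟨z, h2, h4⟩
  exact ⟨h5, h6, h5.1.2.1⟩

theorem ep_lt_iff {α β : Ord} (hα : α < sc A κ) (hβ : β < sc A κ) :
    ep A κ α < ep A κ β ↔ α < β := by
  obtain ⟨h1, h2, _⟩ := ep_spec hA hκ1 hκ hα
  obtain ⟨h3, h4, _⟩ := ep_spec hA hκ1 hκ hβ
  rw [← otp_lt_iff h1, h2, h4]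

/-- Continuity of the enumeration. -/
theorem ep_cont {η v : Ord} (hη : η < sc A κ) (hlim : Order.IsSuccLimit η) (hv : v < ep A κ η) :
    ∃ x < η, v < ep A κ x := by
  by_contra hcon
  push Not at hcon
  have hb : BddAbove (ep A κ '' Iio η) := ⟨v, by
    rintro _ ⟨x, hx, rfl⟩
    exact hcon x hx⟩
  set s := sSup (ep A κ '' Iio η) with hs
  have hsv : s ≤ v := csSup_le' (by
    rintro _ ⟨x, hx, rfl⟩
    exact hcon x hx)
  have hlt : ∀ x < η, ep A κ x < s := by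
    intro x hx
    have hx1 := hlim.succ_lt hx
    refine ((ep_lt_iff hA hκ1 hκ (hx.trans hη) (hx1.trans hη)).mpr (Order.lt_succ x)).trans_le ?_
    exact le_csSup hb ⟨_, hx1, rfl⟩
  have hsη : s < ep A κ η := hsv.trans_lt hv
  have hsE : s ∈ E1 A κ := by
    refine E1_closed (hsη.trans (ep_spec hA hκ1 hκ hη).2.2)
      ⟨(lt_of_le_of_lt zero_le (hlt 0 hlim.bot_lt)).ne', fun x hx => ?_⟩
    obtain ⟨_, ⟨z, hz, rfl⟩, hxz⟩ := exists_lt_of_lt_csSup' hx
    exact ⟨_, (ep_spec hA hκ1 hκ (lt_trans hz hη)).1, hxz, hlt z hz⟩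
  have h1 : otp (E1 A κ) s < η := by
    have := otp_lt_otp hsE hsη
    rwa [(ep_spec hA hκ1 hκ hη).2.1] at this
  have h2 := hlt _ h1
  rw [ep_otp hA hκ1 hκ hsE] at h2
  exact lt_irrefl _ h2

end ep

/-- The square sequence. -/
def CSq (A : Ord → Ord → Ord → Prop) (κ α : Ord) : Set Ord :=
  {x | x + 1 = α ∨ ((¬ ∃ β, β + 1 = α) ∧ x < α ∧ ep A κ x ∈ CS A κ (ep A κ α))}

@[is_poly] theorem Dfn.mem_CSq {f₁ f₂ f₃ : Set Ord → Env → Ord} (h1 : DfnF A GG f₁)
    (h2 : DfnF A GG f₂) (h3 : DfnF A GG f₃) :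
    Dfn A GG fun U e => f₁ U e ∈ CSq A (f₂ U e) (f₃ U e) := by
  refine Dfn.comp3 (R := fun _ y k d => y ∈ CSq A k d) ?_ h1 h2 h3
  have h7 : Dfn A GG fun U e => e 0 + 1 = e 2 ∨ ((¬ ∃ β, β + 1 = e 2) ∧ e 0 < e 2 ∧
    LA.ep A (e 1) (e 0) ∈ CS A (e 1) (LA.ep A (e 1) (e 2))) := by (apply_rules (transparency := .reducible) (maxDepth := 1000) using is_poly)
  exact h7

theorem CSq_succ (β : Ord) : CSq A κ (β + 1) = {β} := by
  have hinj : ∀ x : Ord, x + 1 = β + 1 → x = β := fun x hx =>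
    Order.succ_injective (by simpa [Order.succ_eq_add_one] using hx)
  ext x
  constructor
  · rintro (h1 | ⟨h1, _⟩)
    · exact hinj x h1
    · exact absurd ⟨β, rfl⟩ h1
  · rintro rfl
    exact Or.inl rfl

theorem CSq_lim {β : Ord} (hβ : ¬ ∃ x, x + 1 = β) :
    CSq A κ β = {x | x < β ∧ ep A κ x ∈ CS A κ (ep A κ β)} := by
  ext x
  constructor
  · rintro (h1 | ⟨_, h2⟩)
    · exact absurd ⟨x, h1⟩ hβ
    · exact h2
  · rintro h1
    exact Or.inr ⟨hβ, h1⟩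

theorem isCSeq_CSq (hA : Good A) (hκ1 : O1 ≤ κ) (hκ : Clos κ) :
    IsCSeq (CSq A κ) (sc A κ) κ := by
  have hlim : ∀ β : Ord, (¬ ∃ x, x + 1 = β) → β ≠ 0 → Order.IsSuccLimit β := by
    intro β h1 h2
    rcases Ordinal.zero_or_succ_or_isSuccLimit β with h0 | ⟨z, hz⟩ | h0
    · exact absurd h0 h2
    · exact absurd ⟨z, by rw [← hz, Order.succ_eq_add_one]⟩ h1
    · exact h0
  have hgood : ∀ β < sc A κ, Order.IsSuccLimit β → CSGood A κ (ep A κ β) := by
    intro β hβ hl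
    have h1 := (ep_spec hA.ctb hκ1 hκ hβ).1
    have hacc : IsAcc (E1 A κ) (ep A κ β) := by
      refine ⟨(lt_of_le_of_lt zero_le h1.1.1).ne', fun x hx => ?_⟩
      obtain ⟨z, h2, h3⟩ := ep_cont hA.ctb hκ1 hκ hβ hl hx
      exact ⟨_, (ep_spec hA.ctb hκ1 hκ (h2.trans hβ)).1, h3,
        (ep_lt_iff hA.ctb hκ1 hκ (h2.trans hβ) hβ).mpr h2⟩
    exact csGood_of_alt hA.ctb hκ1 hκ h1 (alt_E1 hA hκ1 hκ h1 hacc)
  have hacc_sing : ∀ β η, ¬ IsAcc {β} η := by
    rintro β η ⟨h0, h1⟩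
    obtain ⟨y, hy, _, h2⟩ := h1 0 (pos_iff_ne_zero.mpr h0)
    obtain ⟨z, hz, h3, _⟩ := h1 y h2
    rw [Set.mem_singleton_iff.mp hy, Set.mem_singleton_iff.mp hz] at h3
    exact lt_irrefl _ h3
  have hacc_lim : ∀ S η, IsAcc S η → Order.IsSuccLimit η := by
    intro S η h1
    rw [Ordinal.isSuccLimit_iff]
    refine ⟨h1.1, fun a ha => ?_⟩
    obtain ⟨y, _, h2, h3⟩ := h1.2 a ha.lt
    exact ha.2 h2 h3
  refine ⟨?_, ?_, ?_, ?_, ?_⟩
  · intro β hβ x hx
    rcases hx with h1 | ⟨_, h1, _⟩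
    · rw [← h1]
      exact lt_add_one x
    · exact h1
  · intro β hβ α hα
    by_cases hs : ∃ x, x + 1 = β
    · obtain ⟨x, rfl⟩ := hs
      rw [CSq_succ]
      exact ⟨x, rfl, Order.lt_add_one_iff.mp hα⟩
    · have hl := hlim β hs (lt_of_le_of_lt zero_le hα).ne'
      have hG := hgood β hβ hl
      obtain ⟨v, h1, h2⟩ := hG.unb _ ((ep_lt_iff hA.ctb hκ1 hκ (hα.trans hβ) hβ).mpr hα)
      obtain ⟨h3, h4⟩ := hG.sub v h1
      have h5 := ep_otp hA.ctb hκ1 hκ h3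
      have h6 : otp (E1 A κ) v < β := by
        have := otp_lt_otp h3 h4
        rwa [(ep_spec hA.ctb hκ1 hκ hβ).2.1] at this
      rw [CSq_lim hs]
      refine ⟨otp (E1 A κ) v, ⟨h6, by rw [h5]; exact h1⟩, ?_⟩
      rw [← h5] at h2
      exact ((ep_lt_iff hA.ctb hκ1 hκ (hα.trans hβ) (h6.trans hβ)).mp h2).le
  · intro β hβ x hx
    by_cases hs : ∃ x, x + 1 = β
    · obtain ⟨z, rfl⟩ := hs
      rw [CSq_succ] at hx ⊢
      have : otp {z} x ≤ 0 := by
        rw [otp_le_iff]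
        intro y hy hyx
        rw [Set.mem_singleton_iff.mp hx, Set.mem_singleton_iff.mp hy] at hyx
        exact absurd hyx (lt_irrefl _)
      exact this.trans_lt (Ordinal.omega0_pos.trans hκ.1)
    · have hl := hlim β hs (fun h0 => by
        rw [CSq_lim hs] at hx
        rw [h0] at hx
        exact absurd hx.1 not_lt_zero)
      have hG := hgood β hβ hl
      rw [CSq_lim hs] at hx ⊢
      have key : ∀ x < β, otp {x | x < β ∧ ep A κ x ∈ CS A κ (ep A κ β)} x ≤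
          otp (CS A κ (ep A κ β)) (ep A κ x) := by
        intro x
        induction x using WellFoundedLT.induction with
        | ind x ih =>
          intro hxβ
          rw [otp_le_iff]
          intro y hy hyx
          refine (ih y hyx hy.1).trans_lt (otp_lt_otp hy.2 ?_)
          exact (ep_lt_iff hA.ctb hκ1 hκ (hy.1.trans hβ) (hxβ.trans hβ)).mpr hyx
      exact (key x hx.1).trans_lt (hG.otp _ hx.2)
  · intro β hβ η hη hacc
    by_cases hs : ∃ x, x + 1 = β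
    · obtain ⟨z, rfl⟩ := hs
      rw [CSq_succ] at hacc
      exact absurd hacc (hacc_sing _ _)
    · have hl := hlim β hs (lt_of_le_of_lt zero_le hη).ne'
      have hηl := hacc_lim _ _ hacc
      have hηs : ¬ ∃ x, x + 1 = η := by
        rintro ⟨x, rfl⟩
        rw [← Order.succ_eq_add_one] at hηl
        exact Order.not_isSuccLimit_succ x hηl
      have hG := hgood β hβ hl
      rw [CSq_lim hs] at hacc
      have hηθ := hη.trans hβ
      have hlt := (ep_lt_iff hA.ctb hκ1 hκ hηθ hβ).mpr hη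
      have hacc' : IsAcc (CS A κ (ep A κ β)) (ep A κ η) := by
        refine ⟨(lt_of_le_of_lt zero_le (ep_spec hA.ctb hκ1 hκ hηθ).1.1.1).ne', fun v hv => ?_⟩
        obtain ⟨x, h1, h2⟩ := ep_cont hA.ctb hκ1 hκ hηθ hηl hv
        obtain ⟨y, h3, h4, h5⟩ := hacc.2 x h1
        refine ⟨_, h3.2, h2.trans ?_, ?_⟩
        · exact (ep_lt_iff hA.ctb hκ1 hκ (h1.trans hηθ) (h5.trans hηθ)).mpr h4
        · exact (ep_lt_iff hA.ctb hκ1 hκ (h5.trans hηθ) hηθ).mpr h5
      obtain ⟨h1, h2⟩ := hG.coh _ hlt hacc'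
      rw [CSq_lim hs, CSq_lim hηs, h2]
      refine ⟨⟨hη, h1⟩, ?_⟩
      ext x
      constructor
      · rintro ⟨h3, h4, h5⟩
        exact ⟨⟨h3.trans hη, h4⟩, h3⟩
      · rintro ⟨⟨h3, h4⟩, h5⟩
        exact ⟨h5, h4, (ep_lt_iff hA.ctb hκ1 hκ (h3.trans hβ) hηθ).mpr h5⟩
  · intro β _
    rw [Order.succ_eq_add_one]
    exact CSq_succ β

end Pool.Agent.Lib.MP_7295f2_lc.LA

end
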