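import Pool.Agent.Lib.MP_7295f2_lc.Defs

section

/-!
# Order types of initial pieces of a set of ordinals
-/

open Cardinal Ordinal

namespace Pool.Agent.Lib.MP_7295f2_lc

/-- The order type of `S ∩ x`. -/
noncomputable def otp (S : Set Ordinal.{0}) (x : Ordinal.{0}) : Ordinal.{0} :=
  ⨆ y : {y : Set.Iio x // y.1 ∈ S}, Order.succ (otp S y.1.1)
termination_by x
decreasing_by exact y.1.2

theorem otp_le_iff {S : Set Ordinal.{0}} {x z : Ordinal.{0}} :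
    otp S x ≤ z ↔ ∀ y ∈ S, y < x → otp S y < z := by
  rw [otp]
  constructor
  · intro h y hy hyx
    have := (Ordinal.le_iSup (fun y : {y : Set.Iio x // y.1 ∈ S} => Order.succ (otp S y.1.1))
      ⟨⟨y, hyx⟩, hy⟩).trans h
    exact Order.succ_le_iff.mp this
  · intro h
    apply Ordinal.iSup_le
    rintro ⟨⟨y, hyx⟩, hy⟩
    exact Order.succ_le_of_lt (h y hy hyx)

theorem otp_lt_otp {S : Set Ordinal.{0}} {y x : Ordinal.{0}} (hy : y ∈ S) (hyx : y < x) :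
    otp S y < otp S x := otp_le_iff.mp le_rfl y hy hyx

theorem otp_mono {S : Set Ordinal.{0}} {y x : Ordinal.{0}} (hyx : y ≤ x) :
    otp S y ≤ otp S x := by
  rw [otp_le_iff]
  intro z hz hzy
  exact otp_lt_otp hz (hzy.trans_le hyx)

theorem otp_congr_aux {S T : Set Ordinal.{0}} {x : Ordinal.{0}}
    (h : ∀ z < x, (z ∈ S ↔ z ∈ T)) : otp S x ≤ otp T x := by
  induction x using WellFoundedLT.induction with
  | ind x ih =>
    rw [otp_le_iff]
    intro y hy hyx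
    have h1 := ih y hyx (fun z hz => h z (hz.trans hyx))
    exact h1.trans_lt (otp_lt_otp ((h y hyx).mp hy) hyx)

theorem otp_congr {S T : Set Ordinal.{0}} {x : Ordinal.{0}}
    (h : ∀ z < x, (z ∈ S ↔ z ∈ T)) : otp S x = otp T x :=
  le_antisymm (otp_congr_aux h) (otp_congr_aux fun z hz => (h z hz).symm)

/-- If `S` has no element in `[x, y)` then `S ∩ x` and `S ∩ y` have the same order type. -/
theorem otp_eq_of_gap {S : Set Ordinal.{0}} {x y : Ordinal.{0}} (hxy : x ≤ y)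
    (h : ∀ z ∈ S, x ≤ z → y ≤ z) : otp S y = otp S x := by
  apply le_antisymm _ (otp_mono hxy)
  rw [otp_le_iff]
  intro z hz hzy
  have : z < x := by
    by_contra hcon
    exact absurd (h z hz (not_lt.mp hcon)) (not_le.mpr hzy)
  exact otp_lt_otp hz this

/-- Continuity: if `otp S x ≤ z` for cofinally many `x < η` then `otp S η ≤ z`. -/
theorem otp_le_of_cofinal {S : Set Ordinal.{0}} {η z : Ordinal.{0}}
    (h : ∀ y < η, ∃ x, y < x ∧ otp S x ≤ z) : otp S η ≤ z := by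
  rw [otp_le_iff]
  intro y hy hyη
  obtain ⟨x, hx, hxz⟩ := h y hyη
  exact (otp_lt_otp hy hx).trans_le hxz

theorem otp_injOn (S : Set Ordinal.{0}) : Set.InjOn (otp S) S := by
  intro x hx y hy hxy
  rcases lt_trichotomy x y with h | h | h
  · exact absurd hxy (otp_lt_otp hx h).ne
  · exact h
  · exact absurd hxy.symm (otp_lt_otp hy h).ne

theorem otp_lt_of_type_le {S : Set Ordinal.{0}} {κ : Ordinal.{0}}
    (h : Ordinal.type (fun x y : S => x < y) ≤ Ordinal.lift.{1} κ) :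
    ∀ x ∈ S, otp S x < κ := by
  have key : ∀ x (hx : x ∈ S), Ordinal.lift.{1} (otp S x) ≤
      Ordinal.typein (fun x y : S => x < y) ⟨x, hx⟩ := by
    intro x
    induction x using WellFoundedLT.induction with
    | ind x ih =>
      intro hx
      by_contra hcon
      push Not at hcon
      obtain ⟨z, hz⟩ := Ordinal.mem_range_lift_of_le hcon.le
      rw [← hz, Ordinal.lift_lt] at hcon
      have h1 : ¬ otp S x ≤ z := not_le.mpr hcon
      rw [otp_le_iff] at h1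
      push Not at h1
      obtain ⟨y, hy, hyx, hzy⟩ := h1
      have h2 := ih y hyx hy
      have h3 : Ordinal.typein (fun x y : S => x < y) ⟨y, hy⟩ <
          Ordinal.typein (fun x y : S => x < y) ⟨x, hx⟩ := by
        rw [Ordinal.typein_lt_typein]
        exact hyx
      rw [← hz] at h3
      have h4 := (Ordinal.lift_le.mpr hzy).trans h2
      exact absurd h3 (not_lt.mpr h4)
  intro x hx
  have h1 := (key x hx).trans_lt ((Ordinal.typein_lt_type _ _).trans_le h)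
  exact Ordinal.lift_lt.mp h1

end Pool.Agent.Lib.MP_7295f2_lc

end

section

/-!
# The function ρ attached to a square sequence
-/

open Cardinal Ordinal

namespace Pool.Agent.Lib.MP_7295f2_lc

/-- The properties of a `C`-sequence of length `L` which are used in the construction of `ρ`. -/
structure IsCSeq (C : Ordinal.{0} → Set Ordinal.{0}) (L κ : Ordinal.{0}) : Prop where
  sub : ∀ β < L, ∀ x ∈ C β, x < β
  cof : ∀ β < L, ∀ α < β, ∃ x ∈ C β, α ≤ x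
  otp_lt : ∀ β < L, ∀ x ∈ C β, otp (C β) x < κ
  coh : ∀ β < L, ∀ η < β, IsAcc (C β) η → η ∈ C β ∧ C η = C β ∩ Set.Iio η
  succ : ∀ β, Order.succ β < L → C (Order.succ β) = {β}

theorem Square.exists_isCSeq {κ : Cardinal.{0}} (hκ : ℵ₀ ≤ κ) (h : Square κ) :
    ∃ C, IsCSeq C (Order.succ κ).ord κ.ord := by
  classical
  obtain ⟨C, hC⟩ := h
  set D : Ordinal.{0} → Set Ordinal.{0} := fun β =>
    if Order.IsSuccLimit β then C β else {x | Order.succ x = β} with hD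
  have hlim : ∀ β, Order.IsSuccLimit β → D β = C β := fun β hβ => by simp only [hD, if_pos hβ]
  have hnlim : ∀ β, ¬ Order.IsSuccLimit β → D β = {x | Order.succ x = β} :=
    fun β hβ => by simp only [hD, if_neg hβ]
  have hκpos : 0 < κ.ord := by
    exact Ordinal.omega0_pos.trans_le (Cardinal.omega0_le_ord.mpr hκ)
  have hsuccD : ∀ β, D (Order.succ β) = {β} := by
    intro β
    rw [hnlim _ (Order.not_isSuccLimit_succ β)]
    ext x
    simp
  refine ⟨D, ?_, ?_, ?_, ?_, ?_⟩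
  · intro β hβ x hx
    by_cases hl : Order.IsSuccLimit β
    · rw [hlim β hl] at hx
      exact (hC β hβ hl).1.sub x hx
    · rw [hnlim β hl] at hx
      have : Order.succ x = β := hx
      rw [← this]
      exact Order.lt_succ x
  · intro β hβ α hα
    by_cases hl : Order.IsSuccLimit β
    · rw [hlim β hl]
      obtain ⟨y, hy, hy'⟩ := (hC β hβ hl).1.unbdd α hα
      exact ⟨y, hy, hy'.le⟩
    · rw [hnlim β hl]
      rcases Ordinal.zero_or_succ_or_isSuccLimit β with h0 | ⟨x, hx⟩ | h0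
      · rw [h0] at hα
        exact absurd hα not_lt_zero
      · exact ⟨x, hx, Order.lt_succ_iff.mp (hx ▸ hα)⟩
      · exact absurd h0 hl
  · intro β hβ x hx
    by_cases hl : Order.IsSuccLimit β
    · rw [hlim β hl] at hx ⊢
      exact otp_lt_of_type_le (hC β hβ hl).2.1 x hx
    · rw [hnlim β hl] at hx ⊢
      have hx' : Order.succ x = β := hx
      have : otp {x | Order.succ x = β} x ≤ 0 := by
        rw [otp_le_iff]
        intro y hy hyx
        have hy' : Order.succ y = β := hy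
        rw [← hx'] at hy'
        exact absurd (Order.succ_injective hy') hyx.ne
      exact this.trans_lt hκpos
  · intro β hβ η hη hacc
    by_cases hl : Order.IsSuccLimit β
    · rw [hlim β hl] at hacc ⊢
      have hηl : Order.IsSuccLimit η := by
        rw [Ordinal.isSuccLimit_iff]
        refine ⟨hacc.1, fun a ha => ?_⟩
        obtain ⟨y, _, hy1, hy2⟩ := hacc.2 a ha.lt
        exact ha.2 hy1 hy2
      rw [hlim η hηl]
      exact ⟨(hC β hβ hl).1.closed η hη hacc, (hC β hβ hl).2.2 η hη hacc⟩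
    · rw [hnlim β hl] at hacc
      obtain ⟨h0, h1⟩ := hacc
      obtain ⟨y, hy, hy0, hyη⟩ := h1 0 (pos_iff_ne_zero.mpr h0)
      obtain ⟨z, hz, hz0, hzη⟩ := h1 y hyη
      have e1 : Order.succ y = β := hy
      have e2 : Order.succ z = β := hz
      rw [← e1] at e2
      exact absurd (Order.succ_injective e2) hz0.ne'
  · intro β _
    exact hsuccD β

/-- The least element of `C β` which is at least `α`. -/
noncomputable def nx (C : Ordinal.{0} → Set Ordinal.{0}) (β α : Ordinal.{0}) : Ordinal.{0} :=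
  sInf {x ∈ C β | α ≤ x}

/-- Todorcevic's function `ρ(α, β)`, written `rhoAux C β α`. -/
noncomputable def rhoAux (C : Ordinal.{0} → Set Ordinal.{0}) (β α : Ordinal.{0}) : Ordinal.{0} :=
  if h : α < β then
    max (otp (C β) α) (max (if h' : nx C β α < β then rhoAux C (nx C β α) α else 0)
      (⨆ ξ : {y : Set.Iio α // y.1 ∈ C β}, rhoAux C α ξ.1.1))
  else 0
termination_by β

/-- Todorcevic's function `ρ(α, β)`. -/
noncomputable def rho (C : Ordinal.{0} → Set Ordinal.{0}) (α β : Ordinal.{0}) : Ordinal.{0} :=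
  rhoAux C β α

variable {C : Ordinal.{0} → Set Ordinal.{0}} {L κ : Ordinal.{0}}

theorem rho_self (α : Ordinal.{0}) : rho C α α = 0 := by
  unfold rho
  rw [rhoAux, dif_neg (lt_irrefl α)]

namespace IsCSeq

theorem nx_mem (hC : IsCSeq C L κ) {α β : Ordinal.{0}} (hβ : β < L) (hαβ : α < β) :
    nx C β α ∈ C β ∧ α ≤ nx C β α := by
  obtain ⟨x, hx, hx'⟩ := hC.cof β hβ α hαβ
  exact csInf_mem (s := {x ∈ C β | α ≤ x}) ⟨x, hx, hx'⟩

theorem nx_lt (hC : IsCSeq C L κ) {α β : Ordinal.{0}} (hβ : β < L) (hαβ : α < β) :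
    nx C β α < β := hC.sub β hβ _ (hC.nx_mem hβ hαβ).1

theorem nx_le {α β x : Ordinal.{0}} (hx : x ∈ C β) (hαx : α ≤ x) : nx C β α ≤ x :=
  csInf_le' ⟨hx, hαx⟩

theorem rho_le_iff (hC : IsCSeq C L κ) {α β z : Ordinal.{0}} (hβ : β < L) (hαβ : α < β) :
    rho C α β ≤ z ↔ otp (C β) α ≤ z ∧ rho C α (nx C β α) ≤ z ∧
      ∀ ξ ∈ C β, ξ < α → rho C ξ α ≤ z := by
  unfold rho
  rw [rhoAux, dif_pos hαβ, dif_pos (hC.nx_lt hβ hαβ), max_le_iff, max_le_iff]
  refine and_congr_right fun _ => and_congr_right fun _ => ?_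
  constructor
  · intro h ξ hξ hξα
    exact (Ordinal.le_iSup (fun ξ : {y : Set.Iio α // y.1 ∈ C β} => rhoAux C α ξ.1.1)
      ⟨⟨ξ, hξα⟩, hξ⟩).trans h
  · intro h
    apply Ordinal.iSup_le
    rintro ⟨⟨ξ, hξα⟩, hξ⟩
    exact h ξ hξ hξα

theorem otp_le_rho (hC : IsCSeq C L κ) {α β : Ordinal.{0}} (hβ : β < L) (hαβ : α < β) :
    otp (C β) α ≤ rho C α β := ((hC.rho_le_iff hβ hαβ).mp le_rfl).1

theorem rho_nx_le (hC : IsCSeq C L κ) {α β : Ordinal.{0}} (hβ : β < L) (hαβ : α < β) :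
    rho C α (nx C β α) ≤ rho C α β := ((hC.rho_le_iff hβ hαβ).mp le_rfl).2.1

theorem rho_mem_le (hC : IsCSeq C L κ) {α β ξ : Ordinal.{0}} (hβ : β < L) (hαβ : α < β)
    (hξ : ξ ∈ C β) (hξα : ξ < α) : rho C ξ α ≤ rho C α β :=
  ((hC.rho_le_iff hβ hαβ).mp le_rfl).2.2 ξ hξ hξα

/-- The two subadditivity properties of `ρ`. -/
theorem subadd (hC : IsCSeq C L κ) (γ : Ordinal.{0}) (hγ : γ < L) :
    ∀ α β, α ≤ β → β ≤ γ → rho C α γ ≤ max (rho C α β) (rho C β γ) ∧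
      rho C α β ≤ max (rho C α γ) (rho C β γ) := by
  induction γ using WellFoundedLT.induction with
  | ind γ ih =>
    intro α β hαβ hβγ
    rcases hαβ.eq_or_lt with rfl | hαβ
    · simp [rho_self]
    rcases hβγ.eq_or_lt with rfl | hβγ
    · simp [rho_self]
    have hαγ : α < γ := hαβ.trans hβγ
    have hβ : β < L := hβγ.trans hγ
    obtain ⟨hn1, hn2⟩ := hC.nx_mem hγ hαγ
    have hn3 := hC.nx_lt hγ hαγ
    by_cases hcase : β ≤ nx C γ α
    · -- no element of `C γ` in `[α, β)`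
      have hnx : nx C γ β = nx C γ α := by
        apply le_antisymm (nx_le hn1 hcase)
        obtain ⟨hm1, hm2⟩ := hC.nx_mem hγ hβγ
        exact nx_le hm1 (hαβ.le.trans hm2)
      have hotp : otp (C γ) β = otp (C γ) α :=
        otp_eq_of_gap hαβ.le fun z hz hαz => hcase.trans (nx_le hz hαz)
      constructor
      · rw [hC.rho_le_iff hγ hαγ]
        refine ⟨?_, ?_, ?_⟩
        · rw [← hotp]
          exact (hC.otp_le_rho hγ hβγ).trans (le_max_right _ _)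
        · refine ((ih _ hn3 (hn3.trans hγ) α β hαβ.le hcase).1).trans (max_le_max le_rfl ?_)
          rw [← hnx]
          exact hC.rho_nx_le hγ hβγ
        · intro ξ hξ hξα
          refine ((ih β hβγ hβ ξ α hξα.le hαβ.le).2).trans ?_
          exact max_le ((hC.rho_mem_le hγ hβγ hξ (hξα.trans hαβ)).trans (le_max_right _ _))
            (le_max_left _ _)
      · refine ((ih _ hn3 (hn3.trans hγ) α β hαβ.le hcase).2).trans (max_le_max ?_ ?_)
        · exact hC.rho_nx_le hγ hαγ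
        · rw [← hnx]
          exact hC.rho_nx_le hγ hβγ
    · push Not at hcase
      have h3 : rho C (nx C γ α) β ≤ rho C β γ := hC.rho_mem_le hγ hβγ hn1 hcase
      constructor
      · rw [hC.rho_le_iff hγ hαγ]
        refine ⟨?_, ?_, ?_⟩
        · exact (otp_mono hαβ.le).trans ((hC.otp_le_rho hγ hβγ).trans (le_max_right _ _))
        · refine ((ih β hβγ hβ α _ hn2 hcase.le).2).trans (max_le_max le_rfl h3)
        · intro ξ hξ hξα
          refine ((ih β hβγ hβ ξ α hξα.le hαβ.le).2).trans ?_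
          exact max_le ((hC.rho_mem_le hγ hβγ hξ (hξα.trans hαβ)).trans (le_max_right _ _))
            (le_max_left _ _)
      · refine ((ih β hβγ hβ α _ hn2 hcase.le).1).trans (max_le_max ?_ h3)
        exact hC.rho_nx_le hγ hαγ

theorem subadd1 (hC : IsCSeq C L κ) {α β γ : Ordinal.{0}} (hγ : γ < L) (hαβ : α ≤ β)
    (hβγ : β ≤ γ) : rho C α γ ≤ max (rho C α β) (rho C β γ) := (hC.subadd γ hγ α β hαβ hβγ).1

theorem subadd2 (hC : IsCSeq C L κ) {α β γ : Ordinal.{0}} (hγ : γ < L) (hαβ : α ≤ β)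
    (hβγ : β ≤ γ) : rho C α β ≤ max (rho C α γ) (rho C β γ) := (hC.subadd γ hγ α β hαβ hβγ).2

/-- Coherence of `ρ` at limit points of `C β`. -/
theorem rho_acc (hC : IsCSeq C L κ) {α η β : Ordinal.{0}} (hβ : β < L) (hη : η < β)
    (hacc : IsAcc (C β) η) (hα : α < η) : rho C α β = rho C α η := by
  obtain ⟨_, hcoh⟩ := hC.coh β hβ η hη hacc
  have hαβ := hα.trans hη
  have hηL := hη.trans hβ
  obtain ⟨y, hy, hy1, hy2⟩ := hacc.2 α hα
  have hnx : nx C β α = nx C η α := by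
    obtain ⟨h1, h2⟩ := hC.nx_mem hβ hαβ
    obtain ⟨h3, h4⟩ := hC.nx_mem hηL hα
    rw [hcoh] at h3
    apply le_antisymm (nx_le h3.1 h4)
    apply nx_le _ h2
    rw [hcoh]
    exact ⟨h1, (nx_le hy hy1.le).trans_lt hy2⟩
  have hotp : otp (C β) α = otp (C η) α := by
    apply otp_congr
    intro z hz
    rw [hcoh]
    exact ⟨fun h => ⟨h, hz.trans hα⟩, fun h => h.1⟩
  have key : ∀ z, rho C α β ≤ z ↔ rho C α η ≤ z := by
    intro z
    rw [hC.rho_le_iff hβ hαβ, hC.rho_le_iff hηL hα, hnx, hotp]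
    refine and_congr_right fun _ => and_congr_right fun _ => ?_
    constructor
    · intro h ξ hξ hξα
      rw [hcoh] at hξ
      exact h ξ hξ.1 hξα
    · intro h ξ hξ hξα
      refine h ξ ?_ hξα
      rw [hcoh]
      exact ⟨hξ, hξα.trans hα⟩
  exact le_antisymm ((key _).mpr le_rfl) ((key _).mp le_rfl)

end IsCSeq

end Pool.Agent.Lib.MP_7295f2_lc

end

section

/-!
# Small sets of ordinals, and the size properties of ρ
-/

open Cardinal Ordinal

namespace Pool.Agent.Lib.MP_7295f2_lc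

/-- `S` has size less than `κ`. -/
def SmallSet (κ : Cardinal.{0}) (S : Set Ordinal.{0}) : Prop := #S < Cardinal.lift.{1} κ

theorem SmallSet.mono {κ : Cardinal.{0}} {S T : Set Ordinal.{0}} (h : SmallSet κ T) (hST : S ⊆ T) :
    SmallSet κ S := (Cardinal.mk_le_mk_of_subset hST).trans_lt h

theorem SmallSet.bound {κ : Cardinal.{0}} (hκ : κ.IsRegular) {S : Set Ordinal.{0}}
    (hS : SmallSet κ S) (f : Ordinal.{0} → Ordinal.{0}) (hf : ∀ ξ ∈ S, f ξ < κ.ord) :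
    ∃ z < κ.ord, ∀ ξ ∈ S, f ξ ≤ z := by
  have hsmall : Small.{0} S := by
    rw [Cardinal.small_iff_lift_mk_lt_univ, Cardinal.lift_id]
    exact lt_trans hS (by simpa using Cardinal.lift_lt_univ κ)
  refine ⟨sSup (f '' S), ?_, ?_⟩
  · apply Ordinal.sSup_lt_of_lt_cof
    · rw [← Ordinal.lift_cof, hκ.cof_ord]
      exact (Cardinal.mk_image_le).trans_lt hS
    · rintro _ ⟨ξ, hξ, rfl⟩
      exact hf ξ hξ
  · intro ξ hξ
    apply le_csSup
    · have : Small.{0} (f '' S) := small_image _ _ 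
      exact Ordinal.bddAbove_of_small
    · exact ⟨ξ, hξ, rfl⟩

theorem smallSet_Iio {κ : Cardinal.{0}} {x : Ordinal.{0}} (hx : x < κ.ord) :
    SmallSet κ (Set.Iio x) := by
  unfold SmallSet
  rw [Cardinal.mk_Iio_ordinal, Cardinal.lift_lt]
  exact Cardinal.lt_ord.mp hx

theorem smallSet_of_injOn {κ : Cardinal.{0}} {S : Set Ordinal.{0}} {z : Ordinal.{0}}
    (hz : z < κ.ord) (f : Ordinal.{0} → Ordinal.{0}) (hf : Set.InjOn f S)
    (hfz : ∀ x ∈ S, f x < z) : SmallSet κ S := by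
  have h1 : #S = #(f '' S) := (Cardinal.mk_image_eq_of_injOn f S hf).symm
  unfold SmallSet
  rw [h1]
  refine (Cardinal.mk_le_mk_of_subset ?_).trans_lt (smallSet_Iio hz)
  rintro _ ⟨x, hx, rfl⟩
  exact hfz x hx

theorem smallSet_biUnion {κ : Cardinal.{0}} (hκ : κ.IsRegular) {S : Set Ordinal.{0}}
    (hS : SmallSet κ S) (t : Ordinal.{0} → Set Ordinal.{0}) (ht : ∀ x ∈ S, SmallSet κ (t x)) :
    SmallSet κ (⋃ x ∈ S, t x) :=
  (Cardinal.card_biUnion_lt_iff_forall_of_isRegular hκ.lift hS).mpr ht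

theorem smallSet_insert {κ : Cardinal.{0}} (hκ : ℵ₀ ≤ κ) {S : Set Ordinal.{0}}
    (hS : SmallSet κ S) (a : Ordinal.{0}) : SmallSet κ (insert a S) := by
  refine (Cardinal.mk_insert_le).trans_lt ?_
  have h0 : ℵ₀ ≤ Cardinal.lift.{1} κ := by simpa using hκ
  exact Cardinal.add_lt_of_lt h0 hS (Cardinal.one_lt_aleph0.trans_le h0)

namespace IsCSeq

variable {C : Ordinal.{0} → Set Ordinal.{0}} {L : Ordinal.{0}} {κ : Cardinal.{0}}

theorem smallSet_below (hC : IsCSeq C L κ.ord) {α β : Ordinal.{0}} (hβ : β < L) (hαβ : α < β) :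
    SmallSet κ {x ∈ C β | x < α} := by
  have hlt : otp (C β) α < κ.ord := by
    obtain ⟨x, hx, hαx⟩ := hC.cof β hβ α hαβ
    exact (otp_mono hαx).trans_lt (hC.otp_lt β hβ x hx)
  exact smallSet_of_injOn hlt (otp (C β)) ((otp_injOn _).mono fun x hx => hx.1)
    fun x hx => otp_lt_otp hx.1 hx.2

theorem rho_lt (hκ : κ.IsRegular) (hC : IsCSeq C L κ.ord) (β : Ordinal.{0}) (hβ : β < L) :
    ∀ α ≤ β, rho C α β < κ.ord := by
  induction β using WellFoundedLT.induction with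
  | ind β ih =>
    intro α hαβ
    rcases hαβ.eq_or_lt with rfl | hαβ
    · rw [rho_self]
      exact hκ.ord_pos
    obtain ⟨z, hz, hz'⟩ := (hC.smallSet_below hβ hαβ).bound hκ (fun ξ => rho C ξ α)
      (fun ξ hξ => ih α hαβ (hαβ.trans hβ) ξ hξ.2.le)
    have h1 : otp (C β) α < κ.ord := by
      obtain ⟨x, hx, hαx⟩ := hC.cof β hβ α hαβ
      exact (otp_mono hαx).trans_lt (hC.otp_lt β hβ x hx)
    have h2 := ih _ (hC.nx_lt hβ hαβ) ((hC.nx_lt hβ hαβ).trans hβ) α (hC.nx_mem hβ hαβ).2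
    refine lt_of_le_of_lt ((hC.rho_le_iff hβ hαβ).mpr ⟨le_max_left _ _,
      (le_max_left _ _).trans (le_max_right _ _), fun ξ hξ hξα =>
      (hz' ξ ⟨hξ, hξα⟩).trans ((le_max_right _ _).trans (le_max_right _ _))⟩) ?_
    exact max_lt h1 (max_lt h2 hz)

/-- `ρ` is locally small. -/
theorem smallSet_rho_le (hκ : κ.IsRegular) (hC : IsCSeq C L κ.ord) {ν : Ordinal.{0}}
    (hν : ν < κ.ord) (β : Ordinal.{0}) (hβ : β < L) :
    SmallSet κ {α | α < β ∧ rho C α β ≤ ν} := by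
  induction β using WellFoundedLT.induction with
  | ind β ih =>
    have hS : SmallSet κ {x ∈ C β | otp (C β) x ≤ ν} := by
      refine smallSet_of_injOn (z := Order.succ ν) ?_ (otp (C β))
        ((otp_injOn _).mono fun x hx => hx.1) fun x hx => Order.lt_succ_iff.mpr hx.2
      exact (Cardinal.isSuccLimit_ord hκ.aleph0_le).succ_lt hν
    refine (smallSet_biUnion hκ hS (fun x => insert x {α | α < x ∧ rho C α x ≤ ν}) ?_).mono ?_
    · intro x hx
      exact smallSet_insert hκ.aleph0_le (ih x (hC.sub β hβ x hx.1)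
        ((hC.sub β hβ x hx.1).trans hβ)) _
    · rintro α ⟨hαβ, hα⟩
      obtain ⟨h1, h2⟩ := hC.nx_mem hβ hαβ
      simp only [Set.mem_iUnion, Set.mem_insert_iff, Set.mem_ofPred_eq, exists_prop]
      refine ⟨nx C β α, ⟨h1, ?_⟩, ?_⟩
      · rw [otp_eq_of_gap h2 fun z hz hαz => nx_le hz hαz]
        exact (hC.otp_le_rho hβ hαβ).trans hα
      · rcases h2.eq_or_lt with h3 | h3
        · exact Or.inl h3
        · exact Or.inr ⟨h3, (hC.rho_nx_le hβ hαβ).trans hα⟩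

end IsCSeq

end Pool.Agent.Lib.MP_7295f2_lc

end

section

/-!
# Closedness of ρ and uniqueness of branches
-/

open Cardinal Ordinal

namespace Pool.Agent.Lib.MP_7295f2_lc

namespace IsCSeq

variable {C : Ordinal.{0} → Set Ordinal.{0}} {L κ : Ordinal.{0}}

/-- Closedness: if `ρ(x, γ) ≤ ξ` for cofinally many `x < η`, then `ρ(η, γ) ≤ ξ`. -/
theorem rho_closed (hC : IsCSeq C L κ) {η ξ : Ordinal.{0}} (hη : η ≠ 0) (γ : Ordinal.{0})
    (hγ : γ < L) (hηγ : η < γ)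
    (h : ∀ y < η, ∃ x, y ≤ x ∧ x < η ∧ rho C x γ ≤ ξ) (hlim : ∀ y < η, ∃ x, y < x ∧ x < η) :
    rho C η γ ≤ ξ := by
  induction γ using WellFoundedLT.induction with
  | ind γ ih =>
    have h' : ∀ y < η, ∃ x, y < x ∧ x < η ∧ rho C x γ ≤ ξ := by
      intro y hy
      obtain ⟨x, hx1, hx2⟩ := hlim y hy
      obtain ⟨z, hz1, hz2, hz3⟩ := h x hx2
      exact ⟨z, hx1.trans_le hz1, hz2, hz3⟩
    have hηL : η < L := hηγ.trans hγ
    rw [hC.rho_le_iff hγ hηγ]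
    have hotp : otp (C γ) η ≤ ξ := by
      apply otp_le_of_cofinal
      intro y hy
      obtain ⟨x, hx1, hx2, hx3⟩ := h' y hy
      exact ⟨x, hx1, (hC.otp_le_rho hγ (hx2.trans hηγ)).trans hx3⟩
    by_cases hacc : IsAcc (C γ) η
    · have hmem := (hC.coh γ hγ η hηγ hacc).1
      refine ⟨hotp, ?_, ?_⟩
      · have : nx C γ η = η :=
          le_antisymm (nx_le hmem le_rfl) (hC.nx_mem hγ hηγ).2
        rw [this, rho_self]
        exact zero_le
      · intro z hz hzη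
        obtain ⟨x, hx1, hx2, hx3⟩ := h' z hzη
        refine (hC.subadd1 hηL hx1.le hx2.le).trans (max_le ?_ ?_)
        · exact (hC.rho_mem_le hγ (hx2.trans hηγ) hz hx1).trans hx3
        · rwa [← hC.rho_acc hγ hηγ hacc hx2]
    · -- bounded
      obtain ⟨y₀, hy₀, hgap⟩ : ∃ y₀ < η, ∀ z ∈ C γ, z < η → z ≤ y₀ := by
        unfold IsAcc at hacc
        push Not at hacc
        obtain ⟨y₀, h1, h2⟩ := hacc hη
        refine ⟨y₀, h1, fun z hz hzη => ?_⟩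
        by_contra hcon
        exact absurd (h2 z hz (not_le.mp hcon)) (not_le.mpr hzη)
      have hnx : ∀ x, y₀ < x → x < η → nx C γ x = nx C γ η := by
        intro x hx1 hx2
        obtain ⟨h1, h2⟩ := hC.nx_mem hγ (hx2.trans hηγ)
        obtain ⟨h3, h4⟩ := hC.nx_mem hγ hηγ
        apply le_antisymm (nx_le h3 (hx2.le.trans h4))
        apply nx_le h1
        by_contra hcon
        exact absurd (hgap _ h1 (not_le.mp hcon)) (not_le.mpr (hx1.trans_le h2))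
      have hpt : ∀ x, y₀ < x → x < η → rho C x γ ≤ ξ → rho C x (nx C γ η) ≤ ξ := by
        intro x hx1 hx2 hx3
        rw [← hnx x hx1 hx2]
        exact (hC.rho_nx_le hγ (hx2.trans hηγ)).trans hx3
      obtain ⟨hn1, hn2⟩ := hC.nx_mem hγ hηγ
      have hn3 := hC.nx_lt hγ hηγ
      have hρn : rho C η (nx C γ η) ≤ ξ := by
        rcases hn2.eq_or_lt with h1 | h1
        · rw [← h1, rho_self]
          exact zero_le
        · refine ih _ hn3 (hn3.trans hγ) h1 ?_ 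
          intro y hy
          obtain ⟨x, hx1, hx2, hx3⟩ := h' (max y y₀) (max_lt hy hy₀)
          exact ⟨x, ((le_max_left _ _).trans_lt hx1).le, hx2,
            hpt x ((le_max_right _ _).trans_lt hx1) hx2 hx3⟩
      refine ⟨hotp, hρn, ?_⟩
      intro z hz hzη
      obtain ⟨x, hx1, hx2, hx3⟩ := h' y₀ hy₀
      have hzx : z < x := (hgap z hz hzη).trans_lt hx1
      refine (hC.subadd1 hηL hzx.le hx2.le).trans (max_le ?_ ?_)
      · exact (hC.rho_mem_le hγ (hx2.trans hηγ) hz hzx).trans hx3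
      · exact (hC.subadd2 (hn3.trans hγ) hx2.le hn2).trans (max_le (hpt x hx1 hx2 hx3) hρn)

/-- Uniqueness of branches: if `B` is a downward closed branch for `ρ < ν`, `η` a limit point of
`B`, and `B` has an element which is at least `η`, then `ρ(a, η) < ν` for `a ∈ B ∩ η`. -/
theorem branch_acc (hC : IsCSeq C L κ) {B : Set Ordinal.{0}} {ν η : Ordinal.{0}}
    (hBL : ∀ b ∈ B, b < L) (hB : ∀ a ∈ B, ∀ b ∈ B, a < b → rho C a b < ν)
    (hBd : ∀ b ∈ B, ∀ a < b, rho C a b < ν → a ∈ B)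
    (hη : IsAcc B η) (hex : ∃ b ∈ B, η ≤ b) : ∀ a ∈ B, a < η → rho C a η < ν := by
  intro a ha haη
  have hne : {b ∈ B | η ≤ b}.Nonempty := hex
  set c := sInf {b ∈ B | η ≤ b} with hc
  obtain ⟨hcB, hηc⟩ : c ∈ B ∧ η ≤ c := csInf_mem hne
  have hcmin : ∀ b ∈ B, η ≤ b → c ≤ b := fun b hb hηb => csInf_le' ⟨hb, hηb⟩
  have hcL := hBL c hcB
  rcases hηc.eq_or_lt with h | hηc
  · rw [h]
    exact hB a ha c hcB (haη.trans_eq h)
  have hνpos : 0 < ν := lt_of_le_of_lt zero_le (hB a ha c hcB (haη.trans hηc))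
  by_cases hacc : IsAcc (C c) η
  · rw [← hC.rho_acc hcL hηc hacc haη]
    exact hB a ha c hcB (haη.trans hηc)
  · exfalso
    obtain ⟨y₀, hy₀, hgap⟩ : ∃ y₀ < η, ∀ z ∈ C c, z < η → z ≤ y₀ := by
      unfold IsAcc at hacc
      push Not at hacc
      obtain ⟨y₀, h1, h2⟩ := hacc hη.1
      refine ⟨y₀, h1, fun z hz hzη => ?_⟩
      by_contra hcon
      exact absurd (h2 z hz (not_le.mp hcon)) (not_le.mpr hzη)
    obtain ⟨x, hxB, hx1, hx2⟩ := hη.2 y₀ hy₀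
    have hxc := hx2.trans hηc
    obtain ⟨h1, h2⟩ := hC.nx_mem hcL hηc
    have h3 := hC.nx_lt hcL hηc
    have hnx : nx C c x = nx C c η := by
      obtain ⟨h4, h5⟩ := hC.nx_mem hcL hxc
      apply le_antisymm (nx_le h1 (hx2.le.trans h2))
      apply nx_le h4
      by_contra hcon
      exact absurd (hgap _ h4 (not_le.mp hcon)) (not_le.mpr (hx1.trans_le h5))
    have hxn : x < nx C c η := hx2.trans_le h2
    have hρ : rho C (nx C c η) c ≤ rho C x c := by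
      rw [hC.rho_le_iff hcL h3]
      refine ⟨?_, ?_, ?_⟩
      · rw [otp_eq_of_gap hxn.le fun z hz hxz => ?_]
        · exact hC.otp_le_rho hcL hxc
        · rw [← hnx]
          exact nx_le hz hxz
      · have : nx C c (nx C c η) = nx C c η :=
          le_antisymm (nx_le h1 le_rfl) (hC.nx_mem hcL h3).2
        rw [this, rho_self]
        exact zero_le
      · intro z hz hzn
        have hzη : z < η := by
          by_contra hcon
          exact absurd (nx_le hz (not_lt.mp hcon)) (not_le.mpr hzn)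
        have hzx : z < x := (hgap z hz hzη).trans_lt hx1
        refine (hC.subadd1 (h3.trans hcL) hzx.le hxn.le).trans (max_le ?_ ?_)
        · exact hC.rho_mem_le hcL hxc hz hzx
        · rw [← hnx]
          exact hC.rho_nx_le hcL hxc
    have hmem : nx C c η ∈ B := hBd c hcB _ h3 (hρ.trans_lt (hB x hxB c hcB hxc))
    exact absurd (hcmin _ hmem h2) (not_le.mpr h3)

end IsCSeq

end Pool.Agent.Lib.MP_7295f2_lc

end

section

/-!
# Unbounded sets and ρ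
-/

open Cardinal Ordinal

namespace Pool.Agent.Lib.MP_7295f2_lc

namespace IsCSeq

variable {C : Ordinal.{0} → Set Ordinal.{0}} {L κ : Ordinal.{0}}

theorem rho_sup_lt (hC : IsCSeq C L κ) {Z : Set Ordinal.{0}} {δ ν : Ordinal.{0}} (hδ : δ < L)
    (hZ : ∀ z ∈ Z, z < δ) (hcof : ∀ y < δ, ∃ z ∈ Z, y < z)
    (hδω : ∀ s : ℕ → Ordinal.{0}, (∀ n, s n < δ) → ∃ z < δ, ∀ n, s n ≤ z)
    (hρ : ∀ a ∈ Z, ∀ b ∈ Z, a < b → rho C a b < ν) : ∀ c ∈ Z, rho C c δ < ν := by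
  intro c hc
  obtain ⟨c', hc', hcc'⟩ := hcof c (hZ c hc)
  have hνpos : 0 < ν := lt_of_le_of_lt zero_le (hρ c hc c' hc' hcc')
  set B : Set Ordinal.{0} := {a | ∃ d ∈ Z, a < d ∧ rho C a d < ν} with hB
  have hZB : ∀ z ∈ Z, z ∈ B := by
    intro z hz
    obtain ⟨d, hd, hzd⟩ := hcof z (hZ z hz)
    exact ⟨d, hd, hzd, hρ z hz d hd hzd⟩
  have hup : ∀ a ∈ B, ∃ d ∈ Z, a < d ∧ ∀ e ∈ Z, d ≤ e → rho C a e < ν := by
    rintro a ⟨d, hd, had, hρd⟩
    refine ⟨d, hd, had, fun e he hde => ?_⟩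
    rcases hde.eq_or_lt with rfl | hde
    · exact hρd
    · exact (hC.subadd1 ((hZ e he).trans hδ) had.le hde.le).trans_lt
        (max_lt hρd (hρ d hd e he hde))
  have hBL : ∀ b ∈ B, b < L := by
    rintro b ⟨d, hd, hbd, _⟩
    exact hbd.trans ((hZ d hd).trans hδ)
  have hB1 : ∀ a ∈ B, ∀ b ∈ B, a < b → rho C a b < ν := by
    intro a ha b hb hab
    obtain ⟨d1, hd1, had1, h1⟩ := hup a ha
    obtain ⟨d2, hd2, hbd2, h2⟩ := hup b hb
    rcases le_total d1 d2 with h12 | h12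
    · exact (hC.subadd2 ((hZ d2 hd2).trans hδ) hab.le hbd2.le).trans_lt
        (max_lt (h1 d2 hd2 h12) (h2 d2 hd2 le_rfl))
    · exact (hC.subadd2 ((hZ d1 hd1).trans hδ) hab.le (hbd2.le.trans h12)).trans_lt
        (max_lt (h1 d1 hd1 le_rfl) (h2 d1 hd1 h12))
  have hB2 : ∀ b ∈ B, ∀ a < b, rho C a b < ν → a ∈ B := by
    intro b hb a hab hρab
    obtain ⟨d, hd, hbd, h⟩ := hup b hb
    exact ⟨d, hd, hab.trans hbd, (hC.subadd1 ((hZ d hd).trans hδ) hab.le hbd.le).trans_lt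
      (max_lt hρab (h d hd le_rfl))⟩
  -- build the common limit point
  have hstep : ∀ x : {x // x < δ}, ∃ y : {y // y < δ}, ∃ z ∈ Z, ∃ w ∈ C δ, x.1 < z ∧ z < y.1 ∧
      x.1 < w ∧ w < y.1 := by
    rintro ⟨x, hx⟩
    obtain ⟨z, hz, hxz⟩ := hcof x hx
    obtain ⟨w, hw, hzw⟩ := hC.cof δ hδ z (hZ z hz)
    obtain ⟨y, hy, hwy⟩ := hcof w (hC.sub δ hδ w hw)
    exact ⟨⟨y, hZ y hy⟩, z, hz, w, hw, hxz, hzw.trans_lt hwy, hxz.trans_le hzw, hwy⟩
  choose g hg using hstep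
  let s : ℕ → {x // x < δ} := fun n => g^[n] ⟨c, hZ c hc⟩
  have hs : ∀ n, s (n + 1) = g (s n) := fun n => Function.iterate_succ_apply' g n _
  have hslt : ∀ n, (s n).1 < (s (n + 1)).1 := by
    intro n
    rw [hs]
    obtain ⟨z, _, w, _, h1, h2, _, _⟩ := hg (s n)
    exact h1.trans h2
  obtain ⟨z₀, hz₀, hz₀'⟩ := hδω (fun n => (s n).1) (fun n => (s n).2)
  set η := ⨆ n, (s n).1 with hη
  have hηδ : η < δ := (Ordinal.iSup_le hz₀').trans_lt hz₀
  have hlt : ∀ n, (s n).1 < η := fun n => (hslt n).trans_le (Ordinal.le_iSup (fun n => (s n).1) _)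
  have hη0 : η ≠ 0 := fun h => by
    have := hlt 0
    rw [h] at this
    exact not_lt_zero this
  have hex : ∀ x < η, ∃ n, x < (s n).1 := fun x hx => Ordinal.lt_iSup_iff.mp hx
  have hacc1 : IsAcc B η := by
    refine ⟨hη0, fun x hx => ?_⟩
    obtain ⟨n, hn⟩ := hex x hx
    obtain ⟨z, hz, w, hw, h1, h2, h3, h4⟩ := hg (s n)
    refine ⟨z, hZB z hz, hn.trans h1, ?_⟩
    rw [← hs] at h2
    exact h2.trans (hlt _)
  have hacc2 : IsAcc (C δ) η := by
    refine ⟨hη0, fun x hx => ?_⟩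
    obtain ⟨n, hn⟩ := hex x hx
    obtain ⟨z, hz, w, hw, h1, h2, h3, h4⟩ := hg (s n)
    refine ⟨w, hw, hn.trans h3, ?_⟩
    rw [← hs] at h4
    exact h4.trans (hlt _)
  have hcη : c < η := hlt 0
  rw [hC.rho_acc hδ hηδ hacc2 hcη]
  obtain ⟨b, hb, hηb⟩ := hcof η hηδ
  exact hC.branch_acc hBL hB1 hB2 hacc1 ⟨b, hZB b hb, hηb.le⟩ c (hZB c hc) hcη

end IsCSeq

end Pool.Agent.Lib.MP_7295f2_lc

end

section

/-!
# Sets of ordinals of order type ω₁
-/

open Cardinal Ordinal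

namespace Pool.Agent.Lib.MP_7295f2_lc

theorem smallSet_aleph_one_iff {S : Set Ordinal.{0}} : SmallSet ℵ₁ S ↔ S.Countable := by
  unfold SmallSet
  rw [← Cardinal.le_aleph0_iff_set_countable, ← Cardinal.succ_aleph0, Cardinal.lift_succ,
    Order.lt_succ_iff, Cardinal.lift_aleph0]

/-- `X` is uncountable and all its proper initial segments are countable. -/
structure LW (X : Set Ordinal.{0}) : Prop where
  unc : ¬ X.Countable
  init : ∀ x ∈ X, (X ∩ Set.Iio x).Countable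

theorem exists_LW {X : Set Ordinal.{0}} (hX : ¬ X.Countable) : ∃ Y ⊆ X, LW Y := by
  refine ⟨{x ∈ X | (X ∩ Set.Iio x).Countable}, fun x hx => hx.1, ?_, ?_⟩
  · intro hc
    have hne : (X \ {x ∈ X | (X ∩ Set.Iio x).Countable}).Nonempty := by
      by_contra hcon
      rw [Set.not_nonempty_iff_eq_empty, Set.sdiff_eq_empty] at hcon
      exact hX (hc.mono hcon)
    set m := sInf (X \ {x ∈ X | (X ∩ Set.Iio x).Countable}) with hm
    have hm1 : m ∈ X \ {x ∈ X | (X ∩ Set.Iio x).Countable} := csInf_mem hne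
    apply hm1.2
    refine ⟨hm1.1, hc.mono ?_⟩
    rintro y ⟨hy, hym⟩
    by_contra hcon
    have : m ≤ y := csInf_le' ⟨hy, hcon⟩
    exact absurd hym (not_lt.mpr this)
  · intro x hx
    refine hx.2.mono ?_
    intro y hy
    exact ⟨hy.1.1, hy.2⟩

namespace LW

theorem sub {X Y : Set Ordinal.{0}} (hX : LW X) (hYX : Y ⊆ X) (hY : ¬ Y.Countable) : LW Y :=
  ⟨hY, fun x hx => (hX.init x (hYX hx)).mono (Set.inter_subset_inter_left _ hYX)⟩

theorem init_le {X : Set Ordinal.{0}} (hX : LW X) {x : Ordinal.{0}} (hx : x ∈ X) :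
    (X ∩ Set.Iic x).Countable := by
  refine ((hX.init x hx).insert x).mono ?_
  rintro y ⟨hy, hyx⟩
  rcases (Set.mem_Iic.mp hyx).eq_or_lt with h | h
  · exact Or.inl h
  · exact Or.inr ⟨hy, h⟩

theorem bound {X S : Set Ordinal.{0}} (hX : LW X) (hSX : S ⊆ X) (hS : S.Countable) :
    ∃ x ∈ X, ∀ s ∈ S, s < x := by
  by_contra hcon
  push Not at hcon
  apply hX.unc
  refine (hS.biUnion fun s hs => hX.init_le (hSX hs)).mono ?_
  intro x hx
  obtain ⟨s, hs, hxs⟩ := hcon x hx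
  exact Set.mem_biUnion hs ⟨hx, hxs⟩

theorem exists_gt {X : Set Ordinal.{0}} (hX : LW X) {x : Ordinal.{0}} (hx : x ∈ X) :
    ∃ y ∈ X, x < y := by
  obtain ⟨y, hy, h⟩ := hX.bound (Set.singleton_subset_iff.mpr hx) (Set.countable_singleton x)
  exact ⟨y, hy, h x rfl⟩

theorem above {X : Set Ordinal.{0}} (hX : LW X) {x : Ordinal.{0}} (hx : x ∈ X) :
    LW (X ∩ Set.Ioi x) := by
  refine hX.sub Set.inter_subset_left ?_
  intro hc
  apply hX.unc
  refine ((hX.init_le hx).union hc).mono ?_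
  intro y hy
  rcases le_or_gt y x with h | h
  · exact Or.inl ⟨hy, h⟩
  · exact Or.inr ⟨hy, h⟩

theorem nonempty {X : Set Ordinal.{0}} (hX : LW X) : X.Nonempty := by
  by_contra h
  rw [Set.not_nonempty_iff_eq_empty] at h
  apply hX.unc
  rw [h]
  exact Set.countable_empty

theorem otp_lt {X : Set Ordinal.{0}} (hX : LW X) : ∀ x ∈ X, otp X x < (ℵ₁ : Cardinal.{0}).ord := by
  intro x
  induction x using WellFoundedLT.induction with
  | ind x ih =>
    intro hx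
    have h1 : SmallSet ℵ₁ (X ∩ Set.Iio x) := smallSet_aleph_one_iff.mpr (hX.init x hx)
    obtain ⟨z, hz, hz'⟩ := h1.bound Cardinal.isRegular_aleph_one (otp X)
      (fun y hy => ih y hy.2 hy.1)
    refine lt_of_le_of_lt (otp_le_iff.mpr fun y hy hyx => Order.lt_succ_iff.mpr (hz' y ⟨hy, hyx⟩)) ?_
    exact (Cardinal.isSuccLimit_ord Cardinal.isRegular_aleph_one.aleph0_le).succ_lt hz

theorem smallSet {X : Set Ordinal.{0}} (hX : LW X) {κ : Cardinal.{0}} (hκ : ℵ₁ ≤ κ) :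
    SmallSet (Order.succ κ) X := by
  have : #X ≤ #(Set.Iio (ℵ₁ : Cardinal.{0}).ord) := by
    have h1 : #X = #(otp X '' X) := (Cardinal.mk_image_eq_of_injOn _ _ (otp_injOn X)).symm
    rw [h1]
    apply Cardinal.mk_le_mk_of_subset
    rintro _ ⟨x, hx, rfl⟩
    exact hX.otp_lt x hx
  unfold SmallSet
  refine this.trans_lt ?_
  rw [Cardinal.mk_Iio_ordinal, Cardinal.lift_lt, Cardinal.card_ord]
  exact hκ.trans_lt (Order.lt_succ κ)

theorem sSup_lt {X : Set Ordinal.{0}} (hX : LW X) {κ : Cardinal.{0}} (hκ : ℵ₁ ≤ κ)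
    (hXL : ∀ x ∈ X, x < (Order.succ κ).ord) :
    sSup X < (Order.succ κ).ord ∧ BddAbove X := by
  have hreg : (Order.succ κ).IsRegular :=
    Cardinal.isRegular_succ ((Cardinal.aleph0_lt_aleph_one.le).trans hκ)
  obtain ⟨z, hz, hz'⟩ := (hX.smallSet hκ).bound hreg id hXL
  exact ⟨(csSup_le hX.nonempty hz').trans_lt hz, ⟨z, hz'⟩⟩

theorem lt_sSup {X : Set Ordinal.{0}} (hX : LW X) (hb : BddAbove X) : ∀ x ∈ X, x < sSup X := by
  intro x hx
  obtain ⟨y, hy, hxy⟩ := hX.exists_gt hx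
  exact hxy.trans_le (le_csSup hb hy)

theorem cof_sSup {X : Set Ordinal.{0}} (hX : LW X) (s : ℕ → Ordinal.{0})
    (hs : ∀ n, s n < sSup X) (hb : BddAbove X) : ∃ z < sSup X, ∀ n, s n ≤ z := by
  have : ∀ n, ∃ x ∈ X, s n < x := fun n => exists_lt_of_lt_csSup hX.nonempty (hs n)
  choose f hf hf' using this
  obtain ⟨x, hx, hx'⟩ := hX.bound (S := Set.range f) (by rintro _ ⟨n, rfl⟩; exact hf n)
    (Set.countable_range f)
  refine ⟨x, hX.lt_sSup hb x hx, fun n => ?_⟩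
  exact ((hf' n).trans (hx' _ ⟨n, rfl⟩)).le

end LW

/-- The properties of `ρ : [ω₂]² → ω₁` which are used. -/
structure IsRho1 (ρ : Ordinal.{0} → Ordinal.{0} → Ordinal.{0}) (Ω₂ Ω₁ : Ordinal.{0}) : Prop where
  self : ∀ α, ρ α α = 0
  lt : ∀ β < Ω₂, ∀ α ≤ β, ρ α β < Ω₁
  sub1 : ∀ α β γ, γ < Ω₂ → α ≤ β → β ≤ γ → ρ α γ ≤ max (ρ α β) (ρ β γ)
  sub2 : ∀ α β γ, γ < Ω₂ → α ≤ β → β ≤ γ → ρ α β ≤ max (ρ α γ) (ρ β γ)
  closed : ∀ η ξ γ, γ < Ω₂ → η < γ → η ≠ 0 → (∀ y < η, ∃ x, y < x ∧ x < η ∧ ρ x γ ≤ ξ) →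
    ρ η γ ≤ ξ
  unbdd : ∀ Y : Set Ordinal.{0}, ¬ Y.Countable → (∀ y ∈ Y, y < Ω₂) → ∀ ξ < Ω₁,
    ∃ c ∈ Y, ∃ d ∈ Y, c < d ∧ ξ < ρ c d

/-- The properties of `ρ : [ω₃]² → ω₂` which are used. -/
structure IsRho2 (ρ : Ordinal.{0} → Ordinal.{0} → Ordinal.{0}) (Ω₃ : Ordinal.{0})
    (κ : Cardinal.{0}) : Prop where
  self : ∀ α, ρ α α = 0
  lt : ∀ β < Ω₃, ∀ α ≤ β, ρ α β < κ.ord
  sub1 : ∀ α β γ, γ < Ω₃ → α ≤ β → β ≤ γ → ρ α γ ≤ max (ρ α β) (ρ β γ)
  sub2 : ∀ α β γ, γ < Ω₃ → α ≤ β → β ≤ γ → ρ α β ≤ max (ρ α γ) (ρ β γ)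
  small : ∀ β < Ω₃, ∀ ν < κ.ord, SmallSet κ {α | α < β ∧ ρ α β ≤ ν}
  np0 : ∀ Z : Set Ordinal.{0}, LW Z → (∀ z ∈ Z, z < Ω₃) → ∀ (γ : Ordinal.{0})
    (S : Set Ordinal.{0}), S.Countable → (∀ x < γ, ∃ s ∈ S, x ≤ s) →
    (∀ c ∈ Z, ∀ d ∈ Z, c < d → ρ c d < γ) →
    ∃ s ∈ S, ∃ Z' ⊆ Z, ¬ Z'.Countable ∧ ∀ c ∈ Z', ∀ d ∈ Z', c < d → ρ c d ≤ s

theorem isRho1_of_square (h : Square ℵ₁) :
    ∃ ρ, IsRho1 ρ (Order.succ (ℵ₁ : Cardinal.{0})).ord (ℵ₁ : Cardinal.{0}).ord := by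
  obtain ⟨C, hC⟩ := h.exists_isCSeq Cardinal.aleph0_lt_aleph_one.le
  refine ⟨rho C, rho_self, ?_, ?_, ?_, ?_, ?_⟩
  · exact hC.rho_lt Cardinal.isRegular_aleph_one
  · exact fun α β γ hγ h1 h2 => hC.subadd1 hγ h1 h2
  · exact fun α β γ hγ h1 h2 => hC.subadd2 hγ h1 h2
  · intro η ξ γ hγ hηγ hη h
    refine hC.rho_closed hη γ hγ hηγ (fun y hy => ?_) (fun y hy => ?_)
    · obtain ⟨x, h1, h2, h3⟩ := h y hy
      exact ⟨x, h1.le, h2, h3⟩
    · obtain ⟨x, h1, h2, _⟩ := h y hy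
      exact ⟨x, h1, h2⟩
  · intro Y hY hYL ξ hξ
    by_contra hcon
    push Not at hcon
    obtain ⟨Y', hY'Y, hLW⟩ := exists_LW hY
    obtain ⟨hδ, hb⟩ := hLW.sSup_lt le_rfl fun x hx => hYL x (hY'Y hx)
    have h1 := hC.rho_sup_lt (Z := Y') (ν := Order.succ ξ) hδ (hLW.lt_sSup hb)
      (fun y hy => exists_lt_of_lt_csSup hLW.nonempty hy)
      (fun s hs => hLW.cof_sSup s hs hb)
      (fun a ha b hb hab => Order.lt_succ_iff.mpr (hcon a (hY'Y ha) b (hY'Y hb) hab))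
    apply hLW.unc
    have h2 := hC.smallSet_rho_le Cardinal.isRegular_aleph_one hξ _ hδ
    rw [smallSet_aleph_one_iff] at h2
    refine h2.mono ?_
    intro y hy
    exact ⟨hLW.lt_sSup hb y hy, Order.lt_succ_iff.mp (h1 y hy)⟩

theorem isRho2_of_square {κ : Cardinal.{0}} (hκ : ℵ₁ ≤ κ) (hreg : κ.IsRegular) (h : Square κ) :
    ∃ ρ, IsRho2 ρ (Order.succ κ).ord κ := by
  obtain ⟨C, hC⟩ := h.exists_isCSeq hreg.aleph0_le
  refine ⟨rho C, rho_self, ?_, ?_, ?_, ?_, ?_⟩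
  · exact hC.rho_lt hreg
  · exact fun α β γ hγ h1 h2 => hC.subadd1 hγ h1 h2
  · exact fun α β γ hγ h1 h2 => hC.subadd2 hγ h1 h2
  · exact fun β hβ ν hν => hC.smallSet_rho_le hreg hν β hβ
  · intro Z hLW hZL γ S hS hSγ hρ
    obtain ⟨hδ, hb⟩ := hLW.sSup_lt hκ hZL
    have h1 := hC.rho_sup_lt (Z := Z) (ν := γ) hδ (hLW.lt_sSup hb)
      (fun y hy => exists_lt_of_lt_csSup hLW.nonempty hy)
      (fun s hs => hLW.cof_sSup s hs hb) hρ
    by_contra hcon
    push Not at hcon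
    apply hLW.unc
    refine (hS.biUnion (t := fun s _ => {c ∈ Z | rho C c (sSup Z) ≤ s}) fun s hs => ?_).mono ?_
    · by_contra hunc
      obtain ⟨c, hc, d, hd, hcd, h2⟩ := hcon s hs {c ∈ Z | rho C c (sSup Z) ≤ s}
        (fun c hc => hc.1) hunc
      refine absurd ?_ (not_le.mpr h2)
      exact (hC.subadd2 hδ hcd.le (hLW.lt_sSup hb d hd.1).le).trans (max_le hc.2 hd.2)
    · intro c hc
      obtain ⟨s, hs, h2⟩ := hSγ _ (h1 c hc)
      exact Set.mem_biUnion hs ⟨hc, h2⟩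

end Pool.Agent.Lib.MP_7295f2_lc

end

section

/-!
# The three-dimensional unboundedness lemma
-/

open Cardinal Ordinal

namespace Pool.Agent.Lib.MP_7295f2_lc

/-- A small set has small order type. -/
theorem otp_lt_of_small {κ : Cardinal.{0}} (hκ : κ.IsRegular) {S : Set Ordinal.{0}}
    (hS : SmallSet κ S) (x : Ordinal.{0}) : otp S x < κ.ord := by
  induction x using WellFoundedLT.induction with
  | ind x ih =>
    obtain ⟨z, hz, hz'⟩ := (hS.mono (S := S ∩ Set.Iio x) Set.inter_subset_left).bound hκ (otp S)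
      (fun y hy => ih y hy.2)
    refine lt_of_le_of_lt (otp_le_iff.mpr fun y hy hyx => Order.lt_succ_iff.mpr (hz' y ⟨hy, hyx⟩)) ?_
    exact (Cardinal.isSuccLimit_ord hκ.aleph0_le).succ_lt hz

/-- The set `P_γ(d)`. -/
def PP (ρ : Ordinal.{0} → Ordinal.{0} → Ordinal.{0}) (γ d : Ordinal.{0}) : Set Ordinal.{0} :=
  {α | α < d ∧ ρ α d ≤ γ}

/-- The order type of `P_γ(d)`. -/
noncomputable def tt (ρ : Ordinal.{0} → Ordinal.{0} → Ordinal.{0}) (γ d : Ordinal.{0}) :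
    Ordinal.{0} := otp (PP ρ γ d) d

section

variable {ρ₂ : Ordinal.{0} → Ordinal.{0} → Ordinal.{0}} {Ω₃ : Ordinal.{0}} {κ : Cardinal.{0}}

theorem IsRho2.tt_lt_tt (h2 : IsRho2 ρ₂ Ω₃ κ) {γ b c : Ordinal.{0}} (hc : c < Ω₃) (hbc : b < c)
    (h : ρ₂ b c ≤ γ) : tt ρ₂ γ b < tt ρ₂ γ c := by
  have h1 : otp (PP ρ₂ γ b) b = otp (PP ρ₂ γ c) b := by
    apply otp_congr
    intro z hz
    simp only [PP, Set.mem_ofPred_eq]
    constructor
    · rintro ⟨_, hz2⟩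
      exact ⟨hz.trans hbc, (h2.sub1 z b c hc hz.le hbc.le).trans (max_le hz2 h)⟩
    · rintro ⟨_, hz2⟩
      exact ⟨hz, (h2.sub2 z b c hc hz.le hbc.le).trans (max_le hz2 h)⟩
  unfold tt
  rw [h1]
  exact otp_lt_otp ⟨hbc, h⟩ hbc

theorem IsRho2.tt_lt (hκ : κ.IsRegular) (h2 : IsRho2 ρ₂ Ω₃ κ) {γ d : Ordinal.{0}}
    (hγ : γ < κ.ord) (hd : d < Ω₃) : tt ρ₂ γ d < κ.ord :=
  otp_lt_of_small hκ (h2.small d hd γ hγ) d

theorem IsRho2.eq_of_lt (h2 : IsRho2 ρ₂ Ω₃ κ) {b c d : Ordinal.{0}} (hd : d < Ω₃) (hbc : b ≤ c)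
    (hcd : c ≤ d) (h : ρ₂ c d < ρ₂ b c) : ρ₂ b d = ρ₂ b c := by
  apply le_antisymm
  · have := h2.sub1 b c d hd hbc hcd
    rwa [max_eq_left h.le] at this
  · have := h2.sub2 b c d hd hbc hcd
    rcases le_max_iff.mp this with h1 | h1
    · exact h1
    · exact absurd h (not_lt.mpr h1)

end

/-- `x = y`, or `x < y` and `ρ(x, y) ≤ ξ`. -/
def Rel (ρ : Ordinal.{0} → Ordinal.{0} → Ordinal.{0}) (ξ x y : Ordinal.{0}) : Prop :=
  x = y ∨ (x < y ∧ ρ x y ≤ ξ)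

theorem Rel.le {ρ : Ordinal.{0} → Ordinal.{0} → Ordinal.{0}} {ξ x y : Ordinal.{0}}
    (h : Rel ρ ξ x y) : x ≤ y := h.elim (fun h => h.le) fun h => h.1.le

theorem IsRho1.rel_trans {ρ₁ : Ordinal.{0} → Ordinal.{0} → Ordinal.{0}} {Ω₂ Ω₁ : Ordinal.{0}}
    (h1 : IsRho1 ρ₁ Ω₂ Ω₁) {ξ x y z : Ordinal.{0}} (hz : z < Ω₂) (hxy : Rel ρ₁ ξ x y)
    (hyz : Rel ρ₁ ξ y z) : Rel ρ₁ ξ x z := by
  rcases hxy with rfl | ⟨h2, h3⟩
  · exact hyz
  · rcases hyz with rfl | ⟨h4, h5⟩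
    · exact Or.inr ⟨h2, h3⟩
    · exact Or.inr ⟨h2.trans h4, (h1.sub1 x y z hz h2.le h4.le).trans (max_le h3 h5)⟩

theorem IsRho1.rel_down {ρ₁ : Ordinal.{0} → Ordinal.{0} → Ordinal.{0}} {Ω₂ Ω₁ : Ordinal.{0}}
    (h1 : IsRho1 ρ₁ Ω₂ Ω₁) {ξ x y z : Ordinal.{0}} (hz : z < Ω₂) (hxy : x ≤ y)
    (hxz : Rel ρ₁ ξ x z) (hyz : Rel ρ₁ ξ y z) : Rel ρ₁ ξ x y := by
  rcases hxy.eq_or_lt with rfl | hxy'
  · exact Or.inl rfl
  · rcases hyz with rfl | ⟨h4, h5⟩
    · exact hxz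
    · rcases hxz with rfl | ⟨h2, h3⟩
      · exact absurd (hxy'.trans h4) (lt_irrefl _)
      · exact Or.inr ⟨hxy', (h1.sub2 x y z hz hxy h4.le).trans (max_le h3 h5)⟩

/-- Comparability for `Rel`. -/
def Cmp (ρ : Ordinal.{0} → Ordinal.{0} → Ordinal.{0}) (ξ x y : Ordinal.{0}) : Prop :=
  Rel ρ ξ x y ∨ Rel ρ ξ y x

theorem Cmp.rel {ρ : Ordinal.{0} → Ordinal.{0} → Ordinal.{0}} {ξ x y : Ordinal.{0}}
    (h : Cmp ρ ξ x y) (hxy : x ≤ y) : Rel ρ ξ x y := by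
  rcases h with h | h
  · exact h
  · exact Or.inl (le_antisymm hxy h.le)

theorem u3 {ρ₁ ρ₂ : Ordinal.{0} → Ordinal.{0} → Ordinal.{0}}
    (h1 : IsRho1 ρ₁ (Order.succ (ℵ₁ : Cardinal.{0})).ord (ℵ₁ : Cardinal.{0}).ord)
    (h2 : IsRho2 ρ₂ (Order.succ (Order.succ (ℵ₁ : Cardinal.{0}))).ord (Order.succ ℵ₁))
    {X : Set Ordinal.{0}} (hX : LW X)
    (hXΩ : ∀ x ∈ X, x < (Order.succ (Order.succ (ℵ₁ : Cardinal.{0}))).ord)
    {v₀ ξ : Ordinal.{0}} (hξ : ξ < (ℵ₁ : Cardinal.{0}).ord)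
    (hyp : ∀ b ∈ X, ∀ c ∈ X, ∀ d ∈ X, b < c → c < d →
      (v₀ ≤ ρ₂ b c ∨ v₀ ≤ ρ₂ c d ∨ v₀ ≤ ρ₂ b d) →
      Cmp ρ₁ ξ (ρ₂ b c) (ρ₂ c d) ∧ Cmp ρ₁ ξ (ρ₂ b d) (ρ₂ c d) ∧
      (ρ₂ b c ≤ ρ₂ c d → ρ₁ (tt ρ₂ (ρ₂ c d) b) (tt ρ₂ (ρ₂ c d) c) ≤ ξ)) :
    ∃ Y ⊆ X, ¬ Y.Countable ∧ ∀ c ∈ Y, ∀ d ∈ Y, c < d → ρ₂ c d < v₀ := by
  classical
  by_contra hno
  push Not at hno
  have hκ : (Order.succ (ℵ₁ : Cardinal.{0})).IsRegular :=
    Cardinal.isRegular_succ Cardinal.aleph0_lt_aleph_one.le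
  set Ω₂ := (Order.succ (ℵ₁ : Cardinal.{0})).ord with hΩ₂
  set Ω₃ := (Order.succ (Order.succ (ℵ₁ : Cardinal.{0}))).ord with hΩ₃
  -- the set of bounds
  set G : Set Ordinal.{0} := {γ | γ < Ω₂ ∧ ∃ Y ⊆ X, ¬ Y.Countable ∧
    ∀ c ∈ Y, ∀ d ∈ Y, c < d → ρ₂ c d ≤ γ} with hG
  have hGne : G.Nonempty := by
    have hsm : SmallSet (Order.succ ℵ₁) X := hX.smallSet le_rfl
    have hb : ∀ d ∈ X, ∃ z < Ω₂, ∀ c ∈ X, c < d → ρ₂ c d ≤ z := by
      intro d hd
      obtain ⟨z, hz, hz'⟩ := hsm.bound hκ (fun c => if c < d then ρ₂ c d else 0) (by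
        intro c hc
        by_cases hcd : c < d
        · simp only [if_pos hcd]
          exact h2.lt d (hXΩ d hd) c hcd.le
        · simp only [if_neg hcd]
          exact hκ.ord_pos)
      refine ⟨z, hz, fun c hc hcd => ?_⟩
      have := hz' c hc
      simpa only [if_pos hcd] using this
    choose! f hf hf' using hb
    obtain ⟨z, hz, hz'⟩ := hsm.bound hκ f hf
    exact ⟨z, hz, X, subset_rfl, hX.unc, fun c hc d hd hcd => (hf' d hd c hc hcd).trans (hz' d hd)⟩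
  obtain ⟨hγΩ, Y, hYX, hYunc, hYρ⟩ : sInf G ∈ G := csInf_mem hGne
  set γs := sInf G with hγs
  have hmin : ∀ γ < γs, ∀ W ⊆ X, ¬ W.Countable → ∃ c ∈ W, ∃ d ∈ W, c < d ∧ γ < ρ₂ c d := by
    intro γ hγ W hWX hW
    by_contra hcon
    push Not at hcon
    have : γ ∈ G := ⟨hγ.trans hγΩ, W, hWX, hW, hcon⟩
    exact absurd (csInf_le' this) (not_le.mpr hγ)
  have hYLW : LW Y := hX.sub hYX hYunc
  have hYΩ : ∀ y ∈ Y, y < Ω₃ := fun y hy => hXΩ y (hYX hy)
  have hv₀ : v₀ ≤ γs := by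
    obtain ⟨c, hc, d, hd, hcd, h⟩ := hno Y hYX hYunc
    exact h.trans (hYρ c hc d hd hcd)
  set Z : Set Ordinal.{0} := {c ∈ Y | ∀ d ∈ Y, c < d → ρ₂ c d < γs} with hZ
  by_cases hZc : Z.Countable
  · -- Case (i)
    have hY' : ¬ (Y \ Z).Countable := by
      intro hc
      apply hYunc
      refine (hc.union hZc).mono ?_
      intro y hy
      by_cases hyZ : y ∈ Z
      · exact Or.inr hyZ
      · exact Or.inl ⟨hy, hyZ⟩
    have hmono : ∀ b ∈ Y \ Z, ∀ c ∈ Y \ Z, b < c → tt ρ₂ γs b < tt ρ₂ γs c := fun b hb c hc hbc =>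
      h2.tt_lt_tt (hYΩ c hc.1) hbc (hYρ b hb.1 c hc.1 hbc)
    have hinj : Set.InjOn (tt ρ₂ γs) (Y \ Z) := by
      intro b hb c hc hbc
      rcases lt_trichotomy b c with h | h | h
      · exact absurd hbc (hmono b hb c hc h).ne
      · exact h
      · exact absurd hbc.symm (hmono c hc b hb h).ne
    obtain ⟨x, hx, y, hy, hxy, hρ⟩ := h1.unbdd (tt ρ₂ γs '' (Y \ Z))
      (fun hc => hY' (Set.countable_of_injective_of_countable_image hinj hc))
      (by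
        rintro _ ⟨c, hc, rfl⟩
        exact h2.tt_lt hκ hγΩ (hYΩ c hc.1)) ξ hξ
    obtain ⟨b, hb, rfl⟩ := hx
    obtain ⟨c, hc, rfl⟩ := hy
    have hbc : b < c := by
      rcases lt_trichotomy b c with h | h | h
      · exact h
      · rw [h] at hxy
        exact absurd hxy (lt_irrefl _)
      · exact absurd (hmono c hc b hb h) (not_lt.mpr hxy.le)
    obtain ⟨d, hd, hcd, hcdγ⟩ : ∃ d ∈ Y, c < d ∧ γs ≤ ρ₂ c d := by
      by_contra hcon
      push Not at hcon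
      exact hc.2 ⟨hc.1, hcon⟩
    have heq : ρ₂ c d = γs := le_antisymm (hYρ c hc.1 d hd hcd) hcdγ
    have := (hyp b (hYX hb.1) c (hYX hc.1) d (hYX hd) hbc hcd
      (Or.inr (Or.inl (hv₀.trans hcdγ)))).2.2 ((hYρ b hb.1 c hc.1 hbc).trans hcdγ)
    rw [heq] at this
    exact absurd hρ (not_lt.mpr this)
  · -- Case (ii)
    have hZY : Z ⊆ Y := fun c hc => hc.1
    have hZX : Z ⊆ X := hZY.trans hYX
    have hZLW : LW Z := hYLW.sub hZY hZc
    have hZρ : ∀ c ∈ Z, ∀ d ∈ Z, c < d → ρ₂ c d < γs := fun c hc d hd hcd => hc.2 d hd.1 hcd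
    have hZΩ : ∀ z ∈ Z, z < Ω₃ := fun z hz => hYΩ z hz.1
    have hucof : ∀ S : Set Ordinal.{0}, S.Countable → (∀ s ∈ S, s < γs) →
        ∃ γ < γs, ∀ s ∈ S, s ≤ γ := by
      intro S hS hSγ
      by_contra hcon
      push Not at hcon
      obtain ⟨s, hs, W, hWZ, hW, hWρ⟩ := h2.np0 Z hZLW hZΩ γs S hS
        (fun x hx => by
          obtain ⟨s, hs, h⟩ := hcon x hx
          exact ⟨s, hs, h.le⟩) hZρ
      obtain ⟨c, hc, d, hd, hcd, h⟩ := hmin s (hSγ s hs) W (hWZ.trans hZX) hW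
      exact absurd (hWρ c hc d hd hcd) (not_le.mpr h)
    have hv₀' : v₀ < γs := by
      rcases hv₀.eq_or_lt with h | h
      · obtain ⟨c, hc, d, hd, hcd, h'⟩ := hno Z hZX hZc
        rw [h] at h'
        exact absurd (hZρ c hc d hd hcd) (not_lt.mpr h')
      · exact h
    set a : Ordinal.{0} → Set Ordinal.{0} := fun d => {x | ∃ c ∈ Z, c < d ∧ x = ρ₂ c d ∧ v₀ ≤ x}
      with ha
    have hac : ∀ d ∈ Z, (a d).Countable := by
      intro d hd
      refine ((hZLW.init d hd).image fun c => ρ₂ c d).mono ?_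
      rintro x ⟨c, hc, hcd, rfl, _⟩
      exact ⟨c, ⟨hc, hcd⟩, rfl⟩
    have haγ : ∀ d ∈ Z, ∀ x ∈ a d, x < γs := by
      rintro d hd x ⟨c, hc, hcd, rfl, _⟩
      exact hZρ c hc d hd hcd
    set gam : Ordinal.{0} → Ordinal.{0} := fun d => sSup (a d) with hgam
    have hbdd : ∀ d ∈ Z, BddAbove (a d) := fun d hd => ⟨γs, fun x hx => (haγ d hd x hx).le⟩
    have hle : ∀ d ∈ Z, ∀ x ∈ a d, x ≤ gam d := fun d hd x hx => le_csSup (hbdd d hd) hx
    have hgamlt : ∀ d ∈ Z, gam d < γs := by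
      intro d hd
      obtain ⟨γ, hγ, h⟩ := hucof (a d) (hac d hd) (haγ d hd)
      exact (csSup_le' h).trans_lt hγ
    have hcnt : ∀ g < γs, {d ∈ Z | gam d ≤ g}.Countable := by
      intro g hg
      by_contra hW
      obtain ⟨c, hc, d, hd, hcd, h⟩ := hmin (max g v₀) (max_lt hg hv₀') _
        (fun d hd => hZX hd.1) hW
      rw [max_lt_iff] at h
      have := hle d hd.1 (ρ₂ c d) ⟨c, hc.1, hcd, rfl, h.2.le⟩
      exact absurd (this.trans hd.2) (not_le.mpr h.1)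
    set Z' : Set Ordinal.{0} := {d ∈ Z | (∃ c ∈ Z, c < d) ∧ ∀ c ∈ Z, c < d → gam c < gam d} with hZ'
    have hZ'Z : Z' ⊆ Z := fun d hd => hd.1
    have hZ'unc : ¬ Z'.Countable := by
      intro hc
      obtain ⟨x, hx, hx'⟩ := hZLW.bound hZ'Z hc
      obtain ⟨g, hg, hg'⟩ := hucof (gam '' (Z ∩ Set.Iic x)) ((hZLW.init_le hx).image gam) (by
        rintro _ ⟨c, hc, rfl⟩
        exact hgamlt c hc.1)
      have hne : {d ∈ Z | x < d ∧ g < gam d}.Nonempty := by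
        by_contra hcon
        rw [Set.not_nonempty_iff_eq_empty] at hcon
        apply (hZLW.above hx).unc
        refine (hcnt g hg).mono ?_
        rintro d ⟨hd, hxd⟩
        refine ⟨hd, ?_⟩
        by_contra h
        have : d ∈ {d ∈ Z | x < d ∧ g < gam d} := ⟨hd, hxd, not_le.mp h⟩
        rw [hcon] at this
        exact this
      obtain ⟨hd1, hd2, hd3⟩ := csInf_mem hne
      set d := sInf {d ∈ Z | x < d ∧ g < gam d} with hd
      have hdZ' : d ∈ Z' := by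
        refine ⟨hd1, ⟨x, hx, hd2⟩, fun c hc hcd => ?_⟩
        rcases le_or_gt c x with hcx | hcx
        · exact (hg' _ ⟨c, ⟨hc, hcx⟩, rfl⟩).trans_lt hd3
        · by_contra h
          have : c ∈ {d ∈ Z | x < d ∧ g < gam d} := ⟨hc, hcx, hd3.trans_le (not_lt.mp h)⟩
          exact absurd (csInf_le' this) (not_le.mpr hcd)
      exact absurd hd2 (not_lt.mpr (hx' d hdZ').le)
    have hZ'LW : LW Z' := hZLW.sub hZ'Z hZ'unc
    have hane : ∀ d ∈ Z', (a d).Nonempty := by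
      intro d hd
      by_contra hcon
      rw [Set.not_nonempty_iff_eq_empty] at hcon
      obtain ⟨c, hc, hcd⟩ := hd.2.1
      have := hd.2.2 c hc hcd
      simp only [hgam] at this
      rw [hcon, csSup_empty] at this
      exact not_lt_zero this
    have hchain : ∀ d ∈ Z, ∀ x ∈ a d, ∀ y ∈ a d, x ≤ y → Rel ρ₁ ξ x y := by
      rintro d hd x ⟨b, hb, hbd, rfl, hx⟩ y ⟨c, hc, hcd, rfl, hy⟩ hxy
      rcases lt_trichotomy b c with h | h | h
      · exact ((hyp b (hZX hb) c (hZX hc) d (hZX hd) h hcd (Or.inr (Or.inr hx))).2.1).rel hxy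
      · rw [h]
        exact Or.inl rfl
      · have := (hyp c (hZX hc) b (hZX hb) d (hZX hd) h hbd (Or.inr (Or.inr hy))).2.1
        exact Cmp.rel (Or.comm.mp this) hxy
    have hγsΩ := hγΩ
    have hclaim : ∀ c ∈ Z, ∀ d ∈ Z, c < d → (a c).Nonempty → gam c < gam d →
        ∃ z ∈ a d, gam c ≤ z ∧ ∃ x₀ ∈ a c, ∀ x ∈ a c, x₀ ≤ x → Rel ρ₁ ξ x z := by
      intro c hc d hd hcd hne hlt
      rcases le_or_gt (gam c) (ρ₂ c d) with hy | hy
      · obtain ⟨x₀, hx₀⟩ := hne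
        have hv : v₀ ≤ ρ₂ c d := by
          have hxle := hle c hc x₀ hx₀
          obtain ⟨_, _, _, _, h⟩ := hx₀
          exact h.trans (hxle.trans hy)
        refine ⟨ρ₂ c d, ⟨c, hc, hcd, rfl, hv⟩, hy, x₀, hx₀, ?_⟩
        rintro x hx _
        have hxle := hle c hc x hx
        obtain ⟨b, hb, hbc, rfl, hx'⟩ := hx
        exact ((hyp b (hZX hb) c (hZX hc) d (hZX hd) hbc hcd (Or.inl hx')).1).rel (hxle.trans hy)
      · obtain ⟨x₀, hx₀, hyx₀⟩ := exists_lt_of_lt_csSup hne hy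
        have hned : (a d).Nonempty := by
          by_contra hcon
          rw [Set.not_nonempty_iff_eq_empty] at hcon
          simp only [hgam] at hlt
          rw [hcon, csSup_empty] at hlt
          exact not_lt_zero hlt
        obtain ⟨z, hz, hgz⟩ := exists_lt_of_lt_csSup hned hlt
        refine ⟨z, hz, hgz.le, x₀, hx₀, ?_⟩
        intro x hx hx₀x
        have hxle := hle c hc x hx
        obtain ⟨b, hb, hbc, rfl, hx'⟩ := hx
        have heq := h2.eq_of_lt (hZΩ d hd) hbc.le hcd.le (hyx₀.trans_le hx₀x)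
        refine hchain d hd _ ⟨b, hb, hbc.trans hcd, heq.symm, hx'⟩ z hz (hxle.trans hgz.le)
    have hclaim2 : ∀ c ∈ Z, ∀ d ∈ Z, c < d → (a c).Nonempty → gam c < gam d →
        ∃ z ∈ a d, Rel ρ₁ ξ (gam c) z ∧ ∃ x₀ ∈ a c, ∀ x ∈ a c, x₀ ≤ x → Rel ρ₁ ξ x z := by
      intro c hc d hd hcd hne hlt
      obtain ⟨z, hz, hgz, x₀, hx₀, hx⟩ := hclaim c hc d hd hcd hne hlt
      refine ⟨z, hz, ?_, x₀, hx₀, hx⟩
      by_cases hmem : gam c ∈ a c
      · exact hx _ hmem (hle c hc x₀ hx₀)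
      · rcases hgz.eq_or_lt with h | h
        · exact Or.inl h
        · refine Or.inr ⟨h, ?_⟩
          have hx₀lt : x₀ < gam c := lt_of_le_of_ne (hle c hc x₀ hx₀) fun h => hmem (h ▸ hx₀)
          refine h1.closed (gam c) ξ z ((haγ d hd z hz).trans hγΩ) h ?_ ?_
          · intro h0
            rw [h0] at hx₀lt
            exact not_lt_zero hx₀lt
          · intro y hy
            obtain ⟨x, hxa, hxm⟩ := exists_lt_of_lt_csSup hne (max_lt hy hx₀lt)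
            rw [max_lt_iff] at hxm
            have hxlt : x < gam c := lt_of_le_of_ne (hle c hc x hxa) fun h => hmem (h ▸ hxa)
            refine ⟨x, hxm.1, hxlt, ?_⟩
            rcases hx x hxa hxm.2.le with h' | h'
            · rw [h'] at hxlt
              exact absurd (hxlt.trans h) (lt_irrefl _)
            · exact h'.2
    have hclaim3 : ∀ d ∈ Z', ∀ z ∈ a d, Rel ρ₁ ξ z (gam d) := by
      intro d hd z hz
      obtain ⟨e, he, hde⟩ := hZ'LW.exists_gt hd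
      have hlt : gam d < gam e := he.2.2 d hd.1 hde
      obtain ⟨z', hz', hr, x₀, hx₀, hx⟩ := hclaim2 d hd.1 e he.1 hde (hane d hd) hlt
      have hz'Ω : z' < Ω₂ := (haγ e he.1 z' hz').trans hγΩ
      have hmax : max z x₀ ∈ a d := by
        rcases max_choice z x₀ with h | h <;> rw [h] <;> assumption
      have e1 : Rel ρ₁ ξ z (max z x₀) := hchain d hd.1 z hz _ hmax (le_max_left _ _)
      have e2 : Rel ρ₁ ξ (max z x₀) z' := hx _ hmax (le_max_right _ _)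
      exact h1.rel_down hz'Ω (hle d hd.1 z hz) (h1.rel_trans hz'Ω e1 e2) hr
    have hfinal : ∀ c ∈ Z', ∀ d ∈ Z', c < d → Rel ρ₁ ξ (gam c) (gam d) := by
      intro c hc d hd hcd
      have hlt : gam c < gam d := hd.2.2 c hc.1 hcd
      obtain ⟨z, hz, hr, _⟩ := hclaim2 c hc.1 d hd.1 hcd (hane c hc) hlt
      exact h1.rel_trans ((hgamlt d hd.1).trans hγΩ) hr (hclaim3 d hd z hz)
    have hinj : Set.InjOn gam Z' := by
      intro b hb c hc hbc
      rcases lt_trichotomy b c with h | h | h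
      · exact absurd hbc (hc.2.2 b hb.1 h).ne
      · exact h
      · exact absurd hbc.symm (hb.2.2 c hc.1 h).ne
    obtain ⟨x, hx, y, hy, hxy, hρ⟩ := h1.unbdd (gam '' Z')
      (fun hc => hZ'unc (Set.countable_of_injective_of_countable_image hinj hc))
      (by
        rintro _ ⟨c, hc, rfl⟩
        exact (hgamlt c hc.1).trans hγΩ) ξ hξ
    obtain ⟨b, hb, rfl⟩ := hx
    obtain ⟨c, hc, rfl⟩ := hy
    have hbc : b < c := by
      rcases lt_trichotomy b c with h | h | h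
      · exact h
      · rw [h] at hxy
        exact absurd hxy (lt_irrefl _)
      · exact absurd (hb.2.2 c hc.1 h) (not_lt.mpr hxy.le)
    rcases hfinal b hb c hc hbc with h | h
    · rw [h] at hxy
      exact lt_irrefl _ hxy
    · exact absurd hρ (not_lt.mpr h.2)

end Pool.Agent.Lib.MP_7295f2_lc

end

section

/-!
# The start pair
-/

open Cardinal Ordinal

namespace Pool.Agent.Lib.MP_7295f2_lc

theorem LW.exists_infinite {X : Set Ordinal.{0}} (hX : LW X) :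
    ∃ A ⊆ X, A.Infinite ∧ ∃ x ∈ X, ∀ a ∈ A, a < x := by
  have hinf : X.Infinite := fun h => hX.unc h.countable
  have f := hinf.natEmbedding
  refine ⟨Set.range fun n => (f n).1, ?_, ?_, ?_⟩
  · rintro _ ⟨n, rfl⟩
    exact (f n).2
  · exact Set.infinite_range_of_injective fun m n h => f.injective (Subtype.ext h)
  · exact hX.bound (by rintro _ ⟨n, rfl⟩; exact (f n).2) (Set.countable_range _)

theorem start_pair {ρ₂ : Ordinal.{0} → Ordinal.{0} → Ordinal.{0}} {Ω₃ : Ordinal.{0}}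
    {κ : Cardinal.{0}} (h2 : IsRho2 ρ₂ Ω₃ κ) {X : Set Ordinal.{0}} (hX : LW X)
    (hXΩ : ∀ x ∈ X, x < Ω₃) :
    ∃ b ∈ X, ∃ c ∈ X, b < c ∧ {a | a ∈ X ∧ a < b ∧ ρ₂ a b ≤ ρ₂ b c}.Infinite := by
  by_contra hno
  push Not at hno
  have hno' : ∀ b ∈ X, ∀ c ∈ X, b < c → {a | a ∈ X ∧ a < b ∧ ρ₂ a b ≤ ρ₂ b c}.Finite :=
    hno
  obtain ⟨A₀, hA₀X, hA₀, x₁, hx₁, hA₀x₁⟩ := hX.exists_infinite
  set X₁ := X ∩ Set.Ioi x₁ with hX₁
  have hX₁LW : LW X₁ := hX.above hx₁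
  set M : Ordinal.{0} → Set Ordinal.{0} := fun c =>
    {μ | {a | a ∈ X ∧ a < c ∧ ρ₂ a c ≤ μ}.Infinite} with hM
  have hMne : ∀ c ∈ X₁, (M c).Nonempty := by
    intro c hc
    refine ⟨κ.ord, ?_⟩
    refine hA₀.mono ?_
    intro a ha
    have hac : a < c := (hA₀x₁ a ha).trans hc.2
    exact ⟨hA₀X ha, hac, (h2.lt c (hXΩ c hc.1) a hac.le).le⟩
  set μ : Ordinal.{0} → Ordinal.{0} := fun c => sInf (M c) with hμ
  have hμM : ∀ c ∈ X₁, μ c ∈ M c := fun c hc => csInf_mem (hMne c hc)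
  have h_i : ∀ c ∈ X₁, ∀ d ∈ X₁, c < d → ρ₂ c d < μ c := by
    intro c hc d hd hcd
    by_contra hcon
    push Not at hcon
    exact (hμM c hc) ((hno' c hc.1 d hd.1 hcd).subset fun a ha =>
      ⟨ha.1, ha.2.1, ha.2.2.trans hcon⟩)
  have h_ii : ∀ c ∈ X₁, ∀ d ∈ X₁, c < d → μ d ≤ μ c := by
    intro c hc d hd hcd
    apply csInf_le'
    have h3 : ({a | a ∈ X ∧ a < c ∧ ρ₂ a c ≤ μ c} \ {a | a ∈ X ∧ a < c ∧ ρ₂ a c ≤ ρ₂ c d}).Infinite :=
      (hμM c hc).sdiff (hno' c hc.1 d hd.1 hcd)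
    refine h3.mono ?_
    rintro a ⟨⟨ha1, ha2, ha3⟩, ha4⟩
    have ha5 : ρ₂ c d < ρ₂ a c := by
      by_contra hcon
      exact ha4 ⟨ha1, ha2, not_lt.mp hcon⟩
    refine ⟨ha1, ha2.trans hcd, ?_⟩
    rw [h2.eq_of_lt (hXΩ d hd.1) ha2.le hcd.le ha5]
    exact ha3
  obtain ⟨d₀, hd₀, hd₀'⟩ : sInf (μ '' X₁) ∈ μ '' X₁ := csInf_mem (hX₁LW.nonempty.image μ)
  set μs := sInf (μ '' X₁) with hμs
  set X₂ := X₁ ∩ Set.Ioi d₀ with hX₂
  have hX₂LW : LW X₂ := hX₁LW.above hd₀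
  have hconst : ∀ d ∈ X₂, μ d = μs := by
    intro d hd
    apply le_antisymm
    · rw [← hd₀']
      exact h_ii d₀ hd₀ d hd.1 hd.2
    · exact csInf_le' ⟨d, hd.1, rfl⟩
  have hpair : ∀ c ∈ X₂, ∀ d ∈ X₂, c < d → ρ₂ c d < μs := by
    intro c hc d hd hcd
    rw [← hconst c hc]
    exact h_i c hc.1 d hd.1 hcd
  obtain ⟨A₁, hA₁X, hA₁, d₁, hd₁, hA₁d₁⟩ := hX₂LW.exists_infinite
  obtain ⟨s, ⟨a, ⟨ha, had⟩, rfl⟩, Z, hZX, hZ, hZρ⟩ := h2.np0 X₂ hX₂LW
    (fun z hz => hXΩ z hz.1.1) μs ((fun a => ρ₂ a d₁) '' (X₂ ∩ Set.Iio d₁))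
    ((hX₂LW.init d₁ hd₁).image _) (by
      intro x hx
      have hfin : {a | a ∈ X ∧ a < d₁ ∧ ρ₂ a d₁ ≤ x}.Finite := by
        by_contra hinf
        have : x ∈ M d₁ := hinf
        have h3 : μ d₁ ≤ x := csInf_le' this
        rw [hconst d₁ hd₁] at h3
        exact absurd hx (not_lt.mpr h3)
      obtain ⟨a, ha, ha'⟩ := (hA₁.sdiff hfin).nonempty
      refine ⟨ρ₂ a d₁, ⟨a, ⟨hA₁X ha, hA₁d₁ a ha⟩, rfl⟩, ?_⟩
      by_contra hcon
      exact ha' ⟨(hA₁X ha).1.1, hA₁d₁ a ha, (not_le.mp hcon).le⟩) hpair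
  have hs : ρ₂ a d₁ < μs := hpair a ha d₁ hd₁ had
  have hZLW : LW Z := hX₂LW.sub hZX hZ
  obtain ⟨A₂, hA₂Z, hA₂, d₂, hd₂, hA₂d₂⟩ := hZLW.exists_infinite
  have h3 : ρ₂ a d₁ ∈ M d₂ := by
    refine hA₂.mono ?_
    intro b hb
    exact ⟨(hZX (hA₂Z hb)).1.1, hA₂d₂ b hb, hZρ b (hA₂Z hb) d₂ hd₂ (hA₂d₂ b hb)⟩
  have h4 : μ d₂ ≤ ρ₂ a d₁ := csInf_le' h3
  rw [hconst d₂ (hZX hd₂)] at h4
  exact absurd hs (not_lt.mpr h4)

end Pool.Agent.Lib.MP_7295f2_lc

end
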